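import Mathlib

set_option autoImplicit false

namespace Pool.Agent.Lib.MP_16ef92_ag.EL

/-- The prime `ell`, fixed throughout the proofs. -/
class Pl where
  ell : ℕ
  prime : ell.Prime

export Pl (ell)

variable [Pl]

instance ellFact : Fact ell.Prime := ⟨Pl.prime⟩

instance ellNeZero : NeZero ell := ⟨Pl.prime.ne_zero⟩

theorem ell_pos : 0 < ell := Pl.prime.pos

theorem ell_ne : ell ≠ 0 := Pl.prime.ne_zero

theorem lp_pos (n : ℕ) : 0 < ell ^ n := pow_pos ell_pos n

theorem lp_ne (n : ℕ) : ell ^ n ≠ 0 := (lp_pos n).ne'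

end Pool.Agent.Lib.MP_16ef92_ag.EL
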