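import Mathlib
import Pool.Agent.Lib.MP_751085_ag.ZC.A5a
import Pool.Agent.Lib.MP_16ef92_ag.Val
import Pool.Agent.Lib.MP_16ef92_ag.EL.GalA

set_option autoImplicit false
set_option linter.unusedSectionVars false
set_option linter.unusedVariables false

namespace Pool.Agent.Lib.MP_16ef92_ag.EL

open Polynomial
open scoped Classical

noncomputable section

variable [Pl]

variable {B Ω : Type} [Field B] [Field Ω] [Algebra B Ω]

/-- Norms of cyclic extensions of degree `ell` between fixed fields of subgroups of `H` are onto. -/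
def Nrm (H : Subgroup (Ω ≃ₐ[B] Ω)) : Prop :=
  ∀ H₁ : Subgroup (Ω ≃ₐ[B] Ω), H₁ ≤ H → ∀ g₀ ∈ H, ∀ y ζ a : Ω, IsPrimitiveRoot ζ ell → y ≠ 0 →
    g₀ y = ζ * y → (∀ h ∈ H₁, h y = y) → (∀ h ∈ H₁, h a = a) → g₀ a = a →
      ∃ b : Ω, (∀ h ∈ H₁, h b = b) ∧ ∏ i ∈ Finset.range ell, (g₀ ^ i) b = a

theorem tsen2a_cyc {k L E : Type} [Field k] [IsAlgClosed k] [Field L] [Field E] [Algebra k L]
    [Algebra L E] [Algebra k E] [IsScalarTower k L E] [FiniteDimensional L E] (τ : L)
    (hτ : ∀ z : L, ∃ p q : k[X], z = aeval τ p / aeval τ q) (σ : E ≃ₐ[L] E) (a : E)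
    (ha : σ a = a) : ∃ b : E, ∏ i ∈ Finset.range (orderOf σ), (σ ^ i) b = a := by
  let M := IntermediateField.fixedField (Subgroup.zpowers σ)
  have : IsGalois M E := IsGalois.of_fixed_field E (Subgroup.zpowers σ)
  have haM : a ∈ M := (IntermediateField.mem_fixedField_iff _ _).2 fun g hg =>
    (Subgroup.zpowers_le.2 (show σ ∈ MulAction.stabilizer _ a from ha)) hg
  let N := IntermediateField.adjoin k ({algebraMap L M τ} : Set M)
  have hN : ∀ z : L, algebraMap L M z ∈ N := fun z => by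
    obtain ⟨p, q, rfl⟩ := hτ z
    refine (IntermediateField.mem_adjoin_simple_iff k _).2 ⟨p, q, ?_⟩
    rw [map_div₀, aeval_algebraMap_apply, aeval_algebraMap_apply]
  let _ : Algebra L N := ((algebraMap L M).codRestrict N hN).toAlgebra
  have : IsScalarTower L N M := IsScalarTower.of_algebraMap_eq fun _ => rfl
  have : FiniteDimensional N M := Module.Finite.of_restrictScalars_finite L N M
  obtain ⟨b, hb⟩ := Pool.Agent.ZCy.tsen_norm (k := k) (E := E) (algebraMap L M τ) ⟨a, haM⟩
  have h1 := Algebra.norm_eq_prod_automorphisms M b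
  rw [hb, ← ((finEquivZPowers (isOfFinOrder_of_finite σ)).trans
    (IntermediateField.subgroupEquivAlgEquiv _).toEquiv).prod_comp] at h1
  exact ⟨b, (Finset.prod_range fun i => (σ ^ i) b).trans h1.symm⟩

/-- Let `L = k⟮w⟯` and `M' = L(y, a)`, finite over `L` (copy the set-up of `quad_fix` in
`ET/Tsen2a`); `ζ` comes from `k`, so `g₀` maps `M'` to itself; its restriction `σ : M' ≃ₐ[L] M'` has
order `ell` (`orderOf_eq_prime`).  Put `M = fixedField (zpowers σ)`; `M' / M` is Galois
(`IsGalois.of_fixed_field`) with group `zpowers σ` (`IntermediateField.subgroupEquivAlgEquiv`);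
apply `Pool.Agent.ZCy.tsen_norm` and `Algebra.norm_eq_prod_automorphisms`. -/
theorem nrm_of [Algebra.IsAlgebraic B Ω] {k : Type} [Field k] [IsAlgClosed k] [Algebra k Ω] (w : Ω)
    (hB : ∀ b : B, algebraMap B Ω b ∈ IntermediateField.adjoin k ({w} : Set Ω))
    (H : Subgroup (Ω ≃ₐ[B] Ω)) (hk : ∀ g ∈ H, ∀ c : k, g (algebraMap k Ω c) = algebraMap k Ω c)
    (hw : ∀ g ∈ H, g w = w) : Nrm H := by
  intro H₁ hH g₀ hg y ζ a hζ hy h0 h1 h2 h3
  let L : IntermediateField k Ω := IntermediateField.adjoin k ({w} : Set Ω)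
  have hfL : ∀ g ∈ H, ∀ z ∈ L, g z = z := by
    intro g hg z hz
    obtain ⟨p, q, rfl⟩ := (IntermediateField.mem_adjoin_simple_iff k z).1 hz
    have e : ∀ p : k[X], g (aeval w p) = aeval w p := fun p => by
      simp only [aeval_eq_sum_range, map_sum, Algebra.smul_def, map_mul, map_pow, hk g hg, hw g hg]
    rw [map_div₀, e, e]
  let _ : Algebra B L := ((algebraMap B Ω).codRestrict L hB).toAlgebra
  have : IsScalarTower B L Ω := IsScalarTower.of_algebraMap_eq fun _ => rfl
  let M : IntermediateField L Ω := IntermediateField.adjoin L {y, a}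
  have : FiniteDimensional L M := IntermediateField.finiteDimensional_adjoin fun z _ =>
    (Algebra.IsIntegral.isIntegral (R := B) z).tower_top
  have hyM : y ∈ M := IntermediateField.subset_adjoin L _ (by simp)
  have haM : a ∈ M := IntermediateField.subset_adjoin L _ (by simp)
  have hfM : ∀ g : Ω ≃ₐ[B] Ω, g ∈ H → g y = y → g a = a → ∀ z ∈ M, g z = z := by
    intro g hg e1 e2 z hz
    induction hz using IntermediateField.adjoin_induction with
    | mem x hx => rcases hx with rfl | rfl <;> assumption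
    | algebraMap x => exact hfL g hg x x.2
    | add x y _ _ h1 h2 => rw [map_add, h1, h2]
    | inv x _ h1 => rw [map_inv₀, h1]
    | mul x y _ _ h1 h2 => rw [map_mul, h1, h2]
  have hi : IsIntegral k ζ := IsIntegral.of_pow ell_pos (hζ.pow_eq_one ▸ isIntegral_one)
  obtain ⟨c, hc⟩ := minpoly.mem_range_of_degree_eq_one k ζ
    (IsAlgClosed.degree_eq_one_of_irreducible k (minpoly.irreducible hi))
  have hζM : ζ ∈ M := hc ▸ M.algebraMap_mem (algebraMap k L c)
  let G : Ω →ₐ[L] Ω := ⟨(g₀ : Ω →+* Ω), fun z => hfL g₀ hg z z.2⟩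
  have hGM : ∀ z ∈ M, G z ∈ M := by
    intro z hz
    induction hz using IntermediateField.adjoin_induction with
    | mem x hx =>
      rcases hx with rfl | rfl
      · exact (show g₀ x ∈ M from h0 ▸ mul_mem hζM hyM)
      · exact (show g₀ x ∈ M from h3.symm ▸ haM)
    | algebraMap x => rw [G.commutes]; exact M.algebraMap_mem x
    | add x y _ _ h1 h2 => rw [map_add]; exact add_mem h1 h2
    | inv x _ h1 => rw [map_inv₀]; exact inv_mem h1
    | mul x y _ _ h1 h2 => rw [map_mul]; exact mul_mem h1 h2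
  let G' : M →ₐ[L] M := (G.comp M.val).codRestrict M.toSubalgebra fun z => hGM z z.2
  let σ : M ≃ₐ[L] M := AlgEquiv.ofBijective G' (Algebra.IsAlgebraic.algHom_bijective G')
  have hσ : ∀ (i : ℕ) (z : M), ((σ ^ i) z : Ω) = (g₀ ^ i) z := by
    intro i
    induction i with
    | zero => intro z; rfl
    | succ i ih => intro z; rw [pow_succ, pow_succ, AlgEquiv.mul_apply, ih]; rfl
  have hp : ∀ i : ℕ, (g₀ ^ i) y = ζ ^ i * y ∧ (g₀ ^ i) a = a := by
    intro i
    induction i with
    | zero => simp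
    | succ i ih =>
      rw [pow_succ', AlgEquiv.mul_apply, AlgEquiv.mul_apply, ih.1, ih.2, map_mul, map_pow, h0, h3,
        ← hc, hk g₀ hg, pow_succ, mul_assoc]
      exact ⟨rfl, rfl⟩
  have ho : orderOf σ = ell := by
    refine orderOf_eq_prime (AlgEquiv.ext fun z => Subtype.ext ?_) fun e => ?_
    · rw [hσ]
      exact hfM _ (pow_mem hg _) (by rw [(hp _).1, hζ.pow_eq_one, one_mul]) (hp _).2 z z.2
    · have e1 : g₀ y = y := congrArg Subtype.val (AlgEquiv.congr_fun e ⟨y, hyM⟩)
      rw [h0, mul_left_eq_self₀] at e1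
      exact hζ.ne_one Pl.prime.one_lt (e1.resolve_right hy)
  obtain ⟨b, hb⟩ := tsen2a_cyc (k := k) (IntermediateField.AdjoinSimple.gen k w) (fun z => by
    obtain ⟨p, q, e⟩ := (IntermediateField.mem_adjoin_simple_iff k z.1).1 z.2
    refine ⟨p, q, (algebraMap L Ω).injective ?_⟩
    rw [map_div₀, ← aeval_algebraMap_apply, ← aeval_algebraMap_apply]
    exact e) σ ⟨a, haM⟩ (Subtype.ext h3)
  refine ⟨b, fun h hh => hfM h (hH hh) (h1 h hh) (h2 h hh) b b.2, ?_⟩
  have e := congrArg (algebraMap M Ω) hb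
  rw [map_prod, ho] at e
  exact (Finset.prod_congr rfl fun i _ => (hσ i b).symm).trans e

theorem nrm_geo {F : Type} [Field F] [Clos F] [Fintype F] : Nrm (Geo F) :=
  nrm_of (k := kk F) (tt F)
    (fun a => fix_kf (IntermediateField.mem_adjoin_simple_self (kk F) _) fun g _ _ => g.commutes a)
    _ (fun g hg c => geo_kf hg (gam_tt g) (IntermediateField.algebraMap_mem _ c))
    fun g _ => gam_tt g

end

end Pool.Agent.Lib.MP_16ef92_ag.EL
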