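import Mathlib
import Pool.Agent.Lib.MP_16ef92_ag.EL.Pl

set_option autoImplicit false
set_option linter.unusedSectionVars false
set_option linter.unusedVariables false

namespace Pool.Agent.Lib.MP_16ef92_ag.EL

open Polynomial
open scoped Classical

noncomputable section

variable [Pl]

theorem tsen2b_alg {A : Type} [CommGroup A] {x1 x2 x3 x4 x5 x6 x7 x8 x9 x10 y1 y2 y3 : A}
    (h1 : x1 * x2 = x3 * x4) (h2 : x5 * x6 = x7 * x4) (h3 : x8 * x6 = x9 * x10)
    (h4 : x9 * y1 = y2 * y3) : x1 * (x2 / x10 * y1) = x5 / x8 * y2 * (x3 / x7 * y3) := by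
  obtain rfl := eq_div_of_mul_eq' h1
  obtain rfl := eq_div_of_mul_eq' h2
  obtain rfl := eq_div_of_mul_eq' h3
  obtain rfl := eq_div_of_mul_eq' h4.symm
  apply Additive.ofMul.injective
  simp only [ofMul_mul, ofMul_div]
  abel

theorem tsen2b_pow {A : Type} [CommGroup A] {n m : ℕ} (hA : ∀ a : A, a ^ ell ^ n = 1)
    (hm : m.Coprime ell) : ∃ k, ∀ a : A, (a ^ m) ^ k = a := by
  have h : (m ^ (ell ^ n).totient) ≡ 1 [MOD ell ^ n] :=
    Nat.ModEq.pow_totient (Nat.Coprime.pow_right n hm)
  refine ⟨m ^ ((ell ^ n).totient - 1), fun a => ?_⟩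
  rw [← pow_mul, ← pow_succ', Nat.sub_add_cancel (Nat.totient_pos.2 (by first | exact lp_pos _ | exact lp_ne _ | positivity)),
    pow_eq_pow_mod _ (hA a), h, ← pow_eq_pow_mod _ (hA a), pow_one]

/-- Gaschuetz averaging: a 2-cocycle that is a coboundary on a subgroup of index prime to `ell` is a
coboundary.  Here `N` is a normal subgroup recording continuity.  For `q : G ⧸ P` with representative
`t q = q.out` put `p g q = (t (g • q))⁻¹ * g * t q ∈ P` and
`β g q = c g (t q) / c (t (g • q)) (p g q) * b (p g q)`.  Three uses of `hc` and one of `hb` give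
`c g h * β (g * h) q = β g (h • q) * β h q`; take the product over `q` and the power `k` with
`P.index * k ≡ 1` mod `ell ^ n`.  For `h ∈ N`: `h • q = q`, `p (g * h) q = p g q * ((t q)⁻¹ * h * t q)`. -/
theorem gaschutz {G A : Type} [Group G] [CommGroup A] {n : ℕ} (hA : ∀ a : A, a ^ ell ^ n = 1)
    (P N : Subgroup G) [N.Normal] (hN : N ≤ P) (hP : P.index.Coprime ell) (c : G → G → A)
    (hc : ∀ g h l, c g h * c (g * h) l = c h l * c g (h * l))
    (hcN : ∀ h ∈ N, ∀ g l, c (g * h) l = c g l ∧ c g (l * h) = c g l) (b : G → A)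
    (hb : ∀ g ∈ P, ∀ h ∈ P, c g h * b (g * h) = b g * b h)
    (hbN : ∀ h ∈ N, ∀ g ∈ P, b (g * h) = b g) :
    ∃ b' : G → A, (∀ g h, c g h * b' (g * h) = b' g * b' h) ∧ ∀ h ∈ N, ∀ g, b' (g * h) = b' g :=
  by
  have : Finite (G ⧸ P) := Nat.finite_of_card_ne_zero fun e => Pl.prime.ne_one (by
    rwa [show P.index = 0 from e, Nat.coprime_zero_left] at hP)
  let _ := Fintype.ofFinite (G ⧸ P)
  obtain ⟨k, hk⟩ := tsen2b_pow hA hP
  have e0 : ∀ (g : G) (q : G ⧸ P), g • q = ((g * q.out : G) : G ⧸ P) := fun g q => by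
    conv_lhs => rw [← q.out_eq']
    rfl
  let p : G → G ⧸ P → G := fun g q => (g • q).out⁻¹ * (g * q.out)
  have hp : ∀ g q, p g q ∈ P := fun g q =>
    QuotientGroup.eq.1 ((QuotientGroup.out_eq' _).trans (e0 g q))
  let β : G → G ⧸ P → A := fun g q => c g q.out / c (g • q).out (p g q) * b (p g q)
  have h1 : ∀ g h q, c g h * β (g * h) q = β g (h • q) * β h q := fun g h q => by
    have e1 : p (g * h) q = p g (h • q) * p h q := by
      simp only [p, mul_smul]
      group
    have e2 : (h • q).out * p h q = h * q.out := by simp only [p]; group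
    have e3 : (g • h • q).out * p g (h • q) = g * (h • q).out := by simp only [p]; group
    have a2 := hc g (h • q).out (p h q)
    have a3 := hc (g • h • q).out (p g (h • q)) (p h q)
    rw [e2] at a2
    rw [e3] at a3
    simp only [β]
    rw [e1, mul_smul]
    exact tsen2b_alg (hc g h q.out) a2 a3 (hb _ (hp _ _) _ (hp _ _))
  have h2 : ∀ h ∈ N, ∀ g q, β (g * h) q = β g q := fun h hh g q => by
    have hn : q.out⁻¹ * h * q.out ∈ N := Subgroup.Normal.conj_mem' inferInstance h hh _
    have e1 : h • q = q := by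
      rw [e0]
      refine Eq.trans (QuotientGroup.eq.2 ?_).symm q.out_eq'
      rw [← mul_assoc]
      exact hN hn
    have e2 : p (g * h) q = p g q * (q.out⁻¹ * h * q.out) := by
      simp only [p, mul_smul, e1]
      group
    simp only [β]
    rw [e2, mul_smul, e1, (hcN h hh _ _).1, (hcN _ hn _ _).2, hbN _ hn _ (hp _ _)]
  refine ⟨fun g => (∏ q, β g q) ^ k, fun g h => ?_, fun h hh g => ?_⟩
  · have e1 : ∏ q, β g (h • q) = ∏ q, β g q := Equiv.prod_comp (MulAction.toPerm h) (β g)
    have e2 : ∏ _q : G ⧸ P, c g h = c g h ^ P.index := by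
      rw [Finset.prod_const, Finset.card_univ, Subgroup.index, Nat.card_eq_fintype_card]
    conv_lhs => rw [← hk (c g h)]
    rw [← mul_pow, ← mul_pow, ← e1, ← e2, ← Finset.prod_mul_distrib, ← Finset.prod_mul_distrib]
    simp only [h1]
  · simp only [h2 h hh]

end

end Pool.Agent.Lib.MP_16ef92_ag.EL
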