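import Mathlib
import Pool.Agent.Lib.MP_16ef92_ag.EL.Pl

set_option autoImplicit false
set_option linter.unusedSectionVars false
set_option linter.unusedVariables false

namespace Pool.Agent.Lib.MP_16ef92_ag.EL

open scoped Classical

noncomputable section

variable [Pl]

/-- A section of an extension on `H` extends to `H'` when `H' / H` is cyclic of order `ell`.
Model: `ext_step` in `Ext.lean` (the case of index 2).  As there find `u` over `g₀` with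
`u * s (g₀⁻¹ * h * g₀) = s h * u`; write `u ^ ell = i a * s (g₀ ^ ell)`; `a` is fixed by `H` and
`g₀`; with `b` from `hN a⁻¹` the element `v = i b * u` has `v ^ ell = s (g₀ ^ ell)`
(`(i b * u) ^ j = i (∏ k < j, g₀ ^ k • b) * u ^ j`).  The elements `v ^ k * s h` (`k : ℤ`, `h ∈ H`) form
a subgroup on which `p` is injective with image `H'`; `s'` is the inverse. -/
theorem ext_stepL {G A E : Type} [Group G] [CommGroup A] [Group E] [MulDistribMulAction G A]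
    (p : E →* G) (i : A →* E) (hi : Function.Injective i)
    (hker : ∀ e, p e = 1 → ∃ b, e = i b) (hp : ∀ b, p (i b) = 1)
    (hconj : ∀ e b, e * i b = i (p e • b) * e)
    (H H' : Subgroup G) (χ : G → ZMod ell) (hχ : ∀ g ∈ H', ∀ h ∈ H', χ (g * h) = χ g + χ h)
    (hH : ∀ g, g ∈ H ↔ g ∈ H' ∧ χ g = 0) (g₀ : G) (hg₀ : g₀ ∈ H') (h1 : χ g₀ = 1)
    (u₀ : E) (hu₀ : p u₀ = g₀) (s : G → E)
    (hs : ∀ h ∈ H, p (s h) = h) (hm : ∀ g ∈ H, ∀ h ∈ H, s (g * h) = s g * s h)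
    (h90 : ∀ z : G → A, (∀ h ∈ H, u₀ * s (g₀⁻¹ * h * g₀) = i (z h) * s h * u₀) →
      (∀ g ∈ H, ∀ h ∈ H, z (g * h) = z g * g • z h) → ∃ b, ∀ h ∈ H, h • b = z h * b)
    (hN : ∀ a : A, (∀ h ∈ H, h • a = a) → g₀ • a = a →
      ∃ b, (∀ h ∈ H, h • b = b) ∧ ∏ j ∈ Finset.range ell, g₀ ^ j • b = a) :
    ∃ s' : G → E, (∀ h ∈ H, s' h = s h) ∧ (∀ g ∈ H', p (s' g) = g) ∧
      ∀ g ∈ H', ∀ h ∈ H', s' (g * h) = s' g * s' h := by
  have hle : ∀ h ∈ H, h ∈ H' := fun h hh => ((hH h).1 hh).1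
  have c1 : χ 1 = 0 := ((hH 1).1 H.one_mem).2
  have ci : ∀ g ∈ H', χ g⁻¹ = -χ g := fun g hg =>
    eq_neg_of_add_eq_zero_left (by rw [← hχ _ (H'.inv_mem hg) _ hg, inv_mul_cancel, c1])
  have cp : ∀ k : ℕ, χ (g₀ ^ k) = k := fun k => by
    induction k with
    | zero => rw [pow_zero, c1, Nat.cast_zero]
    | succ k ih => rw [pow_succ, hχ _ (H'.pow_mem hg₀ k) _ hg₀, ih, h1, Nat.cast_succ]
  have hd : ∀ g ∈ H', ∀ g' ∈ H', χ g = χ g' → g⁻¹ * g' ∈ H := fun g hg g' hg' e =>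
    (hH _).2 ⟨H'.mul_mem (H'.inv_mem hg) hg', by
      rw [hχ _ (H'.inv_mem hg) _ hg', ci g hg, e, neg_add_cancel]⟩
  have hc' : ∀ g ∈ H', ∀ h ∈ H, g⁻¹ * h * g ∈ H := fun g hg h hh => by
    rw [mul_assoc]
    exact hd g hg _ (H'.mul_mem (hle h hh) hg) (by
      rw [hχ _ (hle h hh) _ hg, ((hH h).1 hh).2, zero_add])
  have hc := hc' g₀ hg₀
  have h2 : g₀ ^ ell ∈ H := (hH _).2 ⟨H'.pow_mem hg₀ _, (cp _).trans (ZMod.natCast_self _)⟩
  have hpow : ∀ w : E, (∀ h ∈ H, w * s (g₀⁻¹ * h * g₀) = s h * w) → ∀ k : ℕ, ∀ h ∈ H,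
      w ^ k * s ((g₀ ^ k)⁻¹ * h * g₀ ^ k) = s h * w ^ k := fun w hw k h hh => by
    induction k with
    | zero => simp
    | succ k ih =>
      have e : (g₀ ^ (k + 1))⁻¹ * h * g₀ ^ (k + 1) = g₀⁻¹ * ((g₀ ^ k)⁻¹ * h * g₀ ^ k) * g₀ := by
        group
      rw [e, pow_succ, mul_assoc, hw _ (hc' _ (H'.pow_mem hg₀ k) h hh), ← mul_assoc, ih, mul_assoc]
  have hz : ∀ h, ∃ z : A, h ∈ H → u₀ * s (g₀⁻¹ * h * g₀) = i z * s h * u₀ := by
    intro h
    by_cases hh : h ∈ H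
    · obtain ⟨b, hb⟩ := hker (u₀ * s (g₀⁻¹ * h * g₀) * u₀⁻¹ * (s h)⁻¹) (by
        simp only [map_mul, map_inv, hu₀, hs _ hh, hs _ (hc _ hh)]
        group)
      exact ⟨b, fun _ => by rw [← hb]; group⟩
    · exact ⟨1, fun h' => (hh h').elim⟩
  choose z hz using hz
  obtain ⟨b, hb⟩ := h90 z hz (by
    intro g hg h hh
    have h1 := hz _ (H.mul_mem hg hh)
    have e : g₀⁻¹ * (g * h) * g₀ = g₀⁻¹ * g * g₀ * (g₀⁻¹ * h * g₀) := by group
    rw [e, hm _ (hc _ hg) _ (hc _ hh), ← mul_assoc, hz g hg, mul_assoc, hz h hh, hm g hg h hh] at h1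
    have h3 := hconj (s g) (z h)
    rw [hs g hg] at h3
    apply hi
    rw [map_mul]
    apply mul_right_cancel (b := s g * s h * u₀)
    calc i (z (g * h)) * (s g * s h * u₀) = i (z g) * (s g * i (z h)) * s h * u₀ := by
          rw [← mul_assoc, ← h1]; group
      _ = _ := by rw [h3]; group)
  have hu : ∀ h ∈ H, i b * u₀ * s (g₀⁻¹ * h * g₀) = s h * (i b * u₀) := by
    intro h hh
    rw [mul_assoc, hz h hh, ← mul_assoc (s h), hconj, hs h hh, hb h hh, mul_comm (z h), map_mul]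
    group
  have hpu : p (i b * u₀) = g₀ := by rw [map_mul, hp, hu₀, one_mul]
  generalize i b * u₀ = u at hu hpu
  obtain ⟨a, ha⟩ := hker (u ^ ell * (s (g₀ ^ ell))⁻¹) (by
    rw [map_mul, map_inv, map_pow, hpu, hs _ h2, mul_inv_cancel])
  have ha' : u ^ ell = i a * s (g₀ ^ ell) := by rw [← ha, inv_mul_cancel_right]
  obtain ⟨b', hb1, hb2⟩ := hN a⁻¹ (by
    intro h hh
    have h3 := hpow u hu ell h hh
    rw [ha', ← mul_assoc, hconj, hs h hh, mul_assoc, ← hm _ h2 _ (hc' _ (hle _ h2) h hh),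
      mul_assoc (i _), ← hm h hh _ h2, mul_assoc, mul_inv_cancel_left] at h3
    rw [smul_inv', ← hi (mul_right_cancel h3)]) (by
    have h3 := (pow_succ' u ell).symm.trans (pow_succ u ell)
    have h4 := hu _ h2
    have e : g₀⁻¹ * g₀ ^ ell * g₀ = g₀ ^ ell := by group
    rw [e] at h4
    rw [ha', ← mul_assoc, hconj, hpu, mul_assoc, h4, mul_assoc] at h3
    rw [smul_inv', hi (mul_right_cancel h3)])
  have hv : ∀ h ∈ H, i b' * u * s (g₀⁻¹ * h * g₀) = s h * (i b' * u) := by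
    intro h hh
    rw [mul_assoc, hu h hh, ← mul_assoc (s h), hconj, hs h hh, hb1 h hh, mul_assoc]
  have hpv : p (i b' * u) = g₀ := by rw [map_mul, hp, hpu, one_mul]
  have hj : ∀ j : ℕ, (i b' * u) ^ j = i (∏ k ∈ Finset.range j, g₀ ^ k • b') * u ^ j := fun j => by
    induction j with
    | zero => simp
    | succ j ih =>
      rw [pow_succ, ih, Finset.prod_range_succ, map_mul, mul_assoc, ← mul_assoc (u ^ j), hconj,
        map_pow, hpu, pow_succ u]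
      simp only [mul_assoc]
  have hv2 : (i b' * u) ^ ell = s (g₀ ^ ell) := by
    rw [hj, hb2, ha', map_inv, inv_mul_cancel_left]
  generalize i b' * u = v at hv hpv hv2
  have hk : ∀ g ∈ H', ∀ k : ℕ, (k : ZMod ell) = χ g → (g₀ ^ k)⁻¹ * g ∈ H := fun g hg k e =>
    hd _ (H'.pow_mem hg₀ k) g hg ((cp k).trans e)
  have per : ∀ g ∈ H', ∀ k m : ℕ, (k : ZMod ell) = χ g →
      v ^ (k + ell * m) * s ((g₀ ^ (k + ell * m))⁻¹ * g) = v ^ k * s ((g₀ ^ k)⁻¹ * g) := by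
    intro g hg k m e
    induction m with
    | zero => rfl
    | succ m ih =>
      rw [← ih, Nat.mul_succ, ← add_assoc, pow_add v, hv2, mul_assoc,
        ← hm _ h2 _ (hk g hg _ (by simp [e]))]
      congr 2
      group
  refine ⟨fun g => v ^ (χ g).val * s ((g₀ ^ (χ g).val)⁻¹ * g), fun h hh => ?_, fun g hg => ?_,
    fun g hg h hh => ?_⟩
  · simp [((hH h).1 hh).2]
  · rw [map_mul, map_pow, hpv, hs _ (hk g hg _ (ZMod.natCast_zmod_val _)), mul_inv_cancel_left]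
  · have k1 := hk g hg _ (ZMod.natCast_zmod_val _)
    have k2 := hk h hh _ (ZMod.natCast_zmod_val _)
    beta_reduce
    rw [← per _ (H'.mul_mem hg hh) _ (((χ g).val + (χ h).val) / ell) (ZMod.natCast_zmod_val _),
      hχ g hg h hh, ZMod.val_add, Nat.mod_add_div, mul_assoc, ← mul_assoc (s _),
      ← hpow v hv _ _ k1, mul_assoc, ← hm _ (hc' _ (H'.pow_mem hg₀ _) _ k1) _ k2, pow_add v,
      mul_assoc]
    congr 3
    group

/-- In an `ell`-group a subgroup of index `ell` is normal (`Subgroup.normal_of_index_eq_minFac_card`)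
with quotient `ZMod ell` (`mulEquivOfPrimeCardEq`). -/
theorem exists_chi {G : Type} [Group G] {K K' : Subgroup G} {i : ℕ} (hK : Nat.card K = ell ^ i)
    (hK' : Nat.card K' = ell ^ (i + 1)) (hle : K ≤ K') :
    ∃ χ : G → ZMod ell, (∀ g ∈ K', ∀ h ∈ K', χ (g * h) = χ g + χ h) ∧
      (∀ g, g ∈ K ↔ g ∈ K' ∧ χ g = 0) ∧ ∃ g₀ ∈ K', χ g₀ = 1 := by
  let N := K.subgroupOf K'
  have h1 : N.index = ell := by
    have h := N.card_mul_index
    rw [Nat.card_congr (Subgroup.subgroupOfEquivOfLe hle).toEquiv, hK, hK', pow_succ] at h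
    exact mul_left_cancel₀ (lp_ne i) h
  have : N.Normal := Subgroup.normal_of_index_eq_minFac_card
    (by rw [h1, hK', Pl.prime.pow_minFac i.succ_ne_zero])
  let e : (K' ⧸ N) ≃* Multiplicative (ZMod ell) := mulEquivOfPrimeCardEq h1 (by simp)
  let χ : G → ZMod ell := fun g => if hg : g ∈ K' then (e (QuotientGroup.mk ⟨g, hg⟩)).toAdd else 0
  have hχ : ∀ g : K', χ g = (e g).toAdd := fun g => dif_pos g.2
  refine ⟨χ, fun g hg h hh => ?_, fun g => ?_, ?_⟩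
  · rw [hχ ⟨g, hg⟩, hχ ⟨h, hh⟩, ← toAdd_mul, ← map_mul]
    exact hχ (⟨g, hg⟩ * ⟨h, hh⟩)
  · have h2 : ∀ hg : g ∈ K', χ g = 0 ↔ g ∈ K := fun hg => by
      rw [hχ ⟨g, hg⟩, toAdd_eq_zero, map_eq_one_iff _ e.injective, QuotientGroup.eq_one_iff]
      rfl
    exact ⟨fun h => ⟨hle h, (h2 (hle h)).2 h⟩, fun h => (h2 h.1).1 h.2⟩
  · obtain ⟨g, hg⟩ := QuotientGroup.mk_surjective (e.symm (Multiplicative.ofAdd 1))
    exact ⟨g, g.2, by rw [hχ, hg, e.apply_symm_apply, toAdd_ofAdd]⟩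

end

end Pool.Agent.Lib.MP_16ef92_ag.EL
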