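import Mathlib
import Pool.Agent.Lib.MP_16ef92_ag.EL.GalB
import Pool.Agent.Lib.MP_16ef92_ag.EL.Tsen2a
import Pool.Agent.Lib.MP_16ef92_ag.EL.Tsen2b
import Pool.Agent.Lib.MP_16ef92_ag.EL.Tsen2c

set_option autoImplicit false
set_option linter.unusedSectionVars false
set_option linter.unusedVariables false

namespace Pool.Agent.Lib.MP_16ef92_ag.EL

open Polynomial
open scoped Classical

noncomputable section

variable [Pl]

variable {B Ω : Type} [Field B] [Field Ω] [Algebra B Ω]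

instance uAct : MulDistribMulAction (Ω ≃ₐ[B] Ω) Ωˣ := inferInstance

instance uAct' : MulAction (Ω ≃ₐ[B] Ω) Ωˣ := uAct.toMulAction

instance uAct'' : SMul (Ω ≃ₐ[B] Ω) Ωˣ := uAct.toSMul

/-- A normalised 2-cocycle on `G` with invariant values, trivial near the identity. -/
structure Co (G : Subgroup (Ω ≃ₐ[B] Ω)) where
  c : (Ω ≃ₐ[B] Ω) → (Ω ≃ₐ[B] Ω) → Ωˣ
  fix : ∀ g ∈ G, ∀ h ∈ G, ∀ l ∈ G, l • c g h = c g h
  assoc : ∀ g ∈ G, ∀ h ∈ G, ∀ l ∈ G, c g h * c (g * h) l = c h l * c g (h * l)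
  one : ∀ g ∈ G, c g 1 = 1 ∧ c 1 g = 1
  near : Near fun h => h ∈ G → ∀ g ∈ G, c g h = 1 ∧ c h g = 1

variable {G : Subgroup (Ω ≃ₐ[B] Ω)}

/-- The extension attached to a cocycle. -/
@[ext] structure Co.Ex (C : Co G) where
  a : Ωˣ
  g : G

instance (C : Co G) : Mul C.Ex :=
  ⟨fun x y => ⟨x.a * (x.g : Ω ≃ₐ[B] Ω) • y.a * C.c x.g y.g, x.g * y.g⟩⟩

instance (C : Co G) : One C.Ex := ⟨⟨1, 1⟩⟩

instance (C : Co G) : Inv C.Ex :=
  ⟨fun x => ⟨((x.g⁻¹ : G) : Ω ≃ₐ[B] Ω) • x.a⁻¹ * (C.c (x.g⁻¹ : G) x.g)⁻¹, x.g⁻¹⟩⟩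

theorem Co.Ex.mul_a {C : Co G} (x y : C.Ex) :
    (x * y).a = x.a * (x.g : Ω ≃ₐ[B] Ω) • y.a * C.c x.g y.g := rfl

theorem Co.Ex.mul_g {C : Co G} (x y : C.Ex) : (x * y).g = x.g * y.g := rfl

instance (C : Co G) : Group C.Ex :=
  Group.ofLeftAxioms
    (fun x y z => by
      refine Co.Ex.ext ?_ (mul_assoc _ _ _)
      have := C.assoc _ x.g.2 _ y.g.2 _ z.g.2
      simp only [Co.Ex.mul_a, Co.Ex.mul_g, smul_mul', C.fix _ y.g.2 _ z.g.2 _ x.g.2,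
        Subgroup.coe_mul, mul_smul]
      calc _ = x.a * (x.g : Ω ≃ₐ[B] Ω) • y.a * (x.g : Ω ≃ₐ[B] Ω) • (y.g : Ω ≃ₐ[B] Ω) • z.a *
            (C.c x.g y.g * C.c (x.g * y.g) z.g) := by
            simp only [mul_assoc, mul_comm, mul_left_comm]
        _ = _ := by
            rw [this]
            simp only [mul_assoc, mul_comm, mul_left_comm])
    (fun x => by
      refine Co.Ex.ext ?_ (one_mul _)
      change 1 * (1 : Ω ≃ₐ[B] Ω) • x.a * C.c 1 x.g = x.a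
      rw [(C.one _ x.g.2).2, one_smul, one_mul, mul_one])
    (fun x => by
      refine Co.Ex.ext ?_ (inv_mul_cancel _)
      change ((x.g⁻¹ : G) : Ω ≃ₐ[B] Ω) • x.a⁻¹ * (C.c (x.g⁻¹ : G) x.g)⁻¹ *
        ((x.g⁻¹ : G) : Ω ≃ₐ[B] Ω) • x.a * C.c (x.g⁻¹ : G) x.g = 1
      rw [smul_inv', mul_right_comm _ _ (_ • _), inv_mul_cancel, one_mul, inv_mul_cancel])

/-- A splitting of the cocycle on the subgroup `H`. -/
def Co.Sec (C : Co G) (H : Subgroup (Ω ≃ₐ[B] Ω)) : Prop :=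
  ∃ a : (Ω ≃ₐ[B] Ω) → Ω, (∀ g ∈ H, a g ≠ 0) ∧
    (∀ g ∈ H, ∀ h ∈ H, a (g * h) = a g * g (a h) * C.c g h) ∧
    Near fun g => g ∈ H → a g = 1

theorem Co.step [IsSepClosed Ω] [Algebra.IsAlgebraic B Ω] (h2 : (ell : Ω) ≠ 0)
    (hR : ∀ g ∈ G, Ru g) (hQ : Nrm G) (C : Co G) (H H' : Subgroup (Ω ≃ₐ[B] Ω)) (hG : H' ≤ G)
    (hn : Near fun g => g ∈ G → g ∈ H) (χ : (Ω ≃ₐ[B] Ω) → ZMod ell)
    (hχ : ∀ g ∈ H', ∀ h ∈ H', χ (g * h) = χ g + χ h) (hH : ∀ g, g ∈ H ↔ g ∈ H' ∧ χ g = 0)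
    (g₀ : Ω ≃ₐ[B] Ω) (hg₀ : g₀ ∈ H') (h0 : χ g₀ = 1) (hS : C.Sec H) : C.Sec H' := by
  obtain ⟨a, ha0, ham, han⟩ := hS
  have hle : H ≤ H' := fun g hg => ((hH g).1 hg).1
  have hc : ∀ h ∈ H, g₀⁻¹ * h * g₀ ∈ H := fun h hh => by
    have h3 := H'.mul_mem (H'.mul_mem (H'.inv_mem hg₀) (hle hh)) hg₀
    refine (hH _).2 ⟨h3, ?_⟩
    have h4 := hχ _ hg₀ _ h3
    rw [← mul_assoc, ← mul_assoc, mul_inv_cancel, one_mul, hχ _ (hle hh) _ hg₀,
      ((hH h).1 hh).2, zero_add] at h4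
    exact left_eq_add.1 h4
  let p : C.Ex →* (Ω ≃ₐ[B] Ω) := MonoidHom.mk' (fun x => x.g) fun _ _ => rfl
  let i : Ωˣ →* C.Ex := MonoidHom.mk' (fun b => ⟨b, 1⟩) fun b b' => by
    refine Co.Ex.ext ?_ (one_mul _).symm
    change b * b' = b * (1 : Ω ≃ₐ[B] Ω) • b' * C.c 1 1
    rw [(C.one _ (one_mem _)).2, one_smul, mul_one]
  let s : (Ω ≃ₐ[B] Ω) → C.Ex := fun g =>
    if h : g ∈ H then ⟨Units.mk0 _ (ha0 g h), ⟨g, hG (hle h)⟩⟩ else 1
  have hs : ∀ g (h : g ∈ H), s g = ⟨Units.mk0 _ (ha0 g h), ⟨g, hG (hle h)⟩⟩ :=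
    fun g h => dif_pos h
  have : NeZero (ell : Ω) := ⟨h2⟩
  obtain ⟨ζ, hζ⟩ := HasEnoughRootsOfUnity.exists_primitiveRoot Ω ell
  obtain ⟨y, hy0, hy⟩ := hilbert90 H' (fun g => ζ ^ (χ g).val)
    (fun g _ => pow_ne_zero _ (hζ.ne_zero ell_ne)) (by
      intro g hg h hh
      rw [map_pow, hR g (hG hg) 1 ζ (by rw [pow_one, hζ.pow_eq_one]), ← pow_add, hχ g hg h hh,
        ZMod.val_add, ← pow_eq_pow_mod _ hζ.pow_eq_one])
    (hn.mono fun g hg hg' => by rw [((hH g).1 (hg (hG hg'))).2, ZMod.val_zero, pow_zero])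
  have hy1 : ∀ g ∈ H, g y = y := fun g hg => by
    rw [hy g (hle hg), ((hH g).1 hg).2, ZMod.val_zero, pow_zero, one_mul]
  have hy2 : g₀ y = ζ * y := by
    have : Fact (1 < ell) := ⟨Pl.prime.one_lt⟩
    rw [hy g₀ hg₀, h0, ZMod.val_one, pow_one]
  obtain ⟨s', e1, e2, e3⟩ := ext_stepL p i (fun b b' e => congrArg Co.Ex.a e)
    (fun e he => ⟨e.a, Co.Ex.ext rfl (Subtype.ext he)⟩) (fun _ => rfl) (by
      intro e b
      refine Co.Ex.ext ?_ ((mul_one _).trans (one_mul _).symm)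
      change e.a * (e.g : Ω ≃ₐ[B] Ω) • b * C.c e.g 1 =
        (e.g : Ω ≃ₐ[B] Ω) • b * (1 : Ω ≃ₐ[B] Ω) • e.a * C.c 1 e.g
      rw [(C.one _ e.g.2).1, (C.one _ e.g.2).2, one_smul, mul_comm e.a])
    H H' χ hχ hH g₀ hg₀ h0 ⟨1, ⟨g₀, hG hg₀⟩⟩ rfl s
    (fun h hh => by rw [hs h hh]; rfl) (by
      intro g hg h hh
      rw [hs g hg, hs h hh, hs _ (H.mul_mem hg hh)]
      exact Co.Ex.ext (Units.ext (ham g hg h hh)) rfl) (by
      intro z hz hzm
      obtain ⟨b, hb0, hb⟩ := hilbert90 H (fun g => (z g : Ω)) (fun g _ => (z g).ne_zero)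
        (fun g hg h hh => by rw [hzm g hg h hh]; rfl) (by
          refine ((han.and (han.conj g₀)).and (C.near.and (C.near.conj g₀))).mono ?_
          rintro h ⟨⟨h1, h2⟩, h3, h4⟩ hh
          have h5 := congrArg (fun x => (x.a : Ω)) (hz h hh)
          rw [hs h hh, hs _ (hc h hh)] at h5
          change 1 * g₀ (a (g₀⁻¹ * h * g₀)) * (C.c g₀ (g₀⁻¹ * h * g₀) : Ω) =
            z h * (1 : Ω ≃ₐ[B] Ω) (a h) * (C.c 1 h : Ω) * (1 * h) 1 * (C.c (1 * h) g₀ : Ω) at h5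
          rw [h1 hh, h2 (hc h hh), one_mul h, (h3 (hG (hle hh)) _ (hG hg₀)).2,
            (h4 (hG (hle (hc h hh))) _ (hG hg₀)).1, (C.one _ (hG (hle hh))).2] at h5
          simpa using h5.symm)
      exact ⟨Units.mk0 b hb0, fun h hh => Units.ext (hb h hh)⟩) (by
      intro b hb1 hb2
      obtain ⟨x, hx, hx1⟩ := hQ H (hle.trans hG) g₀ (hG hg₀) y ζ b hζ hy0 hy2 hy1
        (fun h hh => congrArg Units.val (hb1 h hh)) (congrArg Units.val hb2)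
      have hx0 : x ≠ 0 := fun e => b.ne_zero (by
        rw [← hx1]
        exact Finset.prod_eq_zero (Finset.mem_range.2 ell_pos) (by rw [e, map_zero]))
      refine ⟨Units.mk0 x hx0, fun h hh => Units.ext (hx h hh), Units.ext ?_⟩
      rw [← hx1, Units.coe_prod]
      rfl)
  refine ⟨fun g => (s' g).a, fun g _ => (s' g).a.ne_zero, fun g hg h hh => ?_, ?_⟩
  · have h1 : ((s' g).g : Ω ≃ₐ[B] Ω) = g := e2 g hg
    have h2 : ((s' h).g : Ω ≃ₐ[B] Ω) = h := e2 h hh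
    beta_reduce
    rw [e3 g hg h hh, Co.Ex.mul_a, h1, h2]
    rfl
  · refine (hn.and han).mono fun g hg hg' => ?_
    have := hg.1 (hG hg')
    beta_reduce
    rw [e1 g this, hs g this]
    exact hg.2 this

theorem Co.phi [IsSepClosed Ω] [Algebra.IsAlgebraic B Ω] (h2 : (ell : Ω) ≠ 0) (C : Co G) {n : ℕ}
    (H : Subgroup (Ω ≃ₐ[B] Ω)) (hR : ∀ g ∈ H, Ru g)
    (hp : ∀ g ∈ H, ∀ h ∈ H, (C.c g h : Ω) ^ ell ^ n = 1) (hS : C.Sec H) :
    ∃ f : (Ω ≃ₐ[B] Ω) → Ω, (∀ g ∈ H, f g ^ ell ^ n = 1) ∧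
      (∀ g ∈ H, ∀ h ∈ H, f (g * h) = f g * f h * C.c g h) ∧ Near fun g => g ∈ H → f g = 1 := by
  obtain ⟨a, ha0, ham, han⟩ := hS
  obtain ⟨b, hb0, hb⟩ := hilbert90 H (fun g => a g ^ ell ^ n)
    (fun g hg => pow_ne_zero _ (ha0 g hg))
    (fun g hg h hh => by rw [ham g hg h hh, mul_pow, hp g hg h hh, mul_one, mul_pow, map_pow])
    (han.mono fun g hg hg' => by rw [hg hg', one_pow])
  have : NeZero ((ell ^ n : ℕ) : Ω) := ⟨by push_cast; exact pow_ne_zero _ h2⟩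
  obtain ⟨w, hw⟩ := IsSepClosed.exists_pow_nat_eq b (ell ^ n)
  have hw0 : w ≠ 0 := fun e => hb0 (by rw [← hw, e, zero_pow (lp_ne _)])
  have h1 : ∀ g ∈ H, (a g * w / g w) ^ ell ^ n = 1 := fun g hg => by
    rw [div_pow, mul_pow, ← map_pow, hw, hb g hg,
      div_self (mul_ne_zero (pow_ne_zero _ (ha0 g hg)) hb0)]
  refine ⟨fun g => a g * w / g w, h1, fun g hg h hh => ?_, ?_⟩
  · beta_reduce
    rw [← hR g hg n _ (h1 h hh), ham g hg h hh, AlgEquiv.mul_apply, map_div₀, map_mul]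
    have h3 : g w ≠ 0 := by simpa using hw0
    have h4 : g (h w) ≠ 0 := by simpa using hw0
    field_simp
  · refine (han.and (Near.fix w)).mono fun g hg hg' => ?_
    beta_reduce
    rw [hg.1 hg', hg.2, one_mul, div_self hw0]

theorem exists_normal [Algebra.IsAlgebraic B Ω] {P : (Ω ≃ₐ[B] Ω) → Prop} (h : Near P) :
    ∃ N : Subgroup (Ω ≃ₐ[B] Ω), N.Normal ∧ N.FiniteIndex ∧ (∀ g ∈ N, P g) ∧
      Near fun g => g ∈ N := by
  obtain ⟨S, hS⟩ := h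
  let N₀ : Subgroup (Ω ≃ₐ[B] Ω) := ⨅ s ∈ S, MulAction.stabilizer (Ω ≃ₐ[B] Ω) s
  have hm : ∀ g, g ∈ N₀ ↔ ∀ s ∈ S, g s = s := fun g => by
    simp only [N₀, Subgroup.mem_iInf, MulAction.mem_stabilizer_iff, AlgEquiv.smul_def]
  have : N₀.FiniteIndex := Subgroup.finiteIndex_iInf' _ fun s _ => ⟨by
    rw [MulAction.index_stabilizer]
    refine Set.ncard_ne_zero_of_mem (MulAction.mem_orbit_self s)
      (((minpoly B s).rootSet_finite Ω).subset ?_)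
    rintro _ ⟨g, rfl⟩
    rw [mem_rootSet]
    refine ⟨minpoly.ne_zero (Algebra.IsIntegral.isIntegral _), ?_⟩
    change aeval (g s) _ = 0
    rw [aeval_algHom_apply, minpoly.aeval, map_zero]⟩
  refine ⟨N₀.normalCore, inferInstance, inferInstance,
    fun g hg => hS g ((hm g).1 (N₀.normalCore_le hg)), ?_⟩
  have : Near fun g => g ∈ N₀ := ⟨S, fun g hg => (hm g).2 hg⟩
  exact (near_normal this).mono fun g hg b => by simpa using hg b⁻¹

/-- Climbing to a subgroup of index prime to `ell`. -/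
theorem Co.climb [IsSepClosed Ω] [Algebra.IsAlgebraic B Ω] (h2 : (ell : Ω) ≠ 0)
    (hR : ∀ g ∈ G, Ru g) (hQ : Nrm G) (C : Co G) :
    ∃ P : Subgroup G, P.index.Coprime ell ∧ (Near fun g => g ∈ G → g ∈ P.map G.subtype) ∧
      C.Sec (P.map G.subtype) := by
  obtain ⟨N, hN, hNf, hN1, hN2⟩ := exists_normal C.near
  let π : G →* G ⧸ N.subgroupOf G := QuotientGroup.mk' _
  have hπ : Function.Surjective π := QuotientGroup.mk'_surjective _
  have hm : ∀ (K : Subgroup (G ⧸ N.subgroupOf G)) g,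
      g ∈ (K.comap π).map G.subtype ↔ ∃ hg : g ∈ G, π ⟨g, hg⟩ ∈ K := by
    intro K g
    constructor
    · rintro ⟨x, hx, rfl⟩
      exact ⟨x.2, hx⟩
    · rintro ⟨hg, h⟩
      exact ⟨⟨g, hg⟩, h, rfl⟩
  have hk : ∀ g (hg : g ∈ G), π ⟨g, hg⟩ = 1 ↔ g ∈ N := fun g hg => QuotientGroup.eq_one_iff _
  have hnear : ∀ K : Subgroup (G ⧸ N.subgroupOf G),
      Near fun g => g ∈ G → g ∈ (K.comap π).map G.subtype := fun K =>
    hN2.mono fun g hg hg' => (hm K g).2 ⟨hg', by rw [(hk g hg').2 hg]; exact K.one_mem⟩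
  obtain ⟨a, m, hodd, hcard⟩ :=
    Nat.exists_eq_pow_mul_and_not_dvd (Nat.card_pos (α := G ⧸ N.subgroupOf G)).ne' ell
      Pl.prime.ne_one
  have key : ∀ i ≤ a, ∃ K : Subgroup (G ⧸ N.subgroupOf G), Nat.card K = ell ^ i ∧
      C.Sec ((K.comap π).map G.subtype) := by
    intro i
    induction i with
    | zero =>
      intro _
      refine ⟨⊥, by simp, fun _ => 1, fun _ _ => one_ne_zero, fun g hg h hh => ?_,
        Near.of_forall fun _ _ => rfl⟩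
      obtain ⟨hg', _⟩ := (hm _ g).1 hg
      obtain ⟨hh', e⟩ := (hm _ h).1 hh
      rw [(hN1 h ((hk h hh').1 (Subgroup.mem_bot.1 e)) hh' g hg').1]
      simp
    | succ i ih =>
      intro hi
      obtain ⟨K, hK, hS⟩ := ih (by omega)
      obtain ⟨K', hK', hle⟩ := Sylow.exists_subgroup_card_pow_succ (p := ell) (n := i)
        (by rw [hcard]; exact (pow_dvd_pow ell hi).mul_right m) hK
      obtain ⟨χ, c1, c2, x₀, c3, c4⟩ := exists_chi hK hK' hle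
      obtain ⟨g₀, rfl⟩ := hπ x₀
      refine ⟨K', hK', C.step h2 hR hQ _ _ (Subgroup.map_subtype_le _) (hnear K)
        (fun g => if hg : g ∈ G then χ (π ⟨g, hg⟩) else 0) (fun g hg h hh => ?_) (fun g => ?_) g₀
        ((hm _ _).2 ⟨g₀.2, c3⟩) ((dif_pos g₀.2).trans c4) hS⟩
      · obtain ⟨hg', e⟩ := (hm _ g).1 hg
        obtain ⟨hh', e'⟩ := (hm _ h).1 hh
        beta_reduce
        rw [dif_pos hg', dif_pos hh', dif_pos (G.mul_mem hg' hh'), ← c1 _ e _ e', ← map_mul]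
        rfl
      · rw [hm, hm]
        refine ⟨fun ⟨hg, e⟩ => ⟨⟨hg, hle e⟩, (dif_pos hg).trans ((c2 _).1 e).2⟩,
          fun ⟨⟨hg, e⟩, e'⟩ => ⟨hg, (c2 _).2 ⟨e, (dif_pos hg).symm.trans e'⟩⟩⟩
  obtain ⟨K, hK, hS⟩ := key a le_rfl
  refine ⟨K.comap π, ?_, hnear K, hS⟩
  rw [K.index_comap_of_surjective hπ]
  have h3 := K.index_mul_card
  rw [hK, hcard, mul_comm] at h3
  rw [Nat.eq_of_mul_eq_mul_left (lp_pos _) h3]
  exact ((Nat.Prime.coprime_iff_not_dvd Pl.prime).2 hodd).symm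

/-- Vanishing of `H^2(H, μ)`: normalise `c`, take an open normal subgroup `N` of finite index on
which it is trivial, climb from `N` to the preimage of a Sylow subgroup of `H / N` by steps of
index `ell`, then `gaschutz`. -/
theorem h2_zero [IsSepClosed Ω] [Algebra.IsAlgebraic B Ω] (h2 : (ell : Ω) ≠ 0)
    (H : Subgroup (Ω ≃ₐ[B] Ω)) (hR : ∀ g ∈ H, Ru g) (hQ : Nrm H) {n : ℕ}
    (c : (Ω ≃ₐ[B] Ω) → (Ω ≃ₐ[B] Ω) → Ω) (hp : ∀ g ∈ H, ∀ h ∈ H, c g h ^ ell ^ n = 1)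
    (hc : ∀ g ∈ H, ∀ h ∈ H, ∀ l ∈ H, c g h * c (g * h) l = c h l * c g (h * l))
    (hn : Cts2 H c) :
    ∃ b : (Ω ≃ₐ[B] Ω) → Ω, (∀ g ∈ H, b g ^ ell ^ n = 1) ∧ Cts H b ∧
      ∀ g ∈ H, ∀ h ∈ H, c g h * b (g * h) = b g * b h := by
  have hne : ∀ {x : Ω}, x ^ ell ^ n = 1 → x ≠ 0 := fun hx e => by
    rw [e, zero_pow (by first | exact lp_pos _ | exact lp_ne _ | positivity)] at hx
    exact zero_ne_one hx
  have h11 := hp 1 H.one_mem 1 H.one_mem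
  have e1 : ∀ g ∈ H, c g 1 = c 1 1 := fun g hg => by
    have := hc g hg 1 H.one_mem 1 H.one_mem
    rw [mul_one, mul_one] at this
    exact mul_right_cancel₀ (hne (hp g hg 1 H.one_mem)) this
  have e2 : ∀ g ∈ H, c 1 g = c 1 1 := fun g hg => by
    have := hc 1 H.one_mem 1 H.one_mem g hg
    rw [mul_one, one_mul] at this
    exact (mul_right_cancel₀ (hne (hp 1 H.one_mem g hg)) this).symm
  have hp' : ∀ g ∈ H, ∀ h ∈ H, (c g h / c 1 1) ^ ell ^ n = 1 := fun g hg h hh => by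
    rw [div_pow, hp g hg h hh, h11, div_one]
  let u : Ω → Ωˣ := fun x => if hx : x = 0 then 1 else Units.mk0 x hx
  have hu : ∀ {x : Ω}, x ^ ell ^ n = 1 → (u x : Ω) = x := fun hx => by
    simp only [u, dif_neg (hne hx), Units.val_mk0]
  let C : Co H :=
    { c := fun g h => u (c g h / c 1 1)
      fix := fun g hg h hh l hl => Units.ext (by
        change l (u (c g h / c 1 1) : Ω) = _
        rw [hu (hp' g hg h hh)]
        exact hR l hl n _ (hp' g hg h hh))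
      assoc := fun g hg h hh l hl => Units.ext (by
        rw [Units.val_mul, Units.val_mul, hu (hp' g hg h hh), hu (hp' _ (H.mul_mem hg hh) l hl),
          hu (hp' h hh l hl), hu (hp' g hg _ (H.mul_mem hh hl)), div_mul_div_comm,
          div_mul_div_comm, hc g hg h hh l hl])
      one := fun g hg => ⟨Units.ext (by
          rw [hu (hp' g hg 1 H.one_mem), e1 g hg, div_self (hne h11), Units.val_one]),
        Units.ext (by rw [hu (hp' 1 H.one_mem g hg), e2 g hg, div_self (hne h11), Units.val_one])⟩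
      near := Near.mono hn fun h hh hh' g hg => ⟨Units.ext (by
          have := (hh hh' g hg 1 H.one_mem).2
          rw [one_mul] at this
          rw [hu (hp' g hg h hh'), this, e1 g hg, div_self (hne h11), Units.val_one]),
        Units.ext (by
          have := (hh hh' 1 H.one_mem g hg).1
          rw [one_mul] at this
          rw [hu (hp' h hh' g hg), this, e2 g hg, div_self (hne h11), Units.val_one])⟩ }
  have hC : ∀ g ∈ H, ∀ h ∈ H, (C.c g h : Ω) = c g h / c 1 1 := fun g hg h hh => hu (hp' g hg h hh)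
  obtain ⟨P, hP, hPn, hS⟩ := C.climb h2 hR hQ
  have hPle : P.map H.subtype ≤ H := Subgroup.map_subtype_le _
  obtain ⟨f, hf1, hf2, hf3⟩ := C.phi (n := n) h2 _ (fun g hg => hR g (hPle hg))
    (fun g hg h hh => by
      rw [hC g (hPle hg) h (hPle hh)]; exact hp' g (hPle hg) h (hPle hh)) hS
  obtain ⟨N, hN, -, hN1, hN2⟩ := exists_normal ((hPn.and hf3).and (Near.and hn C.near))
  have hPm : ∀ g : H, g ∈ P → (g : Ω ≃ₐ[B] Ω) ∈ P.map H.subtype := fun g hg => ⟨g, hg, rfl⟩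
  let r : Ω → rootsOfUnity (ell ^ n) Ω := fun x =>
    if hx : x ^ ell ^ n = 1 then rootsOfUnity.mkOfPowEq x hx else 1
  have hr : ∀ {x : Ω}, x ^ ell ^ n = 1 → ((r x : Ωˣ) : Ω) = x := fun hx => by
    simp only [r, dif_pos hx, rootsOfUnity.val_mkOfPowEq_coe]
  have hrm : ∀ {x y z w : Ω}, x ^ ell ^ n = 1 → y ^ ell ^ n = 1 → z ^ ell ^ n = 1 → w ^ ell ^ n = 1 →
      x * y = z * w → r x * r y = r z * r w := fun hx hy hz hw e => Subtype.ext (Units.ext (by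
    rw [Subgroup.coe_mul, Subgroup.coe_mul, Units.val_mul, Units.val_mul, hr hx, hr hy, hr hz,
      hr hw, e]))
  have hb : ∀ g : H, g ∈ P → (c 1 1 / f g) ^ ell ^ n = 1 := fun g hg => by
    rw [div_pow, h11, hf1 _ (hPm g hg), div_one]
  obtain ⟨b, hb1, hb2⟩ := gaschutz (G := H) (A := rootsOfUnity (ell ^ n) Ω) (n := n)
    (fun a => Subtype.ext a.2) P (N.subgroupOf H) (fun g hg => by
      obtain ⟨x, hx, e⟩ := (hN1 g hg).1.1 g.2
      rwa [← Subtype.ext e]) hP (fun g h => r (c g h))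
    (fun g h l => hrm (hp _ g.2 _ h.2) (hp _ (g * h).2 _ l.2) (hp _ h.2 _ l.2)
      (hp _ g.2 _ (h * l).2) (hc _ g.2 _ h.2 _ l.2))
    (fun h hh g l => ⟨congrArg r ((hN1 h hh).2.1 h.2 g g.2 l l.2).1,
      congrArg r ((hN1 h hh).2.1 h.2 g g.2 l l.2).2⟩) (fun g => r (c 1 1 / f g))
    (fun g hg h hh => hrm (hp _ g.2 _ h.2) (hb _ (P.mul_mem hg hh)) (hb g hg) (hb h hh) (by
      have h3 := hne (hf1 _ (hPm g hg))
      have h4 := hne (hf1 _ (hPm h hh))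
      have h5 := hne h11
      have h6 := hne (hp _ g.2 _ h.2)
      rw [Subgroup.coe_mul, hf2 _ (hPm g hg) _ (hPm h hh), hC _ g.2 _ h.2]
      field_simp))
    (fun h hh g hg => by
      have h3 := (hN1 h hh).1.1 h.2
      beta_reduce
      rw [Subgroup.coe_mul, hf2 _ (hPm g hg) _ h3, (hN1 h hh).1.2 h3,
        ((hN1 h hh).2.2 h.2 g g.2).1, Units.val_one, mul_one, mul_one])
  refine ⟨fun g => if hg : g ∈ H then ((b ⟨g, hg⟩ : Ωˣ) : Ω) else 1, fun g hg => ?_,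
    hN2.mono fun h hh hh' g hg => ?_, fun g hg h hh => ?_⟩
  · beta_reduce
    rw [dif_pos hg]
    exact (mem_rootsOfUnity' _ _).1 (b ⟨g, hg⟩).2
  · beta_reduce
    rw [dif_pos hg, dif_pos (H.mul_mem hg hh'), ← hb2 ⟨h, hh'⟩ hh ⟨g, hg⟩]
    rfl
  · have := congrArg (fun x : rootsOfUnity (ell ^ n) Ω => ((x : Ωˣ) : Ω)) (hb1 ⟨g, hg⟩ ⟨h, hh⟩)
    simp only [Subgroup.coe_mul, Units.val_mul] at this
    rw [hr (hp g hg h hh)] at this
    beta_reduce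
    rw [dif_pos hg, dif_pos hh, dif_pos (H.mul_mem hg hh)]
    exact this

end

end Pool.Agent.Lib.MP_16ef92_ag.EL
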