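import Mathlib
import Pool.Agent.Lib.MP_16ef92_ag.EL.Crv1

set_option autoImplicit false
set_option linter.unusedSectionVars false
set_option linter.unusedVariables false

namespace Pool.Agent.Lib.MP_16ef92_ag.EL

open Polynomial WeierstrassCurve WeierstrassCurve.Affine
open scoped Classical

noncomputable section

variable [Pl]

variable {B₀ B Ω : Type} [Field B₀] [Field B] [Field Ω] [Algebra B₀ B] [Algebra B Ω]
  [Algebra B₀ Ω] [IsScalarTower B₀ B Ω] [IsAlgClosed Ω] [Algebra.IsAlgebraic B Ω]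
  {W : WeierstrassCurve B₀} (C : CS B Ω W)

section Crv2as

namespace CS

theorem eq_Crv2a {C : CS B Ω W} {O : ValuationSubring Ω} (hO : C.Hz O) {z a b : Ω}
    (ha : a ∈ KK B₀ Ω) (hb : b ∈ KK B₀ Ω) (h : O.valuation (z - a) < 1)
    (h' : O.valuation (z - b) < 1) : a = b := by_contra fun e => by
  have := O.valuation.map_sub_lt h' h
  rw [sub_sub_sub_cancel_left, val_of_field (KK B₀ Ω).toSubfield hO.1 (sub_mem ha hb)
    (sub_ne_zero.2 e)] at this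
  exact lt_irrefl _ this

theorem mul_Crv2a {O : ValuationSubring Ω} {a b : Ω} (h : O.valuation a < 1) (hb : b ∈ O) :
    O.valuation (a * b) < 1 := by
  rw [map_mul]
  exact (mul_le_of_le_one_right' ((O.valuation_le_one_iff _).2 hb)).trans_lt h

theorem un_mem {P : PO Ω W} (h : InS (KK B₀ Ω : Set Ω) P) : C.un P ∈ C.E := by
  rcases P with _ | ⟨a, b, n⟩
  · exact one_mem _
  · rw [un]
    split_ifs
    exacts [C.y_E, sub_mem C.x_E (C.kk_E h.1)]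

theorem vI_le {O : ValuationSubring Ω} (hO : C.Hz O) {P : PO Ω W}
    (h : InS (KK B₀ Ω : Set Ω) P) : C.vI O P ≤ 1 := by
  rcases P with _ | ⟨a, b, n⟩
  · exact le_rfl
  · exact max_le ((O.valuation_le_one_iff _).2 (sub_mem hO.2 (hO.1 a h.1)))
      ((O.valuation_le_one_iff _).2 (sub_mem hO.y (hO.1 b h.2)))

theorem exists_center {O : ValuationSubring Ω} (hO : C.Hz O) (hne : O ≠ ⊤) :
    ∃ P, InS (KK B₀ Ω : Set Ω) P ∧ C.vI O P < 1 := by
  obtain ⟨c, hc, hv⟩ := C.hz_center hO hne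
  obtain ⟨b, hb⟩ := IsAlgClosed.exists_pow_nat_eq ((c - C.e 0) * (c - C.e 1) * (c - C.e 2)) two_pos
  have key : ∀ b, b ^ 2 = (c - C.e 0) * (c - C.e 1) * (c - C.e 2) → O.valuation (C.y - b) < 1 →
      ∃ P, InS (KK B₀ Ω : Set Ω) P ∧ C.vI O P < 1 := fun b e h => by
    refine ⟨.some c b ?_, ⟨hc, root_kk two_pos (mul_mem (mul_mem (sub_mem hc (C.e_kk 0))
      (sub_mem hc (C.e_kk 1))) (sub_mem hc (C.e_kk 2))) e⟩, max_lt hv h⟩
    rcases eq_or_ne b 0 with rfl | h0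
    · rw [zero_pow two_ne_zero, eq_comm, mul_eq_zero, mul_eq_zero, sub_eq_zero, sub_eq_zero,
        sub_eq_zero] at e
      rcases e with (rfl | rfl) | rfl
      exacts [C.cub.ns0, C.cub.swap.ns0, C.cub.swap'.swap.ns0]
    · exact C.cub.ns e h0
  have k := fun i => hO.1 _ (C.e_kk i)
  have h1 := mul_Crv2a hv (add_mem (mul_mem (sub_mem hO.2 (k 1)) (sub_mem hO.2 (k 2)))
    (mul_mem (sub_mem (hO.1 c hc) (k 0))
      (add_mem (sub_mem hO.2 (k 2)) (sub_mem (hO.1 c hc) (k 1)))))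
  replace h1 : O.valuation ((C.y - b) * (C.y - -b)) < 1 :=
    (congrArg O.valuation (by linear_combination C.eqn - hb)).trans_lt h1
  rw [map_mul] at h1
  by_contra h
  exact (one_le_mul (not_lt.1 fun a => h (key b hb a))
    (not_lt.1 fun a => h (key (-b) (by rw [neg_sq, hb]) a))).not_gt h1

theorem center_unique {O : ValuationSubring Ω} (hO : C.Hz O) {P Q : PO Ω W}
    (hP : InS (KK B₀ Ω : Set Ω) P) (hQ : InS (KK B₀ Ω : Set Ω) Q) (h : C.vI O P < 1)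
    (h' : C.vI O Q < 1) : P = Q := by
  rcases P with _ | ⟨a, b, n⟩
  · exact absurd h (lt_irrefl _)
  rcases Q with _ | ⟨a', b', n'⟩
  · exact absurd h' (lt_irrefl _)
  obtain rfl := eq_Crv2a hO hP.1 hQ.1 (max_lt_iff.1 h).1 (max_lt_iff.1 h').1
  obtain rfl := eq_Crv2a hO hP.2 hQ.2 (max_lt_iff.1 h).2 (max_lt_iff.1 h').2
  rfl

/-- The norm of `h` is a nonzero polynomial vanishing at the `x`-coordinate of `P`. -/
theorem finite_zero {h : Ω} (hA : h ∈ C.A) (h0 : h ≠ 0) :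
    {P : PO Ω W | InS (KK B₀ Ω : Set Ω) P ∧
      ∃ O, C.Hz O ∧ C.vI O P < 1 ∧ O.valuation h < 1}.Finite := by
  obtain ⟨h', hA', N, hN, e⟩ := C.norm_A hA h0
  refine (N.roots.toFinset.finite_toSet.biUnion fun a _ =>
    (nthRoots 2 ((a.1 - C.e 0) * (a.1 - C.e 1) * (a.1 - C.e 2))).toFinset.finite_toSet.biUnion
      fun b _ => Set.Subsingleton.finite (s := {P : PO Ω W | ∃ n, P = .some a.1 b n}) ?_).subset ?_
  · rintro _ ⟨n, rfl⟩ _ ⟨n', rfl⟩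
    rfl
  rintro (_ | ⟨a, b, n⟩) ⟨hP, O, hO, h1, h2⟩
  · exact absurd h1 (lt_irrefl _)
  obtain ⟨q, hq⟩ := X_sub_C_dvd_sub_C_eval (a := (⟨a, hP.1⟩ : KK B₀ Ω)) (p := N)
  have h3 := congrArg (aeval C.x) hq
  rw [map_sub, map_mul, map_sub, aeval_C, aeval_C, aeval_X] at h3
  have h4 := eq_Crv2a hO (N.eval (⟨a, hP.1⟩ : KK B₀ Ω)).2 (zero_mem _) (z := aeval C.x N)
    ((congrArg O.valuation h3).trans_lt (mul_Crv2a (max_lt_iff.1 h1).1
      (hO.A_le _ (C.mem_A.2 ⟨q, 0, by simp⟩))))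
    (by rw [sub_zero, ← e]; exact mul_Crv2a h2 (hO.A_le _ hA'))
  simp only [Set.mem_iUnion, Finset.mem_coe, Multiset.mem_toFinset, mem_roots hN,
    mem_nthRoots two_pos]
  exact ⟨⟨a, hP.1⟩, Subtype.ext h4, b, (C.cub.eqn _ _).1 n.1, n, rfl⟩

end CS

end Crv2as

section Crv2bs

namespace CS

theorem val_kk_crv2b {O : ValuationSubring Ω} (hO : C.Hz O) {c : Ω} (hc : c ∈ KK B₀ Ω)
    (h0 : c ≠ 0) : O.valuation c = 1 :=
  val_of_field (KK B₀ Ω).toSubfield hO.1 hc h0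

theorem kk_A_crv2b {c : Ω} (hc : c ∈ KK B₀ Ω) : c ∈ C.A := Subring.subset_closure (Or.inl hc)

theorem x_A_crv2b : C.x ∈ C.A := Subring.subset_closure (Or.inr (Or.inl rfl))

theorem y_A_crv2b : C.y ∈ C.A := Subring.subset_closure (Or.inr (Or.inr rfl))

theorem mul_lt_crv2b {O : ValuationSubring Ω} (hO : C.Hz O) {z α : Ω} (hz : O.valuation z < 1)
    (hα : α ∈ C.A) : O.valuation (z * α) < 1 := by
  rw [map_mul]
  exact (mul_le_of_le_one_right' ((O.valuation_le_one_iff _).2 (hO.A_le _ hα))).trans_lt hz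

theorem unit_crv2b {O : ValuationSubring Ω} (hO : C.Hz O) {c z : Ω} (hc : c ∈ KK B₀ Ω)
    (h0 : c ≠ 0) (hz : O.valuation z < 1) : O.valuation (c + z) = 1 := by
  rw [O.valuation.map_add_eq_of_lt_left (by rwa [C.val_kk_crv2b hO hc h0]),
    C.val_kk_crv2b hO hc h0]

theorem lt_iff_crv2b {O : ValuationSubring Ω} (hO : C.Hz O) {a b c α β : Ω} (hc : c ∈ KK B₀ Ω)
    (hα : α ∈ C.A) (hβ : β ∈ C.A) (hx : O.valuation (C.x - a) < 1)
    (hy : O.valuation (C.y - b) < 1) :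
    O.valuation (c + (C.x - a) * α + (C.y - b) * β) < 1 ↔ c = 0 := by
  have h := O.valuation.map_add_lt (C.mul_lt_crv2b hO hx hα) (C.mul_lt_crv2b hO hy hβ)
  rw [add_assoc]
  refine ⟨fun h' => by_contra fun h0 => h'.ne (C.unit_crv2b hO hc h0 h), ?_⟩
  rintro rfl
  rwa [zero_add]

theorem dd_crv2b {O : ValuationSubring Ω} (hO : C.Hz O) {a b π u₁ u₂ g₁ g₂ : Ω}
    (ha : a ∈ KK B₀ Ω) (hb : b ∈ KK B₀ Ω) (hx : O.valuation (C.x - a) < 1)
    (hy : O.valuation (C.y - b) < 1) (hπ : π ∈ C.A) (h0 : π ≠ 0) (hl : O.valuation π < 1)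
    (m1 : u₁ ∈ C.A) (m2 : u₂ ∈ C.A) (m3 : g₁ ∈ C.A) (m4 : g₂ ∈ C.A) (v1 : O.valuation u₁ = 1)
    (v2 : O.valuation u₂ = 1) (e1 : (C.x - a) * u₁ = π * g₁) (e2 : (C.y - b) * u₂ = π * g₂)
    {k : ℕ} (hk : O.valuation π ^ k = O.valuation (C.x - a)) : Dd C.A O π := by
  refine ⟨hO.A_le, hπ, h0, hl, fun h hA hv => ?_, fun h hA hn => ?_⟩
  · obtain ⟨c, hc, α, hα, β, hβ, rfl⟩ := C.decomp_A hA ha hb
    obtain rfl := (C.lt_iff_crv2b hO hc hα hβ hx hy).1 hv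
    refine ⟨g₁ * α * u₂ + g₂ * β * u₁,
      add_mem (mul_mem (mul_mem m3 hα) m2) (mul_mem (mul_mem m4 hβ) m1), u₁ * u₂, mul_mem m1 m2,
      by rw [map_mul, v1, v2, mul_one], ?_⟩
    linear_combination α * u₂ * e1 + β * u₁ * e2
  · obtain ⟨h', hA', N, hN, e⟩ := C.norm_A hA hn
    obtain ⟨q, hq, hd⟩ := exists_eq_pow_rootMultiplicity_mul_and_not_dvd N hN ⟨a, ha⟩
    obtain ⟨r, hr⟩ := X_sub_C_dvd_sub_C_eval (p := q) (a := ⟨a, ha⟩)
    have e3 : aeval C.x q = (eval ⟨a, ha⟩ q : KK B₀ Ω) + (C.x - a) * aeval C.x r := by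
      rw [sub_eq_iff_eq_add'.1 hr]
      simp
    have v3 : O.valuation (aeval C.x q) = 1 := by
      rw [e3]
      exact C.unit_crv2b hO (Subtype.mem _) (fun h => hd (dvd_iff_isRoot.2 (Subtype.ext h)))
        (C.mul_lt_crv2b hO hx (C.mem_A.2 ⟨r, 0, by simp⟩))
    refine ⟨k * rootMultiplicity ⟨a, ha⟩ N, le_trans (le_of_eq ?_)
      (mul_le_of_le_one_right' ((O.valuation_le_one_iff _).2 (hO.A_le _ hA')))⟩
    rw [← map_mul, e, pow_mul, hk]
    conv_rhs => rw [hq, map_mul, map_mul, v3, mul_one, map_pow, map_pow]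
    simp

theorem root_crv2b {a : Ω} (h : (a - C.e 0) * (a - C.e 1) * (a - C.e 2) = 0) :
    ∃ i j, a - C.e i ≠ 0 ∧ a - C.e j ≠ 0 ∧
      (C.x - a) * ((C.x - C.e i) * (C.x - C.e j)) = C.y * C.y := by
  have h1 := C.cub.n12
  have h2 := C.cub.n13
  have h3 := C.cub.n23
  have e := C.eqn
  rcases mul_eq_zero.1 h with h | h
  · rcases mul_eq_zero.1 h with h | h
    · obtain rfl := sub_eq_zero.1 h
      exact ⟨1, 2, h1, h2, by linear_combination -e⟩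
    · obtain rfl := sub_eq_zero.1 h
      exact ⟨0, 2, fun h => h1 (by linear_combination -h), h3, by linear_combination -e⟩
  · obtain rfl := sub_eq_zero.1 h
    exact ⟨0, 1, fun h => h2 (by linear_combination -h), fun h => h3 (by linear_combination -h),
      by linear_combination -e⟩

/-- For `P = (a, b)`: if `b ≠ 0` then `(y - b) (y + b)` is a multiple of `x - a` and `y + b` is a
unit; if `b = 0` then `a` is a root and `(x - a) u = y ^ 2` with `u` a unit.  The bound comes from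
the norm to the polynomial ring. -/
theorem dd_center {O : ValuationSubring Ω} (hO : C.Hz O) {P : PO Ω W}
    (hP : InS (KK B₀ Ω : Set Ω) P) (h : C.vI O P < 1) :
    Dd C.A O (C.un P) ∧ O.valuation (C.un P) = C.vI O P := by
  rcases P with _ | ⟨a, b, n⟩
  · exact absurd h (lt_irrefl _)
  obtain ⟨ha, hb⟩ := hP
  obtain ⟨hx, hy⟩ := max_lt_iff.1 h
  have e := (C.cub.eqn a b).1 n.1
  have hX := C.x_A_crv2b
  have hY := C.y_A_crv2b
  have hE : ∀ i, C.e i ∈ C.A := fun i => C.kk_A_crv2b (C.e_kk i)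
  have hA := C.kk_A_crv2b ha
  simp only [un, vI]
  split_ifs with h0
  · subst h0
    obtain ⟨i, j, hi, hj, e1⟩ := C.root_crv2b (a := a) (by linear_combination -e)
    have v : ∀ i, a - C.e i ≠ 0 → O.valuation (C.x - C.e i) = 1 := fun i hi => by
      rw [show C.x - C.e i = a - C.e i + (C.x - a) by ring]
      exact C.unit_crv2b hO (sub_mem ha (C.e_kk i)) hi hx
    have v1 : O.valuation ((C.x - C.e i) * (C.x - C.e j)) = 1 := by
      rw [map_mul, v i hi, v j hj, mul_one]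
    have v2 : O.valuation C.y ^ 2 = O.valuation (C.x - a) := by
      rw [sq, ← map_mul, ← e1, map_mul, v1, mul_one]
    have hy' : O.valuation C.y < 1 := by rwa [sub_zero] at hy
    refine ⟨C.dd_crv2b hO ha hb hx hy hY C.y_ne hy' (mul_mem (sub_mem hX (hE i)) (sub_mem hX (hE j)))
      (one_mem _) hY (one_mem _) v1 (map_one _) e1 (by ring) v2, ?_⟩
    rw [sub_zero, max_eq_right]
    rw [← v2, sq]
    exact mul_le_of_le_one_right' hy'.le
  · have v1 : O.valuation (C.y + b) = 1 := by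
      rw [show C.y + b = b + b + (C.y - b) by ring]
      exact C.unit_crv2b hO (add_mem hb hb)
        (fun h => mul_ne_zero C.cub.two h0 (by linear_combination h)) hy
    have m : C.x * C.x + C.x * a + a * a - (C.e 0 + C.e 1 + C.e 2) * (C.x + a) +
        (C.e 0 * C.e 1 + C.e 0 * C.e 2 + C.e 1 * C.e 2) ∈ C.A :=
      add_mem (sub_mem (add_mem (add_mem (mul_mem hX hX) (mul_mem hX hA)) (mul_mem hA hA))
        (mul_mem (add_mem (add_mem (hE 0) (hE 1)) (hE 2)) (add_mem hX hA)))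
        (add_mem (add_mem (mul_mem (hE 0) (hE 1)) (mul_mem (hE 0) (hE 2))) (mul_mem (hE 1) (hE 2)))
    generalize hg : C.x * C.x + _ + _ - _ + _ = g at m
    have e2 : (C.y - b) * (C.y + b) = (C.x - a) * g := by
      rw [← hg]
      linear_combination C.eqn - e
    refine ⟨C.dd_crv2b hO ha hb hx hy (sub_mem hX hA) (C.x_ne ha) hx (one_mem _)
      (add_mem hY (C.kk_A_crv2b hb)) (one_mem _) m (map_one _) v1 rfl e2 (pow_one _), ?_⟩
    rw [max_eq_left]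
    rw [← mul_one (O.valuation (C.y - b)), ← v1, ← map_mul, e2, map_mul]
    exact mul_le_of_le_one_right' ((O.valuation_le_one_iff _).2 (hO.A_le _ m))

theorem disc_center {O : ValuationSubring Ω} (hO : C.Hz O) {P : PO Ω W}
    (hP : InS (KK B₀ Ω : Set Ω) P) (h : C.vI O P < 1) : Disc C.E O (C.un P) :=
  (C.dd_center hO hP h).1.disc C.E (C.un_mem hP) fun _ => C.frac_A

theorem conj_center {O₁ O₂ : ValuationSubring Ω} (h₁ : C.Hz O₁) (h₂ : C.Hz O₂) {P : PO Ω W}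
    (hP : InS (KK B₀ Ω : Set Ω) P) (h : C.vI O₁ P < 1) (h' : C.vI O₂ P < 1) :
    ∃ g ∈ C.H, tr g O₁ = O₂ := by
  refine (C.dd_center h₁ hP h).1.conj h₂.A_le (fun f hf => ?_) C.E fun _ => C.frac_A
  rcases P with _ | ⟨a, b, n⟩
  · exact absurd h (lt_irrefl _)
  obtain ⟨c, hc, α, hα, β, hβ, rfl⟩ := C.decomp_A hf hP.1 hP.2
  rw [C.lt_iff_crv2b h₁ hc hα hβ (max_lt_iff.1 h).1 (max_lt_iff.1 h).2,
    C.lt_iff_crv2b h₂ hc hα hβ (max_lt_iff.1 h').1 (max_lt_iff.1 h').2]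

end CS

end Crv2bs

section Crv2s

namespace CS

theorem fix_Crv2 {g : Ω ≃ₐ[B] Ω} (hg : g ∈ C.H) {a : Ω} (ha : a ∈ C.E) : g a = a :=
  (IntermediateField.mem_fixingSubgroup_iff _ _).1 hg a ha

theorem ru_Crv2 {g : Ω ≃ₐ[B] Ω} (hg : g ∈ C.H) : Ru g := C.ru_H' (C.H_le hg)

theorem vI_Crv2 {O : ValuationSubring Ω} (hO : C.Hz O) {P R : PO Ω W}
    (hP : InS (KK B₀ Ω : Set Ω) P) (h : C.vI O P < 1) (hR : InS (KK B₀ Ω : Set Ω) R) :
    C.vI O R = O.valuation (C.un P) ^ (if R = P then 1 else 0 : ℤ) := by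
  split_ifs with e
  · rw [e, zpow_one, (C.dd_center hO hP h).2]
  · rw [zpow_zero]
    exact ((C.vI_le hO hR).eq_or_lt).resolve_right fun h' => e (C.center_unique hO hR hP h' h)

theorem fun_Crv2 (n : ℕ) (R : PO Ω W) : ∃ g ∈ C.E, g ≠ 0 ∧ (InS (KK B₀ Ω : Set Ω) R →
    ∀ O, C.Hz O → ∀ P, InS (KK B₀ Ω : Set Ω) P → C.vI O P < 1 → ∀ σ ∈ C.H ⊓ Inr B O,
      kum n g σ = if R = P then kum n (C.un P) σ else 1) := by
  by_cases hR : InS (KK B₀ Ω : Set Ω) R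
  swap
  · exact ⟨1, one_mem _, one_ne_zero, fun h => (hR h).elim⟩
  obtain ⟨Q, hQ, rfl⟩ := C.inS_div hR n
  obtain ⟨g, hg, h0, hv⟩ := C.lin_pow hQ (ell ^ n)
  refine ⟨g⁻¹, inv_mem hg, inv_ne_zero h0, fun _ O hO P hP h σ hσ => ?_⟩
  have hD := C.disc_center hO hP h
  have hπ : O.valuation (C.un P) ≠ 0 := (_root_.map_ne_zero _).2 hD.ne
  have h1 := hv O hO
  rw [C.vI_Crv2 hO hP h hQ, C.vI_Crv2 hO hP h hR] at h1
  have h2 : O.valuation g⁻¹ = O.valuation (C.un P) ^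
      ((if ell ^ n • Q = P then 1 else 0 : ℤ) - (ell ^ n : ℕ) * (if Q = P then 1 else 0 : ℤ)) := by
    rw [zpow_sub₀ hπ, mul_comm, zpow_mul, zpow_natCast, h1, map_inv₀]
    have := (_root_.map_ne_zero O.valuation).2 h0
    have := zpow_ne_zero (if ell ^ n • Q = P then 1 else 0 : ℤ) hπ
    field_simp
  have h3 := C.fix_Crv2 hσ.1 hD.mem
  rw [kum_val hO.ell hσ.2 (C.ru_Crv2 hσ.1) (C.fix_Crv2 hσ.1 (inv_mem hg)) h3 hD.ne h2,
    zpow_sub₀ (kum_ne hD.ne), zpow_mul, zpow_natCast, kum_pow_one hD.ne h3, one_zpow, div_one]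
  split_ifs <;> simp

theorem exp_Crv2 {n : ℕ} (ψ : ValuationSubring Ω → (Ω ≃ₐ[B] Ω) → Ω)
    (h1 : ∀ O, C.Hz O → Chr (C.H ⊓ Inr B O) n (ψ O))
    (h2 : ∀ O, C.Hz O → ∀ g ∈ C.H, ∀ σ ∈ C.H ⊓ Inr B O, ψ (tr g O) (g * σ * g⁻¹) = ψ O σ)
    (P : PO Ω W) : ∃ j : ℕ, InS (KK B₀ Ω : Set Ω) P → ∀ O, C.Hz O → C.vI O P < 1 →
      ∀ σ ∈ C.H ⊓ Inr B O, ψ O σ = kum n (C.un P) σ ^ j := by
  by_cases h : InS (KK B₀ Ω : Set Ω) P ∧ ∃ O, C.Hz O ∧ C.vI O P < 1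
  swap
  · exact ⟨0, fun hP O hO hv => (h ⟨hP, O, hO, hv⟩).elim⟩
  obtain ⟨hP, O', hO', hv'⟩ := h
  have hD := C.disc_center hO' hP hv'
  obtain ⟨j, hj⟩ := hD.local_char hO'.ell (fun g hg => C.ru_Crv2 hg) (h1 O' hO')
  refine ⟨j, fun _ O hO hv σ hσ => ?_⟩
  obtain ⟨g, hg, rfl⟩ := C.conj_center hO' hO hP hv' hv
  obtain ⟨s, rfl⟩ : ∃ s, σ = g * s * g⁻¹ := ⟨g⁻¹ * σ * g, by group⟩
  have hs : s ∈ C.H := by
    have := mul_mem (mul_mem (inv_mem hg) hσ.1) hg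
    rwa [show g⁻¹ * (g * s * g⁻¹) * g = s by group] at this
  have hs' : s ∈ C.H ⊓ Inr B O' := ⟨hs, conj_mem_ine.1 hσ.2⟩
  have h3 := kum_conj (n := n) g (C.ru_Crv2 hs) hD.ne
  rw [C.fix_Crv2 hg hD.mem, C.ru_Crv2 hg n _ (kum_pow_one hD.ne (C.fix_Crv2 hs hD.mem))] at h3
  rw [h2 O' hO' g hg s hs', hj s hs', h3]

/-- The class group of the affine curve is divisible by `ell`.  By `finite_ram` and `finite_zero` only
finitely many points `P` are ramified; for each choose `O_P`, `j_P` (`Disc.local_char`),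
`Q` with `ell^n Q = P` (`inS_div`), `g_P` (`lin_pow`), and put `f = ∏ g_P⁻¹ ^ j_P`. -/
theorem pic {n : ℕ} (ψ : ValuationSubring Ω → (Ω ≃ₐ[B] Ω) → Ω)
    (h1 : ∀ O, C.Hz O → Chr (C.H ⊓ Inr B O) n (ψ O))
    (h2 : ∀ O, C.Hz O → ∀ g ∈ C.H, ∀ σ ∈ C.H ⊓ Inr B O, ψ (tr g O) (g * σ * g⁻¹) = ψ O σ)
    (h3 : Near fun σ => ∀ O, C.Hz O → σ ∈ C.H ⊓ Inr B O → ψ O σ = 1) :
    ∃ f ∈ C.E, f ≠ 0 ∧ ∀ O, C.Hz O → ∀ σ ∈ C.H ⊓ Inr B O, ψ O σ = kum n f σ := by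
  obtain ⟨h, hA, h0, hh⟩ := finite_ram C.A C.E (fun a ha => C.frac_A ha) h3
  have hZ := C.finite_zero hA h0
  choose g hg hg0 hk using C.fun_Crv2 n
  choose j hj using C.exp_Crv2 ψ h1 h2
  have hf0 : ∏ R ∈ hZ.toFinset, g R ^ j R ≠ 0 :=
    Finset.prod_ne_zero_iff.2 fun R _ => pow_ne_zero _ (hg0 R)
  refine ⟨∏ R ∈ hZ.toFinset, g R ^ j R, prod_mem fun R _ => pow_mem (hg R) _, hf0,
    fun O hO σ hσ => ?_⟩
  by_cases hne : O = ⊤
  · subst hne
    obtain rfl := inr_top hσ.2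
    have e := (h1 _ hO).mul 1 hσ 1 hσ
    have e' : ψ ⊤ 1 ≠ 0 := gala_ne one_ne_zero ((h1 _ hO).pow 1 hσ)
    rw [mul_one] at e
    rw [kum_of_fix (C.ru_Crv2 hσ.1) hf0 (rt_pow n _) rfl]
    exact (mul_eq_left₀ e').1 e.symm
  obtain ⟨P, hP, hv⟩ := C.exists_center hO hne
  have hr := C.ru_Crv2 hσ.1
  rw [kum_prod hr _ _ fun R _ => pow_ne_zero _ (hg0 R),
    Finset.prod_congr rfl (g := fun R => if R = P then kum n (C.un P) σ ^ j P else 1) fun R hR => by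
      rw [kum_npow hr (hg0 R), hk R (hZ.mem_toFinset.1 hR).1 O hO P hP hv σ hσ]
      split_ifs with e
      · rw [e]
      · exact one_pow _,
    Finset.prod_ite_eq']
  split_ifs with e
  · exact hj P hP O hO hv σ hσ
  · have h4 : O.valuation h = 1 :=
      (((O.valuation_le_one_iff h).2 (hO.A_le h hA)).eq_or_lt).resolve_right fun h' =>
        e (hZ.mem_toFinset.2 ⟨hP, O, hO, hv, h'⟩)
    exact hh O hO.A_le h4 σ hσ O hO hσ

end CS

end Crv2s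

end

end Pool.Agent.Lib.MP_16ef92_ag.EL
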