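import Mathlib
import Pool.Agent.Lib.MP_16ef92_ag.EL.Crv2

set_option autoImplicit false
set_option linter.unusedSectionVars false
set_option linter.unusedVariables false

namespace Pool.Agent.Lib.MP_16ef92_ag.EL

open Polynomial WeierstrassCurve WeierstrassCurve.Affine
open scoped Classical

noncomputable section

variable [Pl]

variable {B₀ B Ω : Type} [Field B₀] [Field B] [Field Ω] [Algebra B₀ B] [Algebra B Ω]
  [Algebra B₀ Ω] [IsScalarTower B₀ B Ω] [IsAlgClosed Ω] [Algebra.IsAlgebraic B Ω]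
  {W : WeierstrassCurve B₀} (C : CS B Ω W)

section Lam1s

namespace CS

variable {C} {n : ℕ} {P Q : PO Ω W} {χ χ' : (Ω ≃ₐ[B] Ω) → Ω}

theorem kk_Lam1 (C : CS B Ω W) (h : ell ^ n • P = 0) : InS (KK B₀ Ω : Set Ω) P := C.tors n P h

theorem fix_Lam1 {f : Ω} (hf : f ∈ C.E) {g : Ω ≃ₐ[B] Ω} (hg : g ∈ C.H) : g f = f :=
  (IntermediateField.mem_fixingSubgroup_iff _ _).1 hg f hf

theorem ru_Lam1 {g : Ω ≃ₐ[B] Ω} (hg : g ∈ C.H) : Ru g := C.ru_H' (C.H_le hg)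

theorem div_Lam1 {f z : Ω} (h0 : f ≠ 0) (hz : z ∈ C.E) (h1 : z ≠ 0) {g : Ω ≃ₐ[B] Ω}
    (hg : g ∈ C.H) : kum n (f / z ^ ell ^ n) g = kum n f g := by
  rw [kum_div (ru_Lam1 hg) h0 (pow_ne_zero _ h1),
    kum_of_fix (ru_Lam1 hg) (pow_ne_zero _ h1) rfl (fix_Lam1 hz hg), div_one]

theorem gen_Lam1 (hP : InS (KK B₀ Ω : Set Ω) P) (O : ValuationSubring Ω) :
    ∃ z ∈ C.E, O.valuation z = C.vI O P ∧ ∀ s : Ω ≃ₐ[B] Ω, s C.y = C.y →
      (tr s O).valuation (s z) = C.vI (tr s O) (pmO s P) := by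
  rcases P with _ | ⟨a, b, hn⟩
  · refine ⟨1, one_mem _, map_one _, fun s _ => ?_⟩
    rw [map_one, map_one]
    rfl
  · have key : ∀ s : Ω ≃ₐ[B] Ω, s C.y = C.y → C.vI (tr s O) (pmO s (.some a b hn)) =
        max ((tr s O).valuation (s (C.x - a))) ((tr s O).valuation (s (C.y - b))) := fun s hs => by
      obtain ⟨n', e⟩ := pmO_some s hn
      rw [e, map_sub s, map_sub s, C.fix_x, hs]
      rfl
    rcases le_total (O.valuation (C.x - a)) (O.valuation (C.y - b)) with h | h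
    · exact ⟨C.y - b, sub_mem C.y_E (C.kk_E hP.2), (max_eq_right h).symm,
        fun s hs => ((key s hs).trans (max_eq_right (tr_val_le.2 h))).symm⟩
    · exact ⟨C.x - a, sub_mem C.x_E (C.kk_E hP.1), (max_eq_left h).symm,
        fun s hs => ((key s hs).trans (max_eq_left (tr_val_le.2 h))).symm⟩

theorem Kp.congr (h : C.Kp n P χ) (e : ∀ g ∈ C.H, χ' g = χ g) : C.Kp n P χ' := by
  obtain ⟨h0, f, hf, hχ⟩ := h
  exact ⟨h0, f, hf, fun g hg => (e g hg).trans (hχ g hg)⟩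

theorem kp_ex (h : ell ^ n • P = 0) : ∃ χ, C.Kp n P χ := by
  obtain ⟨g, hg, g0, hv⟩ := C.lin_pow (C.kk_Lam1 h) (ell ^ n)
  refine ⟨kum n g, h, g, ⟨hg, g0, fun O hO => ?_⟩, fun _ _ => rfl⟩
  rw [hv O hO, h]
  exact (mul_one _).symm

theorem kp_zero : C.Kp n 0 fun _ => 1 :=
  ⟨smul_zero _, 1, ⟨one_mem _, one_ne_zero, fun O _ => (map_one _).trans (one_pow _).symm⟩,
    fun g hg => (kum_of_fix (ru_Lam1 hg) one_ne_zero (one_pow _) (map_one g)).symm⟩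

theorem Kp.lam (h : C.Kp n P χ) : C.Lam n χ := by
  obtain ⟨h0, f, ⟨hf, f0, hv⟩, hχ⟩ := h
  have hc : Chr C.H n (kum n f) := chr_kum (fun g => ru_Lam1) f0 fun g => fix_Lam1 hf
  refine ⟨⟨fun g hg => ?_, fun g hg l hl => ?_, hc.near.mono fun g i hg => (hχ g hg).trans (i hg)⟩,
    fun O hO σ hσ => ?_⟩
  · rw [hχ g hg]
    exact hc.pow g hg
  · rw [hχ g hg, hχ l hl, hχ _ (C.H.mul_mem hg hl)]
    exact hc.mul g hg l hl
  · obtain ⟨z, hz, e, -⟩ := gen_Lam1 (C := C) (C.kk_Lam1 h0) O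
    have z0 : z ≠ 0 := (Valuation.ne_zero_iff _).1 (e ▸ C.vI_ne (C.kk_Lam1 h0) O)
    rw [hχ σ hσ.1, kum_val hO.ell hσ.2 (ru_Lam1 hσ.1) (fix_Lam1 hf hσ.1) (fix_Lam1 hz hσ.1) z0
      (j := (ell ^ n : ℕ)) (by rw [zpow_natCast, hv O hO, e]), zpow_natCast]
    exact kum_pow_one z0 (fix_Lam1 hz hσ.1)

/-- `unit_const`; constants have trivial Kummer character on `H`. -/
theorem Kp.uniq (h : C.Kp n P χ) (h' : C.Kp n P χ') : ∀ g ∈ C.H, χ g = χ' g := by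
  obtain ⟨h0, f, ⟨hf, f0, hv⟩, hχ⟩ := h
  obtain ⟨-, f', ⟨hf', f0', hv'⟩, hχ'⟩ := h'
  intro g hg
  have hk : f / f' ∈ KK B₀ Ω := C.unit_const (div_mem hf hf') fun O hO => by
    rw [map_div₀, hv O hO, hv' O hO, div_self (pow_ne_zero _ (C.vI_ne (C.kk_Lam1 h0) O))]
  have h1 := kum_of_fix (ru_Lam1 hg) (div_ne_zero f0 f0') (rt_pow n _)
    ((C.mem_H.1 hg).1 _ (root_kk (by first | exact lp_pos _ | exact lp_ne _ | positivity) hk (rt_pow n _)))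
  rw [kum_div (ru_Lam1 hg) f0 f0', div_eq_one_iff_eq (kum_ne f0')] at h1
  rw [hχ g hg, hχ' g hg, h1]

theorem Kp.add (h : C.Kp n P χ) (h' : C.Kp n Q χ') : C.Kp n (P + Q) (χ * χ') := by
  obtain ⟨h0, f, ⟨hf, f0, hv⟩, hχ⟩ := h
  obtain ⟨h0', f', ⟨hf', f0', hv'⟩, hχ'⟩ := h'
  obtain ⟨g, hg, g0, hl⟩ := C.lin (C.kk_Lam1 h0) (C.kk_Lam1 h0')
  refine ⟨by rw [smul_add, h0, h0', add_zero], f * f' / g ^ ell ^ n,
    ⟨div_mem (mul_mem hf hf') (pow_mem hg _),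
      div_ne_zero (mul_ne_zero f0 f0') (pow_ne_zero _ g0), fun O hO => ?_⟩, fun l hl => ?_⟩
  · rw [map_div₀, map_mul, map_pow, hv O hO, hv' O hO, ← mul_pow, hl O hO, ← div_pow,
      mul_div_cancel_left₀ _ ((Valuation.ne_zero_iff _).2 g0)]
  · rw [div_Lam1 (mul_ne_zero f0 f0') hg g0 hl, kum_mul_left (ru_Lam1 hl) f0 f0', Pi.mul_apply,
      hχ l hl, hχ' l hl]

theorem Kp.sub (h : C.Kp n P χ) (h' : C.Kp n Q χ') : C.Kp n (P - Q) (χ / χ') := by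
  obtain ⟨ψ, hψ⟩ := kp_ex (C := C) (n := n) (P := P - Q) (by rw [smul_sub, h.1, h'.1, sub_zero])
  have h1 := hψ.add h'
  rw [sub_add_cancel] at h1
  refine hψ.congr fun g hg => ?_
  obtain ⟨-, f', ⟨-, f0', -⟩, hχ'⟩ := h'
  rw [Pi.div_apply, h.uniq h1 g hg, Pi.mul_apply, mul_div_cancel_right₀]
  rw [hχ' g hg]
  exact kum_ne f0'

theorem Kp.sq (h : C.Kp (n + 1) P χ) : C.Kp n (ell • P) (χ ^ ell) := by
  obtain ⟨h0, f, ⟨hf, f0, hv⟩, hχ⟩ := h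
  obtain ⟨g, hg, g0, hl⟩ := C.lin_pow (C.kk_Lam1 h0) ell
  refine ⟨by rw [smul_smul, ← pow_succ, h0], f / g ^ ell ^ n,
    ⟨div_mem hf (pow_mem hg _), div_ne_zero f0 (pow_ne_zero _ g0), fun O hO => ?_⟩,
    fun l hl => ?_⟩
  · rw [map_div₀, map_pow, hv O hO, pow_succ', pow_mul, hl O hO, ← div_pow,
      mul_div_cancel_left₀ _ ((Valuation.ne_zero_iff _).2 g0)]
  · rw [div_Lam1 f0 hg g0 hl, Pi.pow_apply, hχ l hl, kum_level (ru_Lam1 hl) f0]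

theorem Kp.up (h : C.Kp n P χ) : C.Kp (n + 1) P χ := by
  obtain ⟨h0, f, ⟨hf, f0, hv⟩, hχ⟩ := h
  refine ⟨by rw [pow_succ', ← smul_smul, h0, smul_zero], f ^ ell,
    ⟨pow_mem hf _, pow_ne_zero _ f0, fun O hO => ?_⟩, fun l hl => ?_⟩
  · rw [map_pow, hv O hO, ← pow_mul, ← pow_succ]
  · rw [kum_sq (ru_Lam1 hl) f0, hχ l hl]

theorem Kp.conj (h : C.Kp n P χ) {s : Ω ≃ₐ[B] Ω} (hs : s C.y = C.y) :
    C.Kp n (pmO s P) fun g => s (χ (s⁻¹ * g * s)) := by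
  obtain ⟨h0, f, ⟨hf, f0, hv⟩, hχ⟩ := h
  have hE : C.E ≤ C.E.comap (s : Ω →ₐ[B] Ω) := IntermediateField.adjoin_le_iff.2 (by
    rintro z (hz | rfl)
    · exact C.kk_E ((kk_map s).2 hz)
    · change s C.y ∈ C.E
      rw [hs]
      exact C.y_E)
  refine ⟨by rw [← map_nsmul, h0, map_zero], s f,
    ⟨hE hf, (map_ne_zero s).2 f0, fun O hO => ?_⟩, fun l hl => ?_⟩
  · obtain ⟨O, rfl⟩ : ∃ O', tr s O' = O := ⟨tr s⁻¹ O, by rw [← tr_mul, mul_inv_cancel, tr_one]⟩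
    obtain ⟨z, -, e, e'⟩ := gen_Lam1 (C := C) (C.kk_Lam1 h0) O
    rw [← e' s hs, ← map_pow, ← map_pow, tr_val_eq, map_pow, e]
    exact hv O ((C.hz_tr s).1 hO)
  · have hm := C.conj_H (Or.inl hs) hl
    have h1 := kum_conj (n := n) s (ru_Lam1 hm) f0
    rw [show s * (s⁻¹ * l * s) * s⁻¹ = l by group] at h1
    rw [h1, ← hχ _ hm]

end CS

end Lam1s

end

end Pool.Agent.Lib.MP_16ef92_ag.EL
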