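import Mathlib
import Pool.Agent.Lib.MP_16ef92_ag.EL.Crv2

set_option autoImplicit false
set_option linter.unusedSectionVars false
set_option linter.unusedVariables false

namespace Pool.Agent.Lib.MP_16ef92_ag.EL

open Polynomial WeierstrassCurve WeierstrassCurve.Affine
open scoped Classical

noncomputable section

variable [Pl]

variable {B₀ B Ω : Type} [Field B₀] [Field B] [Field Ω] [Algebra B₀ B] [Algebra B Ω]
  [Algebra B₀ Ω] [IsScalarTower B₀ B Ω] [IsAlgClosed Ω] [Algebra.IsAlgebraic B Ω]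
  {W : WeierstrassCurve B₀} (C : CS B Ω W)

theorem lama_root {k : Type} [Field k] {r s q c : k[X]} {e : k} (hs : s ≠ 0) (hc : c.eval e ≠ 0)
    (h : r ^ 2 * ((X - Polynomial.C e) * c) = s ^ 2 * q) : q.eval e = 0 := by
  by_contra hq
  have h0 : s ^ 2 * q ≠ 0 := mul_ne_zero (pow_ne_zero 2 hs) (by rintro rfl; simp at hq)
  have h1 := h ▸ h0
  have h2 := congrArg (rootMultiplicity e) h
  have h3 := left_ne_zero_of_mul h1
  rw [sq] at h3
  rw [rootMultiplicity_mul h1, rootMultiplicity_mul h0,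
    rootMultiplicity_mul (right_ne_zero_of_mul h1), sq, sq, rootMultiplicity_mul h3,
    rootMultiplicity_mul (mul_ne_zero hs hs), rootMultiplicity_X_sub_C_self,
    rootMultiplicity_eq_zero hc, rootMultiplicity_eq_zero hq] at h2
  omega

theorem lama_poly {k : Type} [Field k] {r s p : k[X]} {e₀ e₁ e₂ κ a : k} (hs : s ≠ 0) (hκ : κ ≠ 0)
    (h01 : e₀ - e₁ ≠ 0) (h02 : e₀ - e₂ ≠ 0) (h12 : e₁ - e₂ ≠ 0)
    (h : r ^ 2 * ((X - Polynomial.C e₀) * (X - Polynomial.C e₁) * (X - Polynomial.C e₂)) =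
      s ^ 2 * (p ^ 2 - Polynomial.C κ * (X - Polynomial.C a))) : False := by
  by_cases hp : p.natDegree = 0
  · obtain ⟨t, rfl⟩ := natDegree_eq_zero.1 hp
    have h1 := lama_root (r := r) (e := e₀) (c := (X - Polynomial.C e₁) * (X - Polynomial.C e₂)) hs
      (by simpa using ⟨h01, h02⟩) ((by ring : _ = _).trans h)
    have h2 := lama_root (r := r) (e := e₁) (c := (X - Polynomial.C e₀) * (X - Polynomial.C e₂)) hs
      (by simpa using ⟨fun e => h01 (by linear_combination -e), h12⟩) ((by ring : _ = _).trans h)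
    simp only [eval_sub, eval_mul, eval_pow, eval_C, eval_X] at h1 h2
    exact mul_ne_zero hκ h01 (by linear_combination h2 - h1)
  · have h1 : (p ^ 2 - Polynomial.C κ * (X - Polynomial.C a)).natDegree = 2 * p.natDegree := by
      rw [natDegree_sub_eq_left_of_natDegree_lt, natDegree_pow]
      rw [natDegree_C_mul hκ, natDegree_X_sub_C, natDegree_pow]
      omega
    have h2 := mul_ne_zero (pow_ne_zero 2 hs) (ne_zero_of_natDegree_gt (n := 0) (by omega) :
      p ^ 2 - Polynomial.C κ * (X - Polynomial.C a) ≠ 0)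
    have h3 := h ▸ h2
    have h4 := congrArg natDegree h
    have hc : ((X - Polynomial.C e₀) * (X - Polynomial.C e₁) * (X - Polynomial.C e₂)).natDegree = 3 := by
      compute_degree!
    rw [natDegree_mul (left_ne_zero_of_mul h3) (right_ne_zero_of_mul h3),
      natDegree_mul (left_ne_zero_of_mul h2) (right_ne_zero_of_mul h2), h1, hc, natDegree_pow,
      natDegree_pow] at h4
    omega

namespace CS

theorem lama_mul {a b : Ω} (n : (W.baseChange Ω).toAffine.Nonsingular a b) (ha : a ∈ KK B₀ Ω)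
    (hb : b ∈ KK B₀ Ω) {O : ValuationSubring Ω} (hO : C.Hz O) :
    max (O.valuation (C.x - a)) (O.valuation (C.y + b)) *
      max (O.valuation (C.x - a)) (O.valuation (C.y - b)) = O.valuation (C.x - a) := by
  have hv : ∀ z, O.valuation.comap C.phi z ≤ 1 := fun z =>
    (O.valuation_le_one_iff _).2 (C.phi_mem O.toSubring hO.1 hO.2 hO.y z)
  have n' : (W.baseChange (KK B₀ Ω)).toAffine.Nonsingular ⟨a, ha⟩ ⟨b, hb⟩ :=
    (W.toAffine.baseChange_nonsingular (f := (KK B₀ Ω).val) Subtype.val_injective _ _).1 n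
  have := (vic_two hv _ _).mul (vic_two hv _ _)
    (I := CoordinateRing.XYIdeal _ (⟨a, ha⟩ : KK B₀ Ω) (Polynomial.C
      ((W.baseChange (KK B₀ Ω)).toAffine.negY ⟨a, ha⟩ ⟨b, hb⟩)))
    (J := CoordinateRing.XYIdeal _ (⟨a, ha⟩ : KK B₀ Ω) (Polynomial.C ⟨b, hb⟩))
  rw [CoordinateRing.XYIdeal_neg_mul n'] at this
  have h := this.uniq (vic_one hv _)
  simp only [Valuation.comap_apply, phi_X, phi_Y, (C.cub_c1a _).negY] at h
  rw [← sub_neg_eq_add]
  exact h

/-- A point is not a principal divisor.  Suppose `P = (a, b)`.  Copy `unit_const` of `Crv1`: write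
`f = u + w y`; the conjugate `u - w y` has values `vI O (-P)`, so the norm `N = u ^ 2 - w ^ 2 y ^ 2`
has the values of `x - a` (`lin` for `P`, `-P`, or directly) and `N = κ (x - a)` with `κ ≠ 0`
constant (`line_unit`).  `u` is a polynomial `p` (`line_int`, `vI_le`), `w = r / s`, and
`r ^ 2 * c = s ^ 2 * (p ^ 2 - κ (X - a))` with `c` the cubic.  Parity of degrees forces `r ≠ 0` and
`p` constant; parity of root multiplicities forces the linear factor to vanish at all three
roots of `c`, which is impossible. -/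
theorem vI_prin {P : PO Ω W} (hP : InS (KK B₀ Ω : Set Ω) P) {f : Ω} (hf : f ∈ C.E)
    (h : ∀ O, C.Hz O → O.valuation f = C.vI O P) : P = 0 := by
  rcases P with _ | ⟨a, b, n⟩
  · rfl
  exfalso
  obtain ⟨ha, hb⟩ := hP
  obtain ⟨u, hu, w, hw, rfl⟩ := C.mem_E.1 hf
  obtain ⟨g, hg, hy⟩ := C.exists_iota
  have hk := C.mem_H'.1 hg
  have h' : ∀ O, C.Hz O → O.valuation (u - w * C.y) =
      max (O.valuation (C.x - a)) (O.valuation (C.y + b)) := fun O hO => by
    obtain ⟨O, rfl⟩ : ∃ O', O = tr g O' := ⟨tr g⁻¹ O, by rw [← tr_mul, mul_inv_cancel, tr_one]⟩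
    have h1 := h O ((C.hz_tr g).1 hO)
    have e1 : u - w * C.y = g (u + w * C.y) := by
      rw [map_add, map_mul, hy, (IntermediateField.mem_fixingSubgroup_iff _ _).1 hg u hu,
        (IntermediateField.mem_fixingSubgroup_iff _ _).1 hg w hw, mul_neg, sub_eq_add_neg]
    have e2 : C.x - a = g (C.x - a) := by rw [map_sub, C.fix_x, hk a ha]
    have e3 : (tr g O).valuation (C.y + b) = (tr g O).valuation (g (C.y - b)) := by
      rw [map_sub, hy, hk b hb, ← neg_add', Valuation.map_neg]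
    rw [e1, e3, e2]
    rcases le_total (O.valuation (C.x - a)) (O.valuation (C.y - b)) with e | e
    · rw [max_eq_right (tr_val_le.2 e), tr_val_eq, h1, vI, max_eq_right e]
    · rw [max_eq_left (tr_val_le.2 e), tr_val_eq, h1, vI, max_eq_left e]
  have hx := C.x_ne ha
  have hv : ∀ O, C.Hz O → O.valuation ((u ^ 2 - w ^ 2 * C.y ^ 2) / (C.x - a)) = 1 := fun O hO => by
    rw [← mul_pow, sq_sub_sq, map_div₀, map_mul, h O hO, h' O hO, vI, mul_comm,
      C.lama_mul n ha hb hO, div_self ((_root_.map_ne_zero _).2 hx)]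
  have hN := C.line_unit (div_mem (sub_mem (pow_mem hu 2) (mul_mem (pow_mem hw 2) C.sqE_Crv1b))
    (sub_mem C.x_E' (C.kk_E' ha))) hv
  obtain ⟨p, rfl⟩ := C.line_int hu fun O hO => by
    have h1 : ∀ c ∈ KK B₀ Ω, max (O.valuation (C.x - a)) (O.valuation (C.y + c)) ≤ 1 := fun c hc =>
      max_le ((O.valuation_le_one_iff _).2 (sub_mem hO.2 (hO.1 a ha)))
        ((O.valuation_le_one_iff _).2 (add_mem hO.y (hO.1 c hc)))
    have := O.valuation.map_add_le ((h O hO).trans_le (C.vI_le hO (P := .some a b n) ⟨ha, hb⟩))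
      ((h' O hO).trans_le (h1 b hb))
    rwa [add_add_sub_cancel, ← two_mul, map_mul, hO.two, one_mul, O.valuation_le_one_iff] at this
  obtain ⟨r, s, hs, e⟩ := C.mem_E'.1 hw
  refine lama_poly (r := r) (p := p) (κ := ⟨_, hN⟩) (a := ⟨a, ha⟩) (e₀ := ⟨_, C.e_kk 0⟩)
    (e₁ := ⟨_, C.e_kk 1⟩) (e₂ := ⟨_, C.e_kk 2⟩) hs (fun e => ?_)
    (fun e => C.cub.n12 (congrArg Subtype.val e)) (fun e => C.cub.n13 (congrArg Subtype.val e))
    (fun e => C.cub.n23 (congrArg Subtype.val e)) (transcendental_iff_injective.1 C.x_trans ?_)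
  · have h1 := hv ⊤ ⟨fun _ _ => trivial, trivial⟩
    rw [show _ / _ = (0 : Ω) from congrArg Subtype.val e, map_zero] at h1
    exact zero_ne_one h1
  · simp only [map_mul, map_sub, map_pow, aeval_X, aeval_C]
    change _ * ((C.x - C.e 0) * (C.x - C.e 1) * (C.x - C.e 2)) =
      _ * (_ - (aeval C.x p ^ 2 - w ^ 2 * C.y ^ 2) / (C.x - a) * (C.x - a))
    rw [div_mul_cancel₀ _ hx, ← e, ← C.eqn]
    ring

end CS

end

end Pool.Agent.Lib.MP_16ef92_ag.EL
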