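import Mathlib
import Pool.Agent.Lib.MP_16ef92_ag.EL.Lam1
import Pool.Agent.Lib.MP_16ef92_ag.EL.LamA

set_option autoImplicit false
set_option linter.unusedSectionVars false
set_option linter.unusedVariables false

namespace Pool.Agent.Lib.MP_16ef92_ag.EL

open Polynomial WeierstrassCurve WeierstrassCurve.Affine
open scoped Classical

noncomputable section

variable [Pl]

variable {B₀ B Ω : Type} [Field B₀] [Field B] [Field Ω] [Algebra B₀ B] [Algebra B Ω]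
  [Algebra B₀ Ω] [IsScalarTower B₀ B Ω] [IsAlgClosed Ω] [Algebra.IsAlgebraic B Ω]
  {W : WeierstrassCurve B₀} (C : CS B Ω W)

namespace CS

variable {C} {n : ℕ} {P Q : PO Ω W} {χ χ' : (Ω ≃ₐ[B] Ω) → Ω}

/-- The root `w = rt n f` is fixed by `H`, so `w ^ p ^ e ∈ E` (`fix_pow`); its values are those of
`vI O P ^ p ^ e`; by `lin_pow` and `vI_prin`, `p ^ e • P = 0`; use `cop_exp`. -/
theorem Kp.inj (h : C.Kp n P χ) (h1 : ∀ g ∈ C.H, χ g = 1) : P = 0 := by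
  obtain ⟨h0, f, ⟨hf, f0, hv⟩, hχ⟩ := h
  obtain ⟨e, he⟩ := fix_pow C.E (z := rt n f) fun g hg => by
    have := (hχ g hg).symm.trans (h1 g hg)
    rwa [kum, div_eq_one_iff_eq (gala_ne f0 (rt_pow n f))] at this
  obtain ⟨g, hg, g0, hl⟩ := C.lin_pow (C.kk_Lam1 h0) (ringExpChar Ω ^ e)
  have h2 : ringExpChar Ω ^ e • P = 0 :=
    C.vI_prin ((C.kk_Lam1 h0).nsmul _) (div_mem he hg) fun O hO => by
      have h3 : O.valuation (rt n f) = C.vI O P := by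
        refine (pow_left_inj₀ zero_le zero_le (lp_ne n)).1 ?_
        rw [← map_pow, rt_pow, hv O hO]
      rw [map_div₀, map_pow, h3, hl O hO, mul_div_cancel_left₀ _ ((Valuation.ne_zero_iff _).2 g0)]
  have h4 := Nat.dvd_gcd (addOrderOf_dvd_of_nsmul_eq_zero h2) (addOrderOf_dvd_of_nsmul_eq_zero h0)
  rwa [(((cop_exp C.hl).pow_right n).pow_left e).gcd_eq_one, Nat.dvd_one,
    AddMonoid.addOrderOf_eq_one_iff] at h4

theorem Kp.eq (h : C.Kp n P χ) (h' : C.Kp n Q χ') (e : ∀ g ∈ C.H, χ g = χ' g) : P = Q := by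
  refine sub_eq_zero.1 ((h.sub h').inj fun g hg => ?_)
  obtain ⟨-, f, hf, h1⟩ := h'
  rw [Pi.div_apply, e g hg, h1 g hg, div_self (kum_ne hf.2.1)]

theorem lamOrd {f : Ω} (hA : f ∈ C.A) (hf : f ∈ C.E) (f0 : f ≠ 0)
    (hk : ∀ O, C.Hz O → ∀ σ ∈ C.H ⊓ Inr B O, kum n f σ = 1) (R : PO Ω W) :
    ∃ m : ℕ, InS (KK B₀ Ω : Set Ω) R → ∀ O, C.Hz O → C.vI O R < 1 →
      O.valuation f = (O.valuation (C.un R) ^ m) ^ ell ^ n := by
  by_cases h : InS (KK B₀ Ω : Set Ω) R ∧ ∃ O, C.Hz O ∧ C.vI O R < 1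
  swap
  · exact ⟨0, fun hR O hO hv => (h ⟨hR, O, hO, hv⟩).elim⟩
  obtain ⟨hR, O', hO', hv'⟩ := h
  have hD := C.disc_center hO' hR hv'
  obtain ⟨j, hj⟩ := hD.val f hf f0
  obtain ⟨σ, hσ, hp⟩ := hD.prim hO'.ell (fun g hg => ru_Lam1 hg) n
  have h1 := kum_val (n := n) hO'.ell hσ.2 (ru_Lam1 hσ.1) (fix_Lam1 hf hσ.1)
    (fix_Lam1 hD.mem hσ.1) hD.ne hj
  rw [hk O' hO' σ hσ, eq_comm, hp.zpow_eq_one_iff_dvd] at h1
  obtain ⟨k, rfl⟩ := h1
  have h2 : (0 : ℤ) ≤ (ell ^ n : ℕ) * k := by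
    have h3 := (O'.valuation_le_one_iff f).2 (hO'.A_le f hA)
    rwa [hj, zpow_le_one_iff_right_of_lt_one₀
      (zero_lt_iff.2 ((Valuation.ne_zero_iff _).2 hD.ne)) hD.lt] at h3
  obtain ⟨m, rfl⟩ := Int.eq_ofNat_of_zero_le
    (nonneg_of_mul_nonneg_right h2 (Int.natCast_pos.2 (lp_pos n)))
  refine ⟨m, fun _ O hO hv => ?_⟩
  obtain ⟨g, hg, rfl⟩ := C.conj_center hO' hO hR hv' hv
  rw [mul_comm, zpow_mul, zpow_natCast, zpow_natCast, ← map_pow, ← map_pow, ← tr_val_eq (g := g),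
    fix_Lam1 hf hg, fix_Lam1 (pow_mem (pow_mem hD.mem _) _) hg] at hj
  rw [hj, map_pow, map_pow]

theorem lamProd (Z : Finset (PO Ω W)) (hZ : ∀ R ∈ Z, InS (KK B₀ Ω : Set Ω) R) (m : PO Ω W → ℕ) :
    ∃ P, InS (KK B₀ Ω : Set Ω) P ∧ ∃ g ∈ C.E, g ≠ 0 ∧
      ∀ O, C.Hz O → ∏ R ∈ Z, C.vI O R ^ m R = O.valuation g * C.vI O P := by
  induction Z using Finset.induction_on with
  | empty =>
    refine ⟨0, trivial, 1, one_mem _, one_ne_zero, fun O _ => ?_⟩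
    rw [Finset.prod_empty, map_one, one_mul]
    rfl
  | insert R Z hR ih =>
    obtain ⟨P, hP, g, hg, g0, h⟩ := ih fun S hS => hZ S (Finset.mem_insert_of_mem hS)
    have h1 := hZ R (Finset.mem_insert_self _ _)
    obtain ⟨a, ha, a0, e⟩ := C.lin_pow h1 (m R)
    obtain ⟨b, hb, b0, e'⟩ := C.lin (h1.nsmul (m R)) hP
    refine ⟨_, (h1.nsmul (m R)).add hP, a * g * b, mul_mem (mul_mem ha hg) hb,
      mul_ne_zero (mul_ne_zero a0 g0) b0, fun O hO => ?_⟩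
    rw [Finset.prod_insert hR, h O hO, e O hO, mul_mul_mul_comm, e' O hO, map_mul, map_mul,
      mul_assoc, mul_assoc, mul_assoc]

/-- `kummer` gives `χ = kum n f` with `f ∈ E`; by `frac_A` and `div_Lam1` we may take `f ∈ A`.  For
`R` in the finite set `Z` of `finite_zero` the order of `f` at `R` (`disc_center`, independent of
`O` by `conj_center`) is `ell ^ n * m R` (`Disc.prim`, `kum_val`).  So
`v f = (∏ R ∈ Z, vI O R ^ m R) ^ ell ^ n` (`exists_center`, `vI_Crv2`); by `lin`, `lin_pow` the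
product is `v g * vI O P` with `P = ∑ m R • R`.  Then `f / g ^ ell ^ n` represents `P`, and
`ell ^ n • P = 0` by `lin_pow` and `vI_prin`. -/
theorem Lam.surj (h : C.Lam n χ) : ∃ P, C.Kp n P χ := by
  obtain ⟨f₀, hf₀, h0, hχ⟩ := kummer C.hl C.E (fun g hg => ru_Lam1 hg) h.1
  obtain ⟨b, hb, c, hc, c0, e⟩ := C.frac_A hf₀
  have hAE : ∀ a ∈ C.A, a ∈ C.E := fun a ha => Subring.closure_le (t := C.E.toSubring).2 (by
    rintro z (hz | rfl | rfl)
    exacts [C.kk_E hz, C.x_E, C.y_E]) ha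
  obtain ⟨f, hA, f0, hk⟩ : ∃ f ∈ C.A, f ≠ 0 ∧ ∀ g ∈ C.H, χ g = kum n f g := by
    refine ⟨f₀ / c⁻¹ ^ ell ^ n, ?_, div_ne_zero h0 (pow_ne_zero _ (inv_ne_zero c0)),
      fun g hg => by rw [div_Lam1 h0 (inv_mem (hAE c hc)) (inv_ne_zero c0) hg, hχ g hg]⟩
    obtain ⟨k, hk⟩ := Nat.exists_eq_add_one.2 (lp_pos n)
    rw [inv_pow, div_inv_eq_mul, hk, pow_succ', ← mul_assoc, e]
    exact mul_mem hb (pow_mem hc _)
  have hf := hAE f hA
  choose m hm using lamOrd hA hf f0 fun O hO σ hσ => (hk σ hσ.1).symm.trans (h.2 O hO σ hσ)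
  have hZ := C.finite_zero hA f0
  obtain ⟨P, hP, g, hg, g0, hv⟩ := lamProd (C := C) hZ.toFinset
    (fun R hR => (hZ.mem_toFinset.1 hR).1) m
  have key : ∀ O, C.Hz O → O.valuation f = (∏ R ∈ hZ.toFinset, C.vI O R ^ m R) ^ ell ^ n := by
    intro O hO
    by_cases hne : O = ⊤
    · have h1 : ∀ z : Ω, z ≠ 0 → O.valuation z = 1 := fun z hz =>
        val_of_field ⊤ (fun c _ => hne ▸ ValuationSubring.mem_top c) (Subfield.mem_top z) hz
      rw [hv O hO, h1 f f0, h1 g g0, one_mul]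
      obtain ⟨z, -, e1, -⟩ := gen_Lam1 (C := C) hP O
      rw [← e1, h1 z ((Valuation.ne_zero_iff _).1 (e1 ▸ C.vI_ne hP O)), one_pow]
    obtain ⟨Q, hQ, hl⟩ := C.exists_center hO hne
    rw [Finset.prod_congr rfl (g := fun R => if R = Q then O.valuation (C.un Q) ^ m Q else 1)
      fun R hR => by
        rw [C.vI_Crv2 hO hQ hl (hZ.mem_toFinset.1 hR).1]
        split_ifs with e1
        · rw [e1, zpow_one]
        · rw [zpow_zero, one_pow], Finset.prod_ite_eq']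
    split_ifs with e1
    · exact hm Q hQ O hO hl
    · rw [one_pow]
      exact (((O.valuation_le_one_iff f).2 (hO.A_le f hA)).eq_or_lt).resolve_right fun h' =>
        e1 (hZ.mem_toFinset.2 ⟨hQ, O, hO, hl, h'⟩)
  have hr : C.Rep n P (f / g ^ ell ^ n) :=
    ⟨div_mem hf (pow_mem hg _), div_ne_zero f0 (pow_ne_zero _ g0), fun O hO => by
      rw [map_div₀, map_pow, key O hO, hv O hO, ← div_pow,
        mul_div_cancel_left₀ _ ((Valuation.ne_zero_iff _).2 g0)]⟩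
  obtain ⟨a, ha, a0, hl⟩ := C.lin_pow hP (ell ^ n)
  refine ⟨P, C.vI_prin (hP.nsmul _) (div_mem hr.1 ha) fun O hO => ?_, _, hr, fun l hl => ?_⟩
  · rw [map_div₀, hr.2.2 O hO, hl O hO, mul_div_cancel_left₀ _ ((Valuation.ne_zero_iff _).2 a0)]
  · rw [div_Lam1 f0 hg g0 hl, hk l hl]

end CS

end

end Pool.Agent.Lib.MP_16ef92_ag.EL
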