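import Mathlib
import Pool.Agent.Lib.MP_16ef92_ag.ET.Pre

set_option autoImplicit false
set_option backward.isDefEq.respectTransparency false

namespace Pool.Agent.Lib.MP_16ef92_ag.EL

open ET

open CategoryTheory AlgebraicGeometry Opposite Limits Abelian TensorProduct

noncomputable section

/-- The group `μ_n(A)` of `n`-th roots of unity of a ring `A`, written additively. -/
def muGrp (n : ℕ) (A : Type) [CommRing A] : AddCommGrpCat.{0} :=
  AddCommGrpCat.of (Additive (rootsOfUnity n A))

/-- The map `μ_n(A) → μ_n(B)` induced by a ring homomorphism. -/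
def muHom (n : ℕ) {A B : Type} [CommRing A] [CommRing B] (f : A →+* B) : muGrp n A ⟶ muGrp n B :=
  AddCommGrpCat.ofHom (MonoidHom.toAdditive (restrictRootsOfUnity f n))

/-- The functor `A ↦ μ_n(A)` on commutative rings. -/
def muR (n : ℕ) : CommRingCat.{0} ⥤ AddCommGrpCat.{0} where
  obj A := muGrp n A
  map f := muHom n f.hom
  map_id _ := rfl
  map_comp _ _ := rfl

/-- The presheaf `V ↦ μ_n(Γ(V, O_V))` on the category of schemes. -/
def muBig (n : ℕ) : Scheme.{0}ᵒᵖ ⥤ AddCommGrpCat.{0} := Scheme.Γ ⋙ muR n

/-- The forgetful functor from the small etale site of `X` to schemes. -/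
abbrev toSch (X : Scheme.{0}) : X.Etale ⥤ Scheme.{0} := Scheme.Etale.forget X ⋙ Over.forget X

theorem toSch_cont (X : Scheme.{0}) :
    (toSch X).IsContinuous X.smallEtaleTopology Scheme.fppfTopology := by
  have : (Scheme.Etale.forget X).IsContinuous X.smallEtaleTopology
      (Scheme.fppfTopology.over X) := by
    have : RepresentablyFlat (Scheme.Etale.forget X) := flat_of_preservesFiniteLimits _
    rw [Functor.isContinuous_iff_coverPreserving]
    refine ⟨fun {V} S hS => ?_⟩
    refine GrothendieckTopology.superset_covering _ (S := S.functorPushforward _) le_rfl ?_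
    have h := (Functor.coverPreserving_restrictedTopology
      (MorphismProperty.Over.forget @Etale ⊤ X) (X.overGrothendieckTopology @Etale)).cover_preserve hS
    rw [GrothendieckTopology.mem_over_iff] at h ⊢
    exact Precoverage.toGrothendieck_mono (Scheme.precoverage_mono
      fun _ _ _ (_ : Etale _) => ⟨inferInstance, inferInstance⟩) _ h
  exact Functor.isContinuous_comp _ _ _ (Scheme.fppfTopology.over X) _

/-- The ring that represents `μ_n`. -/
abbrev muRing (n : ℕ) : Type :=
  MvPolynomial (Fin 2) ℤ ⧸ Ideal.span ({MvPolynomial.X 0 * MvPolynomial.X 1 - 1,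
    MvPolynomial.X 0 ^ n - 1} : Set (MvPolynomial (Fin 2) ℤ))

/-- The universal root of unity. -/
def muGen (n : ℕ) : rootsOfUnity n (muRing n) :=
  ⟨Units.mkOfMulEqOne (Ideal.Quotient.mk _ (MvPolynomial.X 0))
    (Ideal.Quotient.mk _ (MvPolynomial.X 1)) (by
      rw [← map_mul, ← map_one (Ideal.Quotient.mk _), Ideal.Quotient.eq]
      exact Ideal.subset_span (by simp)), by
    rw [mem_rootsOfUnity]
    apply Units.ext
    change Ideal.Quotient.mk _ (MvPolynomial.X 0) ^ n = 1
    rw [← map_pow, ← map_one (Ideal.Quotient.mk _), Ideal.Quotient.eq]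
    exact Ideal.subset_span (by simp)⟩

theorem mu_bij (n : ℕ) (A : Type) [CommRing A] : Function.Bijective
    fun f : muRing n →+* A => restrictRootsOfUnity f n (muGen n) := by
  constructor
  · intro f g h
    have h0 : Units.map (f : muRing n →* A) (muGen n).1 = Units.map (g : muRing n →* A) (muGen n).1 :=
      congrArg Subtype.val h
    refine Ideal.Quotient.ringHom_ext (MvPolynomial.ringHom_ext' (Subsingleton.elim _ _) fun i => ?_)
    fin_cases i
    · exact congrArg Units.val h0
    · exact congrArg Units.inv h0
  · intro u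
    let ev : MvPolynomial (Fin 2) ℤ →+* A :=
      MvPolynomial.eval₂Hom (Int.castRingHom A) ![u.1.1, u.1.inv]
    have hk : Ideal.span ({MvPolynomial.X 0 * MvPolynomial.X 1 - 1,
        MvPolynomial.X 0 ^ n - 1} : Set (MvPolynomial (Fin 2) ℤ)) ≤ RingHom.ker ev := by
      rw [Ideal.span_le]
      rintro _ (rfl | rfl)
      · simp [RingHom.mem_ker, ev]
      · have := congrArg Units.val ((mem_rootsOfUnity _ _).1 u.2)
        simpa [RingHom.mem_ker, sub_eq_zero, ev] using this
    refine ⟨Ideal.Quotient.lift _ ev fun a ha => hk ha, Subtype.ext (Units.ext ?_)⟩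
    change ev (MvPolynomial.X 0) = _
    simp [ev]

theorem muRepr (n : ℕ) : (muBig n ⋙ forget AddCommGrpCat.{0}).IsRepresentable := by
  let u : rootsOfUnity n Γ(Spec (CommRingCat.of (muRing n)), ⊤) :=
    restrictRootsOfUnity (Scheme.ΓSpecIso (CommRingCat.of (muRing n))).inv.hom n (muGen n)
  refine Functor.RepresentableBy.isRepresentable (Y := Spec (CommRingCat.of (muRing n)))
    { homEquiv := fun {V} => Equiv.ofBijective
        (fun f => Additive.ofMul (restrictRootsOfUnity f.appTop.hom n u)) ?_
      homEquiv_comp := fun f g => Subtype.ext (Units.ext ?_) }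
  · let e : (V ⟶ Spec (CommRingCat.of (muRing n))) ≃ (muRing n →+* Γ(V, ⊤)) :=
      ((ΓSpec.adjunction.homEquiv V (op (CommRingCat.of (muRing n)))).symm.trans
        (opEquiv _ _)).trans ⟨fun a => a.hom, fun a => CommRingCat.ofHom a, fun _ => rfl, fun _ => rfl⟩
    refine (Function.Bijective.of_comp_iff _ e.symm.bijective).1 ?_
    refine (congrArg Function.Bijective ?_).mp (mu_bij n Γ(V, ⊤))
    funext a
    refine (Subtype.ext (Units.ext ?_)).symm
    exact congrArg (fun b => b.hom (muGen n).1.1)
      (ΓSpecIso_inv_ΓSpec_adjunction_homEquiv (CommRingCat.ofHom a))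
  · exact congrArg (fun a : Γ(Spec (CommRingCat.of (muRing n)), ⊤) ⟶ _ => a.hom u.1.1)
      (Scheme.Hom.comp_appTop f g)

theorem isSheaf_mu (X : Scheme.{0}) (n : ℕ) :
    Presheaf.IsSheaf X.smallEtaleTopology ((toSch X).op ⋙ muBig n) := by
  have := toSch_cont X
  refine (toSch X).op_comp_isSheaf_of_isSheaf _ Scheme.fppfTopology _ ?_
  apply Presheaf.isSheaf_of_isSheaf_comp _ _ (forget AddCommGrpCat.{0})
  rw [isSheaf_iff_isSheaf_of_type]
  have := muRepr n
  exact GrothendieckTopology.Subcanonical.isSheaf_of_isRepresentable _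

/-- The sheaf `μ_n` on the small etale site of `X`. -/
def mu (X : Scheme.{0}) (n : ℕ) : Sheaf X.smallEtaleTopology AddCommGrpCat.{0} :=
  ⟨(toSch X).op ⋙ muBig n, isSheaf_mu X n⟩

/-- The map `μ_(l^(n+1))(A) → μ_(l^n)(A)`, `z ↦ z^l`. -/
def pwU (l n : ℕ) (A : Type) [CommRing A] :
    rootsOfUnity (l ^ (n + 1)) A →* rootsOfUnity (l ^ n) A :=
  ((powMonoidHom l).comp (rootsOfUnity (l ^ (n + 1)) A).subtype).codRestrict
    (rootsOfUnity (l ^ n) A) fun x => by
      have : x.1 ^ (l * l ^ n) = 1 := by
        rw [← pow_succ']
        exact x.2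
      rw [pow_mul] at this
      exact this

/-- The same map of additive groups. -/
def pwGrp (l n : ℕ) (A : Type) [CommRing A] : muGrp (l ^ (n + 1)) A ⟶ muGrp (l ^ n) A :=
  AddCommGrpCat.ofHom (MonoidHom.toAdditive (pwU l n A))

/-- The `l`-th power map of functors on rings. -/
def pwR (l n : ℕ) : muR (l ^ (n + 1)) ⟶ muR (l ^ n) where
  app A := pwGrp l n A
  naturality _ _ f :=
    AddCommGrpCat.ext fun x => Subtype.ext (Units.ext (map_pow f.hom _ l).symm)

/-- The `l`-th power map `μ_(l^(n+1)) → μ_(l^n)` of presheaves on schemes. -/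
def pwBig (l n : ℕ) : muBig (l ^ (n + 1)) ⟶ muBig (l ^ n) :=
  Functor.whiskerLeft Scheme.Γ (pwR l n)

/-- The `l`-th power map of etale sheaves. -/
def pw (X : Scheme.{0}) (l n : ℕ) : mu X (l ^ (n + 1)) ⟶ mu X (l ^ n) :=
  ⟨Functor.whiskerLeft (toSch X).op (pwBig l n)⟩

attribute [scoped instance 3000] sheafIsAbelian

scoped instance (priority := 3000) shfy (X : Scheme.{0}) :
    HasSheafify X.smallEtaleTopology AddCommGrpCat.{0} := inferInstance

scoped instance (priority := 3000) wshfy (X : Scheme.{0}) :
    HasWeakSheafify X.smallEtaleTopology AddCommGrpCat.{0} := inferInstance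

/-- The additive structure of the abelian category of sheaves. -/
scoped instance (priority := 3000) preSh (X : Scheme.{0}) :
    Preadditive (Sheaf X.smallEtaleTopology AddCommGrpCat.{0}) := Abelian.toPreadditive

/-- Its zero maps. -/
scoped instance (priority := 3000) zeroSh (X : Scheme.{0}) :
    HasZeroMorphisms (Sheaf X.smallEtaleTopology AddCommGrpCat.{0}) :=
  Preadditive.preadditiveHasZeroMorphisms

scoped instance (priority := 3000) grothSh (X : Scheme.{0}) :
    IsGrothendieckAbelian.{0} (Sheaf X.smallEtaleTopology AddCommGrpCat.{0}) :=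
  Scheme.isGrothendieckAbelian_sheaf_smallEtaleTopology X AddCommGrpCat.{0}

scoped instance (priority := 3000) hasExtSh (X : Scheme.{0}) :
    HasExt.{0} (Sheaf X.smallEtaleTopology AddCommGrpCat.{0}) :=
  IsGrothendieckAbelian.hasExt.{0} _

scoped instance (priority := 3000) enoughSh (X : Scheme.{0}) :
    EnoughInjectives (Sheaf X.smallEtaleTopology AddCommGrpCat.{0}) := inferInstance

scoped instance (priority := 3000) etStable :
    MorphismProperty.IsStableUnderComposition @Etale.{0} := inferInstance

variable {X : Scheme.{0}} (φ : X ≅ X)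

/-- An automorphism `φ` of `X` acts on the small etale site by composing the structure maps
`V ⟶ X` with `φ`. -/
def tw : X.Etale ⥤ X.Etale :=
  MorphismProperty.Over.map ⊤ (P := @Etale) (f := φ.hom) (inferInstanceAs (Etale φ.hom))

/-- The functors attached to `φ` and to its inverse are adjoint. -/
def twAdj : tw φ ⊣ tw φ.symm where
  unit := { app := fun V => MorphismProperty.Over.homMk (𝟙 V.left) (by simp [tw])
            naturality := fun V W f => MorphismProperty.Over.Hom.ext
              ((Category.comp_id f.left).trans (Category.id_comp f.left).symm) }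
  counit := { app := fun V => MorphismProperty.Over.homMk (𝟙 V.left)
                ((Category.id_comp _).trans (by simp [tw]))
              naturality := fun V W f => MorphismProperty.Over.Hom.ext
                ((Category.comp_id f.left).trans (Category.id_comp f.left).symm) }
  left_triangle_components V := MorphismProperty.Over.Hom.ext (Category.comp_id (𝟙 V.left))
  right_triangle_components V := MorphismProperty.Over.Hom.ext (Category.comp_id (𝟙 V.left))

theorem tw_cocont : (tw φ).IsCocontinuous X.smallEtaleTopology X.smallEtaleTopology := by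
  refine ⟨fun {U S} hS => (mem_cover _).2 fun v => ?_⟩
  obtain ⟨W, f, w, hf, h⟩ := (mem_cover _).1 hS v
  refine ⟨(tw φ.symm).obj W, MorphismProperty.Over.homMk f.left ?_, w, ?_, h⟩
  · have := MorphismProperty.Over.w f
    simp only [tw, MorphismProperty.Over.map_obj_hom] at this ⊢
    simp [← this]
  · have := S.downward_closed hf ((twAdj φ).counit.app W)
    refine (congrArg (fun a => S.arrows a) ?_).mp this
    exact MorphismProperty.Over.Hom.ext (Category.id_comp f.left)

instance tw_cont : (tw φ).IsContinuous X.smallEtaleTopology X.smallEtaleTopology :=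
  haveI := tw_cocont φ.symm
  (twAdj φ.symm).isContinuous_of_isCocontinuous _ _

/-- Transport of etale sheaves along `φ`: the sheaf `F` goes to `V ↦ F (tw φ V)`. -/
abbrev push : Sheaf X.smallEtaleTopology AddCommGrpCat.{0} ⥤
    Sheaf X.smallEtaleTopology AddCommGrpCat.{0} :=
  (tw φ).sheafPushforwardContinuous AddCommGrpCat.{0} X.smallEtaleTopology X.smallEtaleTopology

instance push_left : (push φ).IsLeftAdjoint :=
  ((twAdj φ).sheafPushforwardContinuous _ _).isLeftAdjoint

instance push_right : (push φ).IsRightAdjoint :=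
  ((twAdj φ.symm).sheafPushforwardContinuous _ _).isRightAdjoint

instance (priority := 3000) push_lim : PreservesFiniteLimits (push φ) := inferInstance

instance (priority := 3000) push_colim : PreservesFiniteColimits (push φ) := inferInstance

instance (priority := 3000) push_add : (push φ).Additive where
  map_add := rfl

/-- The constant sheaf with value the integers. -/
abbrev zz (X : Scheme.{0}) : Sheaf X.smallEtaleTopology AddCommGrpCat.{0} :=
  (constantSheaf X.smallEtaleTopology AddCommGrpCat.{0}).obj (AddCommGrpCat.of (ULift ℤ))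

/-- The canonical map from the constant sheaf to its transport along `φ`. -/
def zzMap : zz X ⟶ (push φ).obj (zz X) :=
  ((sheafificationAdjunction X.smallEtaleTopology AddCommGrpCat.{0}).homEquiv _ _).symm
    (Functor.whiskerLeft (tw φ).op
      (toSheafify X.smallEtaleTopology ((Functor.const _).obj (AddCommGrpCat.of (ULift ℤ)))))

/-- The transport of `μ_n` along `φ` is `μ_n`: the scheme `V` is unchanged. -/
def muMap (n : ℕ) : (push φ).obj (mu X n) ⟶ mu X n := ⟨𝟙 _⟩

/-- The action of the automorphism `φ` on `H^i(X, μ_n)` by transport of structure. -/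
def actH (n i : ℕ) (x : (mu X n).H i) : (mu X n).H i :=
  (Ext.mk₀ (zzMap φ)).comp ((x.mapExactFunctor (push φ)).comp (Ext.mk₀ (muMap φ n)) (add_zero i))
    (zero_add i)

section Frob

variable (F : Type) [Field F] [Fintype F] (R : Type) [CommRing R] [Algebra F R]

/-- The base change of `Spec R` to the algebraic closure of `F`. -/
abbrev bar : Scheme.{0} := Spec (CommRingCat.of (AlgebraicClosure F ⊗[F] R))

/-- The Frobenius element of the Galois group acting on the base change through the first factor. -/
def frob : bar F R ≅ bar F R :=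
  Scheme.Spec.mapIso (Algebra.TensorProduct.congr
    (FiniteField.frobeniusAlgEquivOfAlgebraic F (AlgebraicClosure F))
    (AlgEquiv.refl : R ≃ₐ[F] R)).toRingEquiv.toCommRingCatIso.op

end Frob

end

end Pool.Agent.Lib.MP_16ef92_ag.EL
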