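import Mathlib
import Pool.Agent.Lib.MP_16ef92_ag.EL.Defs
import Pool.Agent.Lib.MP_16ef92_ag.EL.GalB

set_option autoImplicit false
set_option linter.unusedSectionVars false
set_option linter.unusedVariables false

namespace Pool.Agent.Lib.MP_16ef92_ag.EL

open ET

open CategoryTheory AlgebraicGeometry
open scoped Classical

noncomputable section

variable [Pl]

variable {B Ω : Type} [Field B] [Field Ω] [Algebra B Ω]
variable {R : Type} [CommRing R]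

/-- `R` embeds in `Ω` with fraction field `L`, contains the 2-power roots of unity, and every
maximal ideal is locally generated by a prime element of the family `Pi` and one more element. -/
structure Amb (ι : R →+* Ω) (L : IntermediateField B Ω) (Pi : Set R) : Prop where
  inj : Function.Injective ι
  mem : ∀ r, ι r ∈ L
  frac : ∀ a ∈ L, ∃ b c, ι c ≠ 0 ∧ a * ι c = ι b
  root : ∀ (m : ℕ) (w : Ω), w ^ ell ^ m = 1 → ∃ r, ι r = w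
  two : IsUnit (ell : R)
  noeth : IsNoetherianRing R
  jac : IsJacobsonRing R
  prime : ∀ p ∈ Pi, Prime p
  diff : ∀ p ∈ Pi, ∀ p' ∈ Pi, p ≠ p' → IsUnit (p - p')
  good : ∀ m : Ideal R, m.IsMaximal → ∃ p ∈ Pi, ∃ w s : R, p ∈ m ∧ w ∈ m ∧ s ∉ m ∧ ¬ p ∣ w ∧
    ∀ a ∈ m, s * a ∈ Ideal.span {p, w}

/-- The valuation subring contains the image of `R`. -/
def Ov (ι : R →+* Ω) (O : ValuationSubring Ω) : Prop := ∀ r, ι r ∈ O

/-- Horizontal valuation subrings, and those centred at one of the vertical primes. -/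
def Dv (ι : R →+* Ω) (Pi : Set R) (O : ValuationSubring Ω) : Prop :=
  Ov ι O ∧ ((∀ p ∈ Pi, O.valuation (ι p) = 1) ∨
    ∃ p ∈ Pi, ∀ r, O.valuation (ι r) < 1 ↔ p ∣ r)

/-- A continuous 2-cocycle of `G` with an equivariant system of trivialisations on the inertia
groups. -/
structure Pr (ι : R →+* Ω) (G : Subgroup (Ω ≃ₐ[B] Ω)) (n : ℕ)
    (β : (Ω ≃ₐ[B] Ω) → (Ω ≃ₐ[B] Ω) → Ω) (e : ValuationSubring Ω → (Ω ≃ₐ[B] Ω) → Ω) : Prop where
  pow : ∀ g ∈ G, ∀ h ∈ G, β g h ^ ell ^ n = 1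
  coc : ∀ g ∈ G, ∀ h ∈ G, ∀ l ∈ G, β g h * β (g * h) l = β h l * β g (h * l)
  cts : Cts2 G β
  epow : ∀ O, Ov ι O → ∀ σ ∈ G ⊓ Inr B O, e O σ ^ ell ^ n = 1
  ecob : ∀ O, Ov ι O → ∀ σ ∈ G ⊓ Inr B O, ∀ τ ∈ G ⊓ Inr B O,
    β σ τ * e O (σ * τ) = e O σ * e O τ
  eqv : ∀ O, Ov ι O → ∀ g ∈ G, ∀ σ ∈ G ⊓ Inr B O,
    e (tr g O) (g * σ * g⁻¹) * β g σ = β (g * σ * g⁻¹) g * e O σ
  near : Near fun σ => ∀ O, Ov ι O → σ ∈ G ⊓ Inr B O → e O σ = β 1 1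

/-- A continuous cochain with coboundary `β`. -/
structure Cob (G : Subgroup (Ω ≃ₐ[B] Ω)) (n : ℕ) (β : (Ω ≃ₐ[B] Ω) → (Ω ≃ₐ[B] Ω) → Ω)
    (b : (Ω ≃ₐ[B] Ω) → Ω) : Prop where
  pow : ∀ g ∈ G, b g ^ ell ^ n = 1
  cts : Cts G b
  cob : ∀ g ∈ G, ∀ h ∈ G, β g h * b (g * h) = b g * b h

variable [IsAlgClosed Ω] [Algebra.IsAlgebraic B Ω]

/-- The interface of the sheaf side: a relation between etale classes and pairs. -/
structure SInt (ι : R →+* Ω) (L : IntermediateField B Ω) (Pi : Set R)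
    (Cls : ∀ n : ℕ, (mu (Spec (CommRingCat.of R)) (ell ^ n)).H 2 →
      ((Ω ≃ₐ[B] Ω) → (Ω ≃ₐ[B] Ω) → Ω) → (ValuationSubring Ω → (Ω ≃ₐ[B] Ω) → Ω) → Prop) : Prop where
  total : ∀ n x, ∃ β e, Cls n x β e
  pr : ∀ n x β e, Cls n x β e → Pr ι L.fixingSubgroup n β e
  sub : ∀ n x β e x' β' e', Cls n x β e → Cls n x' β' e' → Cls n (x - x') (β / β') (e / e')
  zero : ∀ n β e, Cls n 0 β e → ∃ b, Cob L.fixingSubgroup n β b ∧
    ∀ O, Ov ι O → ∀ σ ∈ L.fixingSubgroup ⊓ Inr B O, e O σ = b σ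
  inj : ∀ n x β e b, Cls n x β e → Cob L.fixingSubgroup n β b →
    (∀ O, Dv ι Pi O → ∀ σ ∈ L.fixingSubgroup ⊓ Inr B O, e O σ = b σ) → x = 0
  sq : ∀ n x β e, Cls (n + 1) x β e →
    Cls n (Sheaf.H.map (pw (Spec (CommRingCat.of R)) ell n) 2 x) (β ^ ell) (e ^ ell)
  act : ∀ (σ : R ≃+* R) (s : Ω ≃ₐ[B] Ω), (∀ r, s (ι r) = ι (σ r)) → ∀ n x β e, Cls n x β e →
    Cls n (actH (Scheme.Spec.mapIso σ.toCommRingCatIso.op) (ell ^ n) 2 x)
      (fun g h => s (β (s⁻¹ * g * s) (s⁻¹ * h * s))) fun O g => s (e (tr s⁻¹ O) (s⁻¹ * g * s))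

end

end Pool.Agent.Lib.MP_16ef92_ag.EL
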