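import Mathlib
import Pool.Agent.Lib.MP_16ef92_ag.EL.Lam
import Pool.Agent.Lib.MP_16ef92_ag.EL.SInt

set_option autoImplicit false
set_option linter.unusedSectionVars false
set_option linter.unusedVariables false

namespace Pool.Agent.Lib.MP_16ef92_ag.EL

open ET

open Polynomial WeierstrassCurve WeierstrassCurve.Affine
open scoped Classical

noncomputable section

variable [Pl]

variable {B₀ B Ω : Type} [Field B₀] [Field B] [Field Ω] [Algebra B₀ B] [Algebra B Ω]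
  [Algebra B₀ Ω] [IsScalarTower B₀ B Ω] [IsAlgClosed Ω] [Algebra.IsAlgebraic B Ω]
  {W : WeierstrassCurve B₀} (C : CS B Ω W)
variable {R : Type} [CommRing R]

/-- Vanishing of the second cohomology of the quotient `G / H`. -/
def TsQ (G H : Subgroup (Ω ≃ₐ[B] Ω)) : Prop :=
  ∀ (n : ℕ) (c : (Ω ≃ₐ[B] Ω) → (Ω ≃ₐ[B] Ω) → Ω), (∀ g ∈ G, ∀ l ∈ G, c g l ^ ell ^ n = 1) →
    (∀ g ∈ G, ∀ h ∈ G, ∀ l ∈ G, c g h * c (g * h) l = c h l * c g (h * l)) → Cts2 G c →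
    (∀ h ∈ H, ∀ g ∈ G, ∀ l ∈ G, c (g * h) l = c g l ∧ c g (l * h) = c g l) →
    ∃ b, Cob G n c b ∧ ∀ h ∈ H, ∀ g ∈ G, b (g * h) = b g

namespace CS

/-- How the surface ring `R` sits with respect to the generic fibre. -/
structure Fib (ι : R →+* Ω) (L : IntermediateField B Ω) (Pi : Set R) : Prop where
  amb : Amb ι L Pi
  le : L ≤ C.E
  y : C.y ∈ L
  ov : ∀ O, C.Hz O → Ov ι O
  hz : ∀ O, Ov ι O → (∀ p ∈ Pi, O.valuation (ι p) = 1) → C.Hz O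
  ts : TsQ L.fixingSubgroup C.H

/-- A trivialisation on `H` that agrees with `e` on the horizontal inertia groups. -/
def Nm (n : ℕ) (β : (Ω ≃ₐ[B] Ω) → (Ω ≃ₐ[B] Ω) → Ω) (e : ValuationSubring Ω → (Ω ≃ₐ[B] Ω) → Ω)
    (b : (Ω ≃ₐ[B] Ω) → Ω) : Prop :=
  Cob C.H n β b ∧ ∀ O, C.Hz O → ∀ σ ∈ C.H ⊓ Inr B O, e O σ = b σ

/-- The quotient of the trivialisation `b` and of its conjugate by `g`. -/
def twc (β : (Ω ≃ₐ[B] Ω) → (Ω ≃ₐ[B] Ω) → Ω) (b : (Ω ≃ₐ[B] Ω) → Ω) (g h : Ω ≃ₐ[B] Ω) : Ω :=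
  b h * β g (g⁻¹ * h * g) / (b (g⁻¹ * h * g) * β h g)

/-- The cocycle of torsion points attached to a pair. -/
def Ac (G : Subgroup (Ω ≃ₐ[B] Ω)) (n : ℕ) (β : (Ω ≃ₐ[B] Ω) → (Ω ≃ₐ[B] Ω) → Ω)
    (e : ValuationSubring Ω → (Ω ≃ₐ[B] Ω) → Ω) (a : (Ω ≃ₐ[B] Ω) → PO Ω W) : Prop :=
  ∃ b, C.Nm n β e b ∧ ∀ g ∈ G, C.Kp n (a g) (twc β b g)

end CS

end

end Pool.Agent.Lib.MP_16ef92_ag.EL
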