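import Mathlib
import Pool.Agent.Lib.MP_16ef92_ag.AL.IDef
import Pool.Agent.Lib.MP_16ef92_ag.EL.NDef

set_option autoImplicit false
set_option linter.unusedSectionVars false
set_option linter.unusedVariables false

namespace Pool.Agent.Lib.MP_16ef92_ag.EL

open ET

open Polynomial WeierstrassCurve WeierstrassCurve.Affine
open scoped Classical

noncomputable section

variable [Pl]

variable {F : Type} [Field F] [Fintype F] [Clos F] [hq : Fact (Odd (Fintype.card F))]
  {B Ω : Type} [Field B] [Field Ω] [Algebra (RatFunc F) B] [Algebra B Ω] [Algebra (RatFunc F) Ω]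
  [IsScalarTower (RatFunc F) B Ω] [IsAlgClosed Ω] [Algebra.IsAlgebraic B Ω]
  [Algebra F Ω] [IsScalarTower F (RatFunc F) Ω]
  [Algebra (Om F) Ω] [IsScalarTower (RatFunc F) (Om F) Ω]
  {W : WeierstrassCurve (RatFunc F)} (C : CS B Ω W)

variable (F) in
/-- Restriction of automorphisms to the separable closure of `F(t)`. -/
def res : (Ω ≃ₐ[B] Ω) →* Gam F :=
  (AlgEquiv.restrictNormalHom (F := RatFunc F) (K₁ := Ω) (Om F)).comp
    (MonoidHom.mk' (fun g : Ω ≃ₐ[B] Ω => g.restrictScalars (RatFunc F)) fun _ _ => rfl)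

theorem res_spec (g : Ω ≃ₐ[B] Ω) (z : Om F) :
    algebraMap (Om F) Ω (res F g z) = g (algebraMap (Om F) Ω z) :=
  AlgEquiv.restrictNormal_commutes (g.restrictScalars (RatFunc F)) (Om F) z

variable (Ω) in
/-- Points over the separable closure as points over the big field. -/
abbrev emb : Pt W →+ PO Ω W :=
  Point.map (W' := W.toAffine) (IsScalarTower.toAlgHom (RatFunc F) (Om F) Ω)

/-- The function field of the surface over the algebraic closure of `F`. -/
def CS.L : IntermediateField B Ω :=
  IntermediateField.adjoin B ({c : Ω | IsAlgebraic F c} ∪ {C.y})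

end

end Pool.Agent.Lib.MP_16ef92_ag.EL
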