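import Mathlib
import Pool.Agent.Lib.MP_16ef92_ag.EL.NDef

set_option autoImplicit false
set_option linter.unusedSectionVars false
set_option linter.unusedVariables false

namespace Pool.Agent.Lib.MP_16ef92_ag.EL

open ET

open Polynomial WeierstrassCurve WeierstrassCurve.Affine
open scoped Classical

noncomputable section

variable [Pl]

variable {B₀ B Ω : Type} [Field B₀] [Field B] [Field Ω] [Algebra B₀ B] [Algebra B Ω]
  [Algebra B₀ Ω] [IsScalarTower B₀ B Ω] [IsAlgClosed Ω] [Algebra.IsAlgebraic B Ω]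
  {W : WeierstrassCurve B₀} (C : CS B Ω W)
variable {R : Type} [CommRing R]

section cochain

variable {G H : Subgroup (Ω ≃ₐ[B] Ω)} {ι : R →+* Ω} {n : ℕ}
  {β : (Ω ≃ₐ[B] Ω) → (Ω ≃ₐ[B] Ω) → Ω} {e : ValuationSubring Ω → (Ω ≃ₐ[B] Ω) → Ω}
  {b χ : (Ω ≃ₐ[B] Ω) → Ω}

theorem n1_ne {x : Ω} (h : x ^ ell ^ n = 1) : x ≠ 0 := fun e => by
  rw [e, zero_pow (by first | exact lp_pos _ | exact lp_ne _ | positivity)] at h
  exact zero_ne_one h

theorem Pr.ne (hp : Pr ι G n β e) {g h : Ω ≃ₐ[B] Ω} (hg : g ∈ G) (hh : h ∈ G) : β g h ≠ 0 :=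
  n1_ne (hp.pow g hg h hh)

theorem Pr.one_left (hp : Pr ι G n β e) {g : Ω ≃ₐ[B] Ω} (hg : g ∈ G) : β 1 g = β 1 1 := by
  have := hp.coc 1 G.one_mem 1 G.one_mem g hg
  rw [one_mul, one_mul] at this
  exact (mul_right_cancel₀ (hp.ne G.one_mem hg) this).symm

theorem Pr.one_right (hp : Pr ι G n β e) {g : Ω ≃ₐ[B] Ω} (hg : g ∈ G) : β g 1 = β 1 1 := by
  have := hp.coc g hg 1 G.one_mem 1 G.one_mem
  rw [mul_one, mul_one] at this
  exact mul_right_cancel₀ (hp.ne hg G.one_mem) this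

theorem Cob.ne (h : Cob H n β b) {g : Ω ≃ₐ[B] Ω} (hg : g ∈ H) : b g ≠ 0 := n1_ne (h.pow g hg)

theorem Cob.one (h : Cob H n β b) : b 1 = β 1 1 := by
  have := h.cob 1 H.one_mem 1 H.one_mem
  rw [mul_one] at this
  exact (mul_right_cancel₀ (h.ne H.one_mem) this).symm

theorem Cob.near (h : Cob H n β b) : Near fun g => g ∈ H → b g = β 1 1 :=
  h.cts.mono fun g hg hH => by
    have := hg hH 1 H.one_mem
    rwa [one_mul, h.one] at this

theorem Cob.mono (h : Cob G n β b) (hle : H ≤ G) : Cob H n β b :=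
  ⟨fun g hg => h.pow g (hle hg), h.cts.mono fun _ hl hH g hg => hl (hle hH) g (hle hg),
    fun g hg l hl => h.cob g (hle hg) l (hle hl)⟩

theorem Chr.ne (h : Chr H n χ) {g : Ω ≃ₐ[B] Ω} (hg : g ∈ H) : χ g ≠ 0 := n1_ne (h.pow g hg)

theorem Chr.conj_eq (h : Chr H n χ) {g l : Ω ≃ₐ[B] Ω} (hg : g ∈ H) (hl : l ∈ H) :
    χ (g⁻¹ * l * g) = χ l := by
  have h1 := h.mul g hg _ (H.mul_mem (H.mul_mem (H.inv_mem hg) hl) hg)
  rw [show g * (g⁻¹ * l * g) = l * g by group, h.mul l hl g hg, mul_comm] at h1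
  exact (mul_left_cancel₀ (h.ne hg) h1).symm

theorem Cob.mul_chr (h : Cob H n β b) (hχ : Chr H n χ) : Cob H n β (b * χ) :=
  ⟨fun g hg => by rw [Pi.mul_apply, mul_pow, h.pow g hg, hχ.pow g hg, mul_one],
    (h.cts.and hχ.near).mono fun l hl hH g hg => by
      rw [Pi.mul_apply, Pi.mul_apply, hl.1 hH g hg, hχ.mul g hg l hH, hl.2 hH, mul_one],
    fun g hg l hl => by
      rw [Pi.mul_apply, Pi.mul_apply, Pi.mul_apply, hχ.mul g hg l hl, ← mul_assoc, h.cob g hg l hl]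
      ring⟩

theorem Amb.nru {L : IntermediateField B Ω} {Pi : Set R} (hA : Amb ι L Pi) {g : Ω ≃ₐ[B] Ω}
    (hg : g ∈ L.fixingSubgroup) : Ru g := fun m w hw => by
  obtain ⟨r, rfl⟩ := hA.root m w hw
  exact (IntermediateField.mem_fixingSubgroup_iff _ _).1 hg _ (hA.mem r)

theorem Amb.n2ne {L : IntermediateField B Ω} {Pi : Set R} (hA : Amb ι L Pi) : (ell : Ω) ≠ 0 := by
  have := (hA.two.map ι).ne_zero
  rwa [map_natCast] at this

end cochain

namespace CS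

variable {C} {ι : R →+* Ω} {L : IntermediateField B Ω} {Pi : Set R} {n : ℕ}
  {β β' : (Ω ≃ₐ[B] Ω) → (Ω ≃ₐ[B] Ω) → Ω} {e e' : ValuationSubring Ω → (Ω ≃ₐ[B] Ω) → Ω}
  {b : (Ω ≃ₐ[B] Ω) → Ω} {a a' : (Ω ≃ₐ[B] Ω) → PO Ω W}

theorem Fib.ru (hF : C.Fib ι L Pi) {g : Ω ≃ₐ[B] Ω} (hg : g ∈ L.fixingSubgroup) : Ru g := hF.amb.nru hg

theorem Fib.H_le (hF : C.Fib ι L Pi) : C.H ≤ L.fixingSubgroup := fun g hg =>
  (IntermediateField.mem_fixingSubgroup_iff _ _).2 fun z hz =>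
    (IntermediateField.mem_fixingSubgroup_iff _ _).1 hg z (hF.le hz)

theorem Fib.fix_y (hF : C.Fib ι L Pi) {g : Ω ≃ₐ[B] Ω} (hg : g ∈ L.fixingSubgroup) :
    g C.y = C.y := (IntermediateField.mem_fixingSubgroup_iff _ _).1 hg _ hF.y

theorem Fib.conj (hF : C.Fib ι L Pi) {g h : Ω ≃ₐ[B] Ω} (hg : g ∈ L.fixingSubgroup)
    (hh : h ∈ C.H) : g⁻¹ * h * g ∈ C.H := C.conj_H (Or.inl (hF.fix_y hg)) hh

/-- A cochain with coboundary `β` on a subgroup satisfies the conjugation formula. -/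
theorem cob_conj {G : Subgroup (Ω ≃ₐ[B] Ω)} (h : Cob G n β b) {g σ : Ω ≃ₐ[B] Ω} (hg : g ∈ G)
    (hσ : σ ∈ G) (h0 : β (g * σ * g⁻¹) g ≠ 0) :
    b (g * σ * g⁻¹) * β g σ = β (g * σ * g⁻¹) g * b σ := by
  have h1 := h.cob g hg σ hσ
  have h2 := h.cob _ (G.mul_mem (G.mul_mem hg hσ) (G.inv_mem hg)) g hg
  rw [inv_mul_cancel_right] at h2
  apply mul_left_cancel₀ (h.ne hg)
  linear_combination β (g * σ * g⁻¹) g * h1 - β g σ * h2

/-- `h2_zero` for `H` gives `b₀`; apply `pic` to `e O / b₀` (note `b₀ 1 = β 1 1`). -/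
theorem nm_ex (hF : C.Fib ι L Pi) (hp : Pr ι L.fixingSubgroup n β e) : ∃ b, C.Nm n β e b := by
  have hle := hF.H_le
  have hr : ∀ g ∈ C.H, Ru g := fun g hg => hF.ru (hle hg)
  obtain ⟨b₀, p0, c0, k0⟩ := h2_zero hF.amb.n2ne C.H hr C.nrm_H β
    (fun g hg h hh => hp.pow g (hle hg) h (hle hh))
    (fun g hg h hh l hl => hp.coc g (hle hg) h (hle hh) l (hle hl))
    (hp.cts.mono fun h hh hH g hg l hl => hh (hle hH) g (hle hg) l (hle hl))
  have hb : Cob C.H n β b₀ := ⟨p0, c0, k0⟩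
  obtain ⟨f, hfE, hf0, hf⟩ := C.pic (n := n) (fun O σ => e O σ / b₀ σ)
    (fun O hO => ⟨fun g hg => by
        rw [div_pow, hp.epow O (hF.ov O hO) g ⟨hle hg.1, hg.2⟩, p0 g hg.1, div_one],
      fun g hg h hh => by
        rw [div_mul_div_comm, ← hp.ecob O (hF.ov O hO) g ⟨hle hg.1, hg.2⟩ h ⟨hle hh.1, hh.2⟩,
          ← k0 g hg.1 h hh.1, mul_div_mul_left _ _ (hp.ne (hle hg.1) (hle hh.1))],
      (hp.near.and hb.near).mono fun g hg hH => by
        rw [hg.1 O (hF.ov O hO) ⟨hle hH.1, hH.2⟩, hg.2 hH.1,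
          div_self (hp.ne (one_mem _) (one_mem _))]⟩)
    (fun O hO g hg σ hσ => by
      have h0 := hp.ne (hle (mul_mem (mul_mem hg hσ.1) (inv_mem hg))) (hle hg)
      rw [← mul_div_mul_right _ _ (hp.ne (hle hg) (hle hσ.1)),
        hp.eqv O (hF.ov O hO) g (hle hg) σ ⟨hle hσ.1, hσ.2⟩, cob_conj hb hg hσ.1 h0,
        mul_div_mul_left _ _ h0])
    ((hp.near.and hb.near).mono fun g hg O hO hH => by
      rw [hg.1 O (hF.ov O hO) ⟨hle hH.1, hH.2⟩, hg.2 hH.1,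
        div_self (hp.ne (one_mem _) (one_mem _))])
  refine ⟨b₀ * kum n f, hb.mul_chr (chr_kum hr hf0 fun g hg =>
    (IntermediateField.mem_fixingSubgroup_iff _ _).1 hg f hfE), fun O hO σ hσ => ?_⟩
  rw [_root_.Pi.mul_apply, ← hf O hO σ hσ, mul_div_cancel₀ _ (hb.ne hσ.1)]

theorem twc_chr (hF : C.Fib ι L Pi) (hp : Pr ι L.fixingSubgroup n β e) (h : Cob C.H n β b)
    {g : Ω ≃ₐ[B] Ω} (hg : g ∈ L.fixingSubgroup) : Chr C.H n (twc β b g) := by
  have hle := hF.H_le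
  refine ⟨fun l hl => ?_, fun l hl l' hl' => ?_, ?_⟩
  · rw [twc, div_pow, mul_pow, mul_pow, h.pow l hl, h.pow _ (hF.conj hg hl),
      hp.pow g hg _ (hle (hF.conj hg hl)), hp.pow l (hle hl) g hg, div_self (by simp)]
  · have hk := hF.conj hg hl
    have hk' := hF.conj hg hl'
    have e0 : g⁻¹ * (l * l') * g = g⁻¹ * l * g * (g⁻¹ * l' * g) := by group
    have e1 : g * (g⁻¹ * l * g) = l * g := by group
    have e2 : g * (g⁻¹ * l' * g) = l' * g := by group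
    unfold twc
    rw [e0]
    generalize g⁻¹ * l * g = k at hk e1 ⊢
    generalize g⁻¹ * l' * g = k' at hk' e2 ⊢
    have c1 := hp.coc g hg k (hle hk) k' (hle hk')
    have c2 := hp.coc l (hle hl) g hg k' (hle hk')
    have c3 := hp.coc l (hle hl) l' (hle hl') g hg
    rw [e1] at c1
    rw [e2] at c2
    have b1 := h.cob l hl l' hl'
    have b2 := h.cob k hk k' hk'
    have key : β g (k * k') * β k k' * β l g * β l' g = β g k * β g k' * β l l' * β (l * l') g := by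
      linear_combination -β l g * β l' g * c1 + β g k * β l' g * c2 - β g k * β g k' * c3
    rw [div_mul_div_comm, div_eq_div_iff (mul_ne_zero (h.ne (mul_mem hk hk'))
      (hp.ne (hle (mul_mem hl hl')) hg)) (mul_ne_zero (mul_ne_zero (h.ne hk) (hp.ne (hle hl) hg))
      (mul_ne_zero (h.ne hk') (hp.ne (hle hl') hg)))]
    linear_combination b (l * l') * b (k * k') * key -
      b (l * l') * β g (k * k') * β l g * β l' g * b2 +
      β g k * β g k' * b (k * k') * β (l * l') g * b1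
  · refine (((h.near.and (h.near.conj g)).and (hp.cts.and (hp.cts.conj g))).mono
      fun l hl hH => ?_)
    have hk := hF.conj hg hH
    have e1 := (hl.2.2 (hle hk) g hg 1 (one_mem _)).2
    have e2 := (hl.2.1 (hle hH) 1 (one_mem _) g hg).1
    rw [one_mul] at e1 e2
    rw [twc, hl.1.1 hH, hl.1.2 hk, e1, e2, hp.one_right hg, hp.one_left hg,
      div_self (mul_ne_zero (hp.ne (one_mem _) (one_mem _)) (hp.ne (one_mem _) (one_mem _)))]

/-- In the central extension attached to `β`, `twc β b g` compares the section `b` on `H` with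
its conjugate by `g`; it is unramified by `Pr.eqv` for `tr g⁻¹ O`. -/
theorem Nm.lam (hF : C.Fib ι L Pi) (hp : Pr ι L.fixingSubgroup n β e) (h : C.Nm n β e b)
    {g : Ω ≃ₐ[B] Ω} (hg : g ∈ L.fixingSubgroup) : C.Lam n (twc β b g) := by
  refine ⟨twc_chr hF hp h.1 hg, fun O hO σ hσ => ?_⟩
  have hO' : C.Hz (tr g⁻¹ O) := (C.hz_tr _).2 hO
  have hk := hF.conj hg hσ.1
  have hi : g⁻¹ * σ * g ∈ Inr B (tr g⁻¹ O) := by
    have := (conj_mem_ine (g := g⁻¹)).2 hσ.2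
    rwa [inv_inv] at this
  have h1 := hp.eqv _ (hF.ov _ hO') g hg _ ⟨hF.H_le hk, hi⟩
  rw [← tr_mul, mul_inv_cancel, tr_one, show g * (g⁻¹ * σ * g) * g⁻¹ = σ by group,
    h.2 O hO σ hσ, h.2 _ hO' _ ⟨hk, hi⟩] at h1
  rw [twc, h1, mul_comm, div_self (mul_ne_zero (h.1.ne hk) (hp.ne (hF.H_le hσ.1) hg))]

theorem ac_ex (hF : C.Fib ι L Pi) (hp : Pr ι L.fixingSubgroup n β e) :
    ∃ a, C.Ac L.fixingSubgroup n β e a := by
  obtain ⟨b, hb⟩ := nm_ex hF hp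
  have : ∀ g, ∃ P, g ∈ L.fixingSubgroup → C.Kp n P (twc β b g) := fun g => by
    by_cases hg : g ∈ L.fixingSubgroup
    · exact (hb.lam hF hp hg).surj.imp fun _ h _ => h
    · exact ⟨0, fun h => absurd h hg⟩
  choose a ha using this
  exact ⟨a, b, hb, ha⟩

theorem Ac.tors (h : C.Ac L.fixingSubgroup n β e a) {g : Ω ≃ₐ[B] Ω} (hg : g ∈ L.fixingSubgroup) :
    ell ^ n • a g = 0 := by
  obtain ⟨b, _, hb⟩ := h
  exact (hb g hg).1

end CS

end

end Pool.Agent.Lib.MP_16ef92_ag.EL
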