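import Mathlib
import Pool.Agent.Lib.MP_16ef92_ag.EL.Nrm1a

set_option autoImplicit false
set_option linter.unusedSectionVars false
set_option linter.unusedVariables false

namespace Pool.Agent.Lib.MP_16ef92_ag.EL

open ET

open Polynomial WeierstrassCurve WeierstrassCurve.Affine
open scoped Classical

noncomputable section

variable [Pl]

variable {B₀ B Ω : Type} [Field B₀] [Field B] [Field Ω] [Algebra B₀ B] [Algebra B Ω]
  [Algebra B₀ Ω] [IsScalarTower B₀ B Ω] [IsAlgClosed Ω] [Algebra.IsAlgebraic B Ω]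
  {W : WeierstrassCurve B₀} (C : CS B Ω W)
variable {R : Type} [CommRing R]

namespace CS

variable {C} {ι : R →+* Ω} {L : IntermediateField B Ω} {Pi : Set R} {n : ℕ}
  {β β' : (Ω ≃ₐ[B] Ω) → (Ω ≃ₐ[B] Ω) → Ω} {e e' : ValuationSubring Ω → (Ω ≃ₐ[B] Ω) → Ω}
  {b : (Ω ≃ₐ[B] Ω) → Ω} {a a' : (Ω ≃ₐ[B] Ω) → PO Ω W}

theorem Ac.sub (hF : C.Fib ι L Pi) (hp : Pr ι L.fixingSubgroup n β e)
    (hp' : Pr ι L.fixingSubgroup n β' e') (h : C.Ac L.fixingSubgroup n β e a)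
    (h' : C.Ac L.fixingSubgroup n β' e' a') :
    C.Ac L.fixingSubgroup n (β / β') (e / e') (a - a') := by
  obtain ⟨b, ⟨hc, hn⟩, hk⟩ := h
  obtain ⟨b', ⟨hc', hn'⟩, hk'⟩ := h'
  refine ⟨b / b', ⟨⟨fun g hg => ?_, (hc.cts.and hc'.cts).mono fun h k hh g hg => ?_,
    fun g hg h hh => ?_⟩, fun O hO σ hσ => ?_⟩,
    fun g hg => ((hk g hg).sub (hk' g hg)).congr fun h hh => ?_⟩
  · rw [_root_.Pi.div_apply, div_pow, hc.pow g hg, hc'.pow g hg, div_one]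
  · rw [_root_.Pi.div_apply, _root_.Pi.div_apply, k.1 hh g hg, k.2 hh g hg]
  · simp only [_root_.Pi.div_apply, div_mul_div_comm, hc.cob g hg h hh, hc'.cob g hg h hh]
  · simp only [_root_.Pi.div_apply, hn O hO σ hσ, hn' O hO σ hσ]
  · simp only [twc, _root_.Pi.div_apply, div_mul_div_comm]
    rw [div_div_div_comm]

theorem Ac.sq (h : C.Ac L.fixingSubgroup (n + 1) β e a) :
    C.Ac L.fixingSubgroup n (β ^ ell) (e ^ ell) (ell • a) := by
  obtain ⟨b, ⟨hc, hn⟩, hk⟩ := h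
  refine ⟨b ^ ell, ⟨⟨fun g hg => ?_, hc.cts.mono fun h k hh g hg => ?_, fun g hg h hh => ?_⟩,
    fun O hO σ hσ => ?_⟩, fun g hg => (hk g hg).sq.congr fun h hh => ?_⟩
  · rw [Pi.pow_apply, ← pow_mul, ← pow_succ', hc.pow g hg]
  · rw [Pi.pow_apply, Pi.pow_apply, k hh g hg]
  · simp only [Pi.pow_apply, ← mul_pow, hc.cob g hg h hh]
  · simp only [Pi.pow_apply, hn O hO σ hσ]
  · simp only [twc, Pi.pow_apply, div_pow, mul_pow]

theorem Ac.act (hF : C.Fib ι L Pi) (h : C.Ac L.fixingSubgroup n β e a) {s : Ω ≃ₐ[B] Ω}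
    (hy : s C.y = C.y) (hs : ∀ g ∈ L.fixingSubgroup, s⁻¹ * g * s ∈ L.fixingSubgroup) :
    C.Ac L.fixingSubgroup n (fun g h => s (β (s⁻¹ * g * s) (s⁻¹ * h * s)))
      (fun O g => s (e (tr s⁻¹ O) (s⁻¹ * g * s))) fun g => pmO s (a (s⁻¹ * g * s)) := by
  obtain ⟨b, ⟨hc, hn⟩, hk⟩ := h
  have hH : ∀ g ∈ C.H, s⁻¹ * g * s ∈ C.H := fun g hg => C.conj_H (Or.inl hy) hg
  have hm : ∀ g h, s⁻¹ * (g * h) * s = s⁻¹ * g * s * (s⁻¹ * h * s) := fun g h => by group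
  refine ⟨fun g => s (b (s⁻¹ * g * s)), ⟨⟨fun g hg => ?_,
    (hc.cts.conj s).mono fun h k hh g hg => ?_, fun g hg h hh => ?_⟩, fun O hO σ hσ => ?_⟩,
    fun g hg => ((hk _ (hs g hg)).conj hy).congr fun h hh => ?_⟩
  · rw [← map_pow, hc.pow _ (hH g hg), map_one]
  · simp only [hm, k (hH h hh) _ (hH g hg)]
  · rw [hm, ← map_mul, ← map_mul, hc.cob _ (hH g hg) _ (hH h hh)]
  · exact congrArg s (hn _ ((C.hz_tr _).2 hO) _ ⟨hH σ hσ.1, (conj_mem_ine (g := s⁻¹)).2 hσ.2⟩)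
  · have : (s⁻¹ * g * s)⁻¹ * (s⁻¹ * h * s) * (s⁻¹ * g * s) = s⁻¹ * (g⁻¹ * h * g) * s := by group
    simp only [twc, map_div₀, map_mul, this]

theorem n1c_ne {z : Ω} (h : z ^ ell ^ n = 1) : z ≠ 0 := fun k => by simp [k, ell_ne] at h

/-- The quotient `χ` of the two trivialisations is in `Lam`, and `twc` is its coboundary. -/
theorem Ac.cob (hF : C.Fib ι L Pi) (hp : Pr ι L.fixingSubgroup n β e)
    (h : C.Ac L.fixingSubgroup n β e a) (hb : Cob L.fixingSubgroup n β b)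
    (he : ∀ O, Ov ι O → ∀ σ ∈ L.fixingSubgroup ⊓ Inr B O, e O σ = b σ) :
    ∃ P, ell ^ n • P = 0 ∧ ∀ g ∈ L.fixingSubgroup, a g = pmO g P - P := by
  obtain ⟨b₀, ⟨hc, hn⟩, hk⟩ := h
  have le := hF.H_le
  have h1 : ∀ {G : Subgroup (Ω ≃ₐ[B] Ω)} {c : (Ω ≃ₐ[B] Ω) → Ω}, Cob G n β c → c 1 = β 1 1 :=
    fun {G c} k => by
      have := k.cob 1 G.one_mem 1 G.one_mem
      rw [mul_one] at this
      exact (mul_right_cancel₀ (n1c_ne (k.pow 1 G.one_mem)) this).symm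
  have hl : C.Lam n (b₀ / b) := by
    refine ⟨⟨fun g hg => ?_, fun g hg h hh => ?_, (hc.cts.and hb.cts).mono fun g k hg => ?_⟩,
      fun O hO σ hσ => ?_⟩
    · rw [_root_.Pi.div_apply, div_pow, hc.pow g hg, hb.pow g (le hg), div_one]
    · simp only [_root_.Pi.div_apply, div_mul_div_comm]
      rw [← hc.cob g hg h hh, ← hb.cob g (le hg) h (le hh),
        mul_div_mul_left _ _ (n1c_ne (hp.pow g (le hg) h (le hh)))]
    · have k1 := k.1 hg 1 (one_mem _)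
      have k2 := k.2 (le hg) 1 (one_mem _)
      rw [one_mul] at k1 k2
      rw [_root_.Pi.div_apply, k1, h1 hc, ← h1 hb, ← k2, div_self (n1c_ne (hb.pow g (le hg)))]
    · rw [_root_.Pi.div_apply, ← hn O hO σ hσ, he O (hF.ov O hO) σ ⟨le hσ.1, hσ.2⟩,
        div_self (n1c_ne (hb.pow σ (le hσ.1)))]
  obtain ⟨Q, hQ⟩ := hl.surj
  refine ⟨-Q, by rw [smul_neg, hQ.1, neg_zero], fun g hg => ?_⟩
  have hy : g C.y = C.y := (IntermediateField.mem_fixingSubgroup_iff _ _).1 hg _ hF.y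
  rw [map_neg, neg_sub_neg]
  refine (hk g hg).eq (hQ.sub (hQ.conj hy)) fun h hh => ?_
  have hσ := C.conj_H (Or.inl hy) hh
  have e1 : g * (g⁻¹ * h * g) * g⁻¹ = h := by group
  have n1 := n1c_ne (hp.pow h (le hh) g hg)
  have k := cob_conj hb hg (le hσ) (e1.symm ▸ n1)
  have n2 := n1c_ne (hb.pow h (le hh))
  have n3 := n1c_ne (hb.pow _ (le hσ))
  have n4 := n1c_ne (hc.pow _ hσ)
  rw [e1] at k
  rw [_root_.Pi.div_apply, hF.ru hg n _ (hl.1.pow _ hσ), twc, _root_.Pi.div_apply,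
    _root_.Pi.div_apply, div_div_div_eq, div_eq_div_iff (mul_ne_zero n4 n1) (mul_ne_zero n2 n4)]
  linear_combination b₀ h * b₀ (g⁻¹ * h * g) * k

end CS

end

end Pool.Agent.Lib.MP_16ef92_ag.EL
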