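import Mathlib
import Pool.Agent.Lib.MP_16ef92_ag.EL.Nrm1a

set_option autoImplicit false
set_option linter.unusedSectionVars false
set_option linter.unusedVariables false

namespace Pool.Agent.Lib.MP_16ef92_ag.EL

open ET

open Polynomial WeierstrassCurve WeierstrassCurve.Affine
open scoped Classical

noncomputable section

variable [Pl]

variable {B₀ B Ω : Type} [Field B₀] [Field B] [Field Ω] [Algebra B₀ B] [Algebra B Ω]
  [Algebra B₀ Ω] [IsScalarTower B₀ B Ω] [IsAlgClosed Ω] [Algebra.IsAlgebraic B Ω]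
  {W : WeierstrassCurve B₀} (C : CS B Ω W)
variable {R : Type} [CommRing R]

namespace CS

variable {C} {ι : R →+* Ω} {L : IntermediateField B Ω} {Pi : Set R} {n : ℕ}
  {β β' : (Ω ≃ₐ[B] Ω) → (Ω ≃ₐ[B] Ω) → Ω} {e e' : ValuationSubring Ω → (Ω ≃ₐ[B] Ω) → Ω}
  {b : (Ω ≃ₐ[B] Ω) → Ω} {a a' : (Ω ≃ₐ[B] Ω) → PO Ω W}

theorem n2a_rep {Γ : Type} [Group Γ] {G H N : Subgroup Γ} (hN : N.Normal) (hle : H ≤ G) :
    ∃ r : Γ → Γ, (∀ g, ∀ h ∈ H, ∀ m ∈ N, m ∈ G → r (g * (h * m)) = r g) ∧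
      ∀ g, ∃ h ∈ H, ∃ m ∈ N, m ∈ G ∧ g = r g * h * m := by
  let K : Subgroup Γ :=
    { carrier := {x | ∃ h ∈ H, ∃ m ∈ N, m ∈ G ∧ x = h * m}
      one_mem' := ⟨1, H.one_mem, 1, N.one_mem, G.one_mem, (mul_one 1).symm⟩
      mul_mem' := by
        rintro _ _ ⟨h, hh, m, hm, hm', rfl⟩ ⟨k, hk, l, hl, hl', rfl⟩
        exact ⟨h * k, H.mul_mem hh hk, k⁻¹ * m * k * l, N.mul_mem (hN.conj_mem' m hm k) hl,
          G.mul_mem (G.mul_mem (G.mul_mem (G.inv_mem (hle hk)) hm') (hle hk)) hl', by group⟩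
      inv_mem' := by
        rintro _ ⟨h, hh, m, hm, hm', rfl⟩
        exact ⟨h⁻¹, H.inv_mem hh, h * m⁻¹ * h⁻¹, hN.conj_mem _ (N.inv_mem hm) h,
          G.mul_mem (G.mul_mem (hle hh) (G.inv_mem hm')) (G.inv_mem (hle hh)), by group⟩ }
  refine ⟨fun g => (QuotientGroup.mk g : Γ ⧸ K).out, fun g h hh m hm hm' => ?_, fun g => ?_⟩
  · have hK : h * m ∈ K := ⟨h, hh, m, hm, hm', rfl⟩
    simp only [QuotientGroup.mk_mul_of_mem g hK]
  · have hK : ((QuotientGroup.mk g : Γ ⧸ K).out)⁻¹ * g ∈ K :=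
      QuotientGroup.eq.1 (QuotientGroup.out_eq' _)
    obtain ⟨h, hh, m, hm, hm', e⟩ := hK
    exact ⟨h, hh, m, hm, hm', by rw [mul_assoc, ← e, mul_inv_cancel_left]⟩

theorem n2a_b1 {Γ F : Type} [Group Γ] [Field F] {G H N : Subgroup Γ} (hN : N.Normal) (hle : H ≤ G)
    {q : ℕ} (hq : q ≠ 0) {β : Γ → Γ → F} {b : Γ → F} (pw : ∀ g ∈ G, ∀ h ∈ G, β g h ^ q = 1)
    (coc : ∀ g ∈ G, ∀ h ∈ G, ∀ l ∈ G, β g h * β (g * h) l = β h l * β g (h * l))
    (cts : ∀ m ∈ N, m ∈ G → ∀ g ∈ G, ∀ l ∈ G, β (g * m) l = β g l ∧ β g (l * m) = β g l)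
    (bpw : ∀ g ∈ H, b g ^ q = 1) (bcts : ∀ m ∈ N, m ∈ H → ∀ g ∈ H, b (g * m) = b g)
    (bcob : ∀ g ∈ H, ∀ h ∈ H, β g h * b (g * h) = b g * b h) :
    ∃ b₁ : Γ → F, (∀ g ∈ G, b₁ g ^ q = 1) ∧ (∀ g ∈ G, ∀ m ∈ N, m ∈ G → b₁ (g * m) = b₁ g) ∧
      ∀ g ∈ G, ∀ h ∈ H, β g h * b₁ (g * h) = b₁ g * b h := by
  obtain ⟨r, hr, hx⟩ := n2a_rep hN hle
  choose f hf w hw hw' hg using hx
  have ne : ∀ g ∈ G, ∀ h ∈ G, β g h ≠ 0 := fun g hg h hh e => by
    have := pw g hg h hh
    rw [e, zero_pow hq] at this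
    exact zero_ne_one this
  have rG : ∀ g ∈ G, r g ∈ G := fun g hG => by
    have e : r g = g * (w g)⁻¹ * (f g)⁻¹ := by
      rw [mul_assoc, ← mul_inv_rev, eq_mul_inv_iff_mul_eq, ← mul_assoc]
      exact (hg g).symm
    rw [e]
    exact G.mul_mem (G.mul_mem hG (G.inv_mem (hw' g))) (G.inv_mem (hle (hf g)))
  have key : ∀ g ∈ G, ∀ h ∈ H, ∀ m ∈ N, g = r g * h * m →
      b (f g) / β (r g) (f g) = b h / β (r g) h := by
    intro g hG h hh m hm e
    have e1 : f g * w g = h * m := by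
      have := (hg g).symm.trans e
      rw [mul_assoc, mul_assoc] at this
      exact mul_left_cancel this
    have e2 : f g = h * (m * (w g)⁻¹) := by rw [← mul_assoc, ← e1, mul_inv_cancel_right]
    have m1 : m * (w g)⁻¹ ∈ N := N.mul_mem hm (N.inv_mem (hw g))
    have m2 : m * (w g)⁻¹ ∈ H := by
      have : m * (w g)⁻¹ = h⁻¹ * f g := by rw [e2, inv_mul_cancel_left]
      rw [this]
      exact H.mul_mem (H.inv_mem hh) (hf g)
    rw [e2, bcts _ m1 m2 h hh, (cts _ m1 (hle m2) _ (rG g hG) h (hle hh)).2]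
  refine ⟨fun g => b (f g) / β (r g) (f g), fun g hG => ?_, fun g hG m hm hm' => ?_,
    fun g hG h hh => ?_⟩
  · simp only [div_pow, bpw _ (hf g), pw _ (rG g hG) _ (hle (hf g)), div_one]
  · have e : r (g * m) = r g := by simpa using hr g 1 H.one_mem m hm hm'
    have := key (g * m) (G.mul_mem hG hm') (f g) (hf g) (w g * m) (N.mul_mem (hw g) hm)
      (by rw [e, ← mul_assoc, ← hg g])
    beta_reduce
    rw [this, e]
  · have e : r (g * h) = r g := by simpa using hr g h hh 1 N.one_mem G.one_mem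
    have k := key (g * h) (G.mul_mem hG (hle hh)) (f g * h) (H.mul_mem (hf g) hh)
      (h⁻¹ * w g * h) (hN.conj_mem' _ (hw g) h) (by
        rw [e]
        calc g * h = r g * f g * w g * h := by rw [← hg g]
          _ = _ := by group)
    have e3 : β g h = β (r g * f g) h := by
      rw [← (cts _ (hw g) (hw' g) _ (G.mul_mem (rG g hG) (hle (hf g))) h (hle hh)).1, ← hg g]
    have c1 := coc _ (rG g hG) _ (hle (hf g)) h (hle hh)
    have c2 := bcob _ (hf g) h hh
    have n1 := ne _ (rG g hG) _ (hle (hf g))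
    have n2 := ne _ (rG g hG) _ (hle (H.mul_mem (hf g) hh))
    beta_reduce
    rw [k, e, e3, mul_div_assoc', div_mul_eq_mul_div, div_eq_div_iff n2 n1]
    linear_combination b (f g * h) * c1 + β (r g) (f g * h) * c2

/-- Let `N` be open normal (`near_sub`) with `β` and `b` invariant.  Choose representatives `r` of
the cosets of `H (N ∩ G)` in `G` and put `b₁ (r h m) = b h / β r h` for `h ∈ H`, `m ∈ N ∩ G`.  Then
`β g h * b₁ (g h) = b₁ g * b h` for `h ∈ H`, and `c g l = β g l * b₁ (g l) / (b₁ g * b₁ l)` is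
invariant under `H` in both variables (use `twc = 1`).  Apply `TsQ`; the product of the two
cochains differs from `b` on `H` by a constant homomorphism. -/
theorem ext_G (hF : C.Fib ι L Pi) (hp : Pr ι L.fixingSubgroup n β e) (hb : Cob C.H n β b)
    (h1 : ∀ g ∈ L.fixingSubgroup, ∀ h ∈ C.H, twc β b g h = 1) :
    ∃ b', Cob L.fixingSubgroup n β b' ∧ ∀ h ∈ C.H, b' h = b h := by
  obtain ⟨N, hN, hP, hNear, -⟩ := near_sub (hp.cts.and hb.cts)
  have hle := hF.H_le
  obtain ⟨b₁, p1, q1, k1⟩ := n2a_b1 hN hle (q := ell ^ n) (by first | exact lp_pos _ | exact lp_ne _ | positivity) hp.pow hp.coc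
    (fun m hm => (hP m hm).1) hb.pow (fun m hm => (hP m hm).2) hb.cob
  set G := L.fixingSubgroup with hG
  have ne : ∀ g ∈ G, b₁ g ≠ 0 := fun g hg => n1_ne (p1 g hg)
  obtain ⟨b₂, hb₂, inv⟩ := hF.ts n (fun g l => β g l * b₁ (g * l) / (b₁ g * b₁ l))
    (fun g hg l hl => by
      rw [div_pow, mul_pow, mul_pow, hp.pow g hg l hl, p1 _ (mul_mem hg hl), p1 g hg, p1 l hl,
        div_self (by simp)])
    (fun g hg h hh l hl => by
      have c := hp.coc g hg h hh l hl
      rw [div_mul_div_comm, div_mul_div_comm, ← mul_assoc g h l, div_eq_div_iff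
        (mul_ne_zero (mul_ne_zero (ne g hg) (ne h hh))
          (mul_ne_zero (ne _ (mul_mem hg hh)) (ne l hl)))
        (mul_ne_zero (mul_ne_zero (ne h hh) (ne l hl))
          (mul_ne_zero (ne g hg) (ne _ (mul_mem hh hl))))]
      linear_combination b₁ (g * h) * b₁ (g * h * l) * b₁ h * b₁ l * b₁ g * b₁ (h * l) * c)
    (hNear.mono fun m hm hm' g hg l hl => by
      have c := (hP m hm).1 hm' g hg l hl
      have e : g * m * l = g * l * (l⁻¹ * m * l) := by group
      constructor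
      · beta_reduce
        rw [c.1, q1 g hg m hm hm', e, q1 _ (mul_mem hg hl) _ (hN.conj_mem' m hm l)
          (mul_mem (mul_mem (inv_mem hl) hm') hl)]
      · beta_reduce
        rw [c.2, q1 l hl m hm hm', ← mul_assoc, q1 _ (mul_mem hg hl) m hm hm'])
    (fun h hh g hg l hl => by
      have hh' := hle hh
      constructor
      · have hk := hF.conj hl hh
        have t := h1 l hl h hh
        rw [twc, div_eq_one_iff_eq (mul_ne_zero (hb.ne hk) (hp.ne hh' hl))] at t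
        have e : g * h * l = g * l * (l⁻¹ * h * l) := by group
        have e' : l * (l⁻¹ * h * l) = h * l := by group
        generalize l⁻¹ * h * l = k at hk t e e'
        have a1 := k1 _ (mul_mem hg hl) k hk
        have a2 := k1 g hg h hh
        have c1 := hp.coc g hg h hh' l hl
        have c2 := hp.coc g hg l hl k (hle hk)
        rw [e'] at c2
        rw [e, div_eq_div_iff (mul_ne_zero (ne _ (mul_mem hg hh')) (ne l hl))
          (mul_ne_zero (ne g hg) (ne l hl))]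
        apply mul_left_cancel₀ (mul_ne_zero (hp.ne hg hh') (hp.ne (mul_mem hg hl) (hle hk)))
        linear_combination β g h * β (g * h) l * b₁ g * b₁ l * a1 -
          β (g * l) k * β g l * b₁ (g * l) * b₁ l * a2 +
          b₁ (g * l) * b k * b₁ g * b₁ l * c1 - b₁ (g * l) * b h * b₁ g * b₁ l * c2 -
          b₁ (g * l) * β g (h * l) * b₁ g * b₁ l * t
      · have a1 := k1 _ (mul_mem hg hl) h hh
        have a2 := k1 l hl h hh
        have c := hp.coc g hg l hl h hh'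
        rw [← mul_assoc, div_eq_div_iff (mul_ne_zero (ne g hg) (ne _ (mul_mem hl hh')))
          (mul_ne_zero (ne g hg) (ne l hl))]
        apply mul_left_cancel₀ (hp.ne hl hh')
        apply mul_left_cancel₀ (hp.ne (mul_mem hg hl) hh')
        linear_combination β l h * β g (l * h) * b₁ g * b₁ l * a1 -
          β (g * l) h * β g l * b₁ (g * l) * b₁ g * a2 -
          b₁ (g * l) * b h * b₁ g * b₁ l * c)
  have hc : Cob G n β (b₁ * b₂) := by
    refine ⟨fun g hg => ?_, (hNear.and hb₂.cts).mono fun m hm hm' g hg => ?_, fun g hg l hl => ?_⟩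
    · rw [_root_.Pi.mul_apply, mul_pow, p1 g hg, hb₂.pow g hg, mul_one]
    · rw [_root_.Pi.mul_apply, _root_.Pi.mul_apply, q1 g hg m hm.1 hm', hm.2 hm' g hg]
    · have c := hb₂.cob g hg l hl
      rw [div_mul_eq_mul_div, div_eq_iff (mul_ne_zero (ne g hg) (ne l hl))] at c
      simp only [_root_.Pi.mul_apply]
      linear_combination c
  refine ⟨b₁ * b₂, hc, fun h hh => ?_⟩
  have a1 := k1 1 (one_mem _) h hh
  have a2 := inv h hh 1 (one_mem _)
  have a3 := hc.one
  rw [one_mul] at a1 a2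
  rw [hp.one_left (hle hh)] at a1
  rw [_root_.Pi.mul_apply] at a3 ⊢
  apply mul_left_cancel₀ (hp.ne (one_mem _) (one_mem _))
  rw [a2]
  linear_combination b₂ 1 * a1 + b h * a3

end CS

end

end Pool.Agent.Lib.MP_16ef92_ag.EL
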