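import Mathlib
import Pool.Agent.Lib.MP_16ef92_ag.EL.NDef

set_option autoImplicit false
set_option linter.unusedSectionVars false
set_option linter.unusedVariables false

namespace Pool.Agent.Lib.MP_16ef92_ag.EL

open ET

open Polynomial WeierstrassCurve WeierstrassCurve.Affine
open scoped Classical

noncomputable section

variable [Pl]

variable {B₀ B Ω : Type} [Field B₀] [Field B] [Field Ω] [Algebra B₀ B] [Algebra B Ω]
  [Algebra B₀ Ω] [IsScalarTower B₀ B Ω] [IsAlgClosed Ω] [Algebra.IsAlgebraic B Ω]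
  {W : WeierstrassCurve B₀} (C : CS B Ω W)
variable {R : Type} [CommRing R]

namespace CS

variable {C} {ι : R →+* Ω} {L : IntermediateField B Ω} {Pi : Set R} {n : ℕ}
  {β β' : (Ω ≃ₐ[B] Ω) → (Ω ≃ₐ[B] Ω) → Ω} {e e' : ValuationSubring Ω → (Ω ≃ₐ[B] Ω) → Ω}
  {b : (Ω ≃ₐ[B] Ω) → Ω} {a a' : (Ω ≃ₐ[B] Ω) → PO Ω W}

theorem n2b_unit {O : ValuationSubring Ω} (hO : Ov ι O) {r : R} (h : IsUnit r) :
    O.valuation (ι r) = 1 := by
  obtain ⟨s, hs⟩ := h.exists_right_inv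
  exact (genB3_mul (hO r) (hO s) (by rw [← map_mul, hs, map_one, map_one])).1

theorem n2b_one {O : ValuationSubring Ω} (hO : Ov ι O) {r : R} (h : ¬ O.valuation (ι r) < 1) :
    O.valuation (ι r) = 1 :=
  le_antisymm ((O.valuation_le_one_iff _).2 (hO r)) (not_lt.1 h)

theorem n2b_dd (hA : Amb ι L Pi) {p : R} (hp : p ∈ Pi) {O : ValuationSubring Ω} (hO : Ov ι O)
    (h : ∀ r, O.valuation (ι r) < 1 ↔ p ∣ r) : Dd ι.range O (ι p) := by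
  have h1 := hA.inj.isDomain ι
  have h2 := hA.noeth
  refine ⟨?_, ⟨p, rfl⟩, (map_ne_zero_iff ι hA.inj).2 (hA.prime p hp).ne_zero, (h p).2 dvd_rfl,
    ?_, ?_⟩
  · rintro _ ⟨r, rfl⟩
    exact hO r
  · rintro _ ⟨r, rfl⟩ h3
    obtain ⟨s, rfl⟩ := (h r).1 h3
    exact ⟨ι s, ⟨s, rfl⟩, 1, one_mem _, map_one _, by rw [mul_one, map_mul]⟩
  · rintro _ ⟨r, rfl⟩ h3
    obtain ⟨k, s, h4, rfl⟩ := WfDvdMonoid.max_power_factor
      ((map_ne_zero_iff ι hA.inj).1 h3) (hA.prime p hp).irreducible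
    exact ⟨k, by rw [map_mul, map_mul, map_pow, map_pow, n2b_one hO (mt (h s).1 h4), mul_one]⟩

/-- As `pic`, for the vertical primes: `Dd ι.range O (ι p)` (the bound because `R` is a
noetherian domain), `Dd.disc`, `Dd.conj`, `finite_ram`, `finite_dvd`, `Disc.local_char`; put
`f = ∏ ι p ^ j p`. -/
theorem vert {ι : R →+* Ω} (hA : Amb ι L Pi) (ψ : ValuationSubring Ω → (Ω ≃ₐ[B] Ω) → Ω)
    (h1 : ∀ O, Ov ι O → Chr (L.fixingSubgroup ⊓ Inr B O) n (ψ O))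
    (h2 : ∀ O, Ov ι O → ∀ g ∈ L.fixingSubgroup, ∀ σ ∈ L.fixingSubgroup ⊓ Inr B O,
      ψ (tr g O) (g * σ * g⁻¹) = ψ O σ)
    (h3 : Near fun σ => ∀ O, Ov ι O → σ ∈ L.fixingSubgroup ⊓ Inr B O → ψ O σ = 1)
    (h4 : ∀ O, Ov ι O → (∀ p ∈ Pi, O.valuation (ι p) = 1) →
      ∀ σ ∈ L.fixingSubgroup ⊓ Inr B O, ψ O σ = 1) :
    ∃ f ∈ L, f ≠ 0 ∧ ∀ O, Dv ι Pi O → ∀ σ ∈ L.fixingSubgroup ⊓ Inr B O, ψ O σ = kum n f σ := by
  have hd := hA.inj.isDomain ι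
  have hn := hA.noeth
  have hE : ∀ a ∈ L, ∃ b ∈ ι.range, ∃ c ∈ ι.range, c ≠ 0 ∧ a * c = b := fun a ha => by
    obtain ⟨b, c, h0, h⟩ := hA.frac a ha
    exact ⟨_, ⟨b, rfl⟩, _, ⟨c, rfl⟩, h0, h⟩
  have hf : ∀ g ∈ L.fixingSubgroup, ∀ r, g (ι r) = ι r := fun g hg r =>
    (IntermediateField.mem_fixingSubgroup_iff _ _).1 hg _ (hA.mem r)
  have hr : ∀ g ∈ L.fixingSubgroup, Ru g := fun g hg m w hw => by
    obtain ⟨r, rfl⟩ := hA.root m w hw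
    exact hf g hg r
  have ht : ∀ O, Ov ι O → O.valuation ell = 1 := fun O hO => by
    rw [← map_natCast ι ell]
    exact n2b_unit hO hA.two
  have h0 : ∀ p ∈ Pi, ι p ≠ 0 := fun p hp => (map_ne_zero_iff ι hA.inj).2 (hA.prime p hp).ne_zero
  have key : ∀ p, ∃ j : ℕ, p ∈ Pi → ∀ O, Ov ι O → (∀ r, O.valuation (ι r) < 1 ↔ p ∣ r) →
      ∀ σ ∈ L.fixingSubgroup ⊓ Inr B O, ψ O σ = kum n (ι p) σ ^ j := fun p => by
    by_cases h : p ∈ Pi ∧ ∃ O, Ov ι O ∧ ∀ r, O.valuation (ι r) < 1 ↔ p ∣ r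
    swap
    · exact ⟨0, fun hp O a b => absurd ⟨hp, O, a, b⟩ h⟩
    obtain ⟨hp, O, a1, a2⟩ := h
    have D := n2b_dd hA hp a1 a2
    obtain ⟨j, hj⟩ := (D.disc L (hA.mem p) hE).local_char (ht O a1) hr (h1 O a1)
    refine ⟨j, fun _ O' b1 b2 σ hσ => ?_⟩
    obtain ⟨g, hg, rfl⟩ := D.conj (O₂ := O') (by rintro _ ⟨r, rfl⟩; exact b1 r)
      (by rintro _ ⟨r, rfl⟩; rw [a2, b2]) L hE
    obtain ⟨τ, rfl⟩ : ∃ τ, σ = g * τ * g⁻¹ := ⟨g⁻¹ * σ * g, by group⟩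
    have c1 : τ ∈ L.fixingSubgroup := by
      have := mul_mem (mul_mem (inv_mem hg) hσ.1) hg
      rwa [show g⁻¹ * (g * τ * g⁻¹) * g = τ by group] at this
    have c2 : τ ∈ L.fixingSubgroup ⊓ Inr B O := ⟨c1, conj_mem_ine.1 hσ.2⟩
    have c3 := kum_conj (n := n) g (hr τ c1) (h0 p hp)
    rw [hf g hg, hr g hg n _ (kum_pow_one (h0 p hp) (hf τ c1 p))] at c3
    rw [h2 O a1 g hg τ c2, hj τ c2, c3]
  choose j hj using key
  obtain ⟨_, ⟨r, rfl⟩, r0, hu⟩ := finite_ram ι.range L hE h3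
  have hT := finite_dvd hA.prime hA.diff ((map_ne_zero_iff ι hA.inj).1 r0)
  have mT : ∀ p ∈ hT.toFinset, p ∈ Pi := fun p hp => (hT.mem_toFinset.1 hp).1
  refine ⟨∏ p ∈ hT.toFinset, ι p ^ j p, prod_mem fun p _ => pow_mem (hA.mem p) _,
    Finset.prod_ne_zero_iff.2 fun p hp => pow_ne_zero _ (h0 p (mT p hp)), ?_⟩
  rintro O ⟨hO, h⟩ σ hσ
  have one : ∀ q, O.valuation (ι q) = 1 → kum n (ι q ^ j q) σ = 1 := fun q hq =>
    kum_unit (ht O hO) hσ.2 (by rw [map_pow, hf σ hσ.1]) (by rw [map_pow, hq, one_pow])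
  rw [kum_prod (hr σ hσ.1) _ _ fun p hp => pow_ne_zero _ (h0 p (mT p hp))]
  rcases h with h | ⟨p, hp, h⟩
  · rw [h4 O hO h σ hσ, Finset.prod_eq_one fun q hq => one q (h q (mT q hq))]
  have oth : ∀ q ∈ hT.toFinset, q ≠ p → kum n (ι q ^ j q) σ = 1 := fun q hq e =>
    one q (n2b_one hO fun a => (hA.prime p hp).not_isUnit
      (isUnit_of_dvd_unit (dvd_sub ((h q).1 a) dvd_rfl) (hA.diff q (mT q hq) p hp e)))
  by_cases e : p ∈ hT.toFinset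
  · rw [Finset.prod_eq_single_of_mem p e oth, kum_npow (hr σ hσ.1) (h0 p hp), hj p hp O hO h σ hσ]
  · rw [Finset.prod_eq_one fun q hq => oth q hq fun a => e (a ▸ hq)]
    exact hu O (by rintro _ ⟨s, rfl⟩; exact hO s)
      (n2b_one hO fun a => e (hT.mem_toFinset.2 ⟨hp, (h r).1 a⟩)) σ hσ O hO hσ

end CS

end

end Pool.Agent.Lib.MP_16ef92_ag.EL
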