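import Mathlib
import Pool.Agent.Lib.MP_16ef92_ag.EL.Nrm1
import Pool.Agent.Lib.MP_16ef92_ag.EL.Nrm2a
import Pool.Agent.Lib.MP_16ef92_ag.EL.Nrm2b

set_option autoImplicit false
set_option linter.unusedSectionVars false
set_option linter.unusedVariables false

namespace Pool.Agent.Lib.MP_16ef92_ag.EL

open ET

open Polynomial WeierstrassCurve WeierstrassCurve.Affine
open scoped Classical

noncomputable section

variable [Pl]

variable {B₀ B Ω : Type} [Field B₀] [Field B] [Field Ω] [Algebra B₀ B] [Algebra B Ω]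
  [Algebra B₀ Ω] [IsScalarTower B₀ B Ω] [IsAlgClosed Ω] [Algebra.IsAlgebraic B Ω]
  {W : WeierstrassCurve B₀} (C : CS B Ω W)
variable {R : Type} [CommRing R]

namespace CS

variable {C} {ι : R →+* Ω} {L : IntermediateField B Ω} {Pi : Set R} {n : ℕ}
  {β β' : (Ω ≃ₐ[B] Ω) → (Ω ≃ₐ[B] Ω) → Ω} {e e' : ValuationSubring Ω → (Ω ≃ₐ[B] Ω) → Ω}
  {b : (Ω ≃ₐ[B] Ω) → Ω} {a a' : (Ω ≃ₐ[B] Ω) → PO Ω W}

/-- Multiply `b` by the character of `P`. -/
theorem Ac.inv (hF : C.Fib ι L Pi) (hp : Pr ι L.fixingSubgroup n β e)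
    (h : C.Ac L.fixingSubgroup n β e a) {P : PO Ω W} (hP : ell ^ n • P = 0)
    (ha : ∀ g ∈ L.fixingSubgroup, a g = pmO g P - P) :
    ∃ b, C.Nm n β e b ∧ ∀ g ∈ L.fixingSubgroup, ∀ h ∈ C.H, twc β b g h = 1 := by
  obtain ⟨b, ⟨hb, hn⟩, hk⟩ := h
  obtain ⟨χ, hχ⟩ := kp_ex (C := C) hP
  have hl := hχ.lam
  refine ⟨b * χ, ⟨hb.mul_chr hl.1, fun O hO σ hσ => ?_⟩, fun g hg h hh => ?_⟩
  · rw [_root_.Pi.mul_apply, hl.2 O hO σ hσ, mul_one, hn O hO σ hσ]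
  · have h1 := hF.conj hg hh
    have h2 := (hk g hg).uniq (ha g hg ▸ (hχ.conj (hF.fix_y hg)).sub hχ) h hh
    have h3 := mul_ne_zero (hb.ne h1) (hp.ne (hF.H_le hh) hg)
    rw [_root_.Pi.div_apply, hF.ru hg n _ (hl.1.pow _ h1), twc,
      div_eq_div_iff h3 (hl.1.ne hh)] at h2
    rw [twc, _root_.Pi.mul_apply, _root_.Pi.mul_apply, div_eq_one_iff_eq
      (mul_ne_zero (mul_ne_zero (hb.ne h1) (hl.1.ne h1)) (hp.ne (hF.H_le hh) hg))]
    linear_combination h2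

/-- `Ac.inv`, `ext_G`, then `vert` for `e O / b'`; horizontal inertia lies in `H` (`Hz.ine`). -/
theorem Ac.inj (hF : C.Fib ι L Pi) (hp : Pr ι L.fixingSubgroup n β e)
    (h : C.Ac L.fixingSubgroup n β e a) {P : PO Ω W} (hP : ell ^ n • P = 0)
    (ha : ∀ g ∈ L.fixingSubgroup, a g = pmO g P - P) :
    ∃ b, Cob L.fixingSubgroup n β b ∧
      ∀ O, Dv ι Pi O → ∀ σ ∈ L.fixingSubgroup ⊓ Inr B O, e O σ = b σ := by
  obtain ⟨b, ⟨hb, hn⟩, h1⟩ := h.inv hF hp hP ha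
  obtain ⟨c, hc, hcb⟩ := ext_G hF hp hb h1
  obtain ⟨f, hfL, hf0, hf⟩ := vert (n := n) hF.amb (fun O σ => e O σ / c σ)
    (fun O hO => ⟨fun g hg => by rw [div_pow, hp.epow O hO g hg, hc.pow g hg.1, div_one],
      fun g hg h hh => by
        rw [div_mul_div_comm, ← hp.ecob O hO g hg h hh, ← hc.cob g hg.1 h hh.1,
          mul_div_mul_left _ _ (hp.ne hg.1 hh.1)],
      (hp.near.and hc.near).mono fun g hg hH => by
        rw [hg.1 O hO hH, hg.2 hH.1, div_self (hp.ne (one_mem _) (one_mem _))]⟩)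
    (fun O hO g hg σ hσ => by
      have h0 := hp.ne (mul_mem (mul_mem hg hσ.1) (inv_mem hg)) hg
      rw [← mul_div_mul_right _ _ (hp.ne hg hσ.1), hp.eqv O hO g hg σ hσ, cob_conj hc hg hσ.1 h0,
        mul_div_mul_left _ _ h0])
    ((hp.near.and hc.near).mono fun g hg O hO hH => by
      rw [hg.1 O hO hH, hg.2 hH.1, div_self (hp.ne (one_mem _) (one_mem _))])
    (fun O hO hv σ hσ => by
      have hz := hF.hz O hO hv
      have hH : σ ∈ C.H := C.mem_H.2 ⟨C.mem_H'.1 (hz.ine hσ.2), hF.fix_y hσ.1⟩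
      rw [hn O hz σ ⟨hH, hσ.2⟩, hcb σ hH, div_self (hb.ne hH)])
  refine ⟨c * kum n f, hc.mul_chr (chr_kum (fun g hg => hF.ru hg) hf0 fun g hg =>
    (IntermediateField.mem_fixingSubgroup_iff _ _).1 hg f hfL), fun O hO σ hσ => ?_⟩
  rw [_root_.Pi.mul_apply, ← hf O hO σ hσ, mul_div_cancel₀ _ (hc.ne hσ.1)]

end CS

end

end Pool.Agent.Lib.MP_16ef92_ag.EL
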