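import Mathlib
import Pool.Agent.Lib.MP_16ef92_ag.EL.Defs

set_option autoImplicit false

namespace Pool.Agent.Lib.MP_16ef92_ag.EL

open CategoryTheory AlgebraicGeometry

noncomputable section

section Tower

variable {H : ℕ → Type} [∀ n, AddCommGroup (H n)]

/-- The family `x` lies in the inverse limit of the tower `H` along the maps `s`. -/
def InLim (s : ∀ n, H (n + 1) →+ H n) (x : ∀ n, H n) : Prop := ∀ n, s n (x (n + 1)) = x n

/-- The family is killed by a power of `l`: it vanishes after inverting `l`. -/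
def Tors (l : ℕ) (x : ∀ n, H n) : Prop := ∃ j : ℕ, l ^ j • x = 0

/-- The operator `f - 1` on families. -/
def subId (f : ∀ n, H n → H n) (x : ∀ n, H n) : ∀ n, H n := fun n => f n (x n) - x n

/-- The action of an `l`-adic integer: on level `n` through its residue modulo `l ^ n`. -/
def zact {l : ℕ} [Fact l.Prime] (a : ℤ_[l]) (x : ∀ n, H n) : ∀ n, H n :=
  fun n => (PadicInt.toZModPow n a).val • x n

/-- On the inverse limit with `l` inverted, the kernel of `(f - 1)^2` lies in the span of one vector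
fixed by `f`: the eigenvalue 1 is semisimple, of multiplicity at most one. -/
def SimpleT (l : ℕ) [Fact l.Prime] (s : ∀ n, H (n + 1) →+ H n) (f : ∀ n, H n → H n) : Prop :=
  ∃ x₀ : ∀ n, H n, InLim s x₀ ∧ Tors l (subId f x₀) ∧
    ∀ x : ∀ n, H n, InLim s x → Tors l (subId f (subId f x)) →
      ∃ a b : ℤ_[l], a ≠ 0 ∧ Tors l (zact a x + zact b x₀)

end Tower

/-- The etale cohomology group `H^2(X, μ_(l^n))`. -/
abbrev H2 (X : Scheme.{0}) (l n : ℕ) : Type := (mu X (l ^ n)).H 2

/-- The map `H^2(X, μ_(l^(n+1))) → H^2(X, μ_(l^n))` induced by the `l`-th power. -/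
def pwH (X : Scheme.{0}) (l n : ℕ) : H2 X l (n + 1) →+ H2 X l n := Sheaf.H.map (pw X l n) 2

/-- The eigenvalue 1 of the automorphism `φ` of `X` on `H^2(X, ℚ_l(1))` is semisimple, of
multiplicity at most one; `H^2(X, ℤ_l(1))` is the inverse limit of the `H^2(X, μ_(l^n))`. -/
def SimpleOn (l : ℕ) [Fact l.Prime] {X : Scheme.{0}} (φ : X ≅ X) : Prop :=
  SimpleT l (pwH X l) fun n => actH φ (l ^ n) 2

end

end Pool.Agent.Lib.MP_16ef92_ag.EL
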