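import Mathlib
import Pool.Agent.Lib.MP_16ef92_ag.EL.GalC

set_option autoImplicit false
set_option linter.unusedSectionVars false
set_option linter.unusedVariables false

namespace Pool.Agent.Lib.MP_16ef92_ag.EL

open Polynomial
open scoped Classical

noncomputable section

variable [Pl]

/-- A presentation of the ring of the surface over the field `k`. -/
structure Pres {k R : Type} [Field k] [CommRing R] [Algebra k R] (u v N : k[X]) (T X Y Z : R) :
    Prop where
  gen : Algebra.adjoin k {T, X, Y, Z} = ⊤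
  r1 : Y ^ 2 = X * (X - aeval T u) * (X - aeval T v)
  r2 : Z * aeval T N = 1
  lift : ∀ (S : Type) [CommRing S] [Algebra k S] (t x y z : S),
    y ^ 2 = x * (x - aeval t u) * (x - aeval t v) → z * aeval t N = 1 →
      ∃ φ : R →ₐ[k] S, φ T = t ∧ φ X = x ∧ φ Y = y ∧ φ Z = z
  ne : ∀ c : k, N.eval c ≠ 0 → u.eval c ≠ 0 ∧ v.eval c ≠ 0 ∧ u.eval c ≠ v.eval c

variable {k R : Type} [Field k] [CommRing R] [Algebra k R] {u v N : k[X]} {T X' Y Z : R}

/-- Evaluation of polynomials in two variables. -/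
def ev2 (T X' : R) : k[X][X] →+* R := eval₂RingHom (aeval T : k[X] →ₐ[k] R).toRingHom X'

theorem ev2_C (a : k[X]) : ev2 T X' (C a) = aeval T a := by simp [ev2]

theorem ev2_X : ev2 (k := k) T X' X = X' := by simp [ev2]

theorem Pres.nf (h : Pres u v N T X' Y Z) (r : R) :
    ∃ (m : ℕ) (a b : k[X][X]), r * aeval T N ^ m = ev2 T X' a + ev2 T X' b * Y := by
  have hr : r ∈ Algebra.adjoin k {T, X', Y, Z} := by rw [h.gen]; trivial
  induction hr using Algebra.adjoin_induction with
  | mem x hx =>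
    rcases hx with rfl | rfl | rfl | rfl
    · exact ⟨0, C X, 0, by simp [ev2_C]⟩
    · exact ⟨0, X, 0, by simp [ev2_X]⟩
    · exact ⟨0, 0, 1, by simp⟩
    · exact ⟨1, 1, 0, by simp [h.r2]⟩
  | algebraMap c => exact ⟨0, C (C c), 0, by simp [ev2_C]⟩
  | add x y _ _ hx hy =>
    obtain ⟨m, a, b, e⟩ := hx
    obtain ⟨m', a', b', e'⟩ := hy
    refine ⟨m + m', a * C (N ^ m') + a' * C (N ^ m), b * C (N ^ m') + b' * C (N ^ m), ?_⟩
    simp only [map_add, map_mul, ev2_C, map_pow]
    linear_combination aeval T N ^ m' * e + aeval T N ^ m * e'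
  | mul x y _ _ hx hy =>
    obtain ⟨m, a, b, e⟩ := hx
    obtain ⟨m', a', b', e'⟩ := hy
    refine ⟨m + m', a * a' + b * b' * (X * (X - C u) * (X - C v)), a * b' + a' * b, ?_⟩
    simp only [map_add, map_mul, map_sub, ev2_C, ev2_X, ← h.r1]
    rw [pow_add, mul_mul_mul_comm, e, e']
    ring

theorem Pres.cancel (h : Pres u v N T X' Y Z) {r p : R} {m : ℕ} (e : p ∣ r * aeval T N ^ m) :
    p ∣ r := by
  have := e.mul_right (Z ^ m)
  rwa [mul_assoc, ← mul_pow, mul_comm _ Z, h.r2, one_pow, mul_one] at this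

theorem Pres.ker (h : Pres u v N T X' Y Z) {S k' : Type} [Field S] [Field k'] [Algebra k S]
    [Algebra k' S] (φ : R →ₐ[k] S) (ψ : k[X] →+* k')
    (hψ : ∀ a, algebraMap k' S (ψ a) = aeval (φ T) a) (hx : Transcendental k' (φ X'))
    (hu : ψ u ≠ 0) (hv : ψ v ≠ 0) {a b : k[X][X]} (e : φ (ev2 T X' a + ev2 T X' b * Y) = 0) :
    a.map ψ = 0 ∧ b.map ψ = 0 := by
  have h1 : ∀ a : k[X][X], φ (ev2 T X' a) = aeval (φ X') (a.map ψ) := by
    intro a
    induction a using Polynomial.induction_on' with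
    | add p q hp hq => simp only [map_add, Polynomial.map_add, hp, hq]
    | monomial n c =>
      rw [← C_mul_X_pow_eq_monomial]
      simp [ev2_C, ev2_X, hψ, aeval_algHom_apply]
  refine lin_indep hx (y := φ Y) (e₁ := 0) (e₂ := ψ u) (e₃ := ψ v) hu.symm hv.symm ?_ ?_
  · rw [← map_pow, h.r1, hψ, hψ]
    simp [aeval_algHom_apply]
  · rw [← h1, ← h1, ← map_mul, ← map_add, e]

theorem Pres.inj (h : Pres u v N T X' Y Z) {S k' : Type} [Field S] [Field k'] [Algebra k S]
    [Algebra k' S] (φ : R →ₐ[k] S) (ψ : k[X] →+* k') (hi : Function.Injective ψ)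
    (hψ : ∀ a, algebraMap k' S (ψ a) = aeval (φ T) a) (hx : Transcendental k' (φ X'))
    (hu : u ≠ 0) (hv : v ≠ 0) : Function.Injective φ := by
  rw [injective_iff_map_eq_zero]
  intro r hr
  obtain ⟨m, a, b, e⟩ := h.nf r
  obtain ⟨h1, h2⟩ := h.ker φ ψ hψ hx (by simpa using hi.ne hu) (by simpa using hi.ne hv)
    (a := a) (b := b) (by rw [← e, map_mul, hr, zero_mul])
  rw [Polynomial.map_eq_zero_iff hi] at h1 h2
  rw [← zero_dvd_iff]
  apply h.cancel (m := m)
  rw [e, h1, h2]
  simp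

/-- The specialisation to a fibre. -/
theorem Pres.red [IsAlgClosed k] (h : Pres u v N T X' Y Z) {c : k} (hc : N.eval c ≠ 0) :
    ∃ φ : R →ₐ[k] AlgebraicClosure (RatFunc k), (∀ r, φ r = 0 ↔ T - algebraMap k R c ∣ r) ∧
      φ Y ≠ 0 ∧ ∀ a : k, φ (X' - algebraMap k R a) ≠ 0 := by
  let S := AlgebraicClosure (RatFunc k)
  let x : S := algebraMap (RatFunc k) S RatFunc.X
  have hx : Transcendental k x :=
    (transcendental_algebraMap_iff (algebraMap (RatFunc k) S).injective).2 RatFunc.transcendental_X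
  obtain ⟨y, hy⟩ := IsAlgClosed.exists_pow_nat_eq
    (x * (x - aeval (algebraMap k S c) u) * (x - aeval (algebraMap k S c) v)) two_pos
  have hψ : ∀ a : k[X], algebraMap k S (evalRingHom c a) = aeval (algebraMap k S c) a :=
    fun a => by rw [aeval_algebraMap_apply]; simp
  obtain ⟨φ, h1, h2, h3, h4⟩ := h.lift S (algebraMap k S c) x y (algebraMap k S (N.eval c)⁻¹) hy
    (by rw [← hψ, ← map_mul, coe_evalRingHom, inv_mul_cancel₀ hc, map_one])
  have hk : ∀ {a b : k[X][X]}, φ (ev2 T X' a + ev2 T X' b * Y) = 0 →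
      a.map (evalRingHom c) = 0 ∧ b.map (evalRingHom c) = 0 := fun e =>
    h.ker φ (evalRingHom c) (by rw [h1]; exact hψ) (by rw [h2]; exact hx) (h.ne c hc).1
      (h.ne c hc).2.1 e
  have hd : ∀ a : k[X][X], a.map (evalRingHom c) = 0 → T - algebraMap k R c ∣ ev2 T X' a := by
    intro a ha
    obtain ⟨a', e⟩ : C (X - C c) ∣ a := (C_dvd_iff_dvd_coeff _ _).2 fun i => by
      have := congrArg (coeff · i) ha
      simp only [coeff_map, coe_evalRingHom, coeff_zero] at this
      exact dvd_iff_isRoot.2 this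
    exact ⟨ev2 T X' a', by rw [e, map_mul, ev2_C]; simp⟩
  refine ⟨φ, fun r => ⟨fun hr => ?_, ?_⟩, fun e => ?_, fun a e => ?_⟩
  · obtain ⟨m, a, b, e⟩ := h.nf r
    obtain ⟨e1, e2⟩ := hk (a := a) (b := b) (by rw [← e, map_mul, hr, zero_mul])
    apply h.cancel (m := m)
    rw [e]
    exact dvd_add (hd a e1) ((hd b e2).mul_right _)
  · rintro ⟨r', rfl⟩
    rw [map_mul, map_sub, h1, AlgHom.commutes, sub_self, zero_mul]
  · have := (hk (a := 0) (b := 1) (by simpa using e)).2
    simp at this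
  · rw [map_sub, h2, AlgHom.commutes, sub_eq_zero] at e
    exact hx (e ▸ isAlgebraic_algebraMap a)

theorem Pres.prime [IsAlgClosed k] [IsDomain R] (h : Pres u v N T X' Y Z) {c : k}
    (hc : N.eval c ≠ 0) (h0 : T - algebraMap k R c ≠ 0) : Prime (T - algebraMap k R c) := by
  obtain ⟨φ, h1, -⟩ := h.red hc
  refine ⟨h0, fun hu => ?_, fun a b e => ?_⟩
  · exact one_ne_zero ((map_one φ).symm.trans ((h1 1).2 hu.dvd))
  · rwa [← h1, map_mul, mul_eq_zero, h1, h1] at e

theorem aeval_sub_dvd (T : R) (c : k) (a : k[X]) :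
    T - algebraMap k R c ∣ aeval T a - algebraMap k R (a.eval c) := by
  have := map_dvd (aeval T : k[X] →ₐ[k] R) (X_sub_C_dvd_sub_C_eval (a := c) (p := a))
  simpa using this

theorem Pres.good [IsAlgClosed k] (h : Pres u v N T X' Y Z) (h2 : (2 : k) ≠ 0) (m : Ideal R)
    (hm : m.IsMaximal) :
    ∃ c : k, N.eval c ≠ 0 ∧ ∃ w s : R, T - algebraMap k R c ∈ m ∧ w ∈ m ∧ s ∉ m ∧
      ¬ T - algebraMap k R c ∣ w ∧ ∀ a ∈ m, s * a ∈ Ideal.span {T - algebraMap k R c, w} := by
  have : Algebra.FiniteType k R := ⟨⟨{T, X', Y, Z}, by simpa using h.gen⟩⟩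
  let := Ideal.Quotient.field m
  have : Module.Finite k (R ⧸ m) := finite_of_finite_type_of_isJacobsonRing k (R ⧸ m)
  let e := AlgEquiv.ofBijective (Algebra.ofId k (R ⧸ m))
    (IsAlgClosed.algebraMap_bijective_of_isIntegral (k := k) (K := R ⧸ m))
  let χ : R →ₐ[k] k := e.symm.toAlgHom.comp (Ideal.Quotient.mkₐ k m)
  have hχ : ∀ r, r ∈ m ↔ χ r = 0 := fun r => by
    change _ ↔ e.symm (Ideal.Quotient.mk m r) = 0
    rw [map_eq_zero_iff _ e.symm.injective, Ideal.Quotient.eq_zero_iff_mem]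
  have hc : ∀ c : k, χ (algebraMap k R c) = c := fun c => χ.commutes c
  have ha : ∀ a : k[X], χ (aeval T a) = a.eval (χ T) := fun a => by
    rw [← aeval_algHom_apply, coe_aeval_eq_eval]
  have hN : χ Z * N.eval (χ T) = 1 := by rw [← ha, ← map_mul, h.r2, map_one]
  have hN0 : N.eval (χ T) ≠ 0 := right_ne_zero_of_mul_eq_one hN
  obtain ⟨hu, hv, huv⟩ := h.ne _ hN0
  obtain ⟨φ, hφ, hY, hX⟩ := h.red hN0
  have h1 : χ Y ^ 2 = χ X' * (χ X' - u.eval (χ T)) * (χ X' - v.eval (χ T)) := by
    rw [← map_pow, h.r1, map_mul, map_mul, map_sub, map_sub, ha, ha]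
  set p := T - algebraMap k R (χ T) with hp
  have key : ∀ w s : R, s * (X' - algebraMap k R (χ X')) ∈ Ideal.span {p, w} →
      s * (Y - algebraMap k R (χ Y)) ∈ Ideal.span {p, w} →
      ∀ a ∈ m, s * a ∈ Ideal.span {p, w} := by
    intro w s e1 e2
    have hpI : p ∈ Ideal.span {p, w} := Ideal.subset_span (by simp)
    have : ∀ r ∈ Algebra.adjoin k {T, X', Y, Z},
        s * (r - algebraMap k R (χ r)) ∈ Ideal.span {p, w} := by
      intro r hr
      induction hr using Algebra.adjoin_induction with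
      | mem x hx =>
        rcases hx with rfl | rfl | rfl | rfl
        · exact Ideal.mul_mem_left _ _ hpI
        · exact e1
        · exact e2
        · obtain ⟨d, hd⟩ := aeval_sub_dvd T (χ T) N
          have e3 := congrArg (algebraMap k R) hN
          rw [map_mul, map_one] at e3
          have : x - algebraMap k R (χ x) = -(x * algebraMap k R (χ x) * d) * p := by
            linear_combination (-(x * algebraMap k R (χ x))) * hd - x * e3 +
              algebraMap k R (χ x) * h.r2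
          rw [this]
          exact Ideal.mul_mem_left _ _ (Ideal.mul_mem_left _ _ hpI)
      | algebraMap c => simp [hc]
      | add x y _ _ hx hy =>
        have := add_mem hx hy
        rw [map_add, map_add]
        convert this using 1
        ring
      | mul x y _ _ hx hy =>
        have := add_mem (Ideal.mul_mem_left _ y hx)
          (Ideal.mul_mem_left _ (algebraMap k R (χ x)) hy)
        rw [map_mul, map_mul]
        convert this using 1
        ring
    intro a ha
    have := this a (by rw [h.gen]; trivial)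
    rwa [(hχ a).1 ha, map_zero, sub_zero] at this
  have hpm : p ∈ m := by rw [hχ, hp, map_sub, hc, sub_self]
  refine ⟨χ T, hN0, ?_⟩
  obtain ⟨du, hdu⟩ := aeval_sub_dvd T (χ T) u
  obtain ⟨dv, hdv⟩ := aeval_sub_dvd T (χ T) v
  rw [← hp] at hdu hdv
  by_cases hb : χ Y = 0
  · have fin : ∀ (s E d : R), χ s ≠ 0 → s * (X' - E) = Y ^ 2 →
        E - algebraMap k R (χ X') = p * d → ∃ w s : R, p ∈ m ∧ w ∈ m ∧ s ∉ m ∧
        ¬ p ∣ w ∧ ∀ a ∈ m, s * a ∈ Ideal.span {p, w} := by
      intro s E d e1 e2 e3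
      refine ⟨Y, s, hpm, (hχ _).2 hb, fun e => e1 ((hχ _).1 e), fun e => hY ((hφ _).2 e),
        key Y s (Ideal.mem_span_pair.2 ⟨s * d, Y, by linear_combination -e2 - s * e3⟩)
          (Ideal.mem_span_pair.2 ⟨0, s, by rw [hb, map_zero, zero_mul, zero_add, sub_zero]⟩)⟩
    rw [hb, zero_pow two_ne_zero, eq_comm, mul_eq_zero, mul_eq_zero, sub_eq_zero,
      sub_eq_zero] at h1
    rcases h1 with (h1 | h1) | h1
    · refine fin ((X' - aeval T u) * (X' - aeval T v)) 0 0 ?_ (by rw [h.r1]; ring) (by simp [h1])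
      simp [ha, h1, hu, hv]
    · refine fin (X' * (X' - aeval T v)) (aeval T u) du ?_ (by rw [h.r1]; ring) (by rw [h1, hdu])
      simp [ha, h1, hu, sub_eq_zero, huv]
    · refine fin (X' * (X' - aeval T u)) (aeval T v) dv ?_ h.r1.symm (by rw [h1, hdv])
      simp [ha, h1, hv, sub_eq_zero, huv.symm]
  · refine ⟨X' - algebraMap k R (χ X'), Y + algebraMap k R (χ Y), hpm,
      by rw [hχ, map_sub, hc, sub_self], fun e => ?_, fun e => hX _ ((hφ _).2 e),
      key _ _ (Ideal.mem_span_pair.2 ⟨0, _, by rw [zero_mul, zero_add]⟩) ?_⟩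
    · rw [hχ, map_add, hc, ← two_mul] at e
      exact mul_ne_zero h2 hb e
    · have e3 := congrArg (algebraMap k R) h1
      simp only [map_pow, map_mul, map_sub] at e3
      rw [← Ideal.Quotient.eq_zero_iff_mem]
      set q := Ideal.Quotient.mk (Ideal.span {p, X' - algebraMap k R (χ X')})
      have e4 : q p = 0 := Ideal.Quotient.eq_zero_iff_mem.2 (Ideal.subset_span (by simp))
      have e5 : q X' = q (algebraMap k R (χ X')) :=
        Ideal.Quotient.eq.2 (Ideal.subset_span (by simp))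
      have e6 := congrArg q hdu
      have e7 := congrArg q hdv
      have e8 := congrArg q e3
      have e9 := congrArg q h.r1
      simp only [map_pow, map_mul, map_sub, e4, zero_mul, sub_eq_zero] at e6 e7 e8 e9
      simp only [map_mul, map_add, map_sub]
      rw [e5, e6, e7] at e9
      linear_combination e9 - e8

end

end Pool.Agent.Lib.MP_16ef92_ag.EL
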