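import Mathlib
import Pool.Agent.Lib.MP_16ef92_ag.EL.Rng1
import Pool.Agent.Lib.MP_16ef92_ag.ET.Surf

set_option autoImplicit false
set_option linter.unusedSectionVars false
set_option linter.unusedVariables false

namespace Pool.Agent.Lib.MP_16ef92_ag.EL

open ET

open Polynomial TensorProduct
open scoped Classical

noncomputable section

variable [Pl]

variable {F : Type} [Field F] [Fintype F] {P Q D : F[X]}

/-- The ring of the surface over the algebraic closure. -/
def Rb (P Q D : F[X]) : Type := AlgebraicClosure F ⊗[F] surf P Q D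

instance : CommRing (Rb P Q D) := Algebra.TensorProduct.instCommRing

instance : Algebra (AlgebraicClosure F) (Rb P Q D) := Algebra.TensorProduct.leftAlgebra

instance : Algebra F (Rb P Q D) := Algebra.TensorProduct.leftAlgebra

instance : IsScalarTower F (AlgebraicClosure F) (Rb P Q D) :=
  IsScalarTower.of_algebraMap_eq fun _ => rfl

variable (P Q D) in
/-- The Frobenius automorphism of the ring of the surface. -/
def frR : Rb P Q D ≃+* Rb P Q D :=
  (Algebra.TensorProduct.congr (FiniteField.frobeniusAlgEquivOfAlgebraic F (AlgebraicClosure F))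
    (AlgEquiv.refl : surf P Q D ≃ₐ[F] surf P Q D)).toRingEquiv

variable (P Q D) in
/-- Polynomials over `F` in the four coordinates, as functions on the surface. -/
def inR : MvPolynomial (Fin 4) F →ₐ[F] Rb P Q D :=
  Algebra.TensorProduct.includeRight.comp (Ideal.Quotient.mkₐ F _)

theorem frR_inR (a : MvPolynomial (Fin 4) F) : frR P Q D (inR P Q D a) = inR P Q D a := by
  exact congrArg (· ⊗ₜ[F] (Ideal.Quotient.mk _ a : surf P Q D))
    (map_one (FiniteField.frobeniusAlgEquivOfAlgebraic F (AlgebraicClosure F)))

theorem frR_const (c : AlgebraicClosure F) :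
    frR P Q D (algebraMap _ _ c) = algebraMap _ _ (c ^ Fintype.card F) := rfl

theorem pres_rb : Pres ((D * P).map (algebraMap F (AlgebraicClosure F)))
    ((D * Q).map (algebraMap F (AlgebraicClosure F)))
    ((P * Q * (P - Q) * D).map (algebraMap F (AlgebraicClosure F)))
    (inR P Q D (MvPolynomial.X 0)) (inR P Q D (MvPolynomial.X 1)) (inR P Q D (MvPolynomial.X 2))
    (inR P Q D (MvPolynomial.X 3)) := by
  have hz : ∀ a ∈ surfIdeal P Q D, inR P Q D a = 0 := fun a ha => by
    change (1 ⊗ₜ[F] Ideal.Quotient.mk _ a : AlgebraicClosure F ⊗[F] surf P Q D) = 0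
    rw [Ideal.Quotient.eq_zero_iff_mem.2 ha, tmul_zero]
  refine ⟨?_, ?_, ?_, ?_, ?_⟩
  · rw [eq_top_iff]
    rintro r -
    induction r using TensorProduct.induction_on with
    | zero => exact zero_mem _
    | add x y hx hy => exact add_mem hx hy
    | tmul c a =>
      obtain ⟨a, rfl⟩ := Ideal.Quotient.mk_surjective a
      have e : (c ⊗ₜ[F] Ideal.Quotient.mk _ a : AlgebraicClosure F ⊗[F] surf P Q D) =
          (c ⊗ₜ 1) * (1 ⊗ₜ Ideal.Quotient.mk _ a) := by
        rw [Algebra.TensorProduct.tmul_mul_tmul, mul_one, one_mul]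
      rw [e]
      change algebraMap _ (Rb P Q D) c * inR P Q D a ∈ _
      refine mul_mem (Subalgebra.algebraMap_mem _ _) ?_
      clear e
      induction a using MvPolynomial.induction_on with
      | C a =>
        rw [← MvPolynomial.algebraMap_eq, AlgHom.commutes,
          IsScalarTower.algebraMap_apply F (AlgebraicClosure F) (Rb P Q D)]
        exact Subalgebra.algebraMap_mem _ _
      | add p q hp hq => rw [map_add]; exact add_mem hp hq
      | mul_X p i hp =>
        rw [map_mul]
        refine mul_mem hp (Algebra.subset_adjoin ?_)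
        fin_cases i <;> simp
  · have := hz _ (Ideal.subset_span (Set.mem_insert _ _))
    rw [map_sub, sub_eq_zero] at this
    simpa only [map_pow, map_mul (inR P Q D), map_sub, ← aeval_algHom_apply, aeval_map_algebraMap]
      using this
  · have := hz _ (Ideal.subset_span (Set.mem_insert_of_mem _ rfl))
    rw [map_sub, sub_eq_zero] at this
    simpa only [map_one, map_mul (inR P Q D), ← aeval_algHom_apply, aeval_map_algebraMap]
      using this
  · intro S _ _ t x y z h1 h2
    let _ : Algebra F S := ((algebraMap (AlgebraicClosure F) S).comp (algebraMap F _)).toAlgebra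
    have : IsScalarTower F (AlgebraicClosure F) S := IsScalarTower.of_algebraMap_eq fun _ => rfl
    rw [aeval_map_algebraMap] at h2
    rw [aeval_map_algebraMap, aeval_map_algebraMap] at h1
    let ev : MvPolynomial (Fin 4) F →ₐ[F] S := MvPolynomial.aeval ![t, x, y, z]
    have e0 : ev (MvPolynomial.X 0) = t := by simp [ev]
    have e1 : ev (MvPolynomial.X 1) = x := by simp [ev]
    have e2 : ev (MvPolynomial.X 2) = y := by simp [ev]
    have e3 : ev (MvPolynomial.X 3) = z := by simp [ev]
    let g : surf P Q D →ₐ[F] S := Ideal.Quotient.liftₐ _ ev fun a ha => by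
      refine (Ideal.span_le (I := RingHom.ker ev)).2 ?_ ha
      rintro _ (rfl | rfl)
      · change ev _ = 0
        simp only [map_pow, map_mul ev, map_sub, ← aeval_algHom_apply, e0, e1, e2, h1, sub_self]
      · change ev _ = 0
        simp only [map_one, map_mul ev, map_sub ev, ← aeval_algHom_apply, e0, e3, h2, sub_self]
    let φ : Rb P Q D →ₐ[AlgebraicClosure F] S :=
      Algebra.TensorProduct.lift (Algebra.ofId _ S) g fun _ _ => Commute.all _ _
    have hφ : ∀ a, φ (inR P Q D a) = ev a := fun a =>
      (Algebra.TensorProduct.lift_tmul (Algebra.ofId _ S) g (fun _ _ => Commute.all _ _) 1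
        (Ideal.Quotient.mk _ a)).trans (by rw [map_one, one_mul]; rfl)
    exact ⟨φ, (hφ _).trans e0, (hφ _).trans e1, (hφ _).trans e2, (hφ _).trans e3⟩
  · intro c hc
    simp only [Polynomial.map_mul, Polynomial.map_sub, eval_mul, eval_sub, ne_eq, mul_eq_zero,
      not_or] at hc ⊢
    refine ⟨⟨hc.2, hc.1.1.1⟩, ⟨hc.2, hc.1.1.2⟩, fun e => hc.1.2 ?_⟩
    rw [mul_left_cancel₀ hc.2 e, sub_self]

end

end Pool.Agent.Lib.MP_16ef92_ag.EL
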