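import Pool.Agent.Lib.MP_16ef92_ag.EL.Cpx

/-! The complex is exact in degree zero. -/

set_option backward.isDefEq.respectTransparency false

namespace Pool.Agent.Lib.MP_16ef92_ag.EL

open ET

open CategoryTheory Limits AlgebraicGeometry Opposite

variable [Pl]

variable {B Ω : Type} [Field B] [Field Ω] [Algebra B Ω] {R : Type} [CommRing R] [Algebra R Ω]
  {n : ℕ} [IsAlgClosed Ω] [Algebra.IsAlgebraic B Ω] {L : IntermediateField B Ω} {Pi : Set R}
  {P : ValuationSubring Ω → Prop} {hr : ∀ ⦃g⦄, g ∈ Gf B Ω R → Ru g}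

omit [IsAlgClosed Ω] [Algebra.IsAlgebraic B Ω] in
theorem exa0_exact (h : Amb (algebraMap R Ω) L Pi)
    (T : ShortComplex (Sheaf (Xs R).smallEtaleTopology AddCommGrpCat.{0}))
    (H : ∀ (S : Type) [CommRing S] [Algebra R S] [Algebra.Etale R S] [IsDomain S]
      (a : T.X₂.obj.obj (op (Aff R S))), T.g.hom.app _ a = 0 → ∃ b, T.f.hom.app _ b = a) :
    T.Exact :=
  exact_of_loc T fun V a ha => ⟨Presheaf.imageSieve T.f.hom a,
    cover_of_dom h _ fun S _ _ _ _ f p hp => ⟨S, _, _, inferInstance, AlgHom.id R S, p, hp,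
      Ideal.comap_id p, Sieve.downward_closed _ (H S _ (by
        rw [NatTrans.naturality_apply, ha, map_zero])) _⟩, fun _ _ hf => hf⟩



/-- A section `a` with `eV V a = 0` is zero on every `Aff R S ⟶ V` with `S` a domain
(`exists_pt`, `pt_inj`, `Ptv.of_hom`, `Ptv.ev_fa`, `fa` is bijective); `cover_of_dom` with
`g = AlgHom.id`; `Presheaf.IsLocallyInjective` or `exact_of_loc` for `0 ⟶ F ⟶ A0`. -/
theorem mono_e (h : Amb (algebraMap R Ω) L Pi) : Mono (cx n P hr).e := by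
  refine (exa0_exact h (ShortComplex.mk (0 : mu _ (ell ^ n) ⟶ _) (cx n P hr).e zero_comp)
    fun S _ _ _ _ a ha => ⟨0, (map_zero _).trans ?_⟩).mono_g rfl
  obtain ⟨φ⟩ := exists_pt (S := S) h
  obtain ⟨x, hx⟩ := Ptv.of_hom (j := algebraMap R Ω) (φ : S →+* Ω) φ.commutes
  let a' : Additive (rootsOfUnity (ell ^ n) Γ((Aff R S).left, ⊤)) := a
  obtain ⟨s, hs⟩ := (fa R S).surjective (a'.toMul.1 : Γ((Aff R S).left, ⊤)ˣ)
  have h1 : x.ev (a'.toMul.1 : Γ((Aff R S).left, ⊤)ˣ) = 1 :=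
    congrArg Mu.val (congrFun (ha : eV (Aff R S) a' = 0) x)
  rw [← hs, Ptv.ev_fa, hx] at h1
  obtain rfl : s = 1 := pt_inj h φ (h1.trans (map_one φ).symm)
  exact Subtype.ext (Units.ext ((map_one (fa R S)).symm.trans hs))

/-- `exact_of_loc`, `cover_of_dom`. On `Aff R S` with `S` a domain the points form one orbit
(`pt_conj`, `Amb.fix_eq`, `Ptv.hm_ext`, `hm_smul`), so the invariant function is a constant `w`;
`Amb.root` gives `r` with image `w`, `r ^ ell ^ n = 1` by `Amb.inj`; take `fa R S (algebraMap R S r)`. -/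
theorem exact_zero (h : Amb (algebraMap R Ω) L Pi) :
    (ShortComplex.mk (cx n P hr).e (cx n P hr).d0 (cx n P hr).e_d0).Exact := by
  refine exa0_exact h _ fun S _ _ _ _ a ha => ?_
  obtain ⟨φ⟩ := exists_pt (S := S) h
  obtain ⟨x, -⟩ := Ptv.of_hom (j := algebraMap R Ω) (φ : S →+* Ω) φ.commutes
  let a' : Pg Ω (Aff R S) → Mu Ω n := a
  have h1 : ∀ y, a' y = a' x := fun y => by
    obtain ⟨g, hg, e⟩ := pt_conj h x.alg y.alg
    rw [h.fix_eq] at hg
    have h2 : (⟨g, hg⟩ : Gf B Ω R) • x = y := Ptv.hm_ext fun b => (hm_smul _ x b).trans (e b)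
    have h3 : a' ((⟨g, hg⟩ : Gf B Ω R) • x) - a' x = 0 :=
      congrFun (congrArg Subtype.val (congrFun (ha : d0V B (Aff R S) a' = 0) x)) ⟨g, hg⟩
    rw [← h2]
    exact sub_eq_zero.1 h3
  obtain ⟨r, hr'⟩ := h.root n _ (a' x).val_pow
  have h2 : r ^ ell ^ n = 1 := h.inj (by rw [map_pow, hr', Mu.val_pow, map_one])
  have h3 : fa R S (algebraMap R S r) ^ ell ^ n = 1 := by
    rw [← map_pow, ← map_pow, h2, map_one, map_one]
  refine ⟨Additive.ofMul (rootsOfUnity.mkOfPowEq _ h3), funext fun (y : Pg Ω (Aff R S)) => Mu.ext ?_⟩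
  exact ((y.ev_fa _).trans (y.hm_alg r)).trans (hr'.trans (congrArg Mu.val (h1 y).symm))

end Pool.Agent.Lib.MP_16ef92_ag.EL
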