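import Pool.Agent.Lib.MP_16ef92_ag.EL.SRing

/-! An unramified character is locally the Kummer character of a unit. -/

namespace Pool.Agent.Lib.MP_16ef92_ag.EL

open ET

variable [Pl]

variable {B Ω : Type} [Field B] [Field Ω] [Algebra B Ω] {R : Type} [CommRing R] [Algebra R Ω]
  {L : IntermediateField B Ω} {Pi : Set R} {S : Type} [CommRing S] [Algebra R S]
  [Algebra.Etale R S] [IsDomain S] [IsAlgClosed Ω] [Algebra.IsAlgebraic B Ω]

omit [IsAlgClosed Ω] in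
theorem skum_val {T : Type} [CommRing T] {ψ : T →+* Ω} (hψ : Function.Injective ψ) {q : T}
    (hq : Prime q) :
    ∃ O : ValuationSubring Ω, (∀ t, ψ t ∈ O) ∧ ∀ t, O.valuation (ψ t) < 1 ↔ q ∣ t := by
  have := (Ideal.span_singleton_prime hq.ne_zero).2 hq
  have hu : ∀ y : (Ideal.span {q}).primeCompl, IsUnit (ψ y) := fun y =>
    ((map_ne_zero_iff ψ hψ).2 fun e : y.1 = 0 => y.2 (e ▸ zero_mem (Ideal.span {q}))).isUnit
  obtain ⟨O, h1, h2⟩ := IsLocalRing.exists_factor_valuationRing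
    (IsLocalization.lift (S := Localization.AtPrime (Ideal.span {q})) hu)
  refine ⟨O, fun t => IsLocalization.lift_eq (S := Localization.AtPrime (Ideal.span {q})) hu t ▸
    h1 _, fun t => ?_⟩
  rw [← IsLocalization.lift_eq (S := Localization.AtPrime (Ideal.span {q})) hu t,
    ← Ideal.mem_span_singleton, ← IsLocalization.AtPrime.to_map_mem_maximal_iff
      (Localization.AtPrime (Ideal.span {q})) (Ideal.span {q})]
  exact (O.valuation_lt_one_iff ⟨_, h1 _⟩).symm.trans (not_congr (isUnit_map_iff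
    ((IsLocalization.lift hu).codRestrict O.toSubring h1) _))

omit [Algebra.IsAlgebraic B Ω] in
theorem skum_pow {g : Ω ≃ₐ[B] Ω} (hg : Ru g) {n : ℕ} {z y : Ω} (hz : z ≠ 0) (hy : y ≠ 0)
    (e : g y = y) : kum n (z * y ^ ell ^ n) g = kum n z g := by
  rw [kum_mul_left hg hz (pow_ne_zero _ hy), kum_of_fix hg (pow_ne_zero _ hy) rfl e, mul_one]

theorem skum_core {T : Type} [CommRing T] [IsDomain T] [UniqueFactorizationMonoid T]
    (h2 : IsUnit (ell : T)) {ψ : T →+* Ω} (hψ : Function.Injective ψ) {E : IntermediateField B Ω}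
    (hE : ∀ g ∈ E.fixingSubgroup, Ru g) (h1 : ∀ t, ψ t ∈ E) (h3 : ∀ a ∈ E, ∃ b c, ψ b / ψ c = a)
    {n : ℕ} {χ : (Ω ≃ₐ[B] Ω) → Ω} (h0 : ∀ q : T, Prime q → ∀ O : ValuationSubring Ω,
      (∀ t, ψ t ∈ O) → (∀ t, O.valuation (ψ t) < 1 ↔ q ∣ t) →
        ∀ σ ∈ E.fixingSubgroup ⊓ Inr B O, χ σ = 1) (f : T) :
    f ≠ 0 → (∀ σ ∈ E.fixingSubgroup, χ σ = kum n (ψ f) σ) →
      ∃ u, IsUnit u ∧ ∀ σ ∈ E.fixingSubgroup, χ σ = kum n (ψ u) σ := by
  have hn : ∀ {t : T}, t ≠ 0 → ψ t ≠ 0 := fun h => (map_ne_zero_iff ψ hψ).2 h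
  have hf : ∀ σ ∈ E.fixingSubgroup, ∀ t, σ (ψ t) = ψ t := fun σ hσ t =>
    (IntermediateField.mem_fixingSubgroup_iff _ _).1 hσ _ (h1 t)
  induction f using (wellFounded_dvdNotUnit (α := T)).induction with | _ f ih
  intro f0 hP
  by_cases hu : IsUnit f
  · exact ⟨f, hu, hP⟩
  obtain ⟨q, hq, hd⟩ := WfDvdMonoid.exists_irreducible_factor hu f0
  have hq' := UniqueFactorizationMonoid.irreducible_iff_prime.1 hq
  obtain ⟨O, o1, o2⟩ := skum_val hψ hq'
  have o3 : ∀ {t}, ¬q ∣ t → O.valuation (ψ t) = 1 := fun {t} ht =>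
    ((O.valuation_le_one_iff _).2 (o1 t)).antisymm (not_lt.1 (mt (o2 t).1 ht))
  have o4 : ∀ (k : ℕ) t, ¬q ∣ t →
      O.valuation (ψ (q ^ k * t)) = O.valuation (ψ q) ^ (k : ℤ) := fun k t ht => by
    rw [map_mul, map_mul, o3 ht, mul_one, map_pow, map_pow, zpow_natCast]
  have o5 : O.valuation (ell : Ω) = 1 := by
    rw [← map_natCast ψ ell]
    exact o3 fun e => hq.not_isUnit (isUnit_of_dvd_unit e h2)
  have hD : Disc E O (ψ q) := ⟨h1 q, hn hq.ne_zero, (o2 q).2 dvd_rfl, fun a ha a0 => by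
    obtain ⟨b, c, rfl⟩ := h3 a ha
    obtain ⟨b0, c0⟩ := div_ne_zero_iff.1 a0
    obtain ⟨i, b, hb, rfl⟩ := WfDvdMonoid.max_power_factor ((map_ne_zero_iff ψ hψ).1 b0) hq
    obtain ⟨j, c, hc, rfl⟩ := WfDvdMonoid.max_power_factor ((map_ne_zero_iff ψ hψ).1 c0) hq
    exact ⟨i - j, by
      rw [map_div₀, o4 i b hb, o4 j c hc, zpow_sub₀ (by simpa using hn hq.ne_zero)]⟩⟩
  obtain ⟨k, f', hf', rfl⟩ := WfDvdMonoid.max_power_factor f0 hq
  obtain ⟨g, hg, hp⟩ := hD.prim o5 hE n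
  obtain ⟨j, rfl⟩ := hp.dvd_of_pow_eq_one k (by
    rw [← zpow_natCast, ← kum_val o5 hg.2 (hE g hg.1) (hf g hg.1 _) (hf g hg.1 _)
      (hn hq.ne_zero) (o4 k f' hf'), ← hP g hg.1, h0 q hq' O o1 o2 g hg])
  have f1 : f' ≠ 0 := right_ne_zero_of_mul f0
  refine ih f' ⟨f1, q ^ (ell ^ n * j), fun e => hf' (e.dvd_mul_left.1 hd), mul_comm _ _⟩ f1
    fun σ hσ => ?_
  rw [hP σ hσ, mul_comm, mul_comm _ j, pow_mul, map_mul, map_pow,
    skum_pow (hE σ hσ) (hn f1) (hn (pow_ne_zero _ hq.ne_zero)) (hf σ hσ _)]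

omit [IsDomain S] [IsAlgClosed Ω] [Algebra.IsAlgebraic B Ω] in
theorem skum_prime (h : Amb (algebraMap R Ω) L Pi) (m : Ideal S) [m.IsMaximal]
    [IsDomain (Localization.AtPrime m)] {p : R} (hp : p ∈ Pi)
    (hu : ¬IsUnit (algebraMap R (Localization.AtPrime m) p)) {a b : Localization.AtPrime m}
    (hd : algebraMap R _ p ∣ a * b) : algebraMap R _ p ∣ a ∨ algebraMap R _ p ∣ b := by
  have := h.noeth
  have := h.jac
  have : IsNoetherianRing S := Algebra.FiniteType.isNoetherianRing R S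
  have hm : (m.under R).IsMaximal := by
    let := Ideal.Quotient.field m
    have : Module.Finite R (S ⧸ m) := finite_of_finite_type_of_isJacobsonRing R _
    have := Ideal.isMaximal_comap_of_isIntegral_of_isMaximal (R := R) (⊥ : Ideal (S ⧸ m))
    rwa [IsScalarTower.algebraMap_eq R S (S ⧸ m), ← Ideal.comap_comap, ← RingHom.ker_eq_comap_bot,
      Ideal.Quotient.algebraMap_eq, Ideal.mk_ker] at this
  have hs : ∀ s ∉ m.under R, IsUnit (algebraMap R (Localization.AtPrime m) s) := fun s hs => by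
    rw [IsScalarTower.algebraMap_apply R S]
    exact IsLocalization.map_units _ (⟨algebraMap R S s, hs⟩ : m.primeCompl)
  obtain ⟨p₀, hp₀, w, s, h1, h2, h3, h4, h5⟩ := h.good _ hm
  obtain rfl : p = p₀ := by_contra fun e => hm.ne_top (Ideal.eq_top_of_isUnit_mem _
    (sub_mem (by_contra fun k => hu (hs p k)) h1) (h.diff p hp p₀ hp₀ e))
  let := Localization.AtPrime.algebraOfLiesOver (m.under R) m
  have e := ((Algebra.isUnramifiedAt_iff_map_eq R (m.under R) m).1 inferInstance).2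
  have : Module.Flat R (Localization.AtPrime m) := .trans R S _
  have e' : IsLocalRing.maximalIdeal (Localization.AtPrime m) =
      Ideal.span {algebraMap R _ p, algebraMap R _ w} := by
    rw [← e]
    refine le_antisymm (Ideal.map_le_iff_le_comap.2 fun a ha => ?_) (Ideal.span_le.2 ?_)
    · have := Ideal.mem_map_of_mem (algebraMap R (Localization.AtPrime m)) (h5 a ha)
      rw [Ideal.map_span, Set.image_pair, map_mul] at this
      exact (Ideal.unit_mul_mem_iff_mem _ (hs s h3)).1 this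
    · rintro _ (rfl | rfl)
      exacts [Ideal.mem_map_of_mem _ h1, Ideal.mem_map_of_mem _ h2]
  exact reg_prime e' (flat_dvd fun a ha => ((h.prime p hp).dvd_or_dvd ha).resolve_left h4) hd

theorem kum_loc (h : Amb (algebraMap R Ω) L Pi) (φ : S →ₐ[R] Ω) (p : Ideal S) [p.IsPrime]
    {H : Subgroup (Ω ≃ₐ[B] Ω)} (hH : ∀ g, g ∈ H ↔ ∀ s, g (φ s) = φ s) {n : ℕ}
    {χ : (Ω ≃ₐ[B] Ω) → Ω} (hχ : Chr H n χ)
    (h0 : ∀ O, Dv (algebraMap R Ω) Pi O → (∀ s, φ s ∈ O) → ∀ σ ∈ H ⊓ Inr B O, χ σ = 1) :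
    ∃ u ∉ p, ∀ σ ∈ H, χ σ = kum n (φ u) σ := by
  obtain ⟨m, hm, hpm⟩ := p.exists_le_maximal (Ideal.IsPrime.ne_top inferInstance)
  have := h.isDomain
  have := h.noeth
  have := h.jac
  obtain ⟨_, _⟩ := etale_ufd h.good' m
  have : Module.Flat R (Localization.AtPrime m) := .trans R S _
  have hn : ∀ {s : S}, s ≠ 0 → φ s ≠ 0 := fun k => (map_ne_zero_iff φ (pt_inj h φ)).2 k
  have hc : ∀ y : m.primeCompl, φ y ≠ 0 := fun y => hn fun e => y.2 (e ▸ zero_mem _)
  let ψ : Localization.AtPrime m →+* Ω :=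
    IsLocalization.lift (g := (φ : S →+* Ω)) fun y : m.primeCompl => (hc y).isUnit
  have e1 : ∀ s, ψ (algebraMap S _ s) = φ s := fun s => IsLocalization.lift_eq _ s
  have e2 : ∀ r, ψ (algebraMap R _ r) = algebraMap R Ω r := fun r => by
    rw [IsScalarTower.algebraMap_apply R S, e1, φ.commutes]
  have e3 : ∀ a (b : m.primeCompl), ψ (IsLocalization.mk' _ a b) = φ a / φ b := fun a b => by
    rw [eq_div_iff (hc b), ← e1, ← e1, ← map_mul, IsLocalization.mk'_spec]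
  have hψ : Function.Injective ψ := (IsLocalization.lift_injective_iff _).2 fun a b =>
    ⟨fun e => (e1 a).symm.trans ((congrArg ψ e).trans (e1 b)), fun e => congrArg _ (pt_inj h φ e)⟩
  let E : IntermediateField B Ω := (Subfield.closure (Set.range φ)).toIntermediateField fun b => by
    obtain ⟨r, t, k1, k2⟩ := h.frac _ (L.algebraMap_mem b)
    rw [eq_div_of_mul_eq k1 k2]
    exact div_mem (Subfield.subset_closure ⟨_, φ.commutes r⟩)
      (Subfield.subset_closure ⟨_, φ.commutes t⟩)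
  have a1 : ∀ s, φ s ∈ E := fun s => Subfield.subset_closure ⟨s, rfl⟩
  have a2 : ∀ a ∈ E, ∃ b c, φ b / φ c = a := fun a ha => by
    obtain ⟨y, hy, z, hz, rfl⟩ := Subfield.mem_closure_iff.1 ha
    have k : Subring.closure (Set.range φ) ≤ (φ : S →+* Ω).range := Subring.closure_le.2 le_rfl
    obtain ⟨b, rfl⟩ := k hy
    obtain ⟨c, rfl⟩ := k hz
    exact ⟨b, c, rfl⟩
  obtain rfl : E.fixingSubgroup = H := Subgroup.ext fun g => by
    rw [hH, IntermediateField.mem_fixingSubgroup_iff]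
    refine ⟨fun k s => k _ (a1 s), fun k a ha => ?_⟩
    obtain ⟨b, c, rfl⟩ := a2 a ha
    rw [map_div₀, k, k]
  have hE : ∀ g ∈ E.fixingSubgroup, Ru g := fun g hg =>
    h.ru (h.mem_fix.2 fun r => φ.commutes r ▸ (hH g).1 hg _)
  have key : ∀ g ∈ E.fixingSubgroup, ∀ a b, φ a / φ b ≠ 0 →
      kum n (φ a / φ b) g = kum n (φ (a * b ^ (ell ^ n - 1))) g := fun g hg a b k => by
    have k2 := (div_ne_zero_iff.1 k).2
    rw [← skum_pow (hE g hg) k k2 ((hH g).1 hg b), map_mul, map_pow, ← pow_sub_one_mul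
      (lp_pos n).ne' (φ b), mul_comm _ (φ b), ← mul_assoc, div_mul_cancel₀ _ k2]
  have hD : ∀ q, Prime q → ∀ O : ValuationSubring Ω, (∀ t, ψ t ∈ O) →
      (∀ t, O.valuation (ψ t) < 1 ↔ q ∣ t) → Dv (algebraMap R Ω) Pi O := fun q hq O o1 o2 => by
    refine ⟨fun r => e2 r ▸ o1 _, or_iff_not_imp_left.2 fun k => ?_⟩
    obtain ⟨r, hr, k⟩ := not_forall₂.1 k
    have k1 : q ∣ algebraMap R _ r := (o2 _).1 (e2 r ▸ lt_of_le_of_ne
      ((O.valuation_le_one_iff _).2 (e2 r ▸ o1 _)) k)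
    have k2 : ¬IsUnit (algebraMap R (Localization.AtPrime m) r) := fun e =>
      hq.not_isUnit (isUnit_of_dvd_unit k1 e)
    have k3 : Prime (algebraMap R (Localization.AtPrime m) r) := ⟨fun e =>
      (h.prime r hr).ne_zero (h.inj (by rw [← e2, e, map_zero, map_zero])), k2, fun a b =>
        skum_prime h m hr k2⟩
    refine ⟨r, hr, fun t => ?_⟩
    rw [← e2, o2, (hq.associated_of_dvd k3 k1).dvd_iff_dvd_left]
    refine ⟨fun e => by_contra fun k4 => k2 (isUnit_of_dvd_one (flat_dvd (w := t) (fun a ha =>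
      ((h.prime r hr).dvd_or_dvd ha).resolve_left k4) 1 (by rwa [mul_one]))), map_dvd _⟩
  obtain ⟨f, hf, f0, hP⟩ := kummer (map_natCast (algebraMap R Ω) ell ▸
    (h.two.map (algebraMap R Ω)).ne_zero) E hE hχ
  obtain ⟨a, b, rfl⟩ := a2 f hf
  obtain ⟨u, hu, hP⟩ := skum_core (map_natCast (algebraMap R (Localization.AtPrime m)) ell ▸
      h.two.map (algebraMap R _)) hψ hE (fun t => by
      obtain ⟨⟨a, b⟩, rfl⟩ := IsLocalization.mk'_surjective m.primeCompl t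
      exact e3 a b ▸ div_mem (a1 a) (a1 b))
    (fun a ha => (a2 a ha).elim fun b k => k.elim fun c k =>
      ⟨algebraMap S _ b, algebraMap S _ c, by rw [e1, e1, k]⟩)
    (fun q hq O o1 o2 => h0 O (hD q hq O o1 o2) fun s => e1 s ▸ o1 _)
    (algebraMap S _ (a * b ^ (ell ^ n - 1))) (fun e => by
      have k := e1 (a * b ^ (ell ^ n - 1))
      rw [e, map_zero, map_mul, map_pow] at k
      exact mul_ne_zero (div_ne_zero_iff.1 f0).1 (pow_ne_zero _ (div_ne_zero_iff.1 f0).2) k.symm)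
    fun σ hσ => by rw [e1, hP σ hσ, key σ hσ a b f0]
  obtain ⟨⟨a, b⟩, rfl⟩ := IsLocalization.mk'_surjective m.primeCompl u
  have ha := (IsLocalization.AtPrime.isUnit_mk'_iff _ m a b).1 hu
  exact ⟨a * b ^ (ell ^ n - 1), fun k => mul_mem ha (pow_mem b.2 _) (hpm k), fun σ hσ => by
    rw [hP σ hσ, e3, key σ hσ a b (div_ne_zero (hc ⟨a, ha⟩) (hc b))]⟩

end Pool.Agent.Lib.MP_16ef92_ag.EL
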