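import Pool.Agent.Lib.MP_16ef92_ag.EL.Cpx
import Pool.Agent.Lib.MP_16ef92_ag.EL.SKum

/-! The complex is exact in degree one. -/

set_option backward.isDefEq.respectTransparency false

namespace Pool.Agent.Lib.MP_16ef92_ag.EL

open ET

open CategoryTheory Limits AlgebraicGeometry Opposite
open scoped Classical

variable [Pl]

variable {B Ω : Type} [Field B] [Field Ω] [Algebra B Ω] {R : Type} [CommRing R] [Algebra R Ω]
  {n : ℕ} [IsAlgClosed Ω] [Algebra.IsAlgebraic B Ω] {L : IntermediateField B Ω} {Pi : Set R}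

theorem cob_loc (h : Amb (algebraMap R Ω) L Pi) {S : Type} [CommRing S] [Algebra R S]
    [Algebra.Etale R S] [IsDomain S] (p : Ideal S) [p.IsPrime] (c : Pg Ω (Aff R S) → LC B Ω R n)
    (hc : ∀ q : Q2 B (Dv (algebraMap R Ω) Pi) (Aff R S), d1F c q = 0) :
    ∃ (S' : Type) (_ : CommRing S') (_ : Algebra R S') (_ : Algebra.Etale R S')
      (g : S →ₐ[R] S') (p' : Ideal S'), p'.IsPrime ∧ p'.comap g = p ∧
        ∃ a, d0V B _ a = fun x => c (x.im (afm g)) := by
  obtain ⟨φ⟩ := exists_pt (S := S) h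
  obtain ⟨x, hx⟩ := Ptv.of_hom (j := algebraMap R Ω) (φ : S →+* Ω) φ.commutes
  have hr : ∀ g : Gf B Ω R, Ru g.1 := fun g => h.ru (h.mem_fix.2 g.2)
  have c1 : ∀ y g l, (c y).1 (g * l) = (c (l • y)).1 g + (c y).1 l := fun y g l =>
    (sub_eq_zero.1 ((sub_add_eq_add_sub _ _ _).symm.trans (hc (.gen y g l)))).symm
  let H : Subgroup (Ω ≃ₐ[B] Ω) :=
    { carrier := {g | ∀ s, g (φ s) = φ s}
      mul_mem' := fun hg hh r => by rw [AlgEquiv.mul_apply, hh, hg]
      one_mem' := fun _ => rfl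
      inv_mem' := fun {g} hg r => g.injective (by rw [self_apply_inv, hg]) }
  have hH : ∀ {g}, g ∈ H → g ∈ Gf B Ω R := fun hg r => by
    simpa using hg (algebraMap R S r)
  have hfix : ∀ {g} (hg : g ∈ H), (⟨g, hH hg⟩ : Gf B Ω R) • x = x := fun hg =>
    Ptv.hm_ext fun b => by rw [hm_smul, hx]; exact hg b
  let χ : (Ω ≃ₐ[B] Ω) → Ω := fun g => if hg : g ∈ Gf B Ω R then ((c x).1 ⟨g, hg⟩).val else 1
  have hχ : ∀ {g} (hg : g ∈ H), χ g = ((c x).1 ⟨g, hH hg⟩).val := fun hg => dif_pos (hH hg)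
  have c0 : (c x).1 1 = 0 := by simpa using c1 x 1 1
  obtain ⟨u, hu, hk⟩ := kum_loc h φ p (H := H) (fun _ => Iff.rfl) (n := n) (χ := χ)
    ⟨fun g hg => hχ hg ▸ Mu.val_pow _, fun g hg l hl => by
      rw [hχ hg, hχ hl, hχ (H.mul_mem hg hl), ← Mu.val_add]
      exact congrArg Mu.val ((c1 x ⟨g, hH hg⟩ ⟨l, hH hl⟩).trans (by rw [hfix hl])),
    (c x).2.mono fun g e hg => by
      rw [hχ hg, ← one_mul (⟨g, hH hg⟩ : Gf B Ω R), e, c0, Mu.val_zero]⟩
    fun O hO hφ g hg => by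
      obtain ⟨y, hy⟩ := Ptv.of_hom (j := jv hO.1) ((φ : S →+* Ω).codRestrict O hφ)
        fun r => Subtype.ext (φ.commutes r)
      have e : y.gen = x := Ptv.hm_ext fun b => by rw [Ptv.gen, Ptv.hm_mp, hy, hx]; rfl
      rw [hχ hg.1, ← e]
      exact congrArg Mu.val (hc (.val O hO.1 hO y _ hg.2))
  have u0 : φ u ≠ 0 := fun e => hu ((map_eq_zero_iff _ (pt_inj h φ)).1 e ▸ p.zero_mem)
  have r0 : ∀ g : Ω ≃ₐ[B] Ω, g (rt n (φ u)) ≠ 0 := fun g =>
    (map_ne_zero g).2 (gala_ne u0 (rt_pow _ _))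
  obtain ⟨S', _, _, _, w, p', h1, h2, h3⟩ := kum_cover
    (map_natCast (algebraMap R S) ell ▸ h.two.map (algebraMap R S)) n u p hu
  let _ : Algebra R S' := ((algebraMap S S').comp (algebraMap R S)).toAlgebra
  have : IsScalarTower R S S' := .of_algebraMap_eq' rfl
  have : Algebra.Etale R S' := .comp R S S'
  let i := IsScalarTower.toAlgHom R S S'
  have key : ∀ y : Pg Ω (Aff R S'), ∃ a : Mu Ω n, ∀ g : Gf B Ω R, g • x = y.im (afm i) →
      a.val * g.1 (rt n (φ u)) = ((c x).1 g).val * y.hm w := fun y => by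
    obtain ⟨g, hg, e⟩ := pt_conj h φ (y.im (afm i)).alg
    have e1 : (y.hm w / g (rt n (φ u))) ^ ell ^ n = 1 := by
      rw [div_pow, ← map_pow, ← map_pow, h3, rt_pow, div_eq_one_iff_eq ((map_ne_zero g).2 u0), e]
      exact (y.hm_im i u).symm
    obtain ⟨a, ha⟩ := Mu.exists_val e1
    let g' : Gf B Ω R := ⟨g, h.mem_fix.1 hg⟩
    refine ⟨(c x).1 g' + a, fun l hl => ?_⟩
    have e2 : (g'⁻¹ * l).1 ∈ H := fun s => g.injective (by
      change g (g⁻¹ (l.1 _)) = _
      rw [self_apply_inv, e]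
      exact ((congrArg l.1 (hx s).symm).trans (hm_smul l x s).symm).trans
        (congrArg (·.hm s) hl))
    have e3 := c1 x g' (g'⁻¹ * l)
    have e4 : g.toFun _ = _ := congrArg g (kum_spec (hr (g'⁻¹ * l)) u0 (rt_pow n _))
    rw [mul_inv_cancel_left, hfix e2] at e3
    have e5 : l.1 (rt n (φ u)) = ((c x).1 (g'⁻¹ * l)).val * g (rt n (φ u)) := by
      have := (self_apply_inv g _).symm.trans e4
      rwa [← hk _ e2, hχ e2, map_mul, hr g' n _ (Mu.val_pow _)] at this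
    rw [e3, e5, Mu.val_add, Mu.val_add, ha]
    field_simp [r0 g]
  choose a ha using key
  refine ⟨S', _, _, this, i, p', h1, h2, a, funext fun y => Subtype.ext (funext fun l => ?_)⟩
  obtain ⟨g, hg, e⟩ := pt_conj h φ (y.im (afm i)).alg
  let g' : Gf B Ω R := ⟨g, h.mem_fix.1 hg⟩
  have e1 : g' • x = y.im (afm i) := Ptv.hm_ext fun b => by rw [hm_smul, hx]; exact e b
  have e2 := ha (l • y) (l * g') (by rw [mul_smul, e1, smul_im])
  have e3 := congrArg l.1 (ha y g' e1)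
  rw [map_mul, map_mul, hr l n _ (Mu.val_pow _), hr l n _ (Mu.val_pow _)] at e3
  rw [c1, e1, Mu.val_add, hm_smul, mul_assoc, ← e3, ← mul_assoc] at e2
  exact sub_eq_iff_eq_add.2 (Mu.ext (mul_right_cancel₀ (r0 _) e2))

theorem exact_one (h : Amb (algebraMap R Ω) L Pi) {hr : ∀ ⦃g⦄, g ∈ Gf B Ω R → Ru g} :
    (ShortComplex.mk (cx n (Dv (algebraMap R Ω) Pi) hr).d0 (cx n (Dv (algebraMap R Ω) Pi) hr).d1
      (cx n _ hr).d0_d1).Exact :=
  exact_of_loc _ fun V c hc => ⟨⟨fun W f => ∃ a, d0V B W a = fun x => c (x.im f),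
      fun {W W' f} ⟨a, ha⟩ g => ⟨fun x => a (x.im g), funext fun x => Subtype.ext (funext fun l =>
        (congrArg (fun t => a t - _) (smul_im l g x)).trans ((congrArg (fun t => (t (x.im g)).1 l)
          ha).trans (congrArg (fun t => (c t).1 l) (x.im_comp g f).symm)))⟩⟩,
    cover_of_dom h _ fun S _ _ _ _ f p _ => by
      obtain ⟨S', _, _, _, g, p', h1, h2, a, ha⟩ := cob_loc h p (fun x => c (x.im f)) fun
        | .gen x g l => (congrArg (fun t => (c t).1 g - _ + _) (smul_im l f x)).trans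
            (congrFun hc (.gen (x.im f) g l))
        | .val O hO hP x g hg => (congrArg (fun t => (c t).1 g) (gen_im f x).symm).trans
            (congrFun hc (.val O hO hP (x.im f) g hg))
      exact ⟨S', _, _, ‹_›, g, p', h1, h2, a, ha.trans (funext fun x =>
        congrArg c (x.im_comp _ f).symm)⟩, fun W f e => e⟩

end Pool.Agent.Lib.MP_16ef92_ag.EL
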