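import Pool.Agent.Lib.MP_16ef92_ag.EL.Cpx

/-! Local coboundaries give pairs. -/

set_option backward.isDefEq.respectTransparency false

namespace Pool.Agent.Lib.MP_16ef92_ag.EL

open ET

open CategoryTheory Limits AlgebraicGeometry Opposite

variable [Pl]

variable {B Ω : Type} [Field B] [Field Ω] [Algebra B Ω] {R : Type} [CommRing R] [Algebra R Ω]
  {n : ℕ} [IsAlgClosed Ω] [Algebra.IsAlgebraic B Ω]

omit [IsAlgClosed Ω] [Algebra.IsAlgebraic B Ω] in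
theorem prp_near_all {ι : Type} [Finite ι] {P : ι → (Ω ≃ₐ[B] Ω) → Prop} (h : ∀ i, Near (P i)) :
    Near fun g => ∀ i, P i g := by
  classical
  have := Fintype.ofFinite ι
  choose S hS using h
  exact ⟨Finset.univ.biUnion S, fun g hg i => hS i g fun s hs =>
    hg s (Finset.mem_biUnion.2 ⟨i, Finset.mem_univ i, hs⟩)⟩

/-- `fin_cover` gives finitely many `W i` with finite `Pg Ω (W i)` and cochains `c i`; every point
of `tm R` lifts to some `W i` (`(isG Ω R).lift`, `(isPt_val O _).lift`, `Sieve.ofArrows`), and points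
of `tm R` are unique. So `β g h = val (c (h • x) g - c x (g * h) + c x h)` for every
`x : Pg Ω (W i)` and `e O g = val (c x.gen g)` for every `x : Ptv (jv hO) (W i)`.
`coc`: use `x` and `l • x`. `cts`: `near_fix`, `near_normal`, finiteness. `ecob`: `ine_fix`.
`eqv`: `x.mp θ _ : Ptv (jv _) (W i)` for the restriction `θ : O →+* tr g O` of `g` has generic point
`g • x.gen` (`Ptv.mp_mp`). `near`: `β 1 1 = val (c x 1)`, finiteness. -/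
theorem pr_of_loc {t : Q2 B (fun _ : ValuationSubring Ω => True) (tm R) → Mu Ω n}
    {β : (Ω ≃ₐ[B] Ω) → (Ω ≃ₐ[B] Ω) → Ω} {e : ValuationSubring Ω → (Ω ≃ₐ[B] Ω) → Ω}
    (hv : Vals t β e) {Q : Sieve (tm R)} (hQ : Q ∈ (Xs R).smallEtaleTopology (tm R))
    (h : ∀ (W : (Xs R).Etale) (f : W ⟶ tm R), Q f →
      ∃ c : Pg Ω W → LC B Ω R n, ∀ q, d1F c q = t (q.im f)) :
    Pr (algebraMap R Ω) (Gf B Ω R) n β e := by
  obtain ⟨m, W, hW, hfin, hcov⟩ := fin_cover Ω hQ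
  choose c hc using fun i => h (W i) (toTm _) (hW i)
  have hβ : ∀ i (x : Pg Ω (W i)) (g l : Gf B Ω R),
      β g l = ((c i (l • x)).1 g - (c i x).1 (g * l) + (c i x).1 l).val := fun i x g l => by
    rw [hv.gen, Subsingleton.elim default (x.im (toTm _))]
    exact congrArg Mu.val (hc i (.gen x g l)).symm
  have he : ∀ O hO i (x : Ptv (jv hO) (W i)) (g : Gf B Ω R), g.1 ∈ Inr B O →
      e O g = ((c i x.gen).1 g).val := fun O hO i x g hg => by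
    rw [hv.val O hO trivial g hg, Subsingleton.elim default (x.im (toTm _))]
    exact congrArg Mu.val (hc i (.val O hO trivial x g hg)).symm
  have lift : ∀ {O : Type} [CommRing O] (j : R →+* O),
      IsPt (Xs R).smallEtaleTopology (fib j) → ∃ i, Nonempty (Ptv j (W i)) := fun j hj => by
    obtain ⟨Y, f, y, h1, -⟩ := hj.lift _ hcov (default : Ptv j (tm R))
    obtain ⟨i, a, -⟩ := (Sieve.mem_ofArrows_iff _ _ _).1 h1
    exact ⟨i, ⟨Ptv.im a y⟩⟩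
  obtain ⟨i₀, ⟨x₀⟩⟩ := lift _ (isG Ω R)
  have all := prp_near_all fun i => prp_near_all fun y : Pg Ω (W i) => (c i y).2
  refine ⟨fun g hg l hl => ?_, fun g hg k hk l hl => ?_, ?_, fun O hO σ hσ => ?_,
    fun O hO σ hσ τ hτ => ?_, fun O hO g hg σ hσ => ?_, all.mono fun σ hs O hO hσ => ?_⟩
  · rw [hβ i₀ x₀ ⟨g, hg⟩ ⟨l, hl⟩]
    exact Mu.val_pow _
  · have a := hβ i₀ ((⟨l, hl⟩ : Gf B Ω R) • x₀) ⟨g, hg⟩ ⟨k, hk⟩
    have b := hβ i₀ x₀ (⟨g, hg⟩ * ⟨k, hk⟩) ⟨l, hl⟩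
    have d := hβ i₀ x₀ ⟨k, hk⟩ ⟨l, hl⟩
    have f := hβ i₀ x₀ ⟨g, hg⟩ (⟨k, hk⟩ * ⟨l, hl⟩)
    refine (congrArg₂ (· * ·) a b).trans (Eq.trans ?_ (congrArg₂ (· * ·) d f).symm)
    rw [← Mu.val_add, ← Mu.val_add, mul_smul, mul_assoc]
    congr 1
    abel
  · refine ((near_normal all).and (near_fix x₀)).mono fun k hk hG g hg l hl => ⟨?_, ?_⟩
    · have one := hk.1 1 i₀
      have m : l⁻¹ * k * l ∈ Gf B Ω R := mul_mem (mul_mem (inv_mem hl) hG) hl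
      have a := hk.1 l i₀ x₀ m (⟨g, hg⟩ * ⟨l, hl⟩)
      have b : (⟨g, hg⟩ * ⟨l, hl⟩ * ⟨_, m⟩ : Gf B Ω R) = ⟨g, hg⟩ * ⟨k, hG⟩ * ⟨l, hl⟩ :=
        Subtype.ext (by simp [mul_assoc])
      simp only [inv_one, one_mul, mul_one] at one
      refine (hβ i₀ x₀ (⟨g, hg⟩ * ⟨k, hG⟩) ⟨l, hl⟩).trans
        (Eq.trans ?_ (hβ i₀ x₀ ⟨g, hg⟩ ⟨l, hl⟩).symm)
      rw [← b, a, one _ hG]
    · have one := hk.1 1 i₀
      simp only [inv_one, one_mul, mul_one] at one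
      refine (hβ i₀ x₀ ⟨g, hg⟩ (⟨l, hl⟩ * ⟨k, hG⟩)).trans
        (Eq.trans ?_ (hβ i₀ x₀ ⟨g, hg⟩ ⟨l, hl⟩).symm)
      rw [mul_smul, hk.2 hG, ← mul_assoc, one _ hG, one _ hG]
  · obtain ⟨i, ⟨x⟩⟩ := lift _ (isPt_val O (jv hO))
    rw [he O hO i x ⟨σ, hσ.1⟩ hσ.2]
    exact Mu.val_pow _
  · obtain ⟨i, ⟨x⟩⟩ := lift _ (isPt_val O (jv hO))
    have a := hβ i x.gen ⟨σ, hσ.1⟩ ⟨τ, hτ.1⟩
    have b := he O hO i x (⟨σ, hσ.1⟩ * ⟨τ, hτ.1⟩) (mul_mem hσ.2 hτ.2)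
    refine (congrArg₂ (· * ·) a b).trans (Eq.trans ?_ (congrArg₂ (· * ·)
      (he O hO i x ⟨σ, hσ.1⟩ hσ.2) (he O hO i x ⟨τ, hτ.1⟩ hτ.2)).symm)
    rw [← Mu.val_add, ← Mu.val_add, ine_fix x (g := ⟨τ, hτ.1⟩) hτ.2]
    congr 1
    abel
  · obtain ⟨i, ⟨x⟩⟩ := lift _ (isPt_val O (jv hO))
    have hO' : Ov (algebraMap R Ω) (tr g O) := fun r => hg r ▸ mem_tr.2 (hO r)
    let θ : O →+* tr g O :=
      ((g : Ω →+* Ω).comp O.subtype).codRestrict (tr g O) fun z => mem_tr.2 z.2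
    have hθ : θ.comp (jv hO) = jv hO' := RingHom.ext fun r => Subtype.ext (hg r)
    have h3 : ((g : Ω →+* Ω).comp O.subtype).comp (jv hO) = algebraMap R Ω :=
      RingHom.ext fun r => hg r
    have k1 : x.mp _ h3 = Ptv.gen (hO := hO') (x.mp θ hθ) :=
      Ptv.mp_mp θ hθ (tr g O).subtype rfl _ h3 (fun _ => rfl) x
    have k2 : x.mp _ h3 = (⟨g, hg⟩ : Gf B Ω R) • x.gen :=
      Ptv.mp_mp (j' := algebraMap R Ω) O.subtype rfl (g : Ω →+* Ω) (RingHom.ext fun r => hg r) _ h3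
        (fun _ => rfl) x
    have k := k1.symm.trans k2
    have hi : g * σ * g⁻¹ ∈ Inr B (tr g O) := conj_mem_ine.2 hσ.2
    have hm : g * σ * g⁻¹ ∈ Gf B Ω R := mul_mem (mul_mem hg hσ.1) (inv_mem hg)
    have hs : (⟨_, hm⟩ * ⟨g, hg⟩ : Gf B Ω R) = ⟨g, hg⟩ * ⟨σ, hσ.1⟩ :=
      Subtype.ext (inv_mul_cancel_right (g * σ) g)
    have a := he (tr g O) hO' i (x.mp θ hθ) ⟨_, hm⟩ hi
    have b := hβ i x.gen ⟨g, hg⟩ ⟨σ, hσ.1⟩
    have d := hβ i x.gen ⟨_, hm⟩ ⟨g, hg⟩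
    refine (congrArg₂ (· * ·) a b).trans
      (Eq.trans ?_ (congrArg₂ (· * ·) d (he O hO i x ⟨σ, hσ.1⟩ hσ.2)).symm)
    rw [← Mu.val_add, ← Mu.val_add, k, ine_fix x (g := ⟨σ, hσ.1⟩) hσ.2, hs]
    congr 1
    abel
  · obtain ⟨i, ⟨x⟩⟩ := lift _ (isPt_val O (jv hO))
    have a := hs i x.gen hσ.1 1
    rw [one_mul] at a
    refine (he O hO i x ⟨σ, hσ.1⟩ hσ.2).trans (Eq.trans ?_ (hβ i x.gen 1 1).symm)
    rw [a, one_smul, mul_one, sub_add_cancel]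

end Pool.Agent.Lib.MP_16ef92_ag.EL
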