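import Mathlib
import Pool.Agent.Lib.MP_16ef92_ag.EL.Act
import Pool.Agent.Lib.MP_16ef92_ag.EL.Exa0
import Pool.Agent.Lib.MP_16ef92_ag.EL.Exa1
import Pool.Agent.Lib.MP_16ef92_ag.EL.Prp

set_option autoImplicit false
set_option backward.isDefEq.respectTransparency false

namespace Pool.Agent.Lib.MP_16ef92_ag.EL

open ET

open CategoryTheory Limits AlgebraicGeometry Opposite Abelian
open scoped Classical

variable [Pl]

variable {B Ω : Type} [Field B] [Field Ω] [Algebra B Ω] [IsAlgClosed Ω] [Algebra.IsAlgebraic B Ω]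
variable {R : Type} [CommRing R]

section

variable [Algebra R Ω] {hr : ∀ ⦃g⦄, g ∈ Gf B Ω R → Ru g} {n : ℕ} {x x' : (mu (Spec (.of R)) (ell ^ n)).H 2}
  {β β' : (Ω ≃ₐ[B] Ω) → (Ω ≃ₐ[B] Ω) → Ω} {e e' : ValuationSubring Ω → (Ω ≃ₐ[B] Ω) → Ω}

omit [Algebra.IsAlgebraic B Ω] in
theorem acyG (A : Type) [AddCommGroup A] : Acy (X := Spec (.of R)) (fnS (isG Ω R) A) :=
  acy (tmT R) (Scheme.pointSmallEtale (spm (algebraMap R Ω))) A

omit [Algebra.IsAlgebraic B Ω] in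
theorem Cls.total (x : (mu (Spec (.of R)) (ell ^ n)).H 2) : ∃ β e, Cls n hr β e x := by
  obtain ⟨z, hz⟩ := Rs.total (hT := tmT R) (A := cx n (fun _ => True) hr) (acyG _) (acyG _) x
  let t : Q2 B (fun _ : ValuationSubring Ω => True) (tm R) → Mu Ω n := z
  exact ⟨fun g h => if k : g ∈ Gf B Ω R ∧ h ∈ Gf B Ω R then
      (t (.gen default ⟨g, k.1⟩ ⟨h, k.2⟩)).val else 1,
    fun O g => if k : Ov (algebraMap R Ω) O ∧ g ∈ Gf B Ω R ∧ g ∈ Inr B O then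
      (t (.val O k.1 trivial default ⟨g, k.2.1⟩ k.2.2)).val else 1,
    z, hz, fun g h => dif_pos ⟨g.2, h.2⟩, fun O hO _ g hg => dif_pos ⟨hO, g.2, hg⟩⟩

theorem Cls.pr (h : Cls n hr β e x) : Pr (algebraMap R Ω) (Gf B Ω R) n β e := by
  obtain ⟨z, h1, h2⟩ := h
  obtain ⟨Q, hQ, h3⟩ := h1.loc
  exact pr_of_loc h2 hQ fun W f hf => (h3 W f hf).imp fun c hc => congrFun hc

omit [Algebra.IsAlgebraic B Ω]

theorem Cls.sub (h : Cls n hr β e x) (h' : Cls n hr β' e' x') :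
    Cls n hr (β / β') (e / e') (x - x') := by
  obtain ⟨z, h1, h2⟩ := h
  obtain ⟨z', h1', h2'⟩ := h'
  exact ⟨_, h1.sub h1', fun g l => (congrArg₂ (· / ·) (h2.gen g l) (h2'.gen g l)).trans (Mu.val_sub _ _).symm,
    fun O hO hP g hg => (congrArg₂ (· / ·) (h2.val O hO hP g hg) (h2'.val O hO hP g hg)).trans
      (Mu.val_sub _ _).symm⟩

omit [IsAlgClosed Ω] in
theorem d1_tm (P : ValuationSubring Ω → Prop) (c : Pg Ω (tm R) → LC B Ω R n) (g l : Gf B Ω R) :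
    (d1F (P := P) c (.gen default g l)).val * ((c default).1 (g * l)).val =
      ((c default).1 g).val * ((c default).1 l).val := by
  rw [← Mu.val_add, ← Mu.val_add, d1F, Subsingleton.elim (l • _) default, add_right_comm,
    sub_add_cancel]

theorem Cls.zero (h : Cls n hr β e 0) : ∃ b, Cob (Gf B Ω R) n β b ∧
    ∀ O, Ov (algebraMap R Ω) O → ∀ σ ∈ Gf B Ω R ⊓ Inr B O, e O σ = b σ := by
  obtain ⟨z, h1, h2⟩ := h
  obtain ⟨c : Pg Ω (tm R) → LC B Ω R n, rfl⟩ := h1.zero (acyG _)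
  let b : (Ω ≃ₐ[B] Ω) → Ω := fun g => if k : g ∈ Gf B Ω R then ((c default).1 ⟨g, k⟩).val else 1
  have hb : ∀ {g} (k : g ∈ Gf B Ω R), b g = ((c default).1 ⟨g, k⟩).val := fun k => dif_pos k
  refine ⟨b, ⟨fun g hg => hb hg ▸ Mu.val_pow _, (c default).2.mono fun l k hl g hg => ?_,
    fun g hg l hl => ?_⟩, fun O hO g hg => ?_⟩
  · rw [hb hg, hb (mul_mem hg hl), ← k hl ⟨g, hg⟩]
    rfl
  · rw [hb hg, hb hl, hb (mul_mem hg hl), h2.gen ⟨g, hg⟩ ⟨l, hl⟩]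
    exact d1_tm (fun _ => True) c ⟨g, hg⟩ ⟨l, hl⟩
  · rw [hb hg.1, h2.val O hO trivial ⟨g, hg.1⟩ hg.2]
    exact congrArg (fun t => ((c t).1 _).val) (Subsingleton.elim _ _)

end

theorem Cls.inj [Algebra R Ω] {hr : ∀ ⦃g⦄, g ∈ Gf B Ω R → Ru g} {n : ℕ}
    {x : (mu (Spec (.of R)) (ell ^ n)).H 2} {β : (Ω ≃ₐ[B] Ω) → (Ω ≃ₐ[B] Ω) → Ω}
    {e : ValuationSubring Ω → (Ω ≃ₐ[B] Ω) → Ω} {L : IntermediateField B Ω} {Pi : Set R}
    (ha : Amb (algebraMap R Ω) L Pi) {b : (Ω ≃ₐ[B] Ω) → Ω} (h : Cls n hr β e x)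
    (hb : Cob (Gf B Ω R) n β b)
    (he : ∀ O, Dv (algebraMap R Ω) Pi O → ∀ σ ∈ Gf B Ω R ⊓ Inr B O, e O σ = b σ) : x = 0 := by
  obtain ⟨z, h1, h2⟩ := h
  let q : ∀ {V : (Xs R).Etale}, Q2 B (Dv (algebraMap R Ω) Pi) V →
      Q2 B (fun _ : ValuationSubring Ω => True) V := fun
    | .gen x g h => .gen x g h
    | .val O hO _ x g hg => .val O hO trivial x g hg
  choose a ha' using fun g : Gf B Ω R => Mu.exists_val (hb.pow g g.2)
  let c : Pg Ω (tm R) → LC B Ω R n := fun _ => ⟨a, hb.cts.mono fun l k hl g =>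
    Mu.ext (by rw [ha', ha']; exact k hl g g.2)⟩
  refine h1.inj (A' := cx n (Dv (algebraMap R Ω) Pi) hr) (𝟙 _) (𝟙 _)
    (fnH (isQ B R _) (isQ B R _) (fun V => .mk' (fun a x => a (q x)) fun _ _ => rfl) fun f a => fun
      | .gen .. => rfl
      | .val .. => rfl) rfl rfl (hom_ext' fun V a => funext fun
      | .gen .. => rfl
      | .val .. => rfl) (mono_e ha) (exact_zero ha) (exact_one ha) (c := c) ?_
  funext (t : Q2 B _ (tm R))
  rcases t with ⟨t, g, l⟩ | ⟨O, hO, hP, t, g, hg⟩ <;> obtain rfl := Subsingleton.elim default t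
  · refine Mu.ext (mul_right_cancel₀ (a (g * l)).val_ne
      ((d1_tm (Dv (algebraMap R Ω) Pi) c g l).trans ?_).symm)
    exact (congrArg₂ (· * ·) (ha' g) (ha' l)).trans ((hb.cob g g.2 l l.2).symm.trans
      (congrArg₂ (· * ·) (h2.gen g l) (ha' (g * l)).symm))
  · exact Mu.ext ((h2.val O hO trivial g hg).symm.trans ((he O hP g ⟨g.2, hg⟩).trans (ha' g).symm))

theorem sheaf_side {ι : R →+* Ω} {L : IntermediateField B Ω} {Pi : Set R} (h : Amb ι L Pi) :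
    ∃ Cls, SInt ι L Pi Cls := by
  let _ := ι.toAlgebra
  have h' : Amb (algebraMap R Ω) L Pi := h
  have hr : ∀ ⦃g⦄, g ∈ Gf B Ω R → Ru g := fun g hg => h'.ru (h'.mem_fix.2 hg)
  exact ⟨fun n x β e => Cls n hr β e x, fun _ => Cls.total, fun _ _ _ _ k => h'.fix_eq ▸ k.pr,
    fun _ _ _ _ _ _ _ => Cls.sub, fun _ _ _ k => h'.fix_eq ▸ k.zero,
    fun _ _ _ _ _ k => h'.fix_eq ▸ k.inj h', fun _ _ _ _ => Cls.sq,
    fun σ s hs _ _ _ _ => Cls.act σ s hs⟩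

end Pool.Agent.Lib.MP_16ef92_ag.EL
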