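import Mathlib
import Pool.Agent.Lib.MP_16ef92_ag.AL.ESep
import Pool.Agent.Lib.MP_16ef92_ag.EL.One
import Pool.Agent.Lib.MP_16ef92_ag.EL.Dsc2
import Pool.Agent.Lib.MP_16ef92_ag.EL.Rng
import Pool.Agent.Lib.MP_16ef92_ag.EL.SMain

set_option autoImplicit false
set_option linter.unusedSectionVars false
set_option linter.unusedVariables false

namespace Pool.Agent.Lib.MP_16ef92_ag.EL

open ET

open Polynomial WeierstrassCurve WeierstrassCurve.Affine
open scoped Classical

noncomputable section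

open CategoryTheory AlgebraicGeometry

theorem bridgeL {F : Type} [Field F] [Fintype F] [Clos F] [hq : Fact (Odd (Fintype.card F))]
    {P Q D : F[X]} (h0 : P * Q * (P - Q) * D ≠ 0) (l : ℕ) [hp : Fact l.Prime] (hl : (l : F) ≠ 0) :
    ∃ s : Gam F, Fr s (Fintype.card F) ∧ ∃ Cl, AL.BIntL l (curve P Q D) s
      (H2 (bar F (surf P Q D)) l) (fun n => pwH (bar F (surf P Q D)) l n)
      (fun n => actH (frob F (surf P Q D)) (l ^ n) 2) Cl := by
  letI : Pl := ⟨l, hp.out⟩
  letI : Algebra (Om F) (AlgebraicClosure (RatFunc (RatFunc F))) :=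
    (IsAlgClosed.lift : Om F →ₐ[RatFunc F] _).toRingHom.toAlgebra
  haveI : IsScalarTower (RatFunc F) (Om F) (AlgebraicClosure (RatFunc (RatFunc F))) :=
    IsScalarTower.of_algebraMap_eq fun a =>
      ((IsAlgClosed.lift : Om F →ₐ[RatFunc F] _).commutes a).symm
  have hT : EmbT (AlgebraicClosure (RatFunc (RatFunc F))) (curve P Q D) := fun n R h => by
    cases R with
    | zero => exact ⟨0, rfl⟩
    | some a b hn =>
      obtain ⟨⟨a, rfl⟩, b, rfl⟩ := AL.tors_sep h0 (m := l ^ n)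
        (by rw [Nat.cast_pow]; exact pow_ne_zero _ hl) hn h
      exact ⟨.some a b ((baseChange_nonsingular (W := (curve P Q D).toAffine)
        (f := IsScalarTower.toAlgHom (RatFunc F) (Om F) _) (algebraMap (Om F) _).injective a b).1
        hn), rfl⟩
  obtain ⟨C, he⟩ := exists_cs h0 hl fun n R h => by
    obtain ⟨_ | ⟨a, b, hn⟩, rfl⟩ := hT n R h
    · trivial
    · exact ⟨mem_algebraicClosure_iff.2 (Algebra.IsAlgebraic.isAlgebraic a).algebraMap,
        mem_algebraicClosure_iff.2 (Algebra.IsAlgebraic.isAlgebraic b).algebraMap⟩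
  obtain ⟨ι, Pi, hA, h1, h2, s, hs, hy, hc⟩ := C.rng h0 he
  obtain ⟨Cls, hS⟩ := sheaf_side hA
  exact ⟨res F s, res_fr hc, C.bridge_of hT ⟨hA, C.L_le,
    IntermediateField.subset_adjoin _ _ (Or.inr rfl), h1, h2, C.tsq⟩ hS (frR P Q D) s hs hy⟩

end

end Pool.Agent.Lib.MP_16ef92_ag.EL
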