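import Mathlib
import Pool.Agent.Lib.MP_16ef92_ag.EL.Pl

/-! Sections of etale algebras over valuation rings, Kummer coverings. -/

namespace Pool.Agent.Lib.MP_16ef92_ag.EL

variable [Pl]

variable {Ω : Type} [Field Ω] {S : Type} [CommRing S]

/-- Going down gives a prime `q₀ ≤ q` above zero; its residue field is finite over `Ω`; an element
`z ∉ O` of the image has `z⁻¹` in the maximal ideal. -/
theorem val_section [IsAlgClosed Ω] (O : ValuationSubring Ω) [Algebra O S] [Algebra.Etale O S]
    (q : Ideal S) [q.IsPrime] (hq : q.comap (algebraMap O S) = IsLocalRing.maximalIdeal O) :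
    Nonempty (S →ₐ[O] O) := by
  have : q.LiesOver (IsLocalRing.maximalIdeal O) := ⟨hq.symm⟩
  obtain ⟨q₀, hle, _, h0⟩ := q.exists_ideal_le_liesOver_of_le (p := (⊥ : Ideal O))
    (q := IsLocalRing.maximalIdeal O) bot_le
  have hi : Function.Injective (algebraMap O q₀.ResidueField) :=
    (injective_iff_map_eq_zero _).2 fun a ha => by
      rw [IsScalarTower.algebraMap_apply O S, Ideal.algebraMap_residueField_eq_zero] at ha
      exact Ideal.mem_bot.1 (h0.over ▸ ha)
  let _ : Algebra Ω q₀.ResidueField := (IsFractionRing.lift hi).toAlgebra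
  have : IsScalarTower O Ω q₀.ResidueField :=
    .of_algebraMap_eq fun a => (IsFractionRing.lift_algebraMap hi a).symm
  have := Algebra.QuasiFinite.of_restrictScalars O Ω q₀.ResidueField
  have : Module.Finite Ω q₀.ResidueField := .of_quasiFinite
  let φ : S →ₐ[O] Ω := ((IsAlgClosed.lift : q₀.ResidueField →ₐ[Ω] Ω).restrictScalars O).comp
    (IsScalarTower.toAlgHom O S _)
  have hφ : ∀ s, φ s = 0 → s ∈ q := fun s hs => hle (Ideal.algebraMap_residueField_eq_zero.1
    ((map_eq_zero (IsAlgClosed.lift : q₀.ResidueField →ₐ[Ω] Ω)).1 hs))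
  have hm : ∀ s, φ s ∈ O := fun s => by
    by_contra h
    have h1 := O.inv_mem_nonunits_iff.2 (.inr h)
    have h2 : algebraMap O S ⟨_, O.nonunits_le h1⟩ ∈ q :=
      Ideal.mem_comap.1 (hq ▸ O.coe_mem_nonunits_iff.1 h1)
    have h3 := hφ (algebraMap O S ⟨_, O.nonunits_le h1⟩ * s - 1) (by
      rw [map_sub, map_mul, φ.commutes, map_one, sub_eq_zero]
      exact inv_mul_cancel₀ fun e => h (e ▸ O.zero_mem))
    have h4 := q.sub_mem (q.mul_mem_right s h2) h3
    rw [sub_sub_cancel] at h4
    exact Ideal.IsPrime.one_notMem ‹_› h4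
  exact ⟨⟨(φ : S →+* Ω).codRestrict O hm, fun a => Subtype.ext (φ.commutes a)⟩⟩

open Polynomial in
/-- `StandardEtalePair` with `f = X ^ ell ^ n - C u`, `g = X`; the prime is the kernel of a lift to an
algebraic closure of the residue field of `p`. -/
theorem kum_cover (h2 : IsUnit (ell : S)) (n : ℕ) (u : S) (p : Ideal S) [p.IsPrime] (hu : u ∉ p) :
    ∃ (S' : Type) (_ : CommRing S') (_ : Algebra S S') (_ : Algebra.Etale S S') (w : S')
      (p' : Ideal S'), p'.IsPrime ∧ p'.comap (algebraMap S S') = p ∧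
        w ^ ell ^ n = algebraMap S S' u := by
  have hn := lp_pos n
  obtain ⟨v, hv⟩ := (h2.pow n).exists_right_inv
  let P : StandardEtalePair S := ⟨X ^ ell ^ n - C u, monic_X_pow_sub_C u hn.ne', X,
    C v * X, 0, ell ^ n, by
      rw [derivative_sub, derivative_C, sub_zero, derivative_X_pow, mul_mul_mul_comm, ← C_mul,
        Nat.cast_pow, hv, C_1, one_mul, ← pow_succ, Nat.sub_add_cancel hn,
        mul_zero, add_zero]⟩
  have h0 : ∀ s, algebraMap S (AlgebraicClosure p.ResidueField) s = 0 ↔ s ∈ p := fun s => by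
    rw [IsScalarTower.algebraMap_apply S p.ResidueField, map_eq_zero,
      Ideal.algebraMap_residueField_eq_zero]
  obtain ⟨x, hx⟩ := IsAlgClosed.exists_pow_nat_eq
    (algebraMap S (AlgebraicClosure p.ResidueField) u) hn
  have hP : P.HasMap x := ⟨by simp [P, hx], by
    refine (aeval_X (R := S) x).symm ▸ Ne.isUnit fun e => hu ((h0 u).1 ?_)
    rw [← hx, e, zero_pow hn.ne']⟩
  refine ⟨P.Ring, inferInstance, inferInstance, inferInstance, P.X, RingHom.ker (P.lift x hP),
    RingHom.ker_isPrime _, Ideal.ext fun s => ?_, ?_⟩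
  · rw [Ideal.mem_comap, RingHom.mem_ker, AlgHom.commutes, h0]
  · simpa [P, sub_eq_zero] using P.hasMap_X.1

end Pool.Agent.Lib.MP_16ef92_ag.EL
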