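import Pool.Agent.Lib.MP_16ef92_ag.EL.Cov1
import Pool.Agent.Lib.MP_16ef92_ag.EL.SRing

/-! Affine charts and coverings in the small etale site. -/

set_option backward.isDefEq.respectTransparency false

namespace Pool.Agent.Lib.MP_16ef92_ag.EL

open ET

open CategoryTheory Limits AlgebraicGeometry Opposite

variable [Pl]

variable {B Ω : Type} [Field B] [Field Ω] [Algebra B Ω] {R : Type} [CommRing R]

section aux

variable {S S' : Type} [CommRing S] [Algebra R S] [Algebra.Etale R S] [CommRing S'] [Algebra R S']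
  [Algebra.Etale R S']

/-- The map on points. -/
noncomputable def cov_pt (g : S →ₐ[R] S') (p : PrimeSpectrum S') : PrimeSpectrum S :=
  (afm g).left p

theorem cov_pt_eq (g : S →ₐ[R] S') (p : PrimeSpectrum S') :
    (cov_pt g p).asIdeal = p.asIdeal.comap g := rfl

theorem cov_finite (Ω : Type) [Field Ω] [Algebra R Ω] (S : Type) [CommRing S] [Algebra R S]
    [Algebra.Etale R S] : Finite (Ptv (algebraMap R Ω) (Aff R S)) :=
  have : Finite (S →ₐ[R] Ω) := pt_finite
  Finite.of_injective (fun x => (⟨x.hm, x.hm_alg⟩ : S →ₐ[R] Ω))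
    fun _ _ h => Ptv.hm_ext fun b => DFunLike.congr_fun h b

end aux

variable [Algebra R Ω] {L : IntermediateField B Ω} {Pi : Set R}

/-- `mem_cover`, `exists_chart`, `dom_chart` (`Localization.Away f` is etale over `R`). -/
theorem cover_of_dom (h : Amb (algebraMap R Ω) L Pi) {V : (Xs R).Etale} (Q : Sieve V)
    (H : ∀ (S : Type) [CommRing S] [Algebra R S] [Algebra.Etale R S] [IsDomain S]
      (f : Aff R S ⟶ V) (p : Ideal S) [p.IsPrime],
      ∃ (S' : Type) (_ : CommRing S') (_ : Algebra R S') (_ : Algebra.Etale R S')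
        (g : S →ₐ[R] S') (p' : Ideal S'), p'.IsPrime ∧ p'.comap g = p ∧ Q (afm g ≫ f)) :
    Q ∈ (Xs R).smallEtaleTopology V := by
  rw [mem_cover]
  intro v
  obtain ⟨S, _, _, _, f, _, p, hp⟩ := exists_chart V v
  obtain ⟨a, ha, hd⟩ := dom_chart h p.asIdeal
  have : Algebra.Etale S (Localization.Away a) := Algebra.Etale.of_isLocalizationAway a
  have : Algebra.Etale R (Localization.Away a) := Algebra.Etale.comp R S _
  have hdj : Disjoint (Submonoid.powers a : Set S) p.asIdeal := by
    rw [Set.disjoint_left]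
    rintro _ ⟨n, rfl⟩ hn
    exact ha (p.isPrime.mem_of_pow_mem n hn)
  have hq := IsLocalization.isPrime_of_isPrime_disjoint (Submonoid.powers a)
    (Localization.Away a) p.asIdeal p.isPrime hdj
  have hc := IsLocalization.under_map_of_isPrime_disjoint (Submonoid.powers a)
    (Localization.Away a) p.isPrime hdj
  obtain ⟨S', _, _, _, g, p', hp', e, hQ⟩ := H (Localization.Away a)
    (afm (IsScalarTower.toAlgHom R S (Localization.Away a)) ≫ f)
    (p.asIdeal.map (algebraMap S (Localization.Away a)))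
  refine ⟨_, _, (⟨p', hp'⟩ : PrimeSpectrum S'), hQ, ?_⟩
  rw [← hp]
  change f.left (cov_pt (IsScalarTower.toAlgHom R S (Localization.Away a)) (cov_pt g ⟨p', hp'⟩)) = _
  congr 1
  refine PrimeSpectrum.ext ?_
  rw [cov_pt_eq, cov_pt_eq, e]
  exact hc

/-- Etale maps are open, `Spec R` is compact; `exists_chart`; points of `Aff R S` inject into
`S →ₐ[R] Ω` (`Ptv.hm_ext`, `Ptv.hm_alg`), which is finite (`pt_finite`). -/
theorem fin_cover (Ω : Type) [Field Ω] [Algebra R Ω] {Q : Sieve (tm R)}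
    (hQ : Q ∈ (Xs R).smallEtaleTopology (tm R)) :
    ∃ (n : ℕ) (W : Fin n → (Xs R).Etale), (∀ i, Q (toTm (W i))) ∧
      (∀ i, Finite (Ptv (algebraMap R Ω) (W i))) ∧
      Sieve.ofArrows W (fun i => toTm (W i)) ∈ (Xs R).smallEtaleTopology (tm R) := by
  classical
  have key : ∀ v : (tm R).left, ∃ W : (Xs R).Etale, Q (toTm W) ∧
      Finite (Ptv (algebraMap R Ω) W) ∧ v ∈ Set.range (toTm W).left := fun v => by
    obtain ⟨U, f, u, hf, rfl⟩ := (mem_cover Q).1 hQ v
    obtain ⟨S, _, _, _, g, _, p, rfl⟩ := exists_chart U u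
    have e : toTm (Aff R S) = g ≫ f := (tmT R).hom_ext _ _
    refine ⟨Aff R S, ?_, cov_finite Ω S, p, ?_⟩
    · rw [e]
      exact Q.downward_closed hf g
    · rw [e]
      rfl
  choose W h1 h2 h3 using key
  have hc : CompactSpace (tm R).left := inferInstanceAs (CompactSpace (PrimeSpectrum R))
  have ho : ∀ v, IsOpen (Set.range (toTm (W v)).left) := fun v => by
    have : Etale (toTm (W v)).left := (W v).prop
    exact (toTm (W v)).left.isOpenMap.isOpen_range
  obtain ⟨T, hT⟩ := isCompact_univ.elim_finite_subcover _ ho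
    fun v _ => Set.mem_iUnion.2 ⟨v, h3 v⟩
  refine ⟨T.card, fun i => W (T.equivFin.symm i), fun i => h1 _, fun i => h2 _, ?_⟩
  rw [mem_cover]
  intro v
  obtain ⟨u, hu, w, hw⟩ := Set.mem_iUnion₂.1 (hT (Set.mem_univ v))
  obtain ⟨i, hi⟩ := T.equivFin.symm.surjective ⟨u, hu⟩
  obtain rfl : u = (T.equivFin.symm i : (tm R).left) := by rw [hi]
  exact ⟨_, _, w, Sieve.ofArrows_mk _ _ i, hw⟩

end Pool.Agent.Lib.MP_16ef92_ag.EL
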