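import Pool.Agent.Lib.MP_16ef92_ag.EL.Defs
import Pool.Agent.Lib.MP_16ef92_ag.ET.Fn
import Pool.Agent.Lib.MP_16ef92_ag.ET.Hom

/-! Classes and global sections of complexes of etale sheaves. -/

set_option backward.isDefEq.respectTransparency false

namespace Pool.Agent.Lib.MP_16ef92_ag.EL

open ET

open CategoryTheory Limits AlgebraicGeometry Opposite Abelian

noncomputable section

section

universe w w' v v' u u'

variable {C : Type u} [Category.{v} C] [Abelian C]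

/-- An augmented complex that starts with a given object. -/
structure Cy (F : C) where
  A0 : C
  A1 : C
  A2 : C
  e : F ⟶ A0
  d0 : A0 ⟶ A1
  d1 : A1 ⟶ A2
  e_d0 : e ≫ d0 = 0
  d0_d1 : d0 ≫ d1 = 0

variable [HasExt.{w} C] {F F' Z : C}

/-- `z` represents the image of `α`. -/
def Cy.Rep (A : Cy F) (α : Ext Z F 2) (z : Z ⟶ A.A2) : Prop :=
  (Cx.mk F A.A0 A.A1 A.A2 A.e A.d0 A.d1 A.e_d0 A.d0_d1).Rep α z

variable {A : Cy F} {A' : Cy F'} {α α' : Ext Z F 2} {z z' : Z ⟶ A.A2}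

theorem Cy.Rep.map (h : A.Rep α z) (f : F ⟶ F') (g0 : A.A0 ⟶ A'.A0) (g1 : A.A1 ⟶ A'.A1)
    (g2 : A.A2 ⟶ A'.A2) (h0 : A.e ≫ g0 = f ≫ A'.e) (h1 : A.d0 ≫ g1 = g0 ≫ A'.d0)
    (h2 : A.d1 ≫ g2 = g1 ≫ A'.d1) : A'.Rep (α.comp (Ext.mk₀ f) (add_zero 2)) (z ≫ g2) :=
  Cx.Rep.map (B := .mk _ _ _ _ _ _ _ A'.e_d0 A'.d0_d1) h f g0 g1 g2 h0 h1 h2

theorem Cy.Rep.act (P : C ⥤ C) [P.Additive] [PreservesFiniteLimits P] [PreservesFiniteColimits P]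
    (h : A.Rep α z) (a : Z ⟶ P.obj Z) (f : P.obj F ⟶ F) (g0 : P.obj A.A0 ⟶ A.A0)
    (g1 : P.obj A.A1 ⟶ A.A1) (g2 : P.obj A.A2 ⟶ A.A2) (h0 : P.map A.e ≫ g0 = f ≫ A.e)
    (h1 : P.map A.d0 ≫ g1 = g0 ≫ A.d0) (h2 : P.map A.d1 ≫ g2 = g1 ≫ A.d1) :
    A.Rep ((Ext.mk₀ a).comp ((α.mapExactFunctor P).comp (Ext.mk₀ f) (add_zero 2)) (zero_add 2))
      (a ≫ P.map z ≫ g2) :=
  ((Cx.Rep.functor P h).map (B := .mk _ _ _ _ _ _ _ A.e_d0 A.d0_d1) f g0 g1 g2 h0 h1 h2).pre a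

theorem Cy.Rep.coc (h : A.Rep α z) : z ≫ cokernel.π A.d1 = 0 :=
  Cx.Rep.coc h _ (cokernel.condition _)

theorem Cy.Rep.inj (h : A.Rep α z) {A' : Cy F} (g0 : A.A0 ⟶ A'.A0) (g1 : A.A1 ⟶ A'.A1)
    (g2 : A.A2 ⟶ A'.A2) (h0 : A.e ≫ g0 = A'.e) (h1 : A.d0 ≫ g1 = g0 ≫ A'.d0)
    (h2 : A.d1 ≫ g2 = g1 ≫ A'.d1) (m : Mono A'.e) (e0 : (ShortComplex.mk _ _ A'.e_d0).Exact)
    (e1 : (ShortComplex.mk _ _ A'.d0_d1).Exact) {y : Z ⟶ A'.A1} (hy : z ≫ g2 = y ≫ A'.d1) :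
    α = 0 := (Ext.comp_mk₀_id α).symm.trans (Cx.Rep.inj (A := .mk _ _ _ _ _ _ _ A'.e_d0 A'.d0_d1)
  e0 e1 (hy ▸ h.map (𝟙 F) g0 g1 g2 (h0.trans (Category.id_comp _).symm) h1 h2))

variable [EnoughInjectives C]

theorem Cy.Rep.total (h0 : ∀ x : Ext Z A.A0 2, x = 0) (h1 : ∀ x : Ext Z A.A1 1, x = 0)
    (α : Ext Z F 2) : ∃ z, A.Rep α z := Cx.Rep.total (A := .mk _ _ _ _ _ _ _ _ _) h0 h1 α

theorem Cy.Rep.sub (h : A.Rep α z) (h' : A.Rep α' z') : A.Rep (α - α') (z - z') := Cx.Rep.sub h h'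

theorem Cy.Rep.zero (h0 : ∀ x : Ext Z A.A0 1, x = 0) (h : A.Rep 0 z) : ∃ y, z = y ≫ A.d1 := by
  have h1 := h.sub h
  rw [sub_self, sub_self] at h1
  exact (Cx.Rep.unique h0 h1 h).imp fun y hy => hy.trans (zero_add _)

end

variable {X : Scheme.{0}} {T : X.Etale} (hT : IsTerminal T)
  {F F' : Sheaf X.smallEtaleTopology AddCommGrpCat.{0}}

theorem sec_push (φ : X ≅ X) (z : zz X ⟶ F) : sec hT _ (zzMap φ ≫ (push φ).map z) =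
    F.obj.map (hT.from ((tw φ).obj T)).op (sec hT F z) := by
  let t := toSheafify X.smallEtaleTopology ((Functor.const _).obj (AddCommGrpCat.of (ULift ℤ)))
  have e1 : t ≫ (zzMap φ).hom = Functor.whiskerLeft (tw φ).op t :=
    ((sheafificationAdjunction X.smallEtaleTopology AddCommGrpCat.{0}).homEquiv _
      ((push φ).obj (zz X))).apply_symm_apply _
  have e2 : (zzMap φ).hom.app (op T) (t.app (op T) ⟨1⟩) = t.app (op ((tw φ).obj T)) ⟨1⟩ :=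
    congrArg (fun a => a.app (op T) ⟨1⟩) e1
  exact ((congrArg (z.hom.app (op ((tw φ).obj T))) (e2.trans
    (t.naturality_apply (hT.from ((tw φ).obj T)).op ⟨1⟩))).trans (z.hom.naturality_apply _ _))

/-- The global section `t` represents the image of the class `x`. -/
def Rs (A : Cy F) (x : F.H 2) (t : A.A2.obj.obj (op T)) : Prop := ∃ z, A.Rep x z ∧ sec hT _ z = t

/-- A global section with the property `V` represents the image of the class `x`. -/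
def Rv (A : Cy F) (V : A.A2.obj.obj (op T) → Prop) (x : F.H 2) : Prop := ∃ t, Rs hT A x t ∧ V t

/-- The sheaf has no higher cohomology. -/
def Acy (F : Sheaf X.smallEtaleTopology AddCommGrpCat.{0}) : Prop := ∀ (k) (x : F.H (k + 1)), x = 0

include hT in
theorem acy (Φ : X.smallEtaleTopology.Point.{0}) (M : Type) [AddCommGroup M] :
    Acy (fnS (isPt_point Φ) M) := fun _ => fnS_acyclic Φ hT M

variable {hT} {A : Cy F} {A' : Cy F'} {x x' : F.H 2} {t t' : A.A2.obj.obj (op T)}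

theorem Rs.total (h0 : Acy A.A0) (h1 : Acy A.A1) (x : F.H 2) : ∃ t, Rs hT A x t :=
  have ⟨z, h⟩ := Cy.Rep.total (h0 1) (h1 0) x
  ⟨_, z, h, rfl⟩

theorem Rs.sub (h : Rs hT A x t) (h' : Rs hT A x' t') : Rs hT A (x - x') (t - t') := by
  obtain ⟨z, h, rfl⟩ := h
  obtain ⟨z', h', rfl⟩ := h'
  exact ⟨_, h.sub h', map_sub (sec hT _) _ _⟩

theorem Rs.zero (h0 : Acy A.A0) (h : Rs hT A 0 t) : ∃ c, t = A.d1.hom.app _ c := by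
  obtain ⟨z, h, rfl⟩ := h
  obtain ⟨y, rfl⟩ := h.zero (h0 0)
  exact ⟨_, sec_comp hT _ _⟩

theorem Rs.loc (h : Rs hT A x t) : ∃ Q ∈ X.smallEtaleTopology T, ∀ (W) (f : W ⟶ T), Q f →
    ∃ c, A.d1.hom.app (op W) c = A.A2.obj.map f.op t := by
  obtain ⟨z, h, rfl⟩ := h
  exact loc_of_coker hT _ z h.coc

theorem Rs.map (h : Rs hT A x t) (f : F ⟶ F') (g0 : A.A0 ⟶ A'.A0) (g1 : A.A1 ⟶ A'.A1)
    (g2 : A.A2 ⟶ A'.A2) (h0 : A.e ≫ g0 = f ≫ A'.e) (h1 : A.d0 ≫ g1 = g0 ≫ A'.d0)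
    (h2 : A.d1 ≫ g2 = g1 ≫ A'.d1) : Rs hT A' (Sheaf.H.map f 2 x) (g2.hom.app _ t) := by
  obtain ⟨z, h, rfl⟩ := h
  exact ⟨_, h.map f g0 g1 g2 h0 h1 h2, rfl⟩

theorem Rs.inj (h : Rs hT A x t) {A' : Cy F} (g0 : A.A0 ⟶ A'.A0) (g1 : A.A1 ⟶ A'.A1)
    (g2 : A.A2 ⟶ A'.A2) (h0 : A.e ≫ g0 = A'.e) (h1 : A.d0 ≫ g1 = g0 ≫ A'.d0)
    (h2 : A.d1 ≫ g2 = g1 ≫ A'.d1) (m : Mono A'.e) (e0 : (ShortComplex.mk _ _ A'.e_d0).Exact)
    (e1 : (ShortComplex.mk _ _ A'.d0_d1).Exact) {c} (hc : g2.hom.app _ t = A'.d1.hom.app _ c) :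
    x = 0 := by
  obtain ⟨z, h, rfl⟩ := h
  obtain ⟨y, rfl⟩ := (sec hT _).surjective c
  exact h.inj g0 g1 g2 h0 h1 h2 m e0 e1 (y := y) ((sec hT _).injective hc)

theorem Rs.act (φ : X ≅ X) {n : ℕ} {A : Cy (mu X n)} {x : (mu X n).H 2} {t} (h : Rs hT A x t)
    (g0 : (push φ).obj A.A0 ⟶ A.A0) (g1 : (push φ).obj A.A1 ⟶ A.A1)
    (g2 : (push φ).obj A.A2 ⟶ A.A2) (h0 : (push φ).map A.e ≫ g0 = muMap φ n ≫ A.e)
    (h1 : (push φ).map A.d0 ≫ g1 = g0 ≫ A.d0) (h2 : (push φ).map A.d1 ≫ g2 = g1 ≫ A.d1) :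
    Rs hT A (actH φ n 2 x) (g2.hom.app _ (A.A2.obj.map (hT.from ((tw φ).obj T)).op t)) := by
  obtain ⟨z, h, rfl⟩ := h
  exact ⟨_, h.act _ (zzMap φ) _ g0 g1 g2 h0 h1 h2, congrArg (g2.hom.app _) (sec_push hT φ z)⟩

end

end Pool.Agent.Lib.MP_16ef92_ag.EL
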