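import Mathlib
import Pool.Agent.Lib.MP_16ef92_ag.Plc
import Pool.Agent.Lib.MP_16ef92_ag.EL.GalB1

set_option autoImplicit false
set_option linter.unusedSectionVars false
set_option linter.unusedVariables false

namespace Pool.Agent.Lib.MP_16ef92_ag.EL

open Polynomial
open scoped Classical

noncomputable section

variable [Pl]

variable {B Ω : Type} [Field B] [Field Ω] [Algebra B Ω] [IsAlgClosed Ω] [Algebra.IsAlgebraic B Ω]

/-- Kummer theory: `hilbert90`, `fix_pow`, and the exponent is prime to `ell`. -/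
theorem kummer (h2 : (ell : Ω) ≠ 0) (E : IntermediateField B Ω) (hE : ∀ g ∈ E.fixingSubgroup, Ru g)
    {n : ℕ} {χ : (Ω ≃ₐ[B] Ω) → Ω} (h : Chr E.fixingSubgroup n χ) :
    ∃ f ∈ E, f ≠ 0 ∧ ∀ g ∈ E.fixingSubgroup, χ g = kum n f g := by
  obtain ⟨b, b0, hb⟩ := hilbert90 E.fixingSubgroup χ
    (fun g hg e => by simpa [e, ell_ne] using h.pow g hg)
    (fun g hg l hl => by rw [h.mul g hg l hl, hE g hg n _ (h.pow l hl)]) h.near
  obtain ⟨e, he⟩ := fix_pow E (z := b ^ ell ^ n) fun g hg => by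
    rw [map_pow, hb g hg, mul_pow, h.pow g hg, one_mul]
  have hq := Nat.ModEq.pow_totient
    (((cop_exp h2).pow_right n).pow_left e)
  obtain ⟨m, hm⟩ := Nat.exists_eq_add_one.2 (Nat.totient_pos.2 (lp_pos n))
  rw [hm] at hq
  refine ⟨_, pow_mem he ((ringExpChar Ω ^ e) ^ m), by simp [b0], fun g hg =>
    (kum_eq (w := b ^ (ringExpChar Ω ^ e) ^ (m + 1)) (hE g hg) (by simp [b0]) (by ring) ?_).symm⟩
  rw [map_pow, hb g hg, mul_pow, pow_eq_pow_of_modEq hq (h.pow g hg), pow_one]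

/-- `Q` holds for the valuation rings over `R` in which some `h ≠ 0` is a unit. -/
def GenB3 (R : Subring Ω) (Q : ValuationSubring Ω → Prop) : Prop :=
  ∃ h ∈ R, h ≠ 0 ∧ ∀ O : ValuationSubring Ω, (∀ a ∈ R, a ∈ O) → O.valuation h = 1 → Q O

theorem GenB3.mono {R : Subring Ω} {Q Q' : ValuationSubring Ω → Prop} (h : GenB3 R Q)
    (i : ∀ O, Q O → Q' O) : GenB3 R Q' :=
  let ⟨a, h1, h2, h3⟩ := h
  ⟨a, h1, h2, fun O k k' => i O (h3 O k k')⟩

theorem genB3_mul {O : ValuationSubring Ω} {a b : Ω} (ha : a ∈ O) (hb : b ∈ O)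
    (h : O.valuation (a * b) = 1) : O.valuation a = 1 ∧ O.valuation b = 1 := by
  rw [← O.valuation_le_one_iff] at ha hb
  rw [map_mul] at h
  exact ⟨ha.antisymm (h ▸ mul_le_of_le_one_right' hb), hb.antisymm (h ▸ mul_le_of_le_one_left' ha)⟩

theorem GenB3.all {R : Subring Ω} {ι : Type} (T : Finset ι) {Q : ι → ValuationSubring Ω → Prop}
    (h : ∀ i ∈ T, GenB3 R (Q i)) : GenB3 R fun O => ∀ i ∈ T, Q i O := by
  induction T using Finset.induction_on with
  | empty => exact ⟨1, one_mem R, one_ne_zero, by simp⟩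
  | insert i T _ ih =>
    obtain ⟨a, a1, a2, a3⟩ := h i (Finset.mem_insert_self i T)
    obtain ⟨b, b1, b2, b3⟩ := ih fun j hj => h j (Finset.mem_insert_of_mem hj)
    exact ⟨a * b, mul_mem a1 b1, mul_ne_zero a2 b2, fun O k k' => Finset.forall_mem_insert .. |>.2
      ⟨a3 O k (genB3_mul (k a a1) (k b b1) k').1, b3 O k (genB3_mul (k a a1) (k b b1) k').2⟩⟩

theorem genB3_unit (R : Subring Ω) (E : IntermediateField B Ω)
    (hE : ∀ a ∈ E, ∃ b ∈ R, ∃ c ∈ R, c ≠ 0 ∧ a * c = b) {w : Ω} (hw : w ≠ 0) :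
    GenB3 R fun O => O.valuation w = 1 := by
  obtain ⟨p, hp0, hp⟩ := Algebra.IsAlgebraic.isAlgebraic (R := B) w
  refine (GenB3.all (p.map (algebraMap B Ω)).support (Q := fun i O =>
    O.valuation ((p.map (algebraMap B Ω)).coeff i) = 1) fun i hi => ?_).mono fun O h => ?_
  · obtain ⟨b, hb, c, hc, c0, e⟩ := hE _ (E.algebraMap_mem (p.coeff i))
    rw [← coeff_map] at e
    refine ⟨b * c, mul_mem hb hc, mul_ne_zero (e ▸ mul_ne_zero (mem_support_iff.1 hi) c0) c0,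
      fun O k k' => ?_⟩
    obtain ⟨h1, h2⟩ := genB3_mul (k b hb) (k c hc) k'
    rwa [← e, map_mul, h2, mul_one] at h1
  · obtain ⟨i, m, hm, h1, h2, e⟩ := two_terms O.valuation
      ((Polynomial.map_ne_zero_iff (algebraMap B Ω).injective).2 hp0) hw
      (by rw [eval_map_algebraMap, hp])
    rw [h _ (mem_support_iff.2 h1), h _ (mem_support_iff.2 h2), one_mul] at e
    exact (pow_eq_one_iff_of_nonneg zero_le hm.ne').1 e.symm

theorem genB3_fix (R : Subring Ω) (E : IntermediateField B Ω)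
    (hE : ∀ a ∈ E, ∃ b ∈ R, ∃ c ∈ R, c ≠ 0 ∧ a * c = b) (z : Ω) :
    GenB3 R fun O => ∀ g ∈ Inr B O, g z = z := by
  by_cases hz : z = 0
  · exact ⟨1, one_mem R, one_ne_zero, by simp [hz]⟩
  refine (GenB3.all (insert 0 (((minpoly B z).aroots Ω).toFinset.erase z))
    (Q := fun y O => O.valuation (y - z) = 1) fun y hy => genB3_unit R E hE ?_).mono
      fun O h g hg => by_contra fun hne => ?_
  · rcases Finset.mem_insert.1 hy with rfl | hy
    · simpa using hz
    · exact sub_ne_zero.2 (Finset.ne_of_mem_erase hy)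
  · have h0 := h 0 (Finset.mem_insert_self _ _)
    rw [zero_sub, Valuation.map_neg] at h0
    refine (mem_ine.1 hg z ((O.valuation_le_one_iff z).1 h0.le)).ne (h _ (Finset.mem_insert_of_mem
      (Finset.mem_erase.2 ⟨hne, Multiset.mem_toFinset.2 (mem_aroots.2
        ⟨minpoly.ne_zero (Algebra.IsIntegral.isIntegral _), ?_⟩)⟩)))
    rw [aeval_algHom_apply, minpoly.aeval, map_zero]

theorem finite_ram (R : Subring Ω) (E : IntermediateField B Ω)
    (hE : ∀ a ∈ E, ∃ b ∈ R, ∃ c ∈ R, c ≠ 0 ∧ a * c = b) {P : (Ω ≃ₐ[B] Ω) → Prop} (hP : Near P) :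
    ∃ h ∈ R, h ≠ 0 ∧ ∀ O : ValuationSubring Ω, (∀ a ∈ R, a ∈ O) → O.valuation h = 1 →
      ∀ g ∈ E.fixingSubgroup ⊓ Inr B O, P g := by
  obtain ⟨S, hS⟩ := hP
  exact (GenB3.all S fun z _ => genB3_fix R E hE z).mono fun O h g hg =>
    hS g fun z hz => h z hz g hg.2

/-- The trace of `O` on `E` is a discrete valuation ring with uniformiser `π`. -/
structure Disc (E : IntermediateField B Ω) (O : ValuationSubring Ω) (π : Ω) : Prop where
  mem : π ∈ E
  ne : π ≠ 0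
  lt : O.valuation π < 1
  val : ∀ a ∈ E, a ≠ 0 → ∃ j : ℤ, O.valuation a = O.valuation π ^ j

variable {E : IntermediateField B Ω} {O : ValuationSubring Ω} {π : Ω}

/-- Two terms of an equation of `z` over `E` have the same value. -/
theorem Disc.val_pow (hD : Disc E O π) {z : Ω} (hz : z ≠ 0) :
    ∃ (m : ℕ) (j : ℤ), 0 < m ∧ O.valuation z ^ m = O.valuation π ^ j := by
  obtain ⟨p, hp0, hp⟩ := Algebra.IsAlgebraic.isAlgebraic (R := B) z
  obtain ⟨i, m, hm, h1, h2, e⟩ := two_terms O.valuation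
    ((Polynomial.map_ne_zero_iff (algebraMap B Ω).injective).2 hp0) hz
    (by rw [eval_map_algebraMap, hp])
  simp only [coeff_map] at h1 h2 e
  obtain ⟨j₁, e1⟩ := hD.val _ (E.algebraMap_mem _) h1
  obtain ⟨j₂, e2⟩ := hD.val _ (E.algebraMap_mem _) h2
  have h0 : O.valuation π ≠ 0 := by simpa using hD.ne
  exact ⟨m, j₁ - j₂, hm, by
    rw [zpow_sub₀ h0, ← e1, e, e2, mul_div_cancel_left₀ _ (zpow_ne_zero _ h0)]⟩

end

end Pool.Agent.Lib.MP_16ef92_ag.EL
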