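import Mathlib
import Pool.Agent.Lib.MP_16ef92_ag.EL.GalB2
import Pool.Agent.Lib.MP_16ef92_ag.EL.GalB3

set_option autoImplicit false
set_option linter.unusedSectionVars false
set_option linter.unusedVariables false

namespace Pool.Agent.Lib.MP_16ef92_ag.EL

open Polynomial
open scoped Classical

noncomputable section

variable [Pl]

variable {B Ω : Type} [Field B] [Field Ω] [Algebra B Ω] [IsAlgClosed Ω] [Algebra.IsAlgebraic B Ω]

variable {E : IntermediateField B Ω} {O : ValuationSubring Ω} {π : Ω}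

theorem two_ne_GalB4 (h2 : O.valuation ell = 1) : (ell : Ω) ≠ 0 := by
  intro e
  rw [e, map_zero] at h2
  exact zero_ne_one h2

theorem Disc.inj_GalB4 (hD : Disc E O π) {i j : ℤ}
    (h : O.valuation π ^ i = O.valuation π ^ j) : i = j :=
  zpow_right_injective₀ (zero_lt_iff.2 ((Valuation.ne_zero_iff _).2 hD.ne)) (ne_of_lt hD.lt) h

theorem galb4_ex (h2 : O.valuation ell = 1) (hD : Disc E O π) {w : Ω} (hw : w ^ ell = π) :
    ∃ g ∈ E.fixingSubgroup, g w ≠ w := by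
  by_contra hc
  obtain ⟨e, he⟩ := fix_pow E (z := w) fun g hg => not_not.1 fun h => hc ⟨g, hg, h⟩
  have h0 : w ≠ 0 := fun e => hD.ne (by rw [← hw, e, zero_pow ell_ne])
  obtain ⟨j, hj⟩ := hD.val _ he (pow_ne_zero _ h0)
  have h1 : O.valuation π ^ ((ringExpChar Ω ^ e : ℕ) : ℤ) = O.valuation π ^ (j * ell) := by
    rw [zpow_mul, ← hj, zpow_natCast, zpow_natCast, ← map_pow, ← map_pow, ← hw, ← pow_mul,
      ← pow_mul, mul_comm]
  have h3 : ell ∣ ringExpChar Ω ^ e :=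
    Int.natCast_dvd_natCast.1 ⟨j, (hD.inj_GalB4 h1).trans (mul_comm _ _)⟩
  exact Pl.prime.ne_one
    (Nat.Coprime.eq_one_of_dvd ((cop_exp (two_ne_GalB4 h2)).pow_left e).symm h3)

theorem galb4_rep (hD : Disc E O π) {w : Ω} (hw : w ^ ell = π) {z : Ω}
    (hz : z ∈ IntermediateField.adjoin E {w}) :
    ∃ a : ℕ → Ω, (∀ i, a i ∈ E) ∧ z = ∑ i ∈ Finset.range ell, a i * w ^ i := by
  have hm : (X ^ ell - C (⟨π, hD.mem⟩ : E)).Monic := monic_X_pow_sub_C _ ell_ne
  have h0 : aeval w (X ^ ell - C (⟨π, hD.mem⟩ : E)) = 0 := by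
    rw [map_sub, map_pow, aeval_X, aeval_C, hw]
    exact sub_self _
  have h1 : z ∈ (IntermediateField.adjoin E {w}).toSubalgebra := hz
  rw [IntermediateField.adjoin_simple_toSubalgebra_of_isAlgebraic ⟨_, hm.ne_zero, h0⟩,
    Algebra.adjoin_singleton_eq_range_aeval] at h1
  obtain ⟨p, rfl⟩ := h1
  have h3 := natDegree_modByMonic_lt p hm fun e => by
    rw [e, map_one] at h0
    exact one_ne_zero h0
  rw [natDegree_X_pow_sub_C] at h3
  exact ⟨fun i => (p %ₘ _).coeff i, fun i => Subtype.mem _,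
    (aeval_modByMonic_eq_self_of_root h0).symm.trans (aeval_eq_sum_range' h3 w)⟩

theorem galb4_dist (hD : Disc E O π) {w : Ω} (hw : w ^ ell = π) {a b : Ω} (ha : a ∈ E) (hb : b ∈ E)
    (a0 : a ≠ 0) (b0 : b ≠ 0) {i j : ℕ} (hi : i < ell) (hj : j < ell)
    (h : O.valuation (a * w ^ i) = O.valuation (b * w ^ j)) : i = j := by
  have h0 : O.valuation π ≠ 0 := (Valuation.ne_zero_iff _).2 hD.ne
  have key : ∀ c ∈ E, c ≠ 0 → ∀ k : ℕ, ∃ t : ℤ,
      O.valuation (c * w ^ k) ^ ell = O.valuation π ^ (t * ell + k) := fun c hc c0 k => by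
    obtain ⟨t, ht⟩ := hD.val c hc c0
    refine ⟨t, ?_⟩
    rw [map_mul, mul_pow, ht, zpow_add₀ h0, zpow_mul, zpow_natCast, zpow_natCast, ← map_pow,
      ← map_pow _ π, ← hw, ← pow_mul, ← pow_mul, mul_comm k]
  obtain ⟨s, hs⟩ := key a ha a0 i
  obtain ⟨t, ht⟩ := key b hb b0 j
  have h1 := hD.inj_GalB4 (hs.symm.trans (h ▸ ht))
  have h3 := Int.eq_zero_of_abs_lt_dvd (m := ell) (x := (i : ℤ) - j)
    ⟨t - s, by linear_combination h1⟩ (abs_lt.2 ⟨by omega, by omega⟩)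
  omega

theorem galb4_max (hD : Disc E O π) {w : Ω} (hw : w ^ ell = π) {a : ℕ → Ω} (ha : ∀ i, a i ∈ E) :
    ∀ i ∈ Finset.range ell,
      O.valuation (a i * w ^ i) ≤ O.valuation (∑ i ∈ Finset.range ell, a i * w ^ i) := by
  obtain ⟨k, hk, hm⟩ := (Finset.range ell).exists_max_image
    (fun i => O.valuation (a i * w ^ i)) ⟨0, Finset.mem_range.2 ell_pos⟩
  intro i hi
  refine (hm i hi).trans ?_
  by_cases h0 : a k * w ^ k = 0
  · simp [h0]
  refine (O.valuation.map_sum_eq_of_lt hk fun j hj => ?_).ge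
  obtain ⟨j1, j2⟩ := Finset.mem_sdiff.1 hj
  refine lt_of_le_of_ne (hm j j1) fun e => j2 (Finset.mem_singleton.2 (galb4_dist hD hw (ha j)
    (ha k) (fun e' => h0 ?_) (left_ne_zero_of_mul h0) (Finset.mem_range.1 j1)
    (Finset.mem_range.1 hk) e))
  rw [e', zero_mul, map_zero] at e
  exact (Valuation.zero_iff _).1 e.symm

theorem galb4_le (hD : Disc E O π) {w : Ω} (hw : w ^ ell = π) {g : Ω ≃ₐ[B] Ω}
    (hg : g ∈ E.fixingSubgroup) {z : Ω} (hz : z ∈ IntermediateField.adjoin E {w}) :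
    O.valuation (g z) ≤ O.valuation z ∧ (z ∈ O → O.valuation (g z - z) < 1) := by
  have hf := (IntermediateField.mem_fixingSubgroup_iff _ _).1 hg
  obtain ⟨a, ha, rfl⟩ := galb4_rep hD hw hz
  have h1 : O.valuation (g w) = O.valuation w := by
    refine (pow_left_inj₀ zero_le zero_le ell_ne).1 ?_
    rw [← map_pow, ← map_pow, ← map_pow, hw, hf π hD.mem]
  have h3 : ∀ i, O.valuation (g (a i * w ^ i)) = O.valuation (a i * w ^ i) := fun i => by
    rw [map_mul, map_pow, hf _ (ha i), map_mul, map_mul, map_pow, map_pow, h1]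
  have h4 := galb4_max hD hw ha
  rw [map_sum]
  refine ⟨O.valuation.map_sum_le fun i hi => (h3 i).trans_le (h4 i hi), fun hO => ?_⟩
  rw [← Finset.sum_sub_distrib]
  refine O.valuation.map_sum_lt one_ne_zero fun i hi => ?_
  by_cases h0 : i = 0
  · rw [h0, pow_zero, mul_one, hf _ (ha 0), sub_self, map_zero]
    exact zero_lt_one
  have h5 : O.valuation (a i * w ^ i) < 1 := by
    refine lt_of_le_of_ne ((h4 i hi).trans ((O.valuation_le_one_iff _).2 hO)) fun e => h0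
      (galb4_dist hD hw (ha i) (one_mem E) (fun e' => ?_) one_ne_zero (Finset.mem_range.1 hi)
        ell_pos (by rw [e, pow_zero, mul_one, map_one]))
    rw [e', zero_mul, map_zero] at e
    exact zero_ne_one e
  exact O.valuation.map_sub_lt ((h3 i).trans_lt h5) h5

/-- Some `g₀` fixing `E` moves `w` (else `fix_pow`, `cop_exp` and the values give `ell ∣ p ^ e`);
`g₀ w = ζ w` with `ζ ^ ell = 1`.  Elements of `E₁ = adjoin B (E ∪ {w})` are sums
`∑ i < ell, a i * w ^ i` with `a i ∈ E`; the non-zero terms have distinct values (`Disc.val`,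
`Disc.inj_GalB4`), so the value of the sum is the largest value of a term
(`Valuation.map_sum_eq_of_lt`).  Hence every `g` that fixes `E` keeps the values on `E₁`, and
`v (g z - z) < 1` for `z ∈ E₁ ∩ O`.  By `trans_fix` for `E₁` there is `g₁` fixing `E₁` such that
`φ = g₁ g₀` stabilises `O`; with `g₂` from `ine_lift` for `E₁` take `g = φ⁻¹ g₂`.  Model: `Disc.flip` in
`ET/GalB4`. -/
theorem Disc.move (h2 : O.valuation ell = 1) (hD : Disc E O π) {w : Ω} (hw : w ^ ell = π) :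
    ∃ g ∈ E.fixingSubgroup ⊓ Inr B O, g w ≠ w := by
  obtain ⟨g₀, hg₀, hw₀⟩ := galb4_ex h2 hD hw
  have hf₀ := (IntermediateField.mem_fixingSubgroup_iff _ _).1 hg₀
  let E₁ : IntermediateField B Ω := (IntermediateField.adjoin E {w}).restrictScalars B
  have hE : ∀ a ∈ E, a ∈ E₁ := fun a ha => (IntermediateField.adjoin E {w}).algebraMap_mem ⟨a, ha⟩
  have hwE : w ∈ E₁ := IntermediateField.mem_adjoin_simple_self E w
  obtain ⟨g₁, hg₁, hO⟩ := trans_fix E₁ (tr g₀ O) O (by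
    intro z hz
    have h1 := fun y (hy : y ∈ E₁) => (galb4_le hD hw (E.fixingSubgroup.inv_mem hg₀) hy).1
    change g₀⁻¹ z ∈ O ↔ z ∈ O
    rw [← O.valuation_le_one_iff, ← O.valuation_le_one_iff]
    refine ⟨fun h => ?_, (h1 z hz).trans⟩
    by_cases h0 : z = 0
    · simp [h0]
    have h3 := h1 _ (inv_mem hz)
    rw [map_inv₀, map_inv₀, map_inv₀, inv_le_inv₀ (by simpa [zero_lt_iff] using h0)
      (by simpa [zero_lt_iff] using h0)] at h3
    exact h3.trans h)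
  have hf₁ := (IntermediateField.mem_fixingSubgroup_iff _ _).1 hg₁
  have hφ : ∀ z, (g₁ * g₀) z ∈ O ↔ z ∈ O := by
    intro z
    rw [AlgEquiv.mul_apply]
    conv_lhs => rw [← hO]
    rw [mem_tr, mem_tr]
  have hφa : g₁ * g₀ ∈ E.fixingSubgroup :=
    mul_mem ((IntermediateField.mem_fixingSubgroup_iff _ _).2 fun a ha => hf₁ a (hE a ha)) hg₀
  have hφw : (g₁ * g₀) w ≠ w := fun e => hw₀ (g₁.injective (e.trans (hf₁ w hwE).symm))
  generalize g₁ * g₀ = φ at hφ hφa hφw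
  obtain ⟨g₂, hg₂, hv⟩ := ine_lift E₁ O φ hφ fun z hz hzO => (galb4_le hD hw hφa hz).2 hzO
  have hf₂ := (IntermediateField.mem_fixingSubgroup_iff _ _).1 hg₂
  have happ : ∀ z, φ (φ⁻¹ z) = z := fun z => by
    rw [← AlgEquiv.mul_apply, mul_inv_cancel, AlgEquiv.one_apply]
  have htr : tr φ O = O := by
    ext z
    rw [← happ z, mem_tr, hφ]
  refine ⟨φ⁻¹ * g₂, ⟨E.fixingSubgroup.mul_mem (E.fixingSubgroup.inv_mem hφa)
    ((IntermediateField.mem_fixingSubgroup_iff _ _).2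
    fun a ha => hf₂ a (hE a ha)), mem_ine.2 fun z hz => ?_⟩, fun e => hφw ?_⟩
  · have h1 := tr_val_lt_one (g := φ) (O := O) (z := (φ⁻¹ * g₂) z - z)
    rw [htr, map_sub, AlgEquiv.mul_apply, happ] at h1
    exact h1.1 (hv z hz)
  · rw [AlgEquiv.mul_apply, hf₂ w hwE] at e
    exact (congrArg φ e).symm.trans (happ w)

theorem kum_level_GalB4 {g : Ω ≃ₐ[B] Ω} {z : Ω} (hg : Ru g) (h0 : z ≠ 0) (n a : ℕ) :
    kum (n + a) z g ^ ell ^ a = kum n z g := by
  induction a with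
  | zero => rw [pow_zero, pow_one, Nat.add_zero]
  | succ a ih => rw [pow_succ', pow_mul, ← Nat.add_assoc, kum_level hg h0, ih]

/-- `move` for `w = rt 1 π`, `kum_level` iterated, `orderOf_eq_prime_pow`. -/
theorem Disc.prim (h2 : O.valuation ell = 1) (hE : ∀ g ∈ E.fixingSubgroup, Ru g) (hD : Disc E O π)
    (n : ℕ) : ∃ g ∈ E.fixingSubgroup ⊓ Inr B O, IsPrimitiveRoot (kum n π g) (ell ^ n) := by
  have hw : rt 1 π ^ ell = π := by
    have := rt_pow 1 π
    rwa [pow_one] at this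
  obtain ⟨g, hg, hgw⟩ := hD.move h2 hw
  have hπ : g π = π := (IntermediateField.mem_fixingSubgroup_iff _ _).1 hg.1 π hD.mem
  have hr := hE g hg.1
  refine ⟨g, hg, ?_⟩
  have hp := kum_pow_one (n := n) hD.ne hπ
  cases n with
  | zero =>
    rw [pow_zero, pow_one] at hp
    rw [hp, pow_zero]
    exact IsPrimitiveRoot.one
  | succ m =>
    have h3 : ¬ kum (m + 1) π g ^ ell ^ m = 1 := by
      rw [Nat.add_comm m 1, kum_level_GalB4 hr hD.ne]
      intro e
      exact hgw (by rw [kum_spec hr hD.ne (rt_pow 1 π), e, one_mul])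
    have h4 := orderOf_eq_prime_pow h3 hp
    rw [← h4]
    exact IsPrimitiveRoot.orderOf _

/-- As `Over.local_char` in `Kum.lean`, written multiplicatively. -/
theorem Disc.local_char (h2 : O.valuation ell = 1) (hE : ∀ g ∈ E.fixingSubgroup, Ru g)
    (hD : Disc E O π) {n : ℕ} {χ : (Ω ≃ₐ[B] Ω) → Ω} (h : Chr (E.fixingSubgroup ⊓ Inr B O) n χ) :
    ∃ j : ℕ, ∀ g ∈ E.fixingSubgroup ⊓ Inr B O, χ g = kum n π g ^ j := by
  have hπ : ∀ g ∈ E.fixingSubgroup ⊓ Inr B O, g π = π := fun g hg =>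
    (IntermediateField.mem_fixingSubgroup_iff _ _).1 hg.1 π hD.mem
  have hχ0 : ∀ g ∈ E.fixingSubgroup ⊓ Inr B O, χ g ≠ 0 := fun g hg e => by
    have := h.pow g hg
    rw [e, zero_pow (by first | exact lp_pos _ | exact lp_ne _ | positivity)] at this
    exact zero_ne_one this
  obtain ⟨b, hb0, hb⟩ := hilbert90 (E.fixingSubgroup ⊓ Inr B O) χ hχ0
    (fun g hg l hl => by rw [h.mul g hg l hl, hE g hg.1 n _ (h.pow l hl)]) h.near
  obtain ⟨m, j, hm0, hv⟩ := hD.val_pow hb0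
  obtain ⟨a, m₁, hodd, rfl⟩ := Nat.exists_eq_pow_mul_and_not_dvd hm0.ne' ell Pl.prime.ne_one
  have hv0 : O.valuation π ≠ 0 := (Valuation.ne_zero_iff _).2 hD.ne
  obtain ⟨y, hy⟩ : ∃ y : Ω, y ^ ell ^ (n + a) = π := ⟨_, rt_pow (n + a) π⟩
  have hy0 : y ≠ 0 := fun e => hD.ne (by rw [← hy, e, zero_pow (lp_ne _)])
  have hu : O.valuation (b ^ m₁ / (y ^ ell ^ n) ^ j) = 1 := by
    apply (pow_eq_one_iff_of_nonneg zero_le (n := ell ^ a) (by first | exact lp_pos _ | exact lp_ne _ | positivity)).1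
    rw [map_div₀, div_pow, map_pow, ← pow_mul, mul_comm m₁, hv, ← map_pow, ← zpow_natCast,
      ← zpow_mul, mul_comm j, zpow_mul, zpow_natCast, ← pow_mul, ← pow_add, hy,
      map_zpow₀, div_self (zpow_ne_zero _ hv0)]
  have key : ∀ g ∈ E.fixingSubgroup ⊓ Inr B O,
      χ g ^ m₁ = (kum (n + a) π g ^ ell ^ n) ^ j := by
    intro g hg
    have h1 := kum_spec (hE g hg.1) hD.ne hy
    have hk0 : kum (n + a) π g ≠ 0 := kum_ne hD.ne
    have hk1 : kum (n + a) π g ^ ell ^ (n + a) = 1 := kum_pow_one hD.ne (hπ g hg)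
    have e : g (b ^ m₁ / (y ^ ell ^ n) ^ j) - b ^ m₁ / (y ^ ell ^ n) ^ j =
        (χ g ^ m₁ / (kum (n + a) π g ^ ell ^ n) ^ j - 1) * (b ^ m₁ / (y ^ ell ^ n) ^ j) := by
      rw [map_div₀, map_zpow₀, map_pow, map_pow, hb g hg, h1, mul_pow, mul_pow, mul_zpow,
        sub_mul, one_mul, div_mul_div_comm]
    have h3 := mem_ine.1 hg.2 _ ((O.valuation_le_one_iff _).1 hu.le)
    rw [e, map_mul, hu, mul_one] at h3
    have h4 : (χ g ^ m₁ / (kum (n + a) π g ^ ell ^ n) ^ j) ^ ell ^ (n + a) = 1 := by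
      have e1 : (χ g ^ m₁) ^ ell ^ (n + a) = 1 := by
        rw [← pow_mul, mul_comm, pow_mul, pow_add, pow_mul, h.pow g hg, one_pow, one_pow]
      have e2 : ((kum (n + a) π g ^ ell ^ n) ^ j) ^ ell ^ (n + a) = 1 := by
        rw [← zpow_natCast _ (ell ^ (n + a)), ← zpow_mul, mul_comm, zpow_mul, zpow_natCast,
          ← pow_mul, mul_comm, pow_mul, hk1, one_pow, one_zpow]
      rw [div_pow, e1, e2, div_one]
    exact (div_eq_one_iff_eq (zpow_ne_zero _ (pow_ne_zero _ hk0))).1 (root_eq_one h2 h4 h3)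
  obtain ⟨g₀, hg₀, hu₀⟩ := hD.prim h2 hE (n + a)
  have hdiv : (ell ^ a : ℤ) ∣ ell ^ n * j := by
    have h1 := congrArg (· ^ ell ^ n) (key g₀ hg₀)
    beta_reduce at h1
    rw [← pow_mul, mul_comm m₁, pow_mul, h.pow g₀ hg₀, one_pow, ← zpow_natCast _ (ell ^ n),
      ← zpow_natCast _ (ell ^ n), ← zpow_mul, ← zpow_mul] at h1
    have h3 := (hu₀.zpow_eq_one_iff_dvd _).1 h1.symm
    push_cast at h3
    rw [pow_add, mul_comm ((ell : ℤ) ^ n) (ell ^ a), ← mul_assoc] at h3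
    exact Int.dvd_of_mul_dvd_mul_right (pow_ne_zero _ (Int.natCast_ne_zero.2 ell_ne)) h3
  obtain ⟨j', hj'⟩ := hdiv
  have hco : IsCoprime (m₁ : ℤ) ((ell ^ n : ℕ) : ℤ) :=
    Nat.isCoprime_iff_coprime.2 (Nat.Coprime.pow_right _ ((Nat.Prime.coprime_iff_not_dvd Pl.prime).2 hodd).symm)
  obtain ⟨u, t, hut⟩ := hco
  have hpos : (0 : ℤ) < ((ell ^ n : ℕ) : ℤ) := Int.natCast_pos.2 (lp_pos n)
  refine ⟨((j' * u) % ((ell ^ n : ℕ) : ℤ)).toNat, fun g hg => ?_⟩
  have h4 := key g hg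
  rw [← zpow_natCast _ (ell ^ n), ← zpow_mul] at h4
  push_cast at h4
  rw [hj', zpow_mul, ← Nat.cast_pow, zpow_natCast,
    kum_level_GalB4 (hE g hg.1) hD.ne] at h4
  have hk0 : kum n π g ≠ 0 := kum_ne hD.ne
  have hk1 : kum n π g ^ ell ^ n = 1 := kum_pow_one hD.ne (hπ g hg)
  have h5 : χ g = kum n π g ^ (j' * u) := by
    rw [zpow_mul, ← h4, ← zpow_natCast, ← zpow_mul]
    conv_lhs => rw [← zpow_one (χ g), ← hut, zpow_add₀ (hχ0 g hg), mul_comm t, zpow_mul _ _ t,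
      zpow_natCast, h.pow g hg, one_zpow, mul_one, mul_comm]
  rw [h5, ← zpow_natCast, Int.toNat_of_nonneg (Int.emod_nonneg _ hpos.ne')]
  conv_lhs => rw [← Int.emod_add_mul_ediv (j' * u) ((ell ^ n : ℕ) : ℤ), zpow_add₀ hk0, zpow_mul,
    zpow_natCast, hk1, one_zpow, mul_one]

end

end Pool.Agent.Lib.MP_16ef92_ag.EL
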