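import Mathlib
import Pool.Agent.Lib.MP_16ef92_ag.EL.Nrm1a

set_option autoImplicit false
set_option linter.unusedSectionVars false
set_option linter.unusedVariables false

namespace Pool.Agent.Lib.MP_16ef92_ag.EL

open ET

open Polynomial WeierstrassCurve WeierstrassCurve.Affine
open scoped Classical

noncomputable section

variable [Pl]

variable {B₀ B Ω : Type} [Field B₀] [Field B] [Field Ω] [Algebra B₀ B] [Algebra B Ω]
  [Algebra B₀ Ω] [IsScalarTower B₀ B Ω] [IsAlgClosed Ω] [Algebra.IsAlgebraic B Ω]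
  {W : WeierstrassCurve B₀} (C : CS B Ω W)
variable {R : Type} [CommRing R]

namespace CS

variable {C} {ι : R →+* Ω} {L : IntermediateField B Ω} {Pi : Set R} {n : ℕ}
  {β β' : (Ω ≃ₐ[B] Ω) → (Ω ≃ₐ[B] Ω) → Ω} {e e' : ValuationSubring Ω → (Ω ≃ₐ[B] Ω) → Ω}
  {b : (Ω ≃ₐ[B] Ω) → Ω} {a a' : (Ω ≃ₐ[B] Ω) → PO Ω W}

/-- `twc (g l) h = twc g h * twc l (g⁻¹ h g)`, then `Kp.conj`, `Kp.add`, `Kp.eq`. -/
theorem Ac.mul (hF : C.Fib ι L Pi) (hp : Pr ι L.fixingSubgroup n β e)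
    (h : C.Ac L.fixingSubgroup n β e a) {g l : Ω ≃ₐ[B] Ω} (hg : g ∈ L.fixingSubgroup)
    (hl : l ∈ L.fixingSubgroup) : a (g * l) = a g + pmO g (a l) := by
  obtain ⟨b, ⟨hb, _⟩, hk⟩ := h
  have hle := hF.H_le
  refine (hk _ (mul_mem hg hl)).eq ((hk g hg).add ((hk l hl).conj (hF.fix_y hg))) fun h hh => ?_
  have h1 := hF.conj hg hh
  have h2 := hF.conj hl h1
  rw [_root_.Pi.mul_apply, hF.ru hg n _ ((twc_chr hF hp hb hl).pow _ h1)]
  have e0 : (g * l)⁻¹ * h * (g * l) = l⁻¹ * (g⁻¹ * h * g) * l := by group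
  have e1 : g * (g⁻¹ * h * g) = h * g := by group
  unfold twc
  rw [e0]
  generalize g⁻¹ * h * g = k at h1 h2 e1 ⊢
  have e2 : l * (l⁻¹ * k * l) = k * l := by group
  generalize l⁻¹ * k * l = m at h2 e2 ⊢
  have c1 := hp.coc g hg l hl m (hle h2)
  have c2 := hp.coc g hg k (hle h1) l hl
  have c3 := hp.coc h (hle hh) g hg l hl
  rw [e2] at c1
  rw [e1] at c2
  have key : β (g * l) m * β h g * β k l = β g k * β l m * β h (g * l) := by
    apply mul_left_cancel₀ (hp.ne hg hl)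
    linear_combination β h g * β k l * c1 - β l m * β h g * c2 + β l m * β g k * c3
  rw [div_mul_div_comm, div_eq_div_iff (mul_ne_zero (hb.ne h2) (hp.ne (hle hh) (mul_mem hg hl)))
    (mul_ne_zero (mul_ne_zero (hb.ne h1) (hp.ne (hle hh) hg))
      (mul_ne_zero (hb.ne h2) (hp.ne (hle h1) hl)))]
  linear_combination b h * b k * b m * key

theorem Ac.zero_H (hF : C.Fib ι L Pi) (hp : Pr ι L.fixingSubgroup n β e)
    (h : C.Ac L.fixingSubgroup n β e a) {g : Ω ≃ₐ[B] Ω} (hg : g ∈ C.H) : a g = 0 := by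
  obtain ⟨b, ⟨hb, _⟩, hk⟩ := h
  have hle := hF.H_le
  refine (hk g (hle hg)).inj fun h hh => ?_
  have h1 := hF.conj (hle hg) hh
  have e1 : g * (g⁻¹ * h * g) * g⁻¹ = h := by group
  have h0 := hp.ne (hle hh) (hle hg)
  have k := cob_conj hb hg h1 (e1.symm ▸ h0)
  rw [e1] at k
  rw [twc, k, mul_comm, div_self (mul_ne_zero (hb.ne h1) h0)]

/-- With `N` from `near_sub`: `g⁻¹ h g = h (h⁻¹ g⁻¹ h g)` and `β g h = β 1 1 = β h g` for `g` in
`N`. -/
theorem Ac.near (hF : C.Fib ι L Pi) (hp : Pr ι L.fixingSubgroup n β e)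
    (h : C.Ac L.fixingSubgroup n β e a) : Near fun g => g ∈ L.fixingSubgroup → a g = 0 := by
  obtain ⟨b, ⟨hb, _⟩, hk⟩ := h
  have hle := hF.H_le
  obtain ⟨N, hN, hP, hn, _⟩ := near_sub (hp.cts.and hb.cts)
  refine hn.mono fun g hgN hg => (hk g hg).inj fun h hh => ?_
  have h1 := hF.conj hg hh
  have h2 : h⁻¹ * (g⁻¹ * h * g) ∈ N := by
    have := N.mul_mem (hN.conj_mem _ (N.inv_mem hgN) h⁻¹) hgN
    rwa [show h⁻¹ * g⁻¹ * h⁻¹⁻¹ * g = h⁻¹ * (g⁻¹ * h * g) by group] at this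
  have e1 := (hP _ h2).2 (mul_mem (inv_mem hh) h1) h hh
  have e2 := ((hP g hgN).1 hg 1 (one_mem _) _ (hle h1)).1
  have e3 := ((hP g hgN).1 hg h (hle hh) 1 (one_mem _)).2
  rw [mul_inv_cancel_left] at e1
  rw [one_mul] at e2 e3
  rw [twc, e1, e2, e3, hp.one_left (hle h1), hp.one_right (hle hh),
    div_self (mul_ne_zero (hb.ne hh) (hp.ne (one_mem _) (one_mem _)))]

end CS

end

end Pool.Agent.Lib.MP_16ef92_ag.EL
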