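import Mathlib
import Pool.Agent.Lib.MP_16ef92_ag.Main

set_option autoImplicit false
set_option linter.unusedSectionVars false
set_option linter.unusedVariables false

namespace Pool.Agent.Lib.MP_16ef92_ag

open Polynomial
open scoped Classical

noncomputable section

variable {F : Type} [Field F] [Clos F] [Fintype F] [hq : Fact (Odd (Fintype.card F))]
  {A B D : F[X]}

/-- An invariant class gives a Selmer pair. -/
theorem Fam.rk_sel (h : Fam A B D) (T : TD fun i => ev (EE A B D i))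
    {s : Gam F} (hs : Fr s (Fintype.card F)) {a : Gam F → V} (ha : Cy T a) (hl : LT T a)
    {w : V} (hw : Ext T a s w) : ∃ d₁ d₂, IsSel A B D d₁ d₂ ∧
      (∀ g ∈ Geo F, sg (ev d₁) g = cc 0 (a g) ∧ sg (ev d₂) g = cc 1 (a g)) ∧
      sg (ev d₁) s = cc 0 w ∧ sg (ev d₂) s = cc 1 w := by
  have hd : ∀ g ∈ Geo F, dt (T.ro g) = 1 := fun g hg => T.dt_geo hs hg
  obtain ⟨hA, hB, hC, hD⟩ := h.ne
  have hpoly := fun i : Fin 3 => exists_poly hs h.sq.ne_zero (fun g => cc i (a g))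
    (fun g hg l hl => by rw [ha.mul g hg l hl, cc_add, cc_ro])
    ((ha.near 1).mono fun g hg hg' => cc_of_Dv i (hg hg'))
    (fun g hg => by
      have := congrArg (cc i) (hw g hg)
      rwa [tw, cc_ro, cc_add, cc_sub, cc_ro, sub_self, add_zero] at this)
    (fun O hO g hg => by rw [loc_good hl hO (h.good_inf T hO) hg, cc_of_Dv i (zero_mem _)])
    (fun c O hO hc g hg => by rw [loc_good hl hO (good_fin T hO hc) hg, cc_of_Dv i (zero_mem _)])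
    (cc i w)
  obtain ⟨d₁, hd1, he1, hg1, hs1, hr1⟩ := hpoly 0
  obtain ⟨d₂, hd2, he2, hg2, hs2, hr2⟩ := hpoly 1
  have n1 : d₁ ≠ 0 := ne_zero_of_dvd_ne_zero h.sq.ne_zero hd1
  have n2 : d₂ ≠ 0 := ne_zero_of_dvd_ne_zero h.sq.ne_zero hd2
  let R : Gam F → V → Prop := fun t u => sg (ev d₁) t = cc 0 u ∧ sg (ev d₂) t = cc 1 u
  have hRm : ∀ t t' u u', R t u → R t' u' → R (t * t') (u + T.ro t u') := fun t t' u u' h1 h2 =>
    ⟨by rw [sg_mul (gam_ev _ _) (gam_ev _ _) (ev_ne n1), cc_add, cc_ro, h1.1, h2.1],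
      by rw [sg_mul (gam_ev _ _) (gam_ev _ _) (ev_ne n2), cc_add, cc_ro, h1.2, h2.2]⟩
  have hRp : ∀ n, ∃ u, Ext T a (s ^ n) u ∧ R (s ^ n) u := by
    intro n
    induction n with
    | zero => exact ⟨a 1, Ext.geo ha (one_mem _), hg1 1 (one_mem _), hg2 1 (one_mem _)⟩
    | succ n ih =>
      obtain ⟨u, h1, h2⟩ := ih
      rw [pow_succ']
      exact ⟨_, hw.mul h1, hRm _ _ _ _ ⟨hs1, hs2⟩ h2⟩
  refine ⟨d₁, d₂, ?_, fun g hg => ⟨hg1 g hg, hg2 g hg⟩, hs1, hs2⟩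
  refine ⟨hd1, hd2, he1, he2, fun p hp hpN => ?_⟩
  obtain ⟨c, hc⟩ := IsAlgClosed.exists_aeval_eq_zero (kk F) p (degree_pos_of_irreducible hp).ne'
  obtain ⟨O, hO⟩ := exists_over (some c)
  obtain ⟨g, hg, hsg⟩ := hO.exists_sg
  obtain ⟨n, k1, k2, k3⟩ := residue c
  obtain ⟨g₀, hg₀, hst⟩ := (hs.pow n).exists_st (by exact_mod_cast congrArg Subtype.val k1) hO
  have hf := (hs.pow n).geo_mul hg₀
  obtain ⟨u, hu1, hu2⟩ := hRp n
  have hu3 := hRm _ _ _ _ ⟨hg1 g₀ hg₀, hg2 g₀ hg₀⟩ hu2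
  obtain ⟨x, hx⟩ := gd_local hd hl hO hp.ne_zero hc hg hsg hq.out.pow hf hst k1 k3
    ((Ext.geo ha hg₀).mul hu1)
    ((h.bad T ((irr_dvd hp hc).1 hpN)).imp (fun h => h.2 O hO)
      fun ⟨_, i, j, k, h⟩ => ⟨i, j, k, h O hO⟩)
  have key : ∀ (i : Fin 3) (d : F[X]), d ≠ 0 → sg (ev d) g = cc i (a g) →
      sg (ev d) (g₀ * s ^ n) = cc i (a g₀ + T.ro g₀ u) →
      LocSq p (rf d * (x - rf (EE A B D i))) := by
    intro i d hd0 h1 h2
    have e1 : algebraMap _ (Om F) (rf d * (x - rf (EE A B D i))) =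
        ev d * (am x - ev (EE A B D i)) := by rw [map_mul, map_sub, rf_eq, rf_eq]
    have h3 : ∀ t : Gam F, sg (algebraMap _ (Om F) (rf d * (x - rf (EE A B D i)))) t =
        sg (ev d) t + sg (am x - ev (EE A B D i)) t := fun t => by
      rw [e1, sg_mul_left (gam_ev t d) (ev_ne hd0) (by rw [map_sub, gam_ev, t.commutes]) (hx i).1]
    have h4 : ∀ z : ZMod (2 ^ 1), z + z = 0 := by decide
    refine locSq_of_sg hp hc hO hg hsg hf hst k2 (fun e => ?_) (by rw [h3, h1, (hx i).2.1, h4])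
      (by rw [h3, h2, (hx i).2.2, h4])
    rw [e, map_zero] at e1
    exact mul_ne_zero (ev_ne hd0) (hx i).1 e1.symm
  have h5 : ∀ t u, R t u → sg (ev (d₁ * d₂)) t = cc 2 u := fun t u h => by
    rw [ev, map_mul, sg_mul_left (gam_ev _ _) (ev_ne n1) (gam_ev _ _) (ev_ne n2), h.1, h.2, cc0,
      cc1, cc2, add_comm]
  exact ⟨x, by simpa [EE] using key 0 d₁ n1 (hg1 g hg.1) hu3.1, key 1 d₂ n2 (hg2 g hg.1) hu3.2,
    key 2 _ (mul_ne_zero n1 n2) (h5 _ _ ⟨hg1 g hg.1, hg2 g hg.1⟩) (h5 _ _ hu3)⟩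

/-- The image of a torsion point. -/
theorem Fam.rk_tors (h : Fam A B D) (T : TD fun i => ev (EE A B D i)) {d₁ d₂ : F[X]}
    (n1 : d₁ ≠ 0) (n2 : d₂ ≠ 0) (ht : IsTorsImage A B D d₁ d₂) :
    ∃ t, ∀ g, sg (ev d₁) g = cc 0 (T.nn g t) ∧ sg (ev d₂) g = cc 1 (T.nn g t) := by
  obtain ⟨hA, hB, hC, hD⟩ := h.ne
  have hnn : ∀ g (i j : Fin 3), i ≠ j → cc i (T.nn g (tv j)) = sg (ev (EE A B D j - EE A B D i)) g :=
    fun g i j hij => by rw [T.cc_nn g hij (by simp), ev, ev, ev, map_sub]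
  have hsq : ∀ (g : Gam F) (p q : F[X]), p ≠ 0 → q ≠ 0 →
      sg (ev (p * q)) g = sg (ev (D * p)) g + sg (ev (D * q)) g := by
    intro g p q hp hq
    rw [← sg_mul_left (gam_ev _ _) (ev_ne (mul_ne_zero hD hp)) (gam_ev _ _)
      (ev_ne (mul_ne_zero hD hq)), ← map_mul]
    exact sg_of_isSquare (mul_ne_zero hp hq) (mul_ne_zero (mul_ne_zero hD hp) (mul_ne_zero hD hq))
      ⟨D * p * q, by ring⟩ g
  have hz : ∀ a b c : ZMod (2 ^ 1), a + b + c = 0 → b + c = a := by decide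
  rcases ht with ⟨h1, h2⟩ | ⟨h1, h2⟩ | ⟨h1, h2⟩ | ⟨h1, h2⟩
  · refine ⟨0, fun g => ?_⟩
    have h3 : sg (ev (1 : F[X])) g = 0 := by
      simpa using sg_sq (g := g) (y := 1) (map_one g) one_ne_zero
    rw [T.nn_eq (x := 0) (y := 0) (by simp)]
    exact ⟨by rw [sg_of_isSquare n1 one_ne_zero (by simpa using h1), h3, cc_of_Dv _ (zero_mem _)],
      by rw [sg_of_isSquare n2 one_ne_zero (by simpa using h2), h3, cc_of_Dv _ (zero_mem _)]⟩
  · refine ⟨tv 0, fun g => ⟨?_, ?_⟩⟩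
    · rw [sg_of_isSquare n1 (mul_ne_zero hA hB) h1, ← hz _ _ _ (cc_sum (i := 0) (j := 1) (k := 2)
        (by decide) (by decide) (by decide) _), hnn g 1 0 (by decide), hnn g 2 0 (by decide),
        ← neg_mul_neg, hsq g _ _ (neg_ne_zero.2 hA) (neg_ne_zero.2 hB)]
      simp [EE]
    · rw [sg_of_isSquare n2 (neg_ne_zero.2 (mul_ne_zero hD hA)) h2, hnn g 1 0 (by decide)]
      simp [EE]
  · refine ⟨tv 1, fun g => ⟨?_, ?_⟩⟩
    · rw [sg_of_isSquare n1 (mul_ne_zero hD hA) h1, hnn g 0 1 (by decide)]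
      simp [EE]
    · rw [sg_of_isSquare n2 (mul_ne_zero hA hC) h2, ← hz _ _ _ (cc_sum (i := 1) (j := 0) (k := 2)
        (by decide) (by decide) (by decide) _), hnn g 0 1 (by decide), hnn g 2 1 (by decide),
        hsq g _ _ hA hC]
      simp [EE, mul_sub]
  · refine ⟨tv 2, fun g => ⟨?_, ?_⟩⟩
    · rw [sg_of_isSquare n1 (mul_ne_zero hD hB) h1, hnn g 0 2 (by decide)]
      simp [EE]
    · rw [sg_of_isSquare n2 (neg_ne_zero.2 (mul_ne_zero hD hC)) h2, hnn g 1 2 (by decide)]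
      simp [EE, mul_sub]

end

end Pool.Agent.Lib.MP_16ef92_ag
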