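import Mathlib
import Pool.Agent.Lib.MP_16ef92_ag.EL.Rk1
import Pool.Agent.Lib.MP_16ef92_ag.GF.Simple

set_option autoImplicit false
set_option linter.unusedSectionVars false
set_option linter.unusedVariables false

namespace Pool.Agent.Lib.MP_16ef92_ag

open Polynomial
open scoped Classical

noncomputable section

variable {F : Type} [Field F] [Clos F] [Fintype F] [hq : Fact (Odd (Fintype.card F))]
  {A B D : F[X]}

/-- The Selmer group modulo torsion has at most two elements. -/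
def SelTwo (A B D : F[X]) : Prop :=
  ∀ d₁ d₂ e₁ e₂ : F[X], IsSel A B D d₁ d₂ → IsSel A B D e₁ e₂ →
    IsTorsImage A B D d₁ d₂ ∨ IsTorsImage A B D e₁ e₂ ∨ IsTorsImage A B D (d₁ * e₁) (d₂ * e₂)

section
variable {e : Fin 3 → Om F} (T : TD e) (s : Gam F)

/-- Invariant admissible classes. -/
def RkA (a : Gam F → V) (w : V) : Prop := Cy T a ∧ LT T a ∧ Ext T a s w

/-- Congruent to the class of a torsion point modulo two. -/
def RkE (a : Gam F → V) (w : V) : Prop :=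
  ∃ t : V, (∀ g ∈ Geo F, a g - T.nn g t ∈ Dv 1) ∧ w - T.nn s t ∈ Dv 1

variable {T s}

theorem RkA.sub {a b : Gam F → V} {w u : V} (h : RkA T s a w) (h' : RkA T s b u) :
    RkA T s (fun g => a g - b g) (w - u) :=
  ⟨h.1.sub h'.1, h.2.1.sub h'.2.1, fun g hg => by
    have h1 := h.2.2 g hg
    have h2 := h'.2.2 g hg
    unfold tw at h1 h2 ⊢
    beta_reduce
    rw [map_sub, map_sub, h1, h2]
    abel⟩

/-- If every class is even or congruent to `p`, every class is a multiple of `p`. -/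
theorem rk_mult {p : Gam F → V} {v : V} (hp : RkA T s p v)
    (h : ∀ a w, RkA T s a w → RkE T s a w ∨ RkE T s (fun g => a g - p g) (w - v))
    {a : Gam F → V} {w : V} (ha : RkA T s a w) :
    ∃ (β : ℤ_[2]) (m : V), ∀ g ∈ Geo F, (2 : ℤ_[2]) • a g = β • p g + (T.ro g m - m) := by
  have key : ∀ n, ∃ b u β m, RkA T s b u ∧ ∀ g ∈ Geo F, (2 : ℤ_[2]) • a g =
      (β : ℤ_[2]) • p g + (2 : ℤ_[2]) ^ (n + 1) • b g + (T.ro g m - m) := by
    intro n
    induction n with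
    | zero => exact ⟨a, w, 0, 0, ha, fun g _ => by simp⟩
    | succ n ih =>
      obtain ⟨b, u, β, m, hb, hm⟩ := ih
      rcases h b u hb with ⟨t, h1, h2⟩ | ⟨t, h1, h2⟩
      · obtain ⟨c, u', c1, c2, c3, c4⟩ := halve hb.1 hb.2.1 hb.2.2 h1 h2
        refine ⟨c, u', β, m + (2 : ℤ_[2]) ^ n • t, ⟨c1, c2, c3⟩, fun g hg => ?_⟩
        rw [hm g hg, c4 g hg, map_add, map_smul]
        linear_combination (norm := module) (2 : ℤ_[2]) ^ n • nn_two (T := T) g t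
      · have hb' := hb.sub hp
        obtain ⟨c, u', c1, c2, c3, c4⟩ := halve hb'.1 hb'.2.1 hb'.2.2 h1 h2
        refine ⟨c, u', β + 2 ^ (n + 1), m + (2 : ℤ_[2]) ^ n • t, ⟨c1, c2, c3⟩, fun g hg => ?_⟩
        rw [hm g hg, eq_add_of_sub_eq (c4 g hg), map_add, map_smul]
        linear_combination (norm := module) (2 : ℤ_[2]) ^ n • nn_two (T := T) g t
  obtain ⟨x, hx⟩ := lim (fun n x => ∃ m, ∀ g ∈ Geo F,
      (2 : ℤ_[2]) • a g - (x.1 • p g + (T.ro g m - m)) ∈ Dv n)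
    (fun n => by
      obtain ⟨b, u, β, m, -, hm⟩ := key n
      refine ⟨(β, 0), m, fun g hg => ?_⟩
      rw [hm g hg, add_right_comm, add_sub_cancel_left]
      exact Dv_mono n.le_succ (smul_mem_Dv _ _))
    (fun n x ⟨m, hm⟩ => ⟨m, fun g hg => Dv_mono n.le_succ (hm g hg)⟩)
    (fun n x y ⟨m, hm⟩ h1 => ⟨m, fun g hg => by
      obtain ⟨z, hz⟩ := h1.1
      have h2 : y.1 = x.1 + 2 ^ n * z := eq_add_of_sub_eq' hz
      have h3 := sub_mem (hm g hg) (smul_mem_Dv n (z • p g))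
      rwa [show (2 : ℤ_[2]) • a g - (x.1 • p g + (T.ro g m - m)) - (2 : ℤ_[2]) ^ n • z • p g =
        (2 : ℤ_[2]) • a g - (y.1 • p g + (T.ro g m - m)) by rw [h2]; module] at h3⟩)
  obtain ⟨m, hm⟩ := lim (fun n m => ∀ g ∈ Geo F,
      (2 : ℤ_[2]) • a g - (x.1 • p g + (T.ro g m - m)) ∈ Dv n) hx
    (fun n m hm g hg => Dv_mono n.le_succ (hm g hg)) (fun n m m' hm h1 g hg => by
      have h3 := add_mem (sub_mem (hm g hg) (map_Dv (T.ro g) h1)) h1
      rwa [show (2 : ℤ_[2]) • a g - (x.1 • p g + (T.ro g m - m)) - T.ro g (m' - m) + (m' - m) =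
        (2 : ℤ_[2]) • a g - (x.1 • p g + (T.ro g m' - m')) by rw [map_sub]; abel] at h3)
  exact ⟨x.1, m, fun g hg => sub_eq_zero.1 (eq_zero_of_Dv fun n => hm n g hg)⟩

end

theorem Fam.rk_two (h : Fam A B D) (T : TD fun i => ev (EE A B D i)) (h2 : SelTwo A B D)
    {s : Gam F} (hs : Fr s (Fintype.card F)) {a b : Gam F → V} {w u : V} (ha : RkA T s a w)
    (hb : RkA T s b u) : RkE T s a w ∨ RkE T s b u ∨ RkE T s (fun g => a g - b g) (w - u) := by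
  obtain ⟨d₁, d₂, d0, d1, d2, d3⟩ := h.rk_sel T hs ha.1 ha.2.1 ha.2.2
  obtain ⟨e₁, e₂, e0, e1, e2, e3⟩ := h.rk_sel T hs hb.1 hb.2.1 hb.2.2
  have key : ∀ {x₁ x₂ : F[X]} {c : Gam F → V} {v : V}, x₁ ≠ 0 → x₂ ≠ 0 → IsTorsImage A B D x₁ x₂ →
      (∀ g ∈ Geo F, sg (ev x₁) g = cc 0 (c g) ∧ sg (ev x₂) g = cc 1 (c g)) →
      sg (ev x₁) s = cc 0 v → sg (ev x₂) s = cc 1 v → RkE T s c v := by
    intro x₁ x₂ c v n1 n2 ht k1 k2 k3
    obtain ⟨t, ht⟩ := h.rk_tors T n1 n2 ht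
    refine ⟨t, fun g hg => Dv_of_cc (i := 0) (j := 1) (by decide) ?_ ?_,
      Dv_of_cc (i := 0) (j := 1) (by decide) ?_ ?_⟩
    · rw [cc_sub, ← (k1 g hg).1, (ht g).1, sub_self]
    · rw [cc_sub, ← (k1 g hg).2, (ht g).2, sub_self]
    · rw [cc_sub, ← k2, (ht s).1, sub_self]
    · rw [cc_sub, ← k3, (ht s).2, sub_self]
  have n1 := ne_zero_of_dvd_ne_zero h.sq.ne_zero d0.1
  have n2 := ne_zero_of_dvd_ne_zero h.sq.ne_zero d0.2.1
  have n3 := ne_zero_of_dvd_ne_zero h.sq.ne_zero e0.1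
  have n4 := ne_zero_of_dvd_ne_zero h.sq.ne_zero e0.2.1
  have hm : ∀ {x y : F[X]} {g : Gam F} {i : Fin 3} {c c' : V}, x ≠ 0 → y ≠ 0 → sg (ev x) g = cc i c →
      sg (ev y) g = cc i c' → sg (ev (x * y)) g = cc i (c - c') := fun hx hy k1 k2 => by
    rw [ev, map_mul, sg_mul_left (gam_ev _ _) (ev_ne hx) (gam_ev _ _) (ev_ne hy), k1, k2, cc_sub,
      sub_eq_add_neg, neg_z2]
  refine (h2 _ _ _ _ d0 e0).imp (fun t => key n1 n2 t d1 d2 d3) (Or.imp
    (fun t => key n3 n4 t e1 e2 e3) fun t => key (mul_ne_zero n1 n3) (mul_ne_zero n2 n4) t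
      (fun g hg => ⟨hm n1 n3 (d1 g hg).1 (e1 g hg).1, hm n2 n4 (d1 g hg).2 (e1 g hg).2⟩)
      (hm n1 n3 d2 e2) (hm n2 n4 d3 e3))

theorem Fam.rk_one (h : Fam A B D) (T : TD fun i => ev (EE A B D i)) (h2 : SelTwo A B D)
    {s : Gam F} (hs : Fr s (Fintype.card F)) : ∃ p : Gam F → V, ∀ a w, RkA T s a w →
      ∃ (β : ℤ_[2]) (m : V), ∀ g ∈ Geo F, (2 : ℤ_[2]) • a g = β • p g + (T.ro g m - m) := by
  by_cases e : ∃ p v, RkA T s p v ∧ ¬ RkE T s p v
  · obtain ⟨p, v, h3, h4⟩ := e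
    exact ⟨p, fun a w => rk_mult h3 fun a w ha =>
      (h.rk_two T h2 hs ha h3).imp_right fun k => k.resolve_left h4⟩
  · refine ⟨0, fun a w ha => ?_⟩
    obtain ⟨β, m, hm⟩ := rk_mult (ha.sub ha) (fun b u hb => Or.inl (not_not.1 fun k =>
      e ⟨b, u, hb, k⟩)) ha
    exact ⟨β, m, fun g hg => by simpa using hm g hg⟩

variable {W : WeierstrassCurve (RatFunc F)}

open GF

theorem rk_null {c : Gam F → ℕ → Pt W} (hc : IsClass c) {b : ℤ_[2]} (hb : b ≠ 0)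
    (h : IsNull (zsm b c)) : IsNull c := by
  obtain ⟨j, m, hm, h1⟩ := isNull_iff.1 h
  obtain ⟨u, i, hu⟩ : ∃ (u : ℤ_[2]) (i : ℕ), u * b = 2 ^ i :=
    ⟨(PadicInt.unitCoeff hb)⁻¹.1, b.valuation, by
      rw [Units.inv_mul_eq_iff_eq_mul]
      exact PadicInt.unitCoeff_spec hb⟩
  refine isNull_iff.2 ⟨j + i, pe m hm.1 hm.2 u, ⟨by
    rw [pe_eq m hm.1 hm.2 (m := 0) (by simp), zero_smul], pe_two m hm.1 hm.2 u⟩,
    fun g hg => funext fun n => ?_⟩
  have h2 := congrArg (fun P => (red n u).val • P n) (h1 g hg)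
  have h3 := hc.mem g hg
  have h4 : (red n (u * b)).val • c g n = ((red n u).val * (red n b).val) • c g n :=
    val_smul_eq _ h3.1 h3.2 (red_eq.1 (by simp))
  rw [val_smul_eq _ h3.1 h3.2 (m := 2 ^ i) (by simp [hu])] at h4
  simp only [Pi.smul_apply, Pi.sub_apply, act_apply, zsm, smul_sub, ← map_nsmul] at h2 ⊢
  rw [pow_add, mul_smul, h4, mul_smul, smul_comm]
  exact h2

theorem rk_simple (h : Good (Om F) W) : Simple (Om F) W := fun s hs => by
  by_cases e : ∃ c₀ : Gam F → ℕ → Pt W, IsClass c₀ ∧ IsNull (subOne s c₀) ∧ ¬ IsNull c₀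
  · obtain ⟨c₀, h1, h2, h3⟩ := e
    refine ⟨c₀, h1, h2, fun c hc h4 => ?_⟩
    obtain ⟨a, b, h5, h6⟩ := (h s hs).2 c c₀ hc h1 ((h s hs).1 c hc h4) h2
    refine ⟨a, b, fun e => h3 (rk_null h1 (h5.resolve_left fun e' => e' e) ?_), h6⟩
    convert h6
    funext g n
    simp [zsm, e]
  · have h0 : ∀ g : Gam F, act g (0 : ℕ → Pt W) = 0 := fun g => funext fun n => map_zero (pm g)
    have h1 : InTate (0 : ℕ → Pt W) := ⟨rfl, fun n => smul_zero _⟩
    refine ⟨0, ⟨fun _ _ => h1, fun g _ _ _ => by simp [h0], fun n => IsLocallyConstant.const _,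
      fun O _ => ⟨0, 0, h1, fun g _ _ => by simp [h0]⟩⟩,
      ⟨0, 0, h1, fun g _ => by simp [subOne, h0]⟩, fun c hc h2 => ⟨1, 0, one_ne_zero, ?_⟩⟩
    obtain ⟨j, m, h3, h4⟩ := isNull_iff.1
      (not_not.1 fun e' => e ⟨c, hc, (h s hs).1 c hc h2, e'⟩ : IsNull c)
    refine isNull_iff.2 ⟨j, m, h3, fun g hg => ?_⟩
    rw [← h4 g hg]
    funext n
    have h5 := val_smul_eq _ (hc.mem g hg).1 (hc.mem g hg).2 (n := n) (m := 1) (a := 1) (by simp)
    simp only [Pi.smul_apply, Pi.add_apply, zsm, h5, Pi.zero_apply, smul_zero, add_zero, one_smul]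

/-- The descent criterion gives a simple eigenvalue. -/
theorem Fam.rk_final (h : Fam A B D)
    (hSel : ∀ d₁ d₂, IsSel A B D d₁ d₂ → 4 ∣ wt D d₁ d₂ → IsTorsImage A B D d₁ d₂)
    (h2 : SelTwo A B D) : Simple (Om F) (curve A B D) := by
  refine rk_simple fun s hs => ⟨fun c hc => h.final hSel hs hc, fun c₁ c₂ k1 k2 n1 n2 => ?_⟩
  obtain ⟨T, ev', hin, hsurj, hker, hro⟩ := exists_TD h.cub fun g i => gam_ev g _
  have hinj : ∀ x y, ev' x = ev' y → x = y := fun x y e => by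
    rw [← sub_eq_zero]
    exact eq_zero_of_Dv fun n => (hker n _).1 (by rw [map_sub, e, sub_self]; rfl)
  have hpow : ∀ (j : ℕ) x, ev' ((2 : ℤ_[2]) ^ j • x) = 2 ^ j • ev' x := fun j x => by
    rw [← map_nsmul, ← Nat.cast_smul_eq_nsmul ℤ_[2]]
    simp
  have hsm : ∀ (a : ℤ_[2]) x, ev' (a • x) = fun n => (red n a).val • ev' x n := fun a x => by
    funext n
    obtain ⟨z, hz⟩ : (2 : ℤ_[2]) ^ n ∣ a - ((red n a).val : ℕ) := red_eq.1 (by simp)
    have h1 := (hker n ((a - ((red n a).val : ℕ)) • x)).2 (by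
      rw [hz, mul_smul]
      exact smul_mem_Dv _ _)
    rw [sub_smul, map_sub, Nat.cast_smul_eq_nsmul, map_nsmul, Pi.sub_apply, sub_eq_zero] at h1
    exact h1
  obtain ⟨p, hp⟩ := h.rk_one T h2 (s := s) fun c => hs c (kk_alg c)
  have hcl : ∀ c : Gam F → ℕ → Pt (curve A B D), IsClass c → IsNull (subOne s c) →
      ∃ (y : Gam F → V) (j : ℕ) (β : ℤ_[2]) (m : V), ∀ g ∈ Geo F, ev' (y g) = c g ∧
        (2 : ℤ_[2]) ^ j • y g = β • p g + (T.ro g m - m) := by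
    intro c hc hn
    have hy : ∀ g, ∃ x, g ∈ Geo F → ev' x = c g := by
      intro g
      by_cases hg : g ∈ Geo F
      · exact (hsurj _ (hc.mem g hg)).imp fun x hx _ => hx
      · exact ⟨0, fun h => (hg h).elim⟩
    choose y hy using hy
    have hCy : ∀ g ∈ Geo F, ∀ l ∈ Geo F, y (g * l) = y g + T.ro g (y l) := fun g hg l hl =>
      hinj _ _ (by rw [map_add, hro, hy _ (mul_mem hg hl), hy g hg, hy l hl, hc.mul g hg l hl])
    have h1 : y 1 = 0 := by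
      have := hCy 1 (one_mem _) 1 (one_mem _)
      rwa [mul_one, ro_one, left_eq_add] at this
    have hcy : Cy T y := ⟨hCy, fun n =>
      (Near.of_locConst (Geo F) (fun g => c g n) (hc.cont n)).mono fun g hg hg' => (hker n _).1 (by
        rw [hy g hg', hg hg', ← hy 1 (one_mem _), h1, map_zero]
        rfl)⟩
    have hlt : LT T y := fun O x hO => by
      obtain ⟨j, m, hm, h3⟩ := hc.loc O hO.ne_top
      obtain ⟨m, rfl⟩ := hsurj m hm
      exact ⟨j, m, fun g hg => hinj _ _ (by rw [hpow, map_sub, hro, hy g hg.1, h3 g hg.1 hg.2])⟩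
    obtain ⟨j, w, hw, h3⟩ := isNull_iff.1 hn
    obtain ⟨w, rfl⟩ := hsurj w hw
    obtain ⟨β, m, hm⟩ := hp _ w ⟨hcy.smul (2 ^ j), hlt.smul _, fun g hg => by
      have h4 := hinj ((2 : ℤ_[2]) ^ j • (tw T s y g - y g)) (T.ro g w - w) (by
        rw [hpow, map_sub, tw, hro, hy _ (geo_conj hg s), hy g hg, map_sub, hro, ← h3 g hg]
        rfl)
      rw [← h4]
      unfold tw
      rw [map_smul]
      module⟩
    exact ⟨y, j + 1, β, m, fun g hg => ⟨hy g hg, by rw [← hm g hg, pow_succ', mul_smul]⟩⟩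
  obtain ⟨y₁, j₁, β₁, m₁, e1⟩ := hcl c₁ k1 n1
  obtain ⟨y₂, j₂, β₂, m₂, e2⟩ := hcl c₂ k2 n2
  have fin : ∀ (a b : ℤ_[2]) (m : V), (∀ g ∈ Geo F, a • y₁ g + b • y₂ g = T.ro g m - m) →
      IsNull (zsm a c₁ + zsm b c₂) := fun a b m hm => isNull_iff.2 ⟨0, ev' m, hin m, fun g hg => by
    rw [← hro, ← map_sub, ← hm g hg, map_add, hsm, hsm, (e1 g hg).1, (e2 g hg).1, pow_zero, one_smul]
    rfl⟩
  by_cases e : β₁ = 0
  · refine ⟨2 ^ j₁, 0, Or.inl (by simp), fin _ _ m₁ fun g hg => ?_⟩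
    rw [(e1 g hg).2, e, zero_smul, zero_smul, zero_add, add_zero]
  · refine ⟨β₂ * 2 ^ j₁, -(β₁ * 2 ^ j₂), Or.inr (by simp [e]),
      fin _ _ (β₂ • m₁ - β₁ • m₂) fun g hg => ?_⟩
    rw [map_sub, map_smul, map_smul]
    linear_combination (norm := module) β₂ • (e1 g hg).2 - β₁ • (e2 g hg).2

end

end Pool.Agent.Lib.MP_16ef92_ag
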