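import Mathlib
import Pool.Agent.Lib.MP_16ef92_ag.EL.Rk2
import Pool.Agent.Lib.MP_16ef92_ag.Tian

set_option autoImplicit false
set_option linter.unusedSectionVars false
set_option linter.unusedVariables false

namespace Pool.Agent.Lib.MP_16ef92_ag

open Polynomial
open scoped Classical

noncomputable section

section
variable {K G : Type} [Field K] [LinearOrderedCommGroupWithZero G] {v : Valuation K G}
  {D a b d₁ d₂ e₁ e₂ : K}

theorem Tq.rk_ls (h : Tq v D a b d₁ d₂) (h1 : LS v e₁) (h2 : LS v e₂) :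
    Tq v D a b (d₁ * e₁) (d₂ * e₂) := by
  unfold Tq at *
  simp only [mul_right_comm d₁ e₁, mul_right_comm d₂ e₂]
  exact h.imp (And.imp (·.mul h1) (·.mul h2)) (Or.imp (And.imp (·.mul h1) (·.mul h2))
    (Or.imp (And.imp (·.mul h1) (·.mul h2)) (And.imp (·.mul h1) (·.mul h2))))

theorem Tq.rk_mul (hD : v D ≠ 0) (ha : v a ≠ 0) (hb : v b ≠ 0) (hc : v (a - b) ≠ 0)
    (h : Tq v D a b d₁ d₂) (h' : Tq v D a b e₁ e₂) : Tq v D a b (d₁ * e₁) (d₂ * e₂) := by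
  rcases h' with t | t | t | t
  · exact h.rk_ls t.1 t.2
  · refine Tq.dsq (w₁ := a * b) (w₂ := D * a) ?_
    convert (h.t1 hD ha hb hc).rk_ls t.1 t.2 using 1 <;> ring
  · refine Tq.dsq (w₁ := D * a) (w₂ := a * (a - b)) ?_
    convert (h.t2 hD ha hb hc).rk_ls t.1 t.2 using 1 <;> ring
  · refine Tq.dsq (w₁ := D * b) (w₂ := D * (a - b)) ?_
    convert (h.t3 hD ha hb hc).rk_ls t.1 t.2 using 1 <;> ring

end

variable {F : Type} [Field F] [Fintype F] [hq : Fact (Odd (Fintype.card F))] {A B D : F[X]}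

/-- A divisor of `D` times a nonzero square. -/
def SqD (D x : F[X]) : Prop := ∃ e w : F[X], e ∣ D ∧ w ≠ 0 ∧ x = e * w ^ 2

theorem SqD.of {e : F[X]} (h : e ∣ D) : SqD D e := ⟨e, 1, h, one_ne_zero, by ring⟩

theorem SqD.msq {x w : F[X]} (h : SqD D x) (hw : w ≠ 0) : SqD D (x * w ^ 2) := by
  obtain ⟨e, u, h1, h2, rfl⟩ := h
  exact ⟨e, u * w, h1, mul_ne_zero h2 hw, by ring⟩

theorem SqD.mul {x y : F[X]} (h0 : D ≠ 0) (h : SqD D x) (h' : SqD D y) : SqD D (x * y) := by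
  obtain ⟨e, u, h1, h2, rfl⟩ := h
  obtain ⟨f, w, h3, h4, rfl⟩ := h'
  obtain ⟨e', f', k1, k2, k3⟩ := extract_gcd e f
  have g0 : gcd e f ≠ 0 := gcd_ne_zero_of_left (ne_zero_of_dvd_ne_zero h0 h1)
  refine ⟨e' * f', gcd e f * u * w, ((gcd_isUnit_iff _ _).1 k3).mul_dvd
    ((Dvd.intro_left _ k1.symm).trans h1) ((Dvd.intro_left _ k2.symm).trans h3),
    mul_ne_zero (mul_ne_zero g0 h2) h4, ?_⟩
  generalize gcd e f = g at k1 k2
  rw [k1, k2]
  ring

theorem SqD.ne {x : F[X]} (h0 : D ≠ 0) (h : SqD D x) : x ≠ 0 := by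
  obtain ⟨e, u, h1, h2, rfl⟩ := h
  exact mul_ne_zero (ne_zero_of_dvd_ne_zero h0 h1) (pow_ne_zero _ h2)

theorem TF.rk_core (h : TF A B D) {x₁ x₂ : F[X]} (s1 : SqD D x₁) (s2 : SqD D x₂)
    (g1 : Even x₁.natDegree) (g2 : Even x₂.natDegree)
    (hT : ∀ p (hp : Irreducible p), p ∣ D → TP hp A B D x₁ x₂) : IsSquare x₁ ∧ IsSquare x₂ := by
  obtain ⟨e₁, w₁, q1, n1, rfl⟩ := s1
  obtain ⟨e₂, w₂, q2, n2, rfl⟩ := s2
  have z1 := ne_zero_of_dvd_ne_zero h.D0 q1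
  have z2 := ne_zero_of_dvd_ne_zero h.D0 q2
  rw [natDegree_mul z1 (pow_ne_zero _ n1), natDegree_pow, Nat.even_iff] at g1
  rw [natDegree_mul z2 (pow_ne_zero _ n2), natDegree_pow, Nat.even_iff] at g2
  obtain ⟨t1, t2⟩ := h.core q1 q2 (by rw [Nat.even_iff]; omega) (by rw [Nat.even_iff]; omega)
    (fun p hp hd => (h.spl p hp (hd.trans q2)).resolve_right fun h3 => by
      obtain ⟨p₀, i0, d0, o0⟩ := h.odd
      obtain ⟨g, hg⟩ := hd
      have g0 : g ≠ 0 := fun h0 => z2 (by rw [hg, h0, mul_zero])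
      have h4 := natDegree_mul hp.ne_zero g0
      rw [← hg, ← natDegree_eq_of_degree_eq (degree_eq_degree_of_associated
        (i0.associated_of_dvd hp (h3 p₀ i0 d0 o0)))] at h4
      obtain ⟨p₁, i1, d1, o1⟩ := odd_factor g (by
        rw [Nat.odd_iff] at *
        omega)
      have a1 := i1.associated_of_dvd hp (h3 p₁ i1 ((hg ▸ d1.mul_left _).trans q2) o1)
      exact sqf_not h.sD hp (hg ▸ q2) dvd_rfl (a1.symm.dvd.trans d1))
    (fun p hp hD => by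
      have := (tp_iff hp).1 (hT p hp hD)
      simp only [rf, map_mul, map_pow] at this
      exact (tp_iff hp).2 this.dsq)
  exact ⟨t1.mul (IsSquare.sq _), t2.mul (IsSquare.sq _)⟩

/-- The shape of a pair at the places of multiplicative reduction. -/
def RkD (A B D d₁ d₂ : F[X]) (n : ℕ) : Prop :=
  Even d₁.natDegree ∧ Even d₂.natDegree ∧ (∀ p (hp : Irreducible p), p ∣ D → TP hp A B D d₁ d₂) ∧
    ∃ (a b c : ℕ) (e₁ e₂ : F[X]), n = a + b + c ∧ SqD D e₁ ∧ SqD D e₂ ∧ d₁ = A ^ a * B ^ b * e₁ ∧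
      d₂ = A ^ a * (A - B) ^ c * e₂

theorem TF.rk_tp (h : TF A B D) {p : F[X]} (hp : Irreducible p) : vp hp (rf D) ≠ 0 ∧
    vp hp (rf A) ≠ 0 ∧ vp hp (rf B) ≠ 0 ∧ vp hp (rf A - rf B) ≠ 0 :=
  ⟨vp_ne hp h.D0, vp_ne hp h.iA.ne_zero, vp_ne hp h.iB.ne_zero, by
    rw [rf, rf, ← map_sub]
    exact vp_ne hp h.iC.ne_zero⟩

theorem TF.rk_fin (h : TF A B D) {d₁ d₂ : F[X]} {n : ℕ} (hd : RkD A B D d₁ d₂ n) (hn : Even n) :
    IsTorsImage A B D d₁ d₂ := by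
  obtain ⟨g1, g2, hT, a, b, c, e₁, e₂, rfl, s1, s2, k1, k2⟩ := hd
  have hA := h.iA.ne_zero
  have hB := h.iB.ne_zero
  have hC := h.iC.ne_zero
  have hD := h.D0
  have pw : ∀ (y : F[X]) (m : ℕ), y ^ m * y ^ (m % 2) = (y ^ ((m + 1) / 2)) ^ 2 := fun y m => by
    rw [← pow_add, ← pow_mul]
    congr 1
    omega
  have u1 : SqD D (d₁ * (A ^ (a % 2) * B ^ (b % 2))) := by
    convert s1.msq (mul_ne_zero (pow_ne_zero ((a + 1) / 2) hA) (pow_ne_zero ((b + 1) / 2) hB))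
      using 1
    rw [mul_pow, ← pw, ← pw, k1]
    ring
  have u2 : SqD D (d₂ * (A ^ (a % 2) * (A - B) ^ (c % 2))) := by
    convert s2.msq (mul_ne_zero (pow_ne_zero ((a + 1) / 2) hA) (pow_ne_zero ((c + 1) / 2) hC))
      using 1
    rw [mul_pow, ← pw, ← pw, k2]
    ring
  have n1 : d₁ ≠ 0 := left_ne_zero_of_mul (u1.ne hD)
  have n2 : d₂ ≠ 0 := left_ne_zero_of_mul (u2.ne hD)
  have m1 : SqD D D := .of dvd_rfl
  have m2 : SqD D (-D) := .of (neg_dvd.2 dvd_rfl)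
  have par := h.par
  have dB := h.dB
  have dC := h.dC
  rw [Nat.even_iff] at hn g1 g2 par
  rcases Nat.mod_two_eq_zero_or_one a with ea | ea <;> rcases Nat.mod_two_eq_zero_or_one b with
    eb | eb <;> rcases Nat.mod_two_eq_zero_or_one c with ec | ec <;> try omega
  all_goals simp only [ea, eb, ec, pow_zero, pow_one, mul_one, one_mul] at u1 u2
  · exact Or.inl (h.rk_core u1 u2 (Nat.even_iff.2 g1) (Nat.even_iff.2 g2) hT)
  · refine Or.inr (Or.inr (Or.inr (h.rk_core (by convert u1.mul hD m1 using 1; ring)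
      (by convert u2.mul hD m2 using 1; ring) ?_ ?_ fun p hp hp' => ?_)))
    · rw [natDegree_mul n1 (mul_ne_zero hD hB), natDegree_mul hD hB, Nat.even_iff]
      omega
    · rw [natDegree_mul n2 (neg_ne_zero.2 (mul_ne_zero hD hC)), natDegree_neg, natDegree_mul hD hC,
        Nat.even_iff]
      omega
    · obtain ⟨a1, a2, a3, a4⟩ := h.rk_tp hp
      simpa only [tp_iff, rf, map_mul, map_neg, map_sub] using
        ((tp_iff hp).1 (hT p hp hp')).t3 a1 a2 a3 a4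
  · refine Or.inr (Or.inr (Or.inl (h.rk_core (by convert u1.mul hD m1 using 1; ring) u2 ?_ ?_
      fun p hp hp' => ?_)))
    · rw [natDegree_mul n1 (mul_ne_zero hD hA), natDegree_mul hD hA, Nat.even_iff]
      omega
    · rw [natDegree_mul n2 (mul_ne_zero hA hC), natDegree_mul hA hC, Nat.even_iff]
      omega
    · obtain ⟨a1, a2, a3, a4⟩ := h.rk_tp hp
      simpa only [tp_iff, rf, map_mul, map_neg, map_sub] using
        ((tp_iff hp).1 (hT p hp hp')).t2 a1 a2 a3 a4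
  · refine Or.inr (Or.inl (h.rk_core u1 (by convert u2.mul hD m2 using 1; ring) ?_ ?_
      fun p hp hp' => ?_))
    · rw [natDegree_mul n1 (mul_ne_zero hA hB), natDegree_mul hA hB, Nat.even_iff]
      omega
    · rw [natDegree_mul n2 (neg_ne_zero.2 (mul_ne_zero hD hA)), natDegree_neg, natDegree_mul hD hA,
        Nat.even_iff]
      omega
    · obtain ⟨a1, a2, a3, a4⟩ := h.rk_tp hp
      simpa only [tp_iff, rf, map_mul, map_neg, map_sub] using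
        ((tp_iff hp).1 (hT p hp hp')).t1 a1 a2 a3 a4

theorem TF.rk_dec (h : TF A B D) {d₁ d₂ : F[X]} (hS : IsSel A B D d₁ d₂) :
    ∃ n, RkD A B D d₁ d₂ n := by
  obtain ⟨hT, nC, nB, hA⟩ := h.loc hS
  obtain ⟨h1, h2, g1, g2, -⟩ := hS
  have s1 : Squarefree (A * (B * ((A - B) * D))) := by simpa only [mul_assoc] using h.sq
  have s2 : Squarefree (A * ((A - B) * (B * D))) := by
    convert h.sq using 1
    ring
  obtain ⟨a, x₁, ha, k1, m1⟩ := TF.strip h.iA s1 (d := d₁) (by simpa only [mul_assoc] using h1)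
  obtain ⟨b, e₁, hb, rfl, m1'⟩ := TF.strip h.iB s1.of_mul_right m1
  obtain ⟨a', x₂, ha', k2, m2⟩ := TF.strip h.iA s2 (d := d₂) (by convert h2 using 1; ring)
  obtain ⟨c, e₂, hc, rfl, m2'⟩ := TF.strip h.iC s2.of_mul_right m2
  obtain rfl : a = a' := by
    rcases ha with ⟨rfl, ha⟩ | ⟨rfl, ha⟩ <;> rcases ha' with ⟨rfl, ha'⟩ | ⟨rfl, ha'⟩ <;> tauto
  have q1 : e₁ ∣ D := (h.iC.coprime_iff_not_dvd.2 fun h3 => nC
    (k1 ▸ (h3.mul_left _).mul_left _)).symm.dvd_of_dvd_mul_left m1'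
  have q2 : e₂ ∣ D := (h.iB.coprime_iff_not_dvd.2 fun h3 => nB
    (k2 ▸ (h3.mul_left _).mul_left _)).symm.dvd_of_dvd_mul_left m2'
  exact ⟨_, g1, g2, hT, a, b, c, e₁, e₂, rfl, .of q1, .of q2, by rw [k1, mul_assoc],
    by rw [k2, mul_assoc]⟩

theorem TF.rk_prod (h : TF A B D) {d₁ d₂ e₁ e₂ : F[X]} {n m : ℕ} (hd : RkD A B D d₁ d₂ n)
    (he : RkD A B D e₁ e₂ m) : RkD A B D (d₁ * e₁) (d₂ * e₂) (n + m) := by
  obtain ⟨g1, g2, hT, a, b, c, x₁, x₂, rfl, s1, s2, k1, k2⟩ := hd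
  obtain ⟨g1', g2', hT', a', b', c', y₁, y₂, rfl, s1', s2', k1', k2'⟩ := he
  have nz : ∀ {P x : F[X]} (i j : ℕ), P ≠ 0 → SqD D x → A ^ i * P ^ j * x ≠ 0 :=
    fun i j hP hx => mul_ne_zero (mul_ne_zero (pow_ne_zero _ h.iA.ne_zero) (pow_ne_zero _ hP))
      (hx.ne h.D0)
  refine ⟨?_, ?_, fun p hp hD => ?_, a + a', b + b', c + c', x₁ * y₁, x₂ * y₂, by ring,
    s1.mul h.D0 s1', s2.mul h.D0 s2', by rw [k1, k1']; ring, by rw [k2, k2']; ring⟩
  · rw [natDegree_mul (k1 ▸ nz _ _ h.iB.ne_zero s1) (k1' ▸ nz _ _ h.iB.ne_zero s1')]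
    exact g1.add g1'
  · rw [natDegree_mul (k2 ▸ nz _ _ h.iC.ne_zero s2) (k2' ▸ nz _ _ h.iC.ne_zero s2')]
    exact g2.add g2'
  · obtain ⟨a1, a2, a3, a4⟩ := h.rk_tp hp
    simpa only [tp_iff, rf, map_mul] using
      ((tp_iff hp).1 (hT p hp hD)).rk_mul a1 a2 a3 a4 ((tp_iff hp).1 (hT' p hp hD))

/-- In the explicit family the Selmer group modulo torsion has at most two elements. -/
theorem TF.selTwo (h : TF A B D) : SelTwo A B D := fun d₁ d₂ e₁ e₂ hd he => by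
  obtain ⟨n, hn⟩ := h.rk_dec hd
  obtain ⟨m, hm⟩ := h.rk_dec he
  rcases Nat.even_or_odd n with k1 | k1
  · exact Or.inl (h.rk_fin hn k1)
  rcases Nat.even_or_odd m with k2 | k2
  · exact Or.inr (Or.inl (h.rk_fin hm k2))
  exact Or.inr (Or.inr (h.rk_fin (h.rk_prod hn hm) (k1.add_odd k2)))

end

end Pool.Agent.Lib.MP_16ef92_ag
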