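import Mathlib
import Pool.Agent.Lib.MP_16ef92_ag.AL.IDef

set_option autoImplicit false
set_option linter.unusedSectionVars false
set_option linter.unusedVariables false

namespace Pool.Agent.Lib.MP_16ef92_ag.AL

open scoped Classical

noncomputable section

variable {l : ℕ} [hp : Fact l.Prime]

theorem bred_eq {n : ℕ} {a b : ℤ_[l]} :
    PadicInt.toZModPow n a = PadicInt.toZModPow n b ↔ (l : ℤ_[l]) ^ n ∣ a - b := by
  rw [← sub_eq_zero, ← map_sub, ← RingHom.mem_ker, PadicInt.ker_toZModPow,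
    Ideal.mem_span_singleton]

theorem bexists_nat (n : ℕ) (a : ℤ_[l]) : ∃ m : ℕ, (l : ℤ_[l]) ^ n ∣ a - m :=
  ⟨a.appr n, Ideal.mem_span_singleton.1 (PadicInt.appr_spec n a)⟩

variable {F : Type} [Field F] [Clos F] [Fintype F] [hq : Fact (Odd (Fintype.card F))]
  {W : WeierstrassCurve (RatFunc F)} {c d : Gam F → ℕ → Pt W} {s : Gam F} {P Q : ℕ → Pt W}

theorem InT.tors (h : InT l P) (n : ℕ) : l ^ n • P n = 0 := by
  induction n with
  | zero => simpa using h.1
  | succ n ih => rw [pow_succ, mul_smul, h.2, ih]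

theorem InT.val (h : InT l P) {n m : ℕ} {a : ℤ_[l]} (e : (l : ℤ_[l]) ^ n ∣ a - m) :
    (PadicInt.toZModPow n a).val • P n = m • P n := by
  rw [bred_eq.2 e, map_natCast, ZMod.val_natCast]
  conv_rhs => rw [← Nat.mod_add_div m (l ^ n), add_smul, mul_comm, mul_smul, h.tors, smul_zero,
    add_zero]

theorem InT.val_mul (h : InT l P) (n : ℕ) (u v : ℤ_[l]) : (PadicInt.toZModPow n (u * v)).val • P n =
    (PadicInt.toZModPow n u).val • (PadicInt.toZModPow n v).val • P n := by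
  rw [← mul_smul]
  exact h.val (bred_eq.1 (by simp))

theorem InT.val_neg (h : InT l P) (n : ℕ) (u : ℤ_[l]) :
    (PadicInt.toZModPow n (-u)).val • P n = -((PadicInt.toZModPow n u).val • P n) := by
  rw [eq_neg_iff_add_eq_zero, ← add_smul, ← h.val (a := 0) (bred_eq.1 (by simp))]
  simp

theorem InT.zs (h : InT l P) (a : ℤ_[l]) : InT l fun n => (PadicInt.toZModPow n a).val • P n :=
  ⟨by beta_reduce; rw [h.1, smul_zero], fun n => by
    obtain ⟨m, hm⟩ := bexists_nat (n + 1) a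
    beta_reduce
    rw [h.val hm, h.val ((pow_dvd_pow _ n.le_succ).trans hm), smul_comm, h.2]⟩

theorem InT.bact (h : InT l P) (g : Gam F) : InT l (act g P) :=
  ⟨by rw [act_apply, h.1, map_zero], fun n => by rw [act_apply, act_apply, ← map_nsmul, h.2]⟩

theorem bact_sub (g : Gam F) (P Q : ℕ → Pt W) : act g (P - Q) = act g P - act g Q :=
  funext fun n => (pm g).map_sub _ _

theorem bact_nsmul (g : Gam F) (k : ℕ) (P : ℕ → Pt W) : act g (k • P) = k • act g P :=
  funext fun n => (pm g).map_nsmul _ _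

theorem InT.bsub (hP : InT l P) (hQ : InT l Q) : InT l (P - Q) :=
  ⟨by rw [Pi.sub_apply, hP.1, hQ.1, sub_self], fun n => by
    rw [Pi.sub_apply, smul_sub, hP.2, hQ.2, Pi.sub_apply]⟩

theorem InT.bnsmul (hP : InT l P) (k : ℕ) : InT l (k • P) :=
  ⟨by rw [Pi.smul_apply, hP.1, smul_zero], fun n => by
    rw [Pi.smul_apply, smul_comm, hP.2, Pi.smul_apply]⟩

theorem Null.bsub (hc : Null l c) (hd : Null l d) : Null l (c - d) := by
  obtain ⟨j, m, hm, h1⟩ := hc
  obtain ⟨i, n, hn, h2⟩ := hd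
  refine ⟨j + i, l ^ i • m - l ^ j • n, (hm.bnsmul _).bsub (hn.bnsmul _), fun g hg => ?_⟩
  rw [bact_sub, bact_nsmul, bact_nsmul, Pi.sub_apply, pow_add]
  linear_combination (norm := module) l ^ i • h1 g hg - l ^ j • h2 g hg

theorem Null.bsubOne (s : Gam F) (hc : Null l c) : Null l (subOne s c) := by
  obtain ⟨j, m, hm, h1⟩ := hc
  refine ⟨j, act s m - m, (hm.bact s).bsub hm, fun g hg => ?_⟩
  rw [subOne, smul_sub, ← bact_nsmul, h1 g hg, h1 _ (geo_conj hg s), bact_sub, bact_sub, ← act_mul,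
    ← act_mul, show s * (s⁻¹ * g * s) = g * s by group]
  abel

theorem Null.bzs (b : ℤ_[l]) (hc : Null l c) : Null l (zs b c) := by
  obtain ⟨j, m, hm, h1⟩ := hc
  refine ⟨j, _, hm.zs b, fun g hg => funext fun n => ?_⟩
  have h2 := congrArg (fun P => (PadicInt.toZModPow n b).val • P n) (h1 g hg)
  simp only [Pi.smul_apply, Pi.sub_apply, act_apply, zs, smul_sub, ← map_nsmul] at h2 ⊢
  rw [smul_comm]
  exact h2

theorem Null.of_bzs (hc : ∀ g ∈ Geo F, InT l (c g)) {b : ℤ_[l]} (hb : b ≠ 0)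
    (h : Null l (zs b c)) : Null l c := by
  obtain ⟨u, i, hu⟩ : ∃ (u : ℤ_[l]) (i : ℕ), u * b = l ^ i :=
    ⟨(PadicInt.unitCoeff hb)⁻¹.1, b.valuation, by
      rw [Units.inv_mul_eq_iff_eq_mul]
      exact PadicInt.unitCoeff_spec hb⟩
  obtain ⟨j, m, hm, h1⟩ := h.bzs u
  refine ⟨j + i, m, hm, fun g hg => funext fun n => ?_⟩
  have h4 := (hc g hg).val_mul n u b
  rw [(hc g hg).val (m := l ^ i) (by simp [hu])] at h4
  rw [← h1 g hg, Pi.smul_apply, pow_add, mul_smul, h4]
  rfl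

/-- In the simple case the eigenvalue one is semisimple. -/
theorem SimpleL.ss (hS : SimpleL l W s) (hc : Coc l c) (h : Null l (subOne s (subOne s c))) :
    Null l (subOne s c) := by
  obtain ⟨c₀, -, h1, h2⟩ := hS
  obtain ⟨a, b, h3, h4⟩ := h2 c hc h
  refine Null.of_bzs (fun g hg => ((hc.mem _ (geo_conj hg s)).bact s).bsub (hc.mem g hg)) h3 ?_
  have h5 := (h4.bsubOne s).bsub (h1.bzs b)
  rwa [show subOne s (zs a c + zs b c₀) - zs b (subOne s c₀) = zs a (subOne s c) from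
    funext fun g => funext fun n => by
      simp only [subOne, zs, Pi.sub_apply, Pi.add_apply, act_apply, map_add, map_nsmul, smul_sub]
      abel] at h5

theorem Null.comb {c d e : Gam F → ℕ → Pt W} (hc : ∀ g ∈ Geo F, InT l (c g))
    (hd : ∀ g ∈ Geo F, InT l (d g)) {a b a' b' : ℤ_[l]} (h : Null l (zs a c + zs b e))
    (h' : Null l (zs a' d + zs b' e)) : Null l (zs (b' * a) c + zs (-(b * a')) d) := by
  obtain ⟨j, m, h1, h2⟩ := (h.bzs b').bsub (h'.bzs b)
  refine ⟨j, m, h1, fun g hg => (congrArg _ (funext fun n => ?_)).trans (h2 g hg)⟩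
  simp only [zs, Pi.add_apply, Pi.sub_apply, (hd g hg).val_neg, (hc g hg).val_mul,
    (hd g hg).val_mul, smul_add]
  rw [smul_comm (PadicInt.toZModPow n b').val (PadicInt.toZModPow n b).val]
  abel

end

end Pool.Agent.Lib.MP_16ef92_ag.AL
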