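import Mathlib
import Pool.Agent.Lib.MP_16ef92_ag.EL.Top0

set_option autoImplicit false
set_option linter.unusedSectionVars false
set_option linter.unusedVariables false

namespace Pool.Agent.Lib.MP_16ef92_ag.AL

open Polynomial
open scoped Classical

noncomputable section

variable {F : Type} [Field F] [Fintype F] [Clos F] [hq : Fact (Odd (Fintype.card F))]
  {l : ℕ} [hp : Fact l.Prime]
  {W : WeierstrassCurve (RatFunc F)} {s : Gam F} {H : ℕ → Type} [∀ n, AddCommGroup (H n)]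
  {sq : ∀ n, H (n + 1) → H n} {fr : ∀ n, H n → H n} {Cl : ∀ n, H n → (Gam F → Pt W) → Prop}

/-- The relation saturated under coboundaries. -/
def Sat (l : ℕ) (Cl : ∀ n, H n → (Gam F → Pt W) → Prop) (n : ℕ) (x : H n) (c : Gam F → Pt W) : Prop :=
  ∃ c₀ P, Cl n x c₀ ∧ l ^ n • P = 0 ∧ ∀ g ∈ Geo F, c g = c₀ g + (pm g P - P)

theorem Sat.add {n : ℕ} {x : H n} {c d : Gam F → Pt W} (h : Sat l Cl n x c) {Q : Pt W}
    (hQ : l ^ n • Q = 0) (hd : ∀ g ∈ Geo F, d g = c g + (pm g Q - Q)) : Sat l Cl n x d := by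
  obtain ⟨c₀, P, h1, h2, h3⟩ := h
  refine ⟨c₀, P + Q, h1, by rw [smul_add, h2, hQ, add_zero], fun g hg => ?_⟩
  rw [hd g hg, h3 g hg, map_add]
  abel

theorem BIntL.sat (h : BIntL l W s H sq fr Cl) : BIntL l W s H sq fr (Sat l Cl) where
  total n x := (h.total n x).imp fun c hc => ⟨c, 0, hc, smul_zero _, fun g _ => by simp⟩
  tors := by
    rintro n x c ⟨c₀, P, h1, h2, h3⟩ g hg
    rw [h3 g hg, smul_add, h.tors n x c₀ h1 g hg, smul_sub, ← map_nsmul, h2]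
    simp
  mul := by
    rintro n x c ⟨c₀, P, h1, h2, h3⟩ g hg k hk
    rw [h3 _ (mul_mem hg hk), h3 g hg, h3 k hk, h.mul n x c₀ h1 g hg k hk, pm_mul, map_add, map_sub]
    abel
  near := by
    rintro n x c ⟨c₀, P, h1, h2, h3⟩
    refine ((h.near n x c₀ h1).and (near_pm P)).mono fun g hg hg' => ?_
    rw [h3 g hg', hg.1 hg', hg.2]
    simp
  sub := by
    rintro n x c x' c' ⟨c₀, P, h1, h2, h3⟩ ⟨c₁, Q, h4, h5, h6⟩
    refine ⟨c₀ - c₁, P - Q, h.sub _ _ _ _ _ h1 h4, by rw [smul_sub, h2, h5, sub_self],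
      fun g hg => ?_⟩
    rw [Pi.sub_apply, Pi.sub_apply, h3 g hg, h6 g hg, map_sub]
    abel
  zero := by
    rintro n c ⟨c₀, P, h1, h2, h3⟩
    obtain ⟨Q, h4, h5⟩ := h.zero n c₀ h1
    refine ⟨Q + P, by rw [smul_add, h2, h4, add_zero], fun g hg => ?_⟩
    rw [h3 g hg, h5 g hg, map_add]
    abel
  inj := by
    rintro n x c Q ⟨c₀, P, h1, h2, h3⟩ h4 h5
    refine h.inj n x c₀ (Q - P) h1 (by rw [smul_sub, h2, h4, sub_self]) fun g hg => ?_
    rw [eq_sub_of_add_eq (h3 g hg).symm, h5 g hg, map_sub]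
    abel
  sq := by
    rintro n x c ⟨c₀, P, h1, h2, h3⟩
    refine ⟨l • c₀, l • P, h.sq _ _ _ h1, by rw [← mul_smul, ← pow_succ, h2], fun g hg => ?_⟩
    rw [Pi.smul_apply, Pi.smul_apply, h3 g hg, map_nsmul, smul_add, smul_sub]
  act := by
    rintro n x c ⟨c₀, P, h1, h2, h3⟩
    refine ⟨_, pm s P, h.act _ _ _ h1, by rw [← map_nsmul, h2, map_zero], fun g hg => ?_⟩
    beta_reduce
    rw [h3 _ (geo_conj hg s), map_add, map_sub, ← pm_mul, ← pm_mul,
      show s * (s⁻¹ * g * s) = g * s by group]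

theorem BIntL.nsmul (h : BIntL l W s H sq fr Cl) {n : ℕ} {x : H n} {c : Gam F → Pt W}
    (hc : Cl n x c) (k : ℕ) : Cl n (k • x) (k • c) := by
  have h0 : Cl n 0 0 := by simpa using h.sub _ _ _ _ _ hc hc
  induction k with
  | zero => simpa using h0
  | succ k ih =>
    have := h.sub _ _ _ _ _ ih (h.sub _ _ _ _ _ h0 hc)
    rwa [zero_sub, zero_sub, sub_neg_eq_add, sub_neg_eq_add, ← succ_nsmul, ← succ_nsmul] at this

/-- A compatible family of classes has a compatible family of cocycles. -/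
theorem BIntL.lift (h : BIntL l W s H sq fr Cl) (hh : ∀ P : Pt W, ∃ Q, l • Q = P) (x : ∀ n, H n)
    (hx : ∀ n, sq n (x (n + 1)) = x n) : ∃ c : Gam F → ℕ → Pt W,
      (∀ n, Sat l Cl n (x n) fun g => c g n) ∧ ∀ g ∈ Geo F, InT l (c g) := by
  have h' := h.sat
  have step : ∀ n (c : {c // Sat l Cl n (x n) c}), ∃ d : {d // Sat l Cl (n + 1) (x (n + 1)) d},
      ∀ g ∈ Geo F, l • d.1 g = c.1 g := by
    rintro n ⟨c, hc⟩
    obtain ⟨d, hd⟩ := h'.total (n + 1) (x (n + 1))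
    have h1 := h'.sub _ _ _ _ _ hc (hx n ▸ h'.sq _ _ _ hd)
    rw [sub_self] at h1
    obtain ⟨P, h2, h3⟩ := h'.zero _ _ h1
    obtain ⟨Q, rfl⟩ := hh P
    refine ⟨⟨fun g => d g + (pm g Q - Q), hd.add (Q := Q)
      (by rw [pow_succ, mul_smul, h2]) fun g _ => rfl⟩, fun g hg => ?_⟩
    have h4 := h3 g hg
    rw [Pi.sub_apply, Pi.smul_apply, map_nsmul, sub_eq_iff_eq_add] at h4
    change l • (d g + (pm g Q - Q)) = c g
    rw [h4, smul_add, smul_sub, add_comm]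
  choose nx hnx using step
  obtain ⟨c₀, hc₀⟩ := h'.total 0 (x 0)
  let c : ∀ n, {c // Sat l Cl n (x n) c} := fun n => Nat.rec ⟨c₀, hc₀⟩ nx n
  exact ⟨fun g n => (c n).1 g, fun n => (c n).2, fun g hg =>
    ⟨(one_smul ℕ _).symm.trans (h'.tors _ _ _ hc₀ g hg), fun n => hnx n (c n) g hg⟩⟩

/-- Koenig's lemma: a levelwise coboundary is a coboundary. -/
theorem null_of_levels (h2 : {P : Pt W | l • P = 0}.Finite) {d : Gam F → ℕ → Pt W}
    (hd : ∀ g ∈ Geo F, InT l (d g))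
    (h : ∀ n, ∃ P, l ^ n • P = 0 ∧ ∀ g ∈ Geo F, d g n = pm g P - P) :
    ∃ m, InT l m ∧ ∀ g ∈ Geo F, d g = act g m - m := by
  let α : ℕ → Type := fun n => {P : Pt W // l ^ n • P = 0 ∧ ∀ g ∈ Geo F, d g n = pm g P - P}
  have : ∀ n, Nonempty (α n) := fun n => (h n).elim fun P hP => ⟨⟨P, hP⟩⟩
  have : Subsingleton (α 0) := ⟨fun a b => Subtype.ext (by
    rw [show a.1 = 0 by simpa using a.2.1, show b.1 = 0 by simpa using b.2.1])⟩
  have hk : ∀ g ∈ Geo F, ∀ i k, l ^ k • d g (i + k) = d g i := fun g hg i k => by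
    induction k with
    | zero => simp
    | succ k ih => rw [pow_succ, mul_smul, ← add_assoc, (hd g hg).2, ih]
  obtain ⟨f, hf⟩ := exists_seq_forall_proj_of_forall_finite (α := α)
    (fun {i j} hij P => ⟨l ^ (j - i) • P.1, by
      rw [← mul_smul, ← pow_add, Nat.add_sub_cancel' hij, P.2.1], fun g hg => by
      rw [map_nsmul, ← smul_sub, ← P.2.2 g hg, ← hk g hg i (j - i), Nat.add_sub_cancel' hij]⟩)
    (fun i a => Subtype.ext (by simp))
    (fun i j k hij hjk a => Subtype.ext (by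
      change l ^ (j - i) • l ^ (k - j) • a.1 = l ^ (k - i) • a.1
      rw [← mul_smul, ← pow_add, show j - i + (k - j) = k - i by omega]))
    (fun i a => by
      refine Set.Finite.of_finite_image (f := Subtype.val) ?_ Subtype.val_injective.injOn
      refine Classical.byContradiction fun e => e ?_
      obtain ⟨_, b, hb, rfl⟩ := Set.Infinite.nonempty e
      refine (h2.image fun T => b.1 + T).subset ?_
      rintro _ ⟨b', hb', rfl⟩
      have h3 : l ^ (i + 1 - i) • b'.1 = l ^ (i + 1 - i) • b.1 :=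
        congrArg Subtype.val (hb'.trans hb.symm)
      rw [Nat.add_sub_cancel_left, pow_one] at h3
      exact ⟨b'.1 - b.1, by rw [Set.mem_setOf_eq, smul_sub, h3, sub_self], by simp⟩)
  refine ⟨fun n => (f n).1, ⟨by simpa using (f 0).2.1, fun n => ?_⟩,
    fun g hg => funext fun n => (f n).2.2 g hg⟩
  have h3 : l ^ (n + 1 - n) • (f (n + 1)).1 = (f n).1 := congrArg Subtype.val (hf (Nat.le_succ n))
  rwa [Nat.add_sub_cancel_left, pow_one] at h3

theorem BIntL.add (h : BIntL l W s H sq fr Cl) {n : ℕ} {x y : H n} {c d : Gam F → Pt W}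
    (hc : Cl n x c) (hd : Cl n y d) : Cl n (x + y) (c + d) := by
  have := h.sub _ _ _ _ _ hc (h.sub _ _ _ _ _ (h.nsmul hd 0) hd)
  rwa [zero_smul, zero_smul, zero_sub, zero_sub, sub_neg_eq_add, sub_neg_eq_add] at this

theorem BIntL.tors_of_null (h : BIntL l W s H sq fr Cl) {y : ∀ n, H n} {d : Gam F → ℕ → Pt W}
    (hd : ∀ n, Cl n (y n) fun g => d g n) (h0 : Null l d) : ∃ i : ℕ, l ^ i • y = 0 := by
  obtain ⟨i, m, h8, h9⟩ := h0
  exact ⟨i, funext fun n => h.inj n _ _ (m n) (h.nsmul (hd n) (l ^ i)) (h8.tors n)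
    fun g hg => congrFun (h9 g hg) n⟩

/-- The operator `fr - 1` on families. -/
def frS (fr : ∀ n, H n → H n) (x : ∀ n, H n) : ∀ n, H n := fun n => fr n (x n) - x n

theorem BIntL.cls (h : BIntL l W s H sq fr Cl) (hh : ∀ P : Pt W, ∃ Q, l • Q = P)
    (hf : {P : Pt W | l • P = 0}.Finite) {x : ∀ n, H n} (hx : ∀ n, sq n (x (n + 1)) = x n)
    (h0 : ∃ j : ℕ, l ^ j • frS fr (frS fr x) = 0) : ∃ c : Gam F → ℕ → Pt W,
      (∀ n, Sat l Cl n (x n) fun g => c g n) ∧ Coc l c ∧ Null l (subOne s (subOne s c)) := by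
  have h' := h.sat
  obtain ⟨j, h0⟩ := h0
  obtain ⟨c, h1, h2⟩ := h.lift hh x hx
  have h3 : ∀ n, Sat l Cl n (frS fr x n) fun g => subOne s c g n := fun n =>
    h'.sub _ _ _ _ _ (h'.act _ _ _ (h1 n)) (h1 n)
  have h4 : ∀ n, Sat l Cl n (frS fr (frS fr x) n) fun g => subOne s (subOne s c) g n := fun n =>
    h'.sub _ _ _ _ _ (h'.act _ _ _ (h3 n)) (h3 n)
  have h5 : ∀ d : Gam F → ℕ → Pt W, (∀ g ∈ Geo F, InT l (d g)) →
      ∀ g ∈ Geo F, InT l (subOne s d g) := fun d hd g hg =>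
    ((hd _ (geo_conj hg s)).bact s).bsub (hd g hg)
  exact ⟨c, h1, ⟨h2, fun g hg k hk => funext fun n => h'.mul _ _ _ (h1 n) g hg k hk,
    fun n => h'.near _ _ _ (h1 n)⟩, j, null_of_levels
      (d := fun g => l ^ j • subOne s (subOne s c) g) hf
      (fun g hg => (h5 _ (h5 _ h2) g hg).bnsmul _) fun n => h'.zero n _
        ((show l ^ j • frS fr (frS fr x) n = 0 from congrFun h0 n) ▸ h'.nsmul (h4 n) (l ^ j) :)⟩

/-- Simplicity passes from Galois cocycles to the abstract cohomology groups. -/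
theorem BIntL.simple (h : BIntL l W s H sq fr Cl) (hh : ∀ P : Pt W, ∃ Q, l • Q = P)
    (hf : {P : Pt W | l • P = 0}.Finite) (hS : SimpleL l W s) :
    ∃ x₀ : ∀ n, H n, (∀ n, sq n (x₀ (n + 1)) = x₀ n) ∧ (∃ j : ℕ, l ^ j • frS fr x₀ = 0) ∧
      ∀ x : ∀ n, H n, (∀ n, sq n (x (n + 1)) = x n) → (∃ j : ℕ, l ^ j • frS fr (frS fr x) = 0) →
        ∃ a b : ℤ_[l], a ≠ 0 ∧ ∃ j : ℕ,
          l ^ j • ((fun n => (PadicInt.toZModPow n a).val • x n) + fun n => (PadicInt.toZModPow n b).val • x₀ n) = 0 := by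
  have h' := h.sat
  by_cases e : ∃ x₀ : ∀ n, H n, (∀ n, sq n (x₀ (n + 1)) = x₀ n) ∧
    (∃ j : ℕ, l ^ j • frS fr (frS fr x₀) = 0) ∧ ¬ ∃ j : ℕ, l ^ j • x₀ = 0
  · obtain ⟨x₀, h1, h2, h3⟩ := e
    obtain ⟨d, d1, d2, d3⟩ := h.cls hh hf h1 h2
    have h0 := hS.ss d2 d3
    obtain ⟨c₀, -, -, h4⟩ := hS
    obtain ⟨a', b', h5, h6⟩ := h4 d d2 d3
    refine ⟨x₀, h1, h'.tors_of_null (d := subOne s d)
      (fun n => h'.sub _ _ _ _ _ (h'.act _ _ _ (d1 n)) (d1 n)) h0,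
      fun x hx h7 => ?_⟩
    obtain ⟨c, c1, c2, c3⟩ := h.cls hh hf hx h7
    obtain ⟨a, b, h8, h9⟩ := h4 c c2 c3
    refine ⟨b' * a, -(b * a'), mul_ne_zero (fun e => h3 (h'.tors_of_null d1
      (Null.of_bzs d2.mem h5 ?_))) h8, h'.tors_of_null
      (fun n => h'.add (h'.nsmul (c1 n) _) (h'.nsmul (d1 n) _)) (Null.comb c2.mem d2.mem h9 h6)⟩
    convert h6
    funext g n
    simp [zs, e]
  · have h0 : ∀ n, Cl n 0 0 := fun n => (h.total n 0).elim fun c hc => by simpa using h.nsmul hc 0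
    refine ⟨0, fun n => h.inj n _ _ 0 (h.sq _ _ _ (h0 (n + 1))) (smul_zero _) fun g _ => by simp,
      ⟨0, funext fun n => ?_⟩, fun x hx h1 => ⟨1, 0, one_ne_zero, ?_⟩⟩
    · simpa [frS] using h.inj n _ _ 0 (h.act _ _ _ (h0 n)) (smul_zero _) fun g _ => by simp
    · obtain ⟨j, hj⟩ := not_not.1 fun e' => e ⟨x, hx, h1, e'⟩
      refine ⟨j, funext fun n => ?_⟩
      have : l ^ j • x n = 0 := congrFun hj n
      simp only [Pi.smul_apply, Pi.add_apply, Pi.zero_apply, smul_zero, add_zero]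
      rw [smul_comm, this, smul_zero]

end

end Pool.Agent.Lib.MP_16ef92_ag.AL
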