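import Mathlib
import Pool.Agent.Lib.MP_16ef92_ag.EL.Top1
import Pool.Agent.Lib.MP_16ef92_ag.EL.Br
import Pool.Agent.Lib.MP_16ef92_ag.ET.Smo
import Pool.Agent.Lib.MP_16ef92_ag.GF.Top

set_option autoImplicit false
set_option linter.unusedSectionVars false
set_option linter.unusedVariables false

namespace Pool.Agent.Lib.MP_16ef92_ag.EL

open ET Polynomial Filter GF AlgebraicGeometry
open scoped Classical

noncomputable section

variable {F : Type} [Field F] [Fintype F]

theorem simpleOn_of [Clos F] [hq : Fact (Odd (Fintype.card F))] {A B D : F[X]}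
    (h0 : A * B * (A - B) * D ≠ 0) (l : ℕ) [hp : Fact l.Prime] (hl : (l : F) ≠ 0)
    (hS : ∀ s, Fr s (Fintype.card F) → AL.SimpleL l (curve A B D) s) :
    SimpleOn l (frob F (surf A B D)) := by
  obtain ⟨s, hs, Cl, h⟩ := bridgeL h0 l hl
  have hf : Finite {P : Pt (curve A B D) // l • P = 0} := Nat.finite_of_card_ne_zero (by
    rw [AL.card_tors h0 hl]
    exact pow_ne_zero _ hp.out.ne_zero)
  have := h.simple (AL.pt_div h0 hl) hf (hS s hs)
  exact this

/-- Almost all admissible twists have a simple eigenvalue one on etale cohomology for every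
prime, given the transfer of simplicity from the prime two. -/
theorem final_of (hq : Odd (Fintype.card F)) {A B : F[X]} (hsq : Squarefree (A * B * (A - B)))
    (hA : 0 < A.natDegree) (hB : B.natDegree = A.natDegree)
    (hC : (A - B).natDegree = A.natDegree)
    (hN : ∀ [Clos F] [Fact (Odd (Fintype.card F))] (D : F[X]), Fam0 A B D →
      Simple (Om F) (curve A B D) → ∀ (l : ℕ) [Fact l.Prime], (l : F) ≠ 0 →
        ∀ s, Fr s (Fintype.card F) → AL.SimpleL l (curve A B D) s) :
    Tendsto (fun d : ℕ => (({D : F[X] | D.natDegree = d ∧ Squarefree (A * B * (A - B) * D) ∧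
      SmoothOfRelativeDimension 2 (Spec.map (CommRingCat.ofHom (algebraMap F (surf A B D)))) ∧
      ∀ (l : ℕ) [Fact l.Prime], (l : F) ≠ 0 → SimpleOn l (frob F (surf A B D))}.ncard : ℝ)) /
      ({D : F[X] | D.natDegree = d ∧ Squarefree (A * B * (A - B) * D)}.ncard : ℝ))
      atTop (nhds 1) := by
  have : Fact (Odd (Fintype.card F)) := ⟨hq⟩
  let L := separableClosure (RatFunc F) (AlgebraicClosure (RatFunc F))
  letI : Clos F := ⟨L, inferInstance, inferInstance, inferInstance, inferInstance, inferInstance,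
    inferInstance⟩
  refine tendsto_of_tendsto_of_tendsto_of_le_of_le (final hsq hA hB hC) tendsto_const_nhds
    (fun d => div_le_div_of_nonneg_right (Nat.cast_le.2 (Set.ncard_le_ncard (fun D hD =>
      ⟨hD.1, hD.2.1, surf_smooth two_neF A B D, fun l _ hl => simpleOn_of hD.2.1.ne_zero l hl
        (hN D ⟨hD.2.1, hB, hC, hA⟩ hD.2.2 l hl)⟩)
      ((finite_deg d).subset fun D hD => hD.1))) (Nat.cast_nonneg _))
    fun d => div_le_one_of_le₀ (Nat.cast_le.2 (Set.ncard_le_ncard (fun D hD => ⟨hD.1, hD.2.1⟩)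
      ((finite_deg d).subset fun D hD => hD.1))) (Nat.cast_nonneg _)

end

end Pool.Agent.Lib.MP_16ef92_ag.EL
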