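import Mathlib
import Pool.Agent.Lib.MP_16ef92_ag.EL.Top2
import Pool.Agent.Lib.MP_16ef92_ag.EL.Rk3
import Pool.Agent.Lib.MP_16ef92_ag.AL.NMain

set_option autoImplicit false
set_option linter.unusedSectionVars false
set_option linter.unusedVariables false

namespace Pool.Agent.Lib.MP_16ef92_ag.EL

open ET Polynomial GF AlgebraicGeometry
open scoped Classical

/-- The two-descent criterion on etale cohomology, for every prime. -/
theorem all_of_sel {F : Type} [Field F] [Fintype F] (hq : Odd (Fintype.card F)) {A B D : F[X]}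
    (hsq : Squarefree (A * B * (A - B) * D)) (hA : 0 < A.natDegree)
    (hB : B.natDegree = A.natDegree) (hC : (A - B).natDegree = A.natDegree)
    (hD : Even (A.natDegree + D.natDegree))
    (hSel : ∀ d₁ d₂ : F[X], IsSel A B D d₁ d₂ → 4 ∣ wt D d₁ d₂ → IsTorsImage A B D d₁ d₂)
    (h2 : SelTwo A B D) :
    SmoothOfRelativeDimension 2 (Spec.map (CommRingCat.ofHom (algebraMap F (surf A B D)))) ∧
      ∀ (l : ℕ) [Fact l.Prime], (l : F) ≠ 0 → SimpleOn l (frob F (surf A B D)) := by
  have : Fact (Odd (Fintype.card F)) := ⟨hq⟩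
  let L := separableClosure (RatFunc F) (AlgebraicClosure (RatFunc F))
  letI : Clos F := ⟨L, inferInstance, inferInstance, inferInstance, inferInstance, inferInstance,
    inferInstance⟩
  exact ⟨surf_smooth two_neF A B D, fun l _ hl => simpleOn_of hsq.ne_zero l hl
    (AL.simpleL_of ⟨hsq, hB, hC, hA⟩ (Fam.rk_final ⟨hsq, hB, hC, hD⟩ hSel h2) l hl)⟩

end Pool.Agent.Lib.MP_16ef92_ag.EL
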